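import Pool.Agent.Helper575.Germ.Glue

open scoped RealInnerProductSpace Topology ContDiff
open MeasureTheory Metric

namespace H575Germ

theorem pd_pd_eq_T {F : Type*} [NormedAddCommGroup F] [NormedSpace ℝ F] (i j : Fin 2)
    (h : E2 → F) : pd i (pd j h) = T 0 i j h := rfl

/-- the determinants of the second fundamental forms at a point agree -/
theorem det_eq_of_metric (f g : E2 → E3) (hf : ContDiff ℝ 2 f) (hg : ContDiff ℝ 2 g) (p : E2)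
    (r : ℝ) (hr : 0 < r)
    (hmet : ∀ x ∈ ball p r, ∀ i j, ⟪pd i f x, pd j f x⟫ = ⟪pd i g x, pd j g x⟫)
    (himm : LinearIndependent ℝ ![pd 0 f p, pd 1 f p])
    (Nf Ng : E3) (hNf : ‖Nf‖ = 1) (hNg : ‖Ng‖ = 1)
    (hNf' : ∀ i, ⟪pd i f p, Nf⟫ = 0) (hNg' : ∀ i, ⟪pd i g p, Ng⟫ = 0) :
    ⟪pd 0 (pd 0 f) p, Nf⟫ * ⟪pd 1 (pd 1 f) p, Nf⟫ - ⟪pd 0 (pd 1 f) p, Nf⟫ ^ 2 =
      ⟪pd 0 (pd 0 g) p, Ng⟫ * ⟪pd 1 (pd 1 g) p, Ng⟫ - ⟪pd 0 (pd 1 g) p, Ng⟫ ^ 2 := by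
  have hp : p ∈ ball p r := mem_ball_self hr
  have hG := gauss_C2 f g hf hg p r hmet p hp
  have hC := christoffel f g hf hg p r hmet p hp
  have hM := hmet p hp
  have e1 := tangential_inner (pd 0 f p) (pd 1 f p) Nf (pd 0 g p) (pd 1 g p) Ng
    (pd 0 (pd 0 f) p) (pd 1 (pd 1 f) p) (pd 0 (pd 0 g) p) (pd 1 (pd 1 g) p)
    hNf hNg (hNf' 0) (hNf' 1) (hNg' 0) (hNg' 1) himm (hM 0 0) (hM 0 1) (hM 1 1)
    (hC 0 0 0) (hC 0 0 1) (hC 1 1 0) (hC 1 1 1)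
  have e2 := tangential_inner (pd 0 f p) (pd 1 f p) Nf (pd 0 g p) (pd 1 g p) Ng
    (pd 0 (pd 1 f) p) (pd 0 (pd 1 f) p) (pd 0 (pd 1 g) p) (pd 0 (pd 1 g) p)
    hNf hNg (hNf' 0) (hNf' 1) (hNg' 0) (hNg' 1) himm (hM 0 0) (hM 0 1) (hM 1 1)
    (hC 0 1 0) (hC 0 1 1) (hC 0 1 0) (hC 0 1 1)
  linarith

theorem gram_of_sff (f g : E2 → E3) (hf : ContDiff ℝ 2 f) (hg : ContDiff ℝ 2 g) (p : E2)
    (r : ℝ) (hr : 0 < r)
    (hmet : ∀ x ∈ ball p r, ∀ i j, ⟪pd i f x, pd j f x⟫ = ⟪pd i g x, pd j g x⟫)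
    (himm : LinearIndependent ℝ ![pd 0 f p, pd 1 f p])
    (Nf Ng : E3) (hNf : ‖Nf‖ = 1) (hNg : ‖Ng‖ = 1)
    (hNf' : ∀ i, ⟪pd i f p, Nf⟫ = 0) (hNg' : ∀ i, ⟪pd i g p, Ng⟫ = 0) (σ : ℝ) (hσ : σ ^ 2 = 1)
    (h : ∀ i j, ⟪pd i (pd j f) p, Nf⟫ = σ * ⟪pd i (pd j g) p, Ng⟫) :
    ∀ i j k l, ⟪pd i (pd j f) p, pd k (pd l f) p⟫ = ⟪pd i (pd j g) p, pd k (pd l g) p⟫ := by
  intro i j k l
  have hp : p ∈ ball p r := mem_ball_self hr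
  have hC := christoffel f g hf hg p r hmet p hp
  have hM := hmet p hp
  have e1 := tangential_inner (pd 0 f p) (pd 1 f p) Nf (pd 0 g p) (pd 1 g p) Ng
    (pd i (pd j f) p) (pd k (pd l f) p) (pd i (pd j g) p) (pd k (pd l g) p)
    hNf hNg (hNf' 0) (hNf' 1) (hNg' 0) (hNg' 1) himm (hM 0 0) (hM 0 1) (hM 1 1)
    (hC i j 0) (hC i j 1) (hC k l 0) (hC k l 1)
  rw [h i j, h k l] at e1
  have : σ * ⟪pd i (pd j g) p, Ng⟫ * (σ * ⟪pd k (pd l g) p, Ng⟫) =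
      ⟪pd i (pd j g) p, Ng⟫ * ⟪pd k (pd l g) p, Ng⟫ := by
    calc σ * ⟪pd i (pd j g) p, Ng⟫ * (σ * ⟪pd k (pd l g) p, Ng⟫)
        = σ ^ 2 * (⟪pd i (pd j g) p, Ng⟫ * ⟪pd k (pd l g) p, Ng⟫) := by ring
      _ = _ := by rw [hσ, one_mul]
  linarith

theorem graph_imm (u : E2 → ℝ) (hu : ContDiff ℝ 2 u) (p : E2) :
    LinearIndependent ℝ ![pd 0 (graph u) p, pd 1 (graph u) p] := by
  obtain ⟨h0, h1⟩ := pd_graph u (hu.of_le (by norm_num)) p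
  rw [h0, h1, LinearIndependent.pair_iff]
  intro s t hst
  have a0 := congrArg (fun v : E3 => v 0) hst
  have a1 := congrArg (fun v : E3 => v 1) hst
  simp at a0 a1
  exact ⟨a0, a1⟩

theorem graph_frame (u : E2 → ℝ) (hu : ContDiff ℝ 2 u) (p : E2) (h : pd 0 (pd 0 u) p ≠ 0) :
    LinearIndependent ℝ ![pd 0 (graph u) p, pd 1 (graph u) p, pd 0 (pd 0 (graph u)) p] := by
  obtain ⟨h0, h1⟩ := pd_graph u (hu.of_le (by norm_num)) p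
  have h2 : pd 0 (pd 0 (graph u)) p = !₂[0, 0, pd 0 (pd 0 u) p] :=
    T_graph 0 u (by simpa using hu) 0 0 p
  rw [h0, h1, h2, Fintype.linearIndependent_iff]
  intro c hc
  have a0 := congrArg (fun v : E3 => v 0) hc
  have a1 := congrArg (fun v : E3 => v 1) hc
  have a2 := congrArg (fun v : E3 => v 2) hc
  simp [Fin.sum_univ_three] at a0 a1 a2
  rw [a0, a1] at a2
  simp [h] at a2
  intro i
  fin_cases i
  · exact a0
  · exact a1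
  · exact a2

theorem graph_inner (u : E2 → ℝ) (n : ℕ) (hu : ContDiff ℝ (n + 2 : ℕ) u) (N : E3) (i j : Fin 2)
    (x : E2) : ⟪T n i j (graph u) x, N⟫ = N 2 * T n i j u x := by
  rw [T_graph n u hu i j x]
  simp [PiLp.inner_apply, Fin.sum_univ_three]

theorem graph_normal_ne (u : E2 → ℝ) (hu : ContDiff ℝ 2 u) (p : E2) (N : E3) (hN : ‖N‖ = 1)
    (hN' : ∀ i, ⟪pd i (graph u) p, N⟫ = 0) : N 2 ≠ 0 := by
  intro h
  obtain ⟨h0, h1⟩ := pd_graph u (hu.of_le (by norm_num)) p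
  have a0 := hN' 0
  have a1 := hN' 1
  rw [h0] at a0
  rw [h1] at a1
  simp [PiLp.inner_apply, Fin.sum_univ_three, h] at a0 a1
  have : N = 0 := by
    ext i
    fin_cases i
    · simpa using a0
    · simpa using a1
    · simpa using h
  rw [this] at hN
  simp at hN

end H575Germ
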