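import Mathlib

/-! Surfaces germs determined by their metric (MP_92a224_gt): shared definitions. -/

open scoped RealInnerProductSpace Topology ContDiff
open MeasureTheory Metric

namespace H575Germ

/-- the Euclidean plane -/
abbrev E2 := EuclideanSpace ℝ (Fin 2)
/-- Euclidean 3-space -/
abbrev E3 := EuclideanSpace ℝ (Fin 3)

/-- partial derivative in the `i`-th coordinate direction -/
noncomputable def pd {F : Type*} [NormedAddCommGroup F] [NormedSpace ℝ F]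
    (i : Fin 2) (h : E2 → F) : E2 → F :=
  fun x => fderiv ℝ h x (EuclideanSpace.single i 1)

/-- `T n i j h = ∂_i ∂_j ∂_0^n h` -/
noncomputable def T {F : Type*} [NormedAddCommGroup F] [NormedSpace ℝ F]
    (n : ℕ) (i j : Fin 2) (h : E2 → F) : E2 → F :=
  pd i (pd j ((pd 0)^[n] h))

/-- the block sum `2^{-m} ∑_{2^m ≤ i < 2^{m+1}} β(2^i x)` -/
noncomputable def blk (m : ℕ) (β : E2 → ℝ) (x : E2) : ℝ :=
  ((2:ℝ) ^ m)⁻¹ * ∑ i ∈ Finset.Ico (2 ^ m) (2 ^ (m + 1)), β (((2:ℝ) ^ i) • x)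

/-- the annulus `A_m` in which only the `m`-th block is active -/
def Ann (m : ℕ) (x : E2) : Prop :=
  (3 / 2) * ((2:ℝ) ^ (2 ^ (m + 1)))⁻¹ ≤ ‖x‖ ∧ ‖x‖ ≤ 2 * ((2:ℝ) ^ (2 ^ m))⁻¹

/-- the graph immersion `x ↦ (x₀, x₁, u x)` -/
noncomputable def graph (u : E2 → ℝ) : E2 → E3 := fun x => !₂[x 0, x 1, u x]

end H575Germ
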