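import Pool.Agent.Helper575.Germ.Quad

open scoped RealInnerProductSpace Topology ContDiff
open MeasureTheory Metric Filter

namespace H575Germ

/-- for every `n` there is a height function of class `C^{n+2}` whose graph is determined by its
metric on every ball around the origin -/
theorem main_core (n : ℕ) : ∃ u : E2 → ℝ, ContDiff ℝ (n + 2 : ℕ) u ∧
    ∀ g : E2 → E3, ContDiff ℝ (n + 2 : ℕ) g → ∀ r : ℝ, 0 < r →
      (∀ x ∈ ball (0:E2) r, ∀ i j,
        ⟪pd i (graph u) x, pd j (graph u) x⟫ = ⟪pd i g x, pd j g x⟫) →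
      ∃ A : E3 ≃ᵢ E3, ∀ x ∈ ball (0:E2) r, g x = A (graph u x) := by
  obtain ⟨Z, hZ, hZs, hprof⟩ := exists_profile n
  obtain ⟨u, hu', hconv, D, hD, hfeat⟩ := exists_height n Z hZ hZs
  have hu : ContDiff ℝ (n + 2 : ℕ) u := by exact_mod_cast hu'
  refine ⟨u, hu, fun g hg r hr hmet => ?_⟩
  have h2n : ((2 : ℕ) : WithTop ℕ∞) ≤ ((n + 2 : ℕ) : WithTop ℕ∞) := by
    exact_mod_cast (by omega : 2 ≤ n + 2)
  have hu2 : ContDiff ℝ 2 u := hu.of_le h2n
  have hg2 : ContDiff ℝ 2 g := hg.of_le h2n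
  have hf : ContDiff ℝ (n + 2 : ℕ) (graph u) := contDiff_graph (n + 2) u hu
  have hf2 : ContDiff ℝ 2 (graph u) := hf.of_le h2n
  -- equality of the Gram matrices of the second derivatives at the points of `D`
  have hptw : ∀ p ∈ D ∩ ball (0:E2) r, ∀ i j k l,
      ⟪pd i (pd j (graph u)) p, pd k (pd l (graph u)) p⟫ =
        ⟪pd i (pd j g) p, pd k (pd l g) p⟫ := by
    rintro p ⟨hpD, hpr⟩
    -- a small ball around `p`
    obtain ⟨r1, hr1, hsub⟩ := Metric.isOpen_iff.1 isOpen_ball p hpr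
    have hmet1 : ∀ x ∈ ball p r1, ∀ i j,
        ⟪pd i (graph u) x, pd j (graph u) x⟫ = ⟪pd i g x, pd j g x⟫ := fun x hx =>
      hmet x (hsub hx)
    obtain ⟨Nf, hNf, hNf0, hNf1⟩ := exists_normal (pd 0 (graph u) p) (pd 1 (graph u) p)
    obtain ⟨Ng, hNg, hNg0, hNg1⟩ := exists_normal (pd 0 g p) (pd 1 g p)
    have hNf' : ∀ i, ⟪pd i (graph u) p, Nf⟫ = 0 := by
      intro i; fin_cases i
      · exact hNf0
      · exact hNf1
    have hNg' : ∀ i, ⟪pd i g p, Ng⟫ = 0 := by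
      intro i; fin_cases i
      · exact hNg0
      · exact hNg1
    have himm := graph_imm u hu2 p
    have hF : Feat n Z u p := hfeat p hpD
    have hσ : ∃ σ : ℝ, σ ^ 2 = 1 ∧
        ∀ i j, ⟪pd i (pd j (graph u)) p, Nf⟫ = σ * ⟪pd i (pd j g) p, Ng⟫ := by
      rcases Nat.eq_zero_or_pos n with h0 | h0
      · subst h0
        exact core_quadratic Z hZ hZs hprof u hu p hF (hconv p).2 g hg r1 hr1 hmet1 Nf Ng hNf hNg
          hNf' hNg'
      · exact core_linear n h0 Z hZ hZs hprof u hu p hF (hconv p).2 g hg r1 hr1 hmet1 Nf Ng hNf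
          hNg hNf' hNg'
    obtain ⟨σ, hσ1, hσ2⟩ := hσ
    exact gram_of_sff (graph u) g hf2 hg2 p r1 hr1 hmet1 himm Nf Ng hNf hNg hNf' hNg' σ hσ1 hσ2
  -- continuity
  have hpp : ∀ (h : E2 → E3), ContDiff ℝ 2 h → ∀ i j, Continuous (pd i (pd j h)) := by
    intro h hh i j
    have h1 := contDiff_pd 1 j h (by exact_mod_cast hh)
    have h2 := contDiff_pd 0 i (pd j h) (by exact_mod_cast h1)
    exact h2.continuous
  have hall : ∀ x ∈ ball (0:E2) r, ∀ i j k l,
      ⟪pd i (pd j (graph u)) x, pd k (pd l (graph u)) x⟫ =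
        ⟪pd i (pd j g) x, pd k (pd l g) x⟫ := by
    intro x hx i j k l
    have hcl : IsClosed {y : E2 | ⟪pd i (pd j (graph u)) y, pd k (pd l (graph u)) y⟫ =
        ⟪pd i (pd j g) y, pd k (pd l g) y⟫} :=
      isClosed_eq ((hpp _ hf2 i j).inner (hpp _ hf2 k l)) ((hpp _ hg2 i j).inner (hpp _ hg2 k l))
    have hsub : D ∩ ball (0:E2) r ⊆ {y : E2 |
        ⟪pd i (pd j (graph u)) y, pd k (pd l (graph u)) y⟫ =
        ⟪pd i (pd j g) y, pd k (pd l g) y⟫} := fun p hp => hptw p hp i j k l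
    have hclos : x ∈ closure (D ∩ ball (0:E2) r) := by
      rw [Set.inter_comm]
      exact hD.open_subset_closure_inter isOpen_ball hx
    exact closure_minimal hsub hcl hclos
  exact fundamental (graph u) g hf2 hg2 r hr hmet (christoffel (graph u) g hf2 hg2 0 r hmet) hall
    (fun x _ => graph_frame u hu2 x (hconv x).1.ne')

end H575Germ
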