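import Pool.Agent.Helper575.Germ.Defs

open scoped RealInnerProductSpace Topology ContDiff
open MeasureTheory Metric

namespace H575Germ
namespace J10077


theorem gram_pos (a0 a1 : E3) (hli : LinearIndependent ℝ ![a0, a1]) :
    0 < ⟪a0, a0⟫ * ⟪a1, a1⟫ - ⟪a0, a1⟫ ^ 2 := by
  rw [LinearIndependent.pair_iff] at hli
  have h0 : a0 ≠ 0 := by
    intro h
    have := hli 1 0 (by rw [h]; simp)
    exact one_ne_zero this.1
  have hpos : 0 < ⟪a0, a0⟫ := real_inner_self_pos.mpr h0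
  have hu : (-⟪a0, a1⟫) • a0 + ⟪a0, a0⟫ • a1 ≠ 0 := by
    intro h
    have := hli _ _ h
    exact hpos.ne' this.2
  have h1 := real_inner_self_pos.mpr hu
  have h2 : ⟪(-⟪a0, a1⟫) • a0 + ⟪a0, a0⟫ • a1, (-⟪a0, a1⟫) • a0 + ⟪a0, a0⟫ • a1⟫ =
      ⟪a0, a0⟫ * (⟪a0, a0⟫ * ⟪a1, a1⟫ - ⟪a0, a1⟫ ^ 2) := by
    simp only [inner_add_left, inner_add_right, real_inner_smul_left, real_inner_smul_right]
    rw [real_inner_comm a1 a0]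
    ring
  rw [h2] at h1
  exact (mul_pos_iff_of_pos_left hpos).mp h1

theorem orth_zero (a0 a1 N u : E3) (hN : ‖N‖ = 1) (hN0 : ⟪a0, N⟫ = 0) (hN1 : ⟪a1, N⟫ = 0)
    (hli : LinearIndependent ℝ ![a0, a1]) (h0 : ⟪u, a0⟫ = 0) (h1 : ⟪u, a1⟫ = 0)
    (h2 : ⟪u, N⟫ = 0) : u = 0 := by
  have hNN : ⟪N, N⟫ = (1 : ℝ) := by rw [real_inner_self_eq_norm_sq, hN]; norm_num
  have hli3 : LinearIndependent ℝ ![a0, a1, N] := by
    rw [Fintype.linearIndependent_iff]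
    intro g hg
    simp only [Fin.sum_univ_three, Matrix.cons_val_zero, Matrix.cons_val_one, Matrix.cons_val] at hg
    have h3 : g 2 = 0 := by
      have h4 := congrArg (fun x => ⟪x, N⟫) hg
      simp only [inner_add_left, real_inner_smul_left, hN0, hN1, hNN, inner_zero_left] at h4
      linarith
    rw [h3, zero_smul, add_zero] at hg
    rw [LinearIndependent.pair_iff] at hli
    have h5 := hli _ _ hg
    intro i
    fin_cases i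
    · exact h5.1
    · exact h5.2
    · exact h3
  have hspan := hli3.span_eq_top_of_card_eq_finrank (by simp)
  have hall : ∀ x ∈ Submodule.span ℝ (Set.range ![a0, a1, N]), ⟪u, x⟫ = 0 := by
    intro x hx
    induction hx using Submodule.span_induction with
    | mem x hx =>
      obtain ⟨i, rfl⟩ := hx
      fin_cases i
      · exact h0
      · exact h1
      · exact h2
    | zero => exact inner_zero_right _
    | add x y _ _ hx hy => rw [inner_add_right, hx, hy, add_zero]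
    | smul c x _ hx => rw [real_inner_smul_right, hx, mul_zero]
  have h6 := hall u (by rw [hspan]; exact Submodule.mem_top)
  exact inner_self_eq_zero.mp h6

theorem alg1 (A B C x y z : ℝ) (h : A * B - C ^ 2 ≠ 0) :
    x - ((B * x - C * y) / (A * B - C ^ 2) * A + (A * y - C * x) / (A * B - C ^ 2) * C + z * 0) = 0 := by
  obtain ⟨D, hD⟩ : ∃ D, D = A * B - C ^ 2 := ⟨_, rfl⟩
  rw [← hD] at h ⊢
  field_simp
  rw [hD]
  ring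

theorem alg2 (A B C x y z : ℝ) (h : A * B - C ^ 2 ≠ 0) :
    y - ((B * x - C * y) / (A * B - C ^ 2) * C + (A * y - C * x) / (A * B - C ^ 2) * B + z * 0) = 0 := by
  obtain ⟨D, hD⟩ : ∃ D, D = A * B - C ^ 2 := ⟨_, rfl⟩
  rw [← hD] at h ⊢
  field_simp
  rw [hD]
  ring

theorem decomp1 (a0 a1 N v : E3) (hN : ‖N‖ = 1) (hN0 : ⟪a0, N⟫ = 0) (hN1 : ⟪a1, N⟫ = 0)
    (hli : LinearIndependent ℝ ![a0, a1]) :
    v = ((⟪a1, a1⟫ * ⟪v, a0⟫ - ⟪a0, a1⟫ * ⟪v, a1⟫) / (⟪a0, a0⟫ * ⟪a1, a1⟫ - ⟪a0, a1⟫ ^ 2)) • a0 +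
      ((⟪a0, a0⟫ * ⟪v, a1⟫ - ⟪a0, a1⟫ * ⟪v, a0⟫) / (⟪a0, a0⟫ * ⟪a1, a1⟫ - ⟪a0, a1⟫ ^ 2)) • a1 +
      ⟪v, N⟫ • N := by
  have hNN : ⟪N, N⟫ = (1 : ℝ) := by rw [real_inner_self_eq_norm_sq, hN]; norm_num
  have hG := (gram_pos a0 a1 hli).ne'
  rw [← sub_eq_zero]
  refine orth_zero a0 a1 N _ hN hN0 hN1 hli ?_ ?_ ?_
  · simp only [inner_sub_left, inner_add_left, real_inner_smul_left]
    rw [real_inner_comm a0 a1, real_inner_comm a0 N, hN0]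
    exact alg1 _ _ _ _ _ _ hG
  · simp only [inner_sub_left, inner_add_left, real_inner_smul_left]
    rw [real_inner_comm a1 N, hN1]
    exact alg2 _ _ _ _ _ _ hG
  · simp only [inner_sub_left, inner_add_left, real_inner_smul_left]
    rw [hN0, hN1, hNN]
    ring

/-- tangential part of the inner product in terms of the Gram matrix -/
theorem tang_formula (a0 a1 N v w : E3) (hN : ‖N‖ = 1) (hN0 : ⟪a0, N⟫ = 0) (hN1 : ⟪a1, N⟫ = 0)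
    (hli : LinearIndependent ℝ ![a0, a1]) :
    (⟪a0, a0⟫ * ⟪a1, a1⟫ - ⟪a0, a1⟫ ^ 2) * (⟪v, w⟫ - ⟪v, N⟫ * ⟪w, N⟫) =
      ⟪a1, a1⟫ * (⟪v, a0⟫ * ⟪w, a0⟫) - ⟪a0, a1⟫ * (⟪v, a0⟫ * ⟪w, a1⟫ + ⟪v, a1⟫ * ⟪w, a0⟫)
        + ⟪a0, a0⟫ * (⟪v, a1⟫ * ⟪w, a1⟫) := by
  have hG := gram_pos a0 a1 hli
  have h1 := congrArg (fun x => ⟪x, w⟫) (decomp1 a0 a1 N v hN hN0 hN1 hli)
  simp only [inner_add_left, real_inner_smul_left] at h1
  rw [h1, real_inner_comm w a0, real_inner_comm w a1, real_inner_comm w N]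
  field_simp
  ring

theorem li_of_gram (b0 b1 : E3) (h : 0 < ⟪b0, b0⟫ * ⟪b1, b1⟫ - ⟪b0, b1⟫ ^ 2) :
    LinearIndependent ℝ ![b0, b1] := by
  rw [LinearIndependent.pair_iff]
  intro s t hst
  have h1 := congrArg (fun x => ⟪x, b0⟫) hst
  have h2 := congrArg (fun x => ⟪x, b1⟫) hst
  simp only [inner_add_left, real_inner_smul_left, inner_zero_left] at h1 h2
  rw [real_inner_comm b0 b1] at h1
  have h3 : s * (⟪b0, b0⟫ * ⟪b1, b1⟫ - ⟪b0, b1⟫ ^ 2) = 0 := by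
    linear_combination ⟪b1, b1⟫ * h1 - ⟪b0, b1⟫ * h2
  have h4 : t * (⟪b0, b0⟫ * ⟪b1, b1⟫ - ⟪b0, b1⟫ ^ 2) = 0 := by
    linear_combination ⟪b0, b0⟫ * h2 - ⟪b0, b1⟫ * h1
  exact ⟨(mul_eq_zero.mp h3).resolve_right h.ne', (mul_eq_zero.mp h4).resolve_right h.ne'⟩

/-- the same coefficients for two isometric configurations -/
theorem decomp (a0 a1 N b0 b1 M v v' : E3)
    (hN : ‖N‖ = 1) (hM : ‖M‖ = 1) (hN0 : ⟪a0, N⟫ = 0) (hN1 : ⟪a1, N⟫ = 0)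
    (hM0 : ⟪b0, M⟫ = 0) (hM1 : ⟪b1, M⟫ = 0) (hli : LinearIndependent ℝ ![a0, a1])
    (h00 : ⟪a0, a0⟫ = ⟪b0, b0⟫) (h01 : ⟪a0, a1⟫ = ⟪b0, b1⟫) (h11 : ⟪a1, a1⟫ = ⟪b1, b1⟫)
    (hv0 : ⟪v, a0⟫ = ⟪v', b0⟫) (hv1 : ⟪v, a1⟫ = ⟪v', b1⟫) :
    ∃ c0 c1 : ℝ, v = c0 • a0 + c1 • a1 + ⟪v, N⟫ • N ∧ v' = c0 • b0 + c1 • b1 + ⟪v', M⟫ • M := by
  have hG := gram_pos a0 a1 hli
  have hG' : 0 < ⟪b0, b0⟫ * ⟪b1, b1⟫ - ⟪b0, b1⟫ ^ 2 := by rw [← h00, ← h01, ← h11]; exact hG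
  have hli' := li_of_gram b0 b1 hG'
  refine ⟨_, _, decomp1 a0 a1 N v hN hN0 hN1 hli, ?_⟩
  rw [h00, h01, h11, hv0, hv1]
  exact decomp1 b0 b1 M v' hM hM0 hM1 hli'

/-- the part of the inner product orthogonal to the normal is determined -/
theorem tangential_inner (a0 a1 N b0 b1 M v w v' w' : E3)
    (hN : ‖N‖ = 1) (hM : ‖M‖ = 1) (hN0 : ⟪a0, N⟫ = 0) (hN1 : ⟪a1, N⟫ = 0)
    (hM0 : ⟪b0, M⟫ = 0) (hM1 : ⟪b1, M⟫ = 0) (hli : LinearIndependent ℝ ![a0, a1])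
    (h00 : ⟪a0, a0⟫ = ⟪b0, b0⟫) (h01 : ⟪a0, a1⟫ = ⟪b0, b1⟫) (h11 : ⟪a1, a1⟫ = ⟪b1, b1⟫)
    (hv0 : ⟪v, a0⟫ = ⟪v', b0⟫) (hv1 : ⟪v, a1⟫ = ⟪v', b1⟫)
    (hw0 : ⟪w, a0⟫ = ⟪w', b0⟫) (hw1 : ⟪w, a1⟫ = ⟪w', b1⟫) :
    ⟪v, w⟫ - ⟪v, N⟫ * ⟪w, N⟫ = ⟪v', w'⟫ - ⟪v', M⟫ * ⟪w', M⟫ := by
  have hG := gram_pos a0 a1 hli
  have hG' : 0 < ⟪b0, b0⟫ * ⟪b1, b1⟫ - ⟪b0, b1⟫ ^ 2 := by rw [← h00, ← h01, ← h11]; exact hG
  have hli' := li_of_gram b0 b1 hG'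
  have h1 := tang_formula a0 a1 N v w hN hN0 hN1 hli
  have h2 := tang_formula b0 b1 M v' w' hM hM0 hM1 hli'
  rw [← h00, ← h01, ← h11, ← hv0, ← hv1, ← hw0, ← hw1] at h2
  exact mul_left_cancel₀ hG.ne' (h1.trans h2.symm)

/-- existence of a unit normal -/
theorem exists_normal (a0 a1 : E3) : ∃ N : E3, ‖N‖ = 1 ∧ ⟪a0, N⟫ = 0 ∧ ⟪a1, N⟫ = 0 := by
  classical
  obtain ⟨K, hK⟩ : ∃ K : Submodule ℝ E3, K = Submodule.span ℝ (({a0, a1} : Finset E3) : Set E3) := ⟨_, rfl⟩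
  have h1 : Module.finrank ℝ K ≤ 2 := by
    rw [hK]
    exact (finrank_span_finset_le_card _).trans Finset.card_le_two
  have h2 := Submodule.finrank_add_finrank_orthogonal K
  have h3 : Module.finrank ℝ E3 = 3 := by simp
  have h4 : Kᗮ ≠ ⊥ := by
    intro h
    rw [h, finrank_bot, h3] at h2
    omega
  obtain ⟨u, hu, hu0⟩ := Submodule.exists_mem_ne_zero_of_ne_bot h4
  rw [Submodule.mem_orthogonal] at hu
  have ha0 : a0 ∈ K := by rw [hK]; exact Submodule.subset_span (by simp)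
  have ha1 : a1 ∈ K := by rw [hK]; exact Submodule.subset_span (by simp)
  refine ⟨‖u‖⁻¹ • u, ?_, ?_, ?_⟩
  · rw [norm_smul, norm_inv, norm_norm]
    exact inv_mul_cancel₀ (norm_ne_zero_iff.mpr hu0)
  · rw [real_inner_smul_right, hu a0 ha0, mul_zero]
  · rw [real_inner_smul_right, hu a1 ha1, mul_zero]


end J10077
end H575Germ
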