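import Pool.Agent.Helper575.Germ.Defs

open scoped RealInnerProductSpace Topology ContDiff
open MeasureTheory Metric

namespace H575Germ
namespace J10078


/-- two real quadratic forms with a common complex null vector are proportional -/
theorem proportional (m11 m12 m22 c11 c12 c22 : ℝ) (a b : ℂ)
    (him : 0 < ((starRingEnd ℂ) a * b).im)
    (h1 : (m11 : ℂ) * a ^ 2 + 2 * m12 * a * b + m22 * b ^ 2 = 0)
    (h2 : (c11 : ℂ) * a ^ 2 + 2 * c12 * a * b + c22 * b ^ 2 = 0)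
    (hd : m11 * m22 - m12 ^ 2 = c11 * c22 - c12 ^ 2) (hpos : 0 < c11 * c22 - c12 ^ 2) :
    (m11 = c11 ∧ m12 = c12 ∧ m22 = c22) ∨ (m11 = -c11 ∧ m12 = -c12 ∧ m22 = -c22) := by
  obtain ⟨a1, a2⟩ := a
  obtain ⟨b1, b2⟩ := b
  have hJ : 0 < a1 * b2 - a2 * b1 := by
    have := him
    simp only [Complex.mul_im, Complex.conj_re, Complex.conj_im] at this
    linarith
  have key : ∀ m11 m12 m22 : ℝ, (m11 : ℂ) * (⟨a1, a2⟩ : ℂ) ^ 2 + 2 * m12 * ⟨a1, a2⟩ * ⟨b1, b2⟩ +
      m22 * (⟨b1, b2⟩ : ℂ) ^ 2 = 0 → ∃ μ : ℝ, m22 = μ * (a1 ^ 2 + a2 ^ 2) ∧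
        m12 = -μ * (a1 * b1 + a2 * b2) ∧ m11 = μ * (b1 ^ 2 + b2 ^ 2) := by
    intro m11 m12 m22 h
    have hre : m11 * (a1 ^ 2 - a2 ^ 2) + 2 * m12 * (a1 * b1 - a2 * b2) +
        m22 * (b1 ^ 2 - b2 ^ 2) = 0 := by
      have := congrArg Complex.re h
      simp [pow_two] at this
      linarith
    have hi : m11 * (2 * a1 * a2) + 2 * m12 * (a1 * b2 + a2 * b1) +
        m22 * (2 * b1 * b2) = 0 := by
      have := congrArg Complex.im h
      simp [pow_two] at this
      linarith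
    have hN : 0 < a1 ^ 2 + a2 ^ 2 := by
      by_contra hcon
      have h1 : a1 ^ 2 + a2 ^ 2 = 0 := le_antisymm (not_lt.1 hcon) (by positivity)
      have h2 : a1 = 0 := by nlinarith [sq_nonneg a1, sq_nonneg a2]
      have h3 : a2 = 0 := by nlinarith [sq_nonneg a1, sq_nonneg a2]
      rw [h2, h3] at hJ
      simp at hJ
    have e1 : (a1 * b2 - a2 * b1) * (m12 * (a1 ^ 2 + a2 ^ 2) + m22 * (a1 * b1 + a2 * b2)) = 0 := by
      linear_combination ((a1 ^ 2 - a2 ^ 2) / 2) * hi - (a1 * a2) * hre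
    have e2 : m12 * (a1 ^ 2 + a2 ^ 2) + m22 * (a1 * b1 + a2 * b2) = 0 :=
      (mul_eq_zero.1 e1).resolve_left hJ.ne'
    have e3 : m11 * (a1 ^ 2 + a2 ^ 2) ^ 2 + 2 * m12 * (a1 ^ 2 + a2 ^ 2) * (a1 * b1 + a2 * b2) +
        m22 * ((a1 * b1 + a2 * b2) ^ 2 - (a1 * b2 - a2 * b1) ^ 2) = 0 := by
      linear_combination (a1 ^ 2 - a2 ^ 2) * hre + (2 * a1 * a2) * hi
    have e4 : (a1 ^ 2 + a2 ^ 2) * (m11 * (a1 ^ 2 + a2 ^ 2) - m22 * (b1 ^ 2 + b2 ^ 2)) = 0 := by
      linear_combination e3 - 2 * (a1 * b1 + a2 * b2) * e2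
    have e5 : m11 * (a1 ^ 2 + a2 ^ 2) - m22 * (b1 ^ 2 + b2 ^ 2) = 0 :=
      (mul_eq_zero.1 e4).resolve_left hN.ne'
    refine ⟨m22 / (a1 ^ 2 + a2 ^ 2), ?_, ?_, ?_⟩
    · field_simp
    · field_simp
      linarith
    · field_simp
      linarith
  obtain ⟨μ, hm22, hm12, hm11⟩ := key _ _ _ h1
  obtain ⟨κ, hc22, hc12, hc11⟩ := key _ _ _ h2
  have hsq : μ ^ 2 = κ ^ 2 := by
    rw [hm22, hm12, hm11, hc22, hc12, hc11] at hd
    have h3 : (a1 * b2 - a2 * b1) ^ 2 * (μ ^ 2 - κ ^ 2) = 0 := by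
      linear_combination hd
    have h4 := (mul_eq_zero.1 h3).resolve_left (pow_pos hJ 2).ne'
    linarith
  rcases sq_eq_sq_iff_eq_or_eq_neg.1 hsq with h | h
  · left
    rw [hm22, hm12, hm11, hc22, hc12, hc11, h]
    exact ⟨rfl, rfl, rfl⟩
  · right
    rw [hm22, hm12, hm11, hc22, hc12, hc11, h]
    refine ⟨by ring, by ring, by ring⟩

/-- extension to a global map -/
theorem extend_global (k : ℕ) (g : E2 → E3) (r : ℝ) (hr : 0 < r)
    (hg : ContDiffOn ℝ k g (ball 0 r)) :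
    ∃ (G : E2 → E3) (r' : ℝ), 0 < r' ∧ r' ≤ r ∧ ContDiff ℝ k G ∧
      ∀ x ∈ ball (0:E2) r', G x = g x := by
  let χ : ContDiffBump (0 : E2) := ⟨r / 4, r / 2, by positivity, by linarith⟩
  refine ⟨fun x => χ x • g x, r / 4, by positivity, by linarith, ?_, ?_⟩
  · rw [contDiff_iff_contDiffAt]
    intro x
    by_cases hx : x ∈ ball (0 : E2) r
    · exact (χ.contDiffAt (n := k)).smul ((hg x hx).contDiffAt (isOpen_ball.mem_nhds hx))
    · have hx' : x ∈ (closedBall (0 : E2) (r / 2))ᶜ := by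
        simp only [mem_ball, Set.mem_compl_iff, mem_closedBall, not_le, not_lt] at hx ⊢
        linarith
      have hev : (fun x => χ x • g x) =ᶠ[𝓝 x] fun _ => 0 := by
        filter_upwards [isClosed_closedBall.isOpen_compl.mem_nhds hx'] with y hy
        have : χ y = 0 := by
          apply χ.zero_of_le_dist
          simp only [Set.mem_compl_iff, mem_closedBall, not_le] at hy
          exact hy.le
        rw [this, zero_smul]
      exact contDiffAt_const.congr_of_eventuallyEq hev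
  · intro x hx
    have : χ x = 1 := by
      apply χ.one_of_mem_closedBall
      exact ball_subset_closedBall hx
    simp only [this, one_smul]

/-- derivatives of the graph map -/
theorem contDiff_graph (k : ℕ) (u : E2 → ℝ) (hu : ContDiff ℝ k u) : ContDiff ℝ k (graph u) := by
  rw [contDiff_euclidean]
  intro i
  fin_cases i
  · exact (EuclideanSpace.proj (𝕜 := ℝ) (0 : Fin 2)).contDiff
  · exact (EuclideanSpace.proj (𝕜 := ℝ) (1 : Fin 2)).contDiff
  · exact hu

theorem pd_coord (h : E2 → E3) (x : E2) (hh : DifferentiableAt ℝ h x) (i : Fin 2) (k : Fin 3) :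
    (pd i h x) k = pd i (fun y => h y k) x := by
  unfold pd
  have h1 := (EuclideanSpace.proj (𝕜 := ℝ) k).hasFDerivAt.comp x hh.hasFDerivAt
  have h2 : fderiv ℝ (fun y => h y k) x = (EuclideanSpace.proj (𝕜 := ℝ) k).comp (fderiv ℝ h x) :=
    h1.fderiv
  rw [h2]
  rfl

theorem pd_proj (i j : Fin 2) (x : E2) : pd i (fun y : E2 => y j) x = if i = j then 1 else 0 := by
  unfold pd
  have h2 : fderiv ℝ (fun y : E2 => y j) x = (EuclideanSpace.proj (𝕜 := ℝ) j) :=
    (EuclideanSpace.proj (𝕜 := ℝ) j).hasFDerivAt.fderiv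
  rw [h2]
  change (EuclideanSpace.single i (1 : ℝ)) j = _
  rw [PiLp.single_apply]
  by_cases h3 : i = j
  · rw [if_pos h3.symm, if_pos h3]
  · rw [if_neg (fun h => h3 h.symm), if_neg h3]

theorem contDiff_pd {F : Type*} [NormedAddCommGroup F] [NormedSpace ℝ F] (m : ℕ) (h : E2 → F)
    (hh : ContDiff ℝ (m + 1 : ℕ) h) (i : Fin 2) : ContDiff ℝ m (pd i h) := by
  have h1 : ContDiff ℝ m (fderiv ℝ h) := hh.fderiv_right (by norm_cast)
  exact h1.clm_apply contDiff_const

theorem contDiff_iter {F : Type*} [NormedAddCommGroup F] [NormedSpace ℝ F] (n m : ℕ) (h : E2 → F)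
    (hh : ContDiff ℝ (n + m : ℕ) h) : ContDiff ℝ m ((pd 0)^[n] h) := by
  induction n generalizing h with
  | zero => simpa using hh
  | succ n ih =>
    rw [Function.iterate_succ_apply]
    exact ih _ (contDiff_pd (n + m) h (by convert hh using 2; ring) 0)

theorem iter_coord (n : ℕ) (h : E2 → E3) (hh : ContDiff ℝ n h) (k : Fin 3) :
    (fun y => ((pd 0)^[n] h) y k) = (pd 0)^[n] (fun y => h y k) := by
  induction n generalizing h with
  | zero => rfl
  | succ n ih =>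
    rw [Function.iterate_succ_apply, Function.iterate_succ_apply]
    rw [ih _ (contDiff_pd n h (by exact_mod_cast hh) 0)]
    congr 1
    funext y
    exact pd_coord h y ((hh.differentiable (by norm_cast)).differentiableAt) 0 k

theorem T_coord (n : ℕ) (h : E2 → E3) (hh : ContDiff ℝ (n + 2 : ℕ) h) (i j : Fin 2) (x : E2)
    (k : Fin 3) : (T n i j h x) k = T n i j (fun y => h y k) x := by
  unfold T
  have h0 : ContDiff ℝ (2 : ℕ) ((pd 0)^[n] h) := contDiff_iter n 2 h hh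
  have h1 : ContDiff ℝ (1 : ℕ) (pd j ((pd 0)^[n] h)) := contDiff_pd 1 _ h0 j
  rw [pd_coord _ x (h1.differentiable (by norm_num)).differentiableAt]
  have h2 : (fun y => (pd j ((pd 0)^[n] h) y) k) = pd j ((pd 0)^[n] (fun y => h y k)) := by
    funext y
    rw [pd_coord _ y (h0.differentiable (by norm_num)).differentiableAt]
    rw [iter_coord n h (hh.of_le (by norm_cast; omega)) k]
  rw [h2]

theorem iter_const (n : ℕ) (c : ℝ) : ∃ c', (pd 0)^[n] (fun _ : E2 => c) = fun _ => c' := by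
  induction n generalizing c with
  | zero => exact ⟨c, rfl⟩
  | succ n ih =>
    rw [Function.iterate_succ_apply]
    have : pd 0 (fun _ : E2 => c) = fun _ => 0 := by
      funext y
      simp [pd]
    rw [this]
    exact ih 0

theorem pd_const (i : Fin 2) (c : ℝ) : pd i (fun _ : E2 => c) = fun _ => 0 := by
  funext y
  simp [pd]

theorem T_proj (n : ℕ) (i j l : Fin 2) (x : E2) : T n i j (fun y : E2 => y l) x = 0 := by
  unfold T
  cases n with
  | zero =>
    have : pd j ((pd 0)^[0] (fun y : E2 => y l)) = fun _ => if j = l then 1 else 0 := by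
      funext y
      exact pd_proj j l y
    rw [this, pd_const]
  | succ n =>
    rw [Function.iterate_succ_apply]
    have : pd 0 (fun y : E2 => y l) = fun _ => if (0 : Fin 2) = l then 1 else 0 := by
      funext y
      exact pd_proj 0 l y
    rw [this]
    obtain ⟨c', hc'⟩ := iter_const n (if (0 : Fin 2) = l then 1 else 0)
    rw [hc', pd_const, pd_const]

theorem pd_graph (u : E2 → ℝ) (hu : ContDiff ℝ 1 u) (x : E2) :
    pd 0 (graph u) x = !₂[1, 0, pd 0 u x] ∧ pd 1 (graph u) x = !₂[0, 1, pd 1 u x] := by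
  have hd : DifferentiableAt ℝ (graph u) x :=
    ((contDiff_graph 1 u (by exact_mod_cast hu)).differentiable (by norm_num)).differentiableAt
  constructor
  · ext k
    rw [pd_coord _ x hd]
    fin_cases k
    · exact (pd_proj 0 0 x).trans (by simp)
    · exact (pd_proj 0 1 x).trans (by simp)
    · rfl
  · ext k
    rw [pd_coord _ x hd]
    fin_cases k
    · exact (pd_proj 1 0 x).trans (by simp)
    · exact (pd_proj 1 1 x).trans (by simp)
    · rfl

theorem T_graph (n : ℕ) (u : E2 → ℝ) (hu : ContDiff ℝ (n + 2 : ℕ) u) (i j : Fin 2) (x : E2) :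
    T n i j (graph u) x = !₂[0, 0, T n i j u x] := by
  ext k
  rw [T_coord n (graph u) (contDiff_graph (n + 2) u hu) i j x k]
  fin_cases k
  · exact T_proj n i j 0 x
  · exact T_proj n i j 1 x
  · rfl

/-- the block sum is small -/
theorem blk_bound (β : E2 → ℝ) (M : ℝ) (hM : ∀ y, |β y| ≤ M)
    (hβs : ∀ y, β y ≠ 0 → 1 < ‖y‖ ∧ ‖y‖ < 3 / 2) (m : ℕ) (x : E2) :
    |blk m β x| ≤ ((2:ℝ) ^ m)⁻¹ * M := by
  unfold blk
  have hM0 : 0 ≤ M := (abs_nonneg _).trans (hM 0)
  rw [abs_mul, abs_of_pos (by positivity : (0:ℝ) < ((2:ℝ) ^ m)⁻¹)]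
  refine mul_le_mul_of_nonneg_left ?_ (by positivity)
  by_cases h : ∃ i ∈ Finset.Ico (2 ^ m) (2 ^ (m + 1)), β (((2:ℝ) ^ i) • x) ≠ 0
  · obtain ⟨i, hi, hne⟩ := h
    rw [Finset.sum_eq_single_of_mem i hi]
    · exact hM _
    · intro j _ hji
      by_contra hj
      obtain ⟨h1, h2⟩ := hβs _ hne
      obtain ⟨h3, h4⟩ := hβs _ hj
      rw [norm_smul, Real.norm_eq_abs, abs_of_pos (by positivity)] at h1 h2 h3 h4
      rcases lt_or_gt_of_ne hji with hlt | hlt
      · have h5 : (2:ℝ) ^ (j + 1) ≤ 2 ^ i := pow_le_pow_right₀ (by norm_num) hlt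
        have h6 : (2:ℝ) ^ (j + 1) * ‖x‖ ≤ 2 ^ i * ‖x‖ := mul_le_mul_of_nonneg_right h5 (norm_nonneg _)
        rw [pow_succ] at h6
        nlinarith
      · have h5 : (2:ℝ) ^ (i + 1) ≤ 2 ^ j := pow_le_pow_right₀ (by norm_num) hlt
        have h6 : (2:ℝ) ^ (i + 1) * ‖x‖ ≤ 2 ^ j * ‖x‖ := mul_le_mul_of_nonneg_right h5 (norm_nonneg _)
        rw [pow_succ] at h6
        nlinarith
  · push Not at h
    rw [Finset.sum_eq_zero h, abs_zero]
    exact hM0

theorem blk_linear (β1 β2 β3 : E2 → ℝ) (c1 c2 c3 : ℝ) (m : ℕ) (x : E2) :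
    blk m (fun y => c1 * β1 y + c2 * β2 y + c3 * β3 y) x =
      c1 * blk m β1 x + c2 * blk m β2 x + c3 * blk m β3 x := by
  unfold blk
  rw [Finset.sum_add_distrib, Finset.sum_add_distrib, ← Finset.mul_sum, ← Finset.mul_sum,
    ← Finset.mul_sum]
  ring


end J10078
end H575Germ
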