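import Pool.Agent.Helper575.Germ.Defs

open scoped RealInnerProductSpace Topology ContDiff
open MeasureTheory Metric

namespace H575Germ
namespace J10079


theorem coord10079 (v : Fin 3 → E3) (hv : LinearIndependent ℝ v) :
    ∃ K : ℝ, 0 < K ∧ ∀ (x : E3) (M : ℝ), (∀ i, |⟪v i, x⟫| ≤ M) → ‖x‖ ≤ K * M := by
  let L : E3 →ₗ[ℝ] (Fin 3 → ℝ) := LinearMap.pi (fun i => (innerSL ℝ (v i)).toLinearMap)
  have hLx : ∀ x i, L x i = ⟪v i, x⟫ := fun x i => rfl
  have hspan : Submodule.span ℝ (Set.range v) = ⊤ :=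
    hv.span_eq_top_of_card_eq_finrank' (by simp)
  have hker : LinearMap.ker L = ⊥ := by
    rw [LinearMap.ker_eq_bot']
    intro x hx
    have h1 : ∀ i, ⟪v i, x⟫ = 0 := fun i => by rw [← hLx, hx]; rfl
    have h2 : x ∈ (Submodule.span ℝ (Set.range v))ᗮ := by
      rw [Submodule.mem_orthogonal]
      intro u hu
      induction hu using Submodule.span_induction with
      | mem u hu =>
        obtain ⟨i, rfl⟩ := hu
        exact h1 i
      | zero => exact inner_zero_left _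
      | add a b _ _ ha hb => rw [inner_add_left, ha, hb, add_zero]
      | smul c a _ ha => rw [inner_smul_left, ha, mul_zero]
    rw [hspan, Submodule.top_orthogonal_eq_bot] at h2
    exact (Submodule.mem_bot ℝ).mp h2
  obtain ⟨K, hK, hL⟩ := L.exists_antilipschitzWith hker
  refine ⟨K, hK, fun x M hM => ?_⟩
  have h1 := hL.le_mul_dist x 0
  rw [map_zero, dist_zero_right, dist_zero_right] at h1
  have hM0 : 0 ≤ M := (abs_nonneg _).trans (hM 0)
  have h2 : ‖L x‖ ≤ M := by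
    rw [pi_norm_le_iff_of_nonneg hM0]
    intro i
    rw [hLx]
    exact hM i
  exact h1.trans (mul_le_mul_of_nonneg_left h2 hK.le)

theorem normal10079 (a0 a1 b : E3) (hli : LinearIndependent ℝ ![a0, a1, b]) :
    ∃ N : E3, ‖N‖ = 1 ∧ ⟪a0, N⟫ = 0 ∧ ⟪a1, N⟫ = 0 ∧ LinearIndependent ℝ ![a0, a1, N] := by
  let f : E3 →ₗ[ℝ] (Fin 2 → ℝ) :=
    LinearMap.pi (fun i => (innerSL ℝ (![a0, a1] i)).toLinearMap)
  have hker : LinearMap.ker f ≠ ⊥ := LinearMap.ker_ne_bot_of_finrank_lt (by simp)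
  obtain ⟨n, hn, hn0⟩ := (Submodule.ne_bot_iff _).mp hker
  have hfn : f n = 0 := hn
  have h0 : ⟪a0, n⟫ = 0 := congrFun hfn 0
  have h1 : ⟪a1, n⟫ = 0 := congrFun hfn 1
  have hnn : ‖n‖ ≠ 0 := norm_ne_zero_iff.mpr hn0
  have hN : ‖(‖n‖⁻¹ • n : E3)‖ = 1 := by
    rw [norm_smul, norm_inv, norm_norm, inv_mul_cancel₀ hnn]
  have hN0 : ⟪a0, (‖n‖⁻¹ • n : E3)⟫ = 0 := by rw [inner_smul_right, h0, mul_zero]
  have hN1 : ⟪a1, (‖n‖⁻¹ • n : E3)⟫ = 0 := by rw [inner_smul_right, h1, mul_zero]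
  refine ⟨‖n‖⁻¹ • n, hN, hN0, hN1, ?_⟩
  set N : E3 := ‖n‖⁻¹ • n with hNd
  rw [Fintype.linearIndependent_iff]
  intro g hg
  rw [Fin.sum_univ_three] at hg
  simp only [Matrix.cons_val_zero, Matrix.cons_val_one, Matrix.cons_val] at hg
  have h2 : g 2 = 0 := by
    have h3 : ⟪g 0 • a0 + g 1 • a1 + g 2 • N, N⟫ = 0 := by rw [hg, inner_zero_left]
    rw [inner_add_left, inner_add_left, inner_smul_left, inner_smul_left, inner_smul_left,
      hN0, hN1, real_inner_self_eq_norm_sq, hN] at h3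
    simpa using h3
  rw [h2, zero_smul, add_zero] at hg
  rw [Fintype.linearIndependent_iff] at hli
  have h4 := hli ![g 0, g 1, 0] (by
    rw [Fin.sum_univ_three]
    simp only [Matrix.cons_val_zero, Matrix.cons_val_one, Matrix.cons_val]
    rw [zero_smul, add_zero, hg])
  have h40 := h4 0
  have h41 := h4 1
  simp only [Matrix.cons_val_zero, Matrix.cons_val_one] at h40 h41
  intro i
  fin_cases i
  · exact h40
  · exact h41
  · exact h2

/-- families of vectors with the same Gram matrix differ by a linear isometry -/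
theorem gram_isometry {ι : Type} [Fintype ι] (v w : ι → E3)
    (h : ∀ i j, ⟪v i, v j⟫ = ⟪w i, w j⟫) (hspan : Submodule.span ℝ (Set.range v) = ⊤) :
    ∃ O : E3 ≃ₗᵢ[ℝ] E3, ∀ i, O (v i) = w i := by
  classical
  let Lv : (ι → ℝ) →ₗ[ℝ] E3 := Fintype.linearCombination ℝ v
  let Lw : (ι → ℝ) →ₗ[ℝ] E3 := Fintype.linearCombination ℝ w
  have hnorm : ∀ c, ‖Lv c‖ = ‖Lw c‖ := by
    intro c
    have h1 : ‖Lv c‖ ^ 2 = ‖Lw c‖ ^ 2 := by
      rw [← real_inner_self_eq_norm_sq, ← real_inner_self_eq_norm_sq]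
      show ⟪∑ i, c i • v i, ∑ i, c i • v i⟫ = ⟪∑ i, c i • w i, ∑ i, c i • w i⟫
      simp only [sum_inner, inner_sum, inner_smul_left, inner_smul_right, h]
    exact (sq_eq_sq₀ (norm_nonneg _) (norm_nonneg _)).mp h1
  have hsurj : Function.Surjective Lv := by
    rw [← LinearMap.range_eq_top]
    rw [← hspan]
    exact Fintype.range_linearCombination ℝ v
  obtain ⟨s, hs⟩ := Lv.exists_rightInverse_of_surjective (LinearMap.range_eq_top.mpr hsurj)
  have hs' : ∀ x, Lv (s x) = x := fun x => LinearMap.congr_fun hs x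
  let T0 : E3 →ₗᵢ[ℝ] E3 :=
    { toLinearMap := Lw ∘ₗ s
      norm_map' := fun x => by
        show ‖Lw (s x)‖ = ‖x‖
        rw [← hnorm, hs'] }
  refine ⟨T0.toLinearIsometryEquiv rfl, fun i => ?_⟩
  show Lw (s (v i)) = w i
  have h2 : Lv (s (v i) - Pi.single i 1) = 0 := by
    rw [map_sub, hs']
    show v i - Fintype.linearCombination ℝ v (Pi.single i 1) = 0
    rw [Fintype.linearCombination_apply_single, one_smul, sub_self]
  have h3 : Lw (s (v i) - Pi.single i 1) = 0 := by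
    rw [← norm_eq_zero, ← hnorm, h2, norm_zero]
  rw [map_sub, sub_eq_zero] at h3
  rw [h3]
  show Fintype.linearCombination ℝ w (Pi.single i 1) = w i
  rw [Fintype.linearCombination_apply_single, one_smul]

/-- an orthogonal map which almost fixes two vectors and is not a reflection is almost the
identity -/
theorem near_isometry (a0 a1 b : E3) (hli : LinearIndependent ℝ ![a0, a1, b]) :
    ∃ C δ0 : ℝ, 0 < C ∧ 0 < δ0 ∧ ∀ (R : E3 ≃ₗᵢ[ℝ] E3) (δ : ℝ), 0 ≤ δ →
      ‖R a0 - a0‖ ≤ δ → ‖R a1 - a1‖ ≤ δ → ‖R b - b‖ ≤ δ0 → ∀ v, ‖R v - v‖ ≤ C * δ * ‖v‖ := by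
  obtain ⟨N, hN, hN0, hN1, hliN⟩ := normal10079 a0 a1 b hli
  obtain ⟨K, hK, hKb⟩ := coord10079 _ hliN
  obtain ⟨K', hK', hKb'⟩ := coord10079 _ hli
  have hdpos : 0 < 1 / (K * K') := by positivity
  refine ⟨K * (1 + K) + 2 / (1 / (K * K')), 1 / (K * K'), by positivity, hdpos, ?_⟩
  intro R δ hδ h0 h1 hb v
  have hinn : ∀ a v : E3, ⟪a, R v - v⟫ = ⟪a - R a, R v⟫ := by
    intro a v
    rw [inner_sub_right, inner_sub_left, R.inner_map_map]
  have hbd : ∀ a v : E3, |⟪a, R v - v⟫| ≤ ‖R a - a‖ * ‖v‖ := by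
    intro a v
    rw [hinn, norm_sub_rev]
    refine (abs_real_inner_le_norm _ _).trans ?_
    rw [R.norm_map]
  have hgen : ∀ (c : E3) (v : E3), |⟪c, R v - v⟫| ≤ ‖R c - c‖ * ‖v‖ := hbd
  have hv0 := norm_nonneg v
  by_cases hd : δ ≤ 1 / (K * K')
  · -- small case
    have hD1 : ‖R N - N‖ ≤ K' * (1 / (K * K')) := by
      apply hKb'
      intro i
      fin_cases i
      · refine (hbd a0 N).trans ?_
        rw [hN, mul_one]
        exact h0.trans hd
      · refine (hbd a1 N).trans ?_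
        rw [hN, mul_one]
        exact h1.trans hd
      · refine (hbd b N).trans ?_
        rw [hN, mul_one]
        exact hb
    have hD2 : K * ‖R N - N‖ ≤ 1 := by
      have : K' * (1 / (K * K')) = 1 / K := by field_simp
      rw [this, le_div_iff₀ hK] at hD1
      linarith
    have hNN : ⟪N, R N - N⟫ = -(‖R N - N‖ ^ 2 / 2) := by
      have h2 : ‖R N - N‖ ^ 2 = ‖R N‖ ^ 2 - 2 * ⟪R N, N⟫ + ‖N‖ ^ 2 := norm_sub_sq_real _ _
      rw [R.norm_map, hN, real_inner_comm] at h2
      rw [inner_sub_right, real_inner_self_eq_norm_sq, hN, h2]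
      ring
    have hD3 : ‖R N - N‖ ≤ K * (max δ (‖R N - N‖ ^ 2 / 2)) := by
      apply hKb
      intro i
      fin_cases i
      · refine (hbd a0 N).trans ?_
        rw [hN, mul_one]
        exact h0.trans (le_max_left _ _)
      · refine (hbd a1 N).trans ?_
        rw [hN, mul_one]
        exact h1.trans (le_max_left _ _)
      · show |⟪N, R N - N⟫| ≤ _
        rw [hNN, abs_neg, abs_of_nonneg (by positivity)]
        exact le_max_right _ _
    have hD4 : ‖R N - N‖ ≤ K * δ := by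
      have hnn := norm_nonneg (R N - N)
      rcases le_total δ (‖R N - N‖ ^ 2 / 2) with h2 | h2
      · rw [max_eq_right h2] at hD3
        have h3 : K * (‖R N - N‖ ^ 2 / 2) = (K * ‖R N - N‖) * ‖R N - N‖ / 2 := by ring
        have h4 : (K * ‖R N - N‖) * ‖R N - N‖ ≤ 1 * ‖R N - N‖ :=
          mul_le_mul_of_nonneg_right hD2 hnn
        have h5 : ‖R N - N‖ ≤ 0 := by rw [h3] at hD3; linarith
        exact h5.trans (by positivity)
      · rwa [max_eq_left h2] at hD3
    have hfin : ‖R v - v‖ ≤ K * ((1 + K) * δ * ‖v‖) := by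
      apply hKb
      intro i
      fin_cases i
      · refine (hbd a0 v).trans ?_
        refine mul_le_mul_of_nonneg_right (h0.trans ?_) hv0
        nlinarith
      · refine (hbd a1 v).trans ?_
        refine mul_le_mul_of_nonneg_right (h1.trans ?_) hv0
        nlinarith
      · refine (hbd N v).trans ?_
        refine mul_le_mul_of_nonneg_right (hD4.trans ?_) hv0
        nlinarith
    refine hfin.trans ?_
    have h6 : 0 ≤ 2 / (1 / (K * K')) * δ * ‖v‖ := by positivity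
    calc K * ((1 + K) * δ * ‖v‖) = K * (1 + K) * δ * ‖v‖ := by ring
      _ ≤ K * (1 + K) * δ * ‖v‖ + 2 / (1 / (K * K')) * δ * ‖v‖ := by linarith
      _ = _ := by ring
  · push Not at hd
    have h2 : ‖R v - v‖ ≤ 2 * ‖v‖ := by
      refine (norm_sub_le _ _).trans ?_
      rw [R.norm_map]
      linarith
    refine h2.trans ?_
    refine mul_le_mul_of_nonneg_right ?_ hv0
    have h3 : 2 ≤ 2 / (1 / (K * K')) * δ := by
      rw [div_mul_eq_mul_div, le_div_iff₀ hdpos]
      linarith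
    have h4 : 0 ≤ K * (1 + K) * δ := by positivity
    linarith


end J10079
end H575Germ
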