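import Pool.Agent.Helper575.Germ.Defs

open scoped RealInnerProductSpace Topology ContDiff
open MeasureTheory Metric

namespace H575Germ
namespace J10080


theorem pd_contDiff (h : E2 → E3) (hh : ContDiff ℝ 2 h) (j : Fin 2) : ContDiff ℝ 1 (pd j h) := by
  have h1 : ContDiff ℝ 1 (fderiv ℝ h) := hh.fderiv_right (m := 1) (by norm_num)
  exact h1.clm_apply contDiff_const

theorem pd_symm (h : E2 → E3) (hh : ContDiff ℝ 2 h) (i j : Fin 2) (x : E2) :
    pd i (pd j h) x = pd j (pd i h) x := by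
  have h1 : ContDiff ℝ 1 (fderiv ℝ h) := hh.fderiv_right (m := 1) (by norm_num)
  have h2 : DifferentiableAt ℝ (fderiv ℝ h) x := (h1.differentiable (by norm_num)) x
  have h3 : ∀ k l, pd k (pd l h) x =
      fderiv ℝ (fderiv ℝ h) x (EuclideanSpace.single k 1) (EuclideanSpace.single l 1) := by
    intro k l
    unfold pd
    rw [fderiv_clm_apply h2 (differentiableAt_const _)]
    simp
  rw [h3, h3]
  have h4 : IsSymmSndFDerivAt ℝ h x := hh.contDiffAt.isSymmSndFDerivAt (by simp)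
  exact h4.eq _ _

theorem clm_expand (L : E2 →L[ℝ] E3) (v : E2) :
    L v = v 0 • L (EuclideanSpace.single 0 1) + v 1 • L (EuclideanSpace.single 1 1) := by
  have h : v = v 0 • (EuclideanSpace.single 0 1 : E2) + v 1 • (EuclideanSpace.single 1 1 : E2) := by
    ext i
    fin_cases i <;> simp
  conv_lhs => rw [h]
  rw [map_add, map_smul, map_smul]

/-- first order Taylor formula with the derivative at the moving point -/
theorem taylor_moving (h : E2 → E3) (hh : ContDiff ℝ 1 h) (x : E2) (ε : ℝ) (hε : 0 < ε) :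
    ∀ᶠ y in 𝓝 x, ‖h x - h y - fderiv ℝ h y (x - y)‖ ≤ ε * ‖y - x‖ := by
  have hd : HasFDerivAt h (fderiv ℝ h x) x := ((hh.differentiable (by norm_num)) x).hasFDerivAt
  have h1 := hd.isLittleO.def (show 0 < ε / 2 by positivity)
  have hc : Continuous (fderiv ℝ h) := hh.continuous_fderiv (by norm_num)
  have h2 : ∀ᶠ y in 𝓝 x, ‖fderiv ℝ h y - fderiv ℝ h x‖ < ε / 2 := by
    have := Metric.tendsto_nhds.1 (hc.tendsto x) (ε / 2) (by positivity)
    filter_upwards [this] with y hy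
    rwa [dist_eq_norm] at hy
  filter_upwards [h1, h2] with y hy1 hy2
  have e : h x - h y - fderiv ℝ h y (x - y) =
      -(h y - h x - fderiv ℝ h x (y - x)) + (fderiv ℝ h y - fderiv ℝ h x) (y - x) := by
    have : x - y = -(y - x) := by abel
    rw [this, map_neg, ContinuousLinearMap.sub_apply]
    abel
  rw [e]
  refine (norm_add_le _ _).trans ?_
  rw [norm_neg]
  have h3 : ‖(fderiv ℝ h y - fderiv ℝ h x) (y - x)‖ ≤ ε / 2 * ‖y - x‖ :=
    ((fderiv ℝ h y - fderiv ℝ h x).le_opNorm _).trans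
      (mul_le_mul_of_nonneg_right hy2.le (norm_nonneg _))
  linarith

/-- the first and second partial derivatives at a point -/
noncomputable def PP (h : E2 → E3) (x : E2) : Fin 2 ⊕ (Fin 2 × Fin 2) → E3
  | Sum.inl j => pd j h x
  | Sum.inr p => pd p.1 (pd p.2 h) x

/-- the five indices used -/
def idx : Fin 5 → Fin 2 ⊕ (Fin 2 × Fin 2) :=
  ![Sum.inl 0, Sum.inl 1, Sum.inr (0, 0), Sum.inr (0, 1), Sum.inr (1, 1)]

/-- fundamental theorem (uniqueness part) in class `C^2` -/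
theorem fundamental
    (gram_isometry : ∀ (v w : Fin 5 → E3), (∀ i j, ⟪v i, v j⟫ = ⟪w i, w j⟫) →
      Submodule.span ℝ (Set.range v) = ⊤ → ∃ O : E3 ≃ₗᵢ[ℝ] E3, ∀ i, O (v i) = w i)
    (near_isometry : ∀ (a0 a1 b : E3), LinearIndependent ℝ ![a0, a1, b] →
      ∃ C δ0 : ℝ, 0 < C ∧ 0 < δ0 ∧ ∀ (R : E3 ≃ₗᵢ[ℝ] E3) (δ : ℝ), 0 ≤ δ →
      ‖R a0 - a0‖ ≤ δ → ‖R a1 - a1‖ ≤ δ → ‖R b - b‖ ≤ δ0 → ∀ v, ‖R v - v‖ ≤ C * δ * ‖v‖)
    (f g : E2 → E3) (hf : ContDiff ℝ 2 f) (hg : ContDiff ℝ 2 g) (r : ℝ)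
    (hr : 0 < r)
    (h1 : ∀ x ∈ ball (0:E2) r, ∀ i j, ⟪pd i f x, pd j f x⟫ = ⟪pd i g x, pd j g x⟫)
    (h2 : ∀ x ∈ ball (0:E2) r, ∀ i j l, ⟪pd i (pd j f) x, pd l f x⟫ = ⟪pd i (pd j g) x, pd l g x⟫)
    (h3 : ∀ x ∈ ball (0:E2) r, ∀ i j k l, ⟪pd i (pd j f) x, pd k (pd l f) x⟫ =
      ⟪pd i (pd j g) x, pd k (pd l g) x⟫)
    (hli : ∀ x ∈ ball (0:E2) r, LinearIndependent ℝ ![pd 0 f x, pd 1 f x, pd 0 (pd 0 f) x]) :
    ∃ A : E3 ≃ᵢ E3, ∀ x ∈ ball (0:E2) r, g x = A (f x) := by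
  classical
  have h2' : ∀ x ∈ ball (0:E2) r, ∀ i j l,
      ⟪pd l f x, pd i (pd j f) x⟫ = ⟪pd l g x, pd i (pd j g) x⟫ := by
    intro x hx i j l
    rw [real_inner_comm, h2 x hx, real_inner_comm]
  -- the isometries
  have hO : ∀ x ∈ ball (0:E2) r, ∃ O : E3 ≃ₗᵢ[ℝ] E3, (∀ j, O (pd j f x) = pd j g x) ∧
      ∀ i j, O (pd i (pd j f) x) = pd i (pd j g) x := by
    intro x hx
    have hgram : ∀ a b, ⟪PP f x a, PP f x b⟫ = ⟪PP g x a, PP g x b⟫ := by
      rintro (i | p) (j | q)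
      · exact h1 x hx _ _
      · exact h2' x hx _ _ _
      · exact h2 x hx _ _ _
      · exact h3 x hx _ _ _ _
    obtain ⟨O, hO⟩ := gram_isometry (fun i => PP f x (idx i)) (fun i => PP g x (idx i))
      (fun i j => hgram (idx i) (idx j))
      (by
        have hs := (hli x hx).span_eq_top_of_card_eq_finrank (by simp)
        rw [eq_top_iff, ← hs]
        refine Submodule.span_mono ?_
        rintro _ ⟨i, rfl⟩
        fin_cases i
        · exact ⟨0, rfl⟩
        · exact ⟨1, rfl⟩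
        · exact ⟨2, rfl⟩)
    have e0 : O (pd 0 f x) = pd 0 g x := hO 0
    have e1 : O (pd 1 f x) = pd 1 g x := hO 1
    have e2 : O (pd 0 (pd 0 f) x) = pd 0 (pd 0 g) x := hO 2
    have e3 : O (pd 0 (pd 1 f) x) = pd 0 (pd 1 g) x := hO 3
    have e4 : O (pd 1 (pd 1 f) x) = pd 1 (pd 1 g) x := hO 4
    refine ⟨O, ?_, ?_⟩
    · intro j
      fin_cases j
      · exact e0
      · exact e1
    · intro i j
      fin_cases i <;> fin_cases j
      · exact e2
      · exact e3
      · change O (pd 1 (pd 0 f) x) = pd 1 (pd 0 g) x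
        rw [pd_symm f hf 1 0, pd_symm g hg 1 0]
        exact e3
      · exact e4
  choose! O hO1 hO2 using hO
  have hOd : ∀ y ∈ ball (0:E2) r, ∀ j v, O y (fderiv ℝ (pd j f) y v) = fderiv ℝ (pd j g) y v := by
    intro y hy j v
    rw [clm_expand (fderiv ℝ (pd j f) y) v, clm_expand (fderiv ℝ (pd j g) y) v, map_add, map_smul,
      map_smul]
    have a0 := hO2 y hy 0 j
    have a1 := hO2 y hy 1 j
    unfold pd at a0 a1 ⊢
    rw [a0, a1]
  -- the derivative of `O` vanishes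
  have hder : ∀ u : E3, ∀ x ∈ ball (0:E2) r, HasFDerivAt (fun y => O y u) (0 : E2 →L[ℝ] E3) x := by
    intro u x hx
    obtain ⟨C, δ0, hC, hδ0, hn⟩ := near_isometry _ _ _ (hli x hx)
    rw [hasFDerivAt_iff_isLittleO, Asymptotics.isLittleO_iff]
    intro ε hε
    obtain ⟨ε', hε', hεε⟩ : ∃ ε' : ℝ, 0 < ε' ∧ C * (2 * ε') * ‖u‖ ≤ ε := by
      refine ⟨ε / (2 * C * (‖u‖ + 1)), by positivity, ?_⟩
      have : C * (2 * (ε / (2 * C * (‖u‖ + 1)))) * ‖u‖ = ε * (‖u‖ / (‖u‖ + 1)) := by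
        field_simp
      rw [this]
      have h5 : ‖u‖ / (‖u‖ + 1) ≤ 1 := by
        rw [div_le_one (by positivity)]
        linarith
      nlinarith
    have t0 := taylor_moving (pd 0 f) (pd_contDiff f hf 0) x ε' hε'
    have t1 := taylor_moving (pd 1 f) (pd_contDiff f hf 1) x ε' hε'
    have s0 := taylor_moving (pd 0 g) (pd_contDiff g hg 0) x ε' hε'
    have s1 := taylor_moving (pd 1 g) (pd_contDiff g hg 1) x ε' hε'
    have hcont : ∀ (h : E2 → E3), ContDiff ℝ 2 h → ∀ᶠ y in 𝓝 x,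
        ‖pd 0 (pd 0 h) y - pd 0 (pd 0 h) x‖ < δ0 / 2 := by
      intro h hh
      have hc1 : Continuous (fderiv ℝ (pd 0 h)) :=
        (pd_contDiff h hh 0).continuous_fderiv (by norm_num)
      have hc : Continuous (pd 0 (pd 0 h)) := hc1.clm_apply continuous_const
      have := Metric.tendsto_nhds.1 (hc.tendsto x) (δ0 / 2) (by positivity)
      filter_upwards [this] with y hy
      rwa [dist_eq_norm] at hy
    filter_upwards [t0, t1, s0, s1, hcont f hf, hcont g hg, isOpen_ball.mem_nhds hx] with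
      y t0 t1 s0 s1 c0 c1 hy
    rw [ContinuousLinearMap.zero_apply, sub_zero]
    have key : ∀ j, ‖pd j f x - pd j f y - fderiv ℝ (pd j f) y (x - y)‖ ≤ ε' * ‖y - x‖ →
        ‖pd j g x - pd j g y - fderiv ℝ (pd j g) y (x - y)‖ ≤ ε' * ‖y - x‖ →
        ‖O y (pd j f x) - O x (pd j f x)‖ ≤ 2 * ε' * ‖y - x‖ := by
      intro j ht hs
      have e : O y (pd j f x) - O x (pd j f x) =
          O y (pd j f x - pd j f y - fderiv ℝ (pd j f) y (x - y)) -
          (pd j g x - pd j g y - fderiv ℝ (pd j g) y (x - y)) := by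
        rw [map_sub, map_sub, hOd y hy, hO1 y hy, hO1 x hx]
        abel
      rw [e]
      refine (norm_sub_le _ _).trans ?_
      rw [LinearIsometryEquiv.norm_map]
      linarith
    have k0 := key 0 t0 s0
    have k1 := key 1 t1 s1
    have k2 : ‖O y (pd 0 (pd 0 f) x) - O x (pd 0 (pd 0 f) x)‖ ≤ δ0 := by
      have e : O y (pd 0 (pd 0 f) x) - O x (pd 0 (pd 0 f) x) =
          -O y (pd 0 (pd 0 f) y - pd 0 (pd 0 f) x) + (pd 0 (pd 0 g) y - pd 0 (pd 0 g) x) := by
        rw [map_sub, hO2 y hy, hO2 x hx]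
        abel
      rw [e]
      refine (norm_add_le _ _).trans ?_
      rw [norm_neg, LinearIsometryEquiv.norm_map]
      linarith
    have hR : ∀ v, ‖((O y).trans (O x).symm) v - v‖ = ‖O y v - O x v‖ := by
      intro v
      rw [← LinearIsometryEquiv.norm_map (O x), map_sub]
      simp
    have hfin := hn ((O y).trans (O x).symm) (2 * ε' * ‖y - x‖) (by positivity)
      (by rw [hR]; exact k0) (by rw [hR]; exact k1) (by rw [hR]; exact k2) u
    rw [hR] at hfin
    calc ‖O y u - O x u‖ ≤ C * (2 * ε' * ‖y - x‖) * ‖u‖ := hfin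
      _ = (C * (2 * ε') * ‖u‖) * ‖y - x‖ := by ring
      _ ≤ ε * ‖y - x‖ := mul_le_mul_of_nonneg_right hεε (norm_nonneg _)
  have h0 : (0 : E2) ∈ ball (0:E2) r := mem_ball_self hr
  have hpre : IsPreconnected (ball (0:E2) r) := (convex_ball _ _).isPreconnected
  have hconst : ∀ y ∈ ball (0:E2) r, ∀ u, O y u = O 0 u := by
    intro y hy u
    refine isOpen_ball.is_const_of_fderiv_eq_zero hpre
      (fun z hz => (hder u z hz).differentiableAt.differentiableWithinAt)
      (fun z hz => (hder u z hz).fderiv) hy h0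
  -- the difference is constant
  have hfd : Differentiable ℝ f := hf.differentiable (by norm_num)
  have hgd : Differentiable ℝ g := hg.differentiable (by norm_num)
  have hdiff : ∀ y ∈ ball (0:E2) r, HasFDerivAt (fun y => g y - O 0 (f y)) (0 : E2 →L[ℝ] E3) y := by
    intro y hy
    have d1 : HasFDerivAt g (fderiv ℝ g y) y := (hgd y).hasFDerivAt
    have d2 : HasFDerivAt f (fderiv ℝ f y) y := (hfd y).hasFDerivAt
    have d3 : HasFDerivAt (fun y => O 0 (f y))
        (((O 0).toContinuousLinearEquiv : E3 →L[ℝ] E3).comp (fderiv ℝ f y)) y :=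
      ((O 0).toContinuousLinearEquiv : E3 →L[ℝ] E3).hasFDerivAt.comp y d2
    have d4 := d1.sub d3
    have d5 : fderiv ℝ g y - ((O 0).toContinuousLinearEquiv : E3 →L[ℝ] E3).comp (fderiv ℝ f y) =
        0 := by
      ext1 v
      rw [ContinuousLinearMap.sub_apply, ContinuousLinearMap.comp_apply,
        ContinuousLinearMap.zero_apply, clm_expand (fderiv ℝ g y) v, clm_expand (fderiv ℝ f y) v]
      have a0 := hO1 y hy 0
      have a1 := hO1 y hy 1
      rw [hconst y hy] at a0 a1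
      unfold pd at a0 a1
      change _ - (O 0) _ = _
      rw [map_add, map_smul, map_smul, a0, a1, sub_self]
    rw [d5] at d4
    exact d4
  refine ⟨(O 0).toIsometryEquiv.trans (IsometryEquiv.addRight (g 0 - O 0 (f 0))), fun x hx => ?_⟩
  have hc := isOpen_ball.is_const_of_fderiv_eq_zero hpre
      (fun z hz => (hdiff z hz).differentiableAt.differentiableWithinAt)
      (fun z hz => (hdiff z hz).fderiv) hx h0
  change g x = O 0 (f x) + (g 0 - O 0 (f 0))
  rw [← hc]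
  abel


end J10080
end H575Germ
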