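import Pool.Agent.Helper575.Germ.Defs

open scoped RealInnerProductSpace Topology ContDiff
open MeasureTheory Metric

namespace H575Germ
namespace J10081


theorem sl_pd_contDiff (l : ℕ) (i : Fin 2) (h : E2 → ℝ) (hh : ContDiff ℝ (l + 1 : ℕ) h) :
    ContDiff ℝ l (pd i h) := by
  have h1 : ContDiff ℝ l (fderiv ℝ h) := by
    apply ContDiff.fderiv_right hh
    norm_cast
  exact h1.clm_apply contDiff_const

theorem sl_iter_sub (n : ℕ) : ∀ A B : E2 → ℝ, ContDiff ℝ n A → ContDiff ℝ n B →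
    (pd 0)^[n] (fun x => A x - B x) = fun x => ((pd 0)^[n] A) x - ((pd 0)^[n] B) x := by
  induction n with
  | zero => intro A B _ _; rfl
  | succ n ih =>
    intro A B hA hB
    rw [Function.iterate_succ_apply, Function.iterate_succ_apply, Function.iterate_succ_apply]
    have hd : pd 0 (fun x => A x - B x) = fun x => pd 0 A x - pd 0 B x := by
      funext x
      unfold pd
      have h1 : DifferentiableAt ℝ A x := (hA.differentiable (by norm_cast)) x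
      have h2 : DifferentiableAt ℝ B x := (hB.differentiable (by norm_cast)) x
      rw [fderiv_fun_sub h1 h2]
      rfl
    rw [hd]
    exact ih _ _ (sl_pd_contDiff n 0 A hA) (sl_pd_contDiff n 0 B hB)

theorem sl_iter_congr (n : ℕ) : ∀ (u v : E2 → ℝ) (s : Set E2), IsOpen s →
    (∀ x ∈ s, u x = v x) → ∀ x ∈ s, ((pd 0)^[n] u) x = ((pd 0)^[n] v) x := by
  induction n with
  | zero => intro u v s _ h x hx; exact h x hx
  | succ n ih =>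
    intro u v s hs h x hx
    rw [Function.iterate_succ_apply, Function.iterate_succ_apply]
    refine ih (pd 0 u) (pd 0 v) s hs ?_ x hx
    intro y hy
    unfold pd
    have : u =ᶠ[𝓝 y] v := by
      filter_upwards [hs.mem_nhds hy] with z hz using h z hz
    rw [this.fderiv_eq]

/-- local expansion of the differentiated Gauss equation, `n ≥ 1` -/
theorem star_linear
    (gauss_C2 : ∀ (f g : E2 → E3), ContDiff ℝ 2 f → ContDiff ℝ 2 g → ∀ (p : E2) (r : ℝ),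
      (∀ x ∈ ball p r, ∀ i j, ⟪pd i f x, pd j f x⟫ = ⟪pd i g x, pd j g x⟫) →
      ∀ x ∈ ball p r, ⟪pd 0 (pd 0 f) x, pd 1 (pd 1 f) x⟫ - ⟪pd 0 (pd 1 f) x, pd 0 (pd 1 f) x⟫ =
        ⟪pd 0 (pd 0 g) x, pd 1 (pd 1 g) x⟫ - ⟪pd 0 (pd 1 g) x, pd 0 (pd 1 g) x⟫)
    (christoffel : ∀ (f g : E2 → E3), ContDiff ℝ 2 f → ContDiff ℝ 2 g → ∀ (p : E2) (r : ℝ),
      (∀ x ∈ ball p r, ∀ i j, ⟪pd i f x, pd j f x⟫ = ⟪pd i g x, pd j g x⟫) →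
      ∀ x ∈ ball p r, ∀ i j l,
        ⟪pd i (pd j f) x, pd l f x⟫ = ⟪pd i (pd j g) x, pd l g x⟫)
    (leibniz_rem : ∀ (n : ℕ), 1 ≤ n → ∀ (l : ℕ) (a b : E2 → E3),
      ContDiff ℝ (n + l : ℕ) a → ContDiff ℝ (n + l : ℕ) b →
      ContDiff ℝ (l + 1 : ℕ) (fun x => ((pd 0)^[n] (fun y => ⟪a y, b y⟫)) x
        - ⟪((pd 0)^[n] a) x, b x⟫ - ⟪a x, ((pd 0)^[n] b) x⟫))
    (contDiff_pd_iter : ∀ (n l : ℕ) (h : E2 → E3), ContDiff ℝ (n + l : ℕ) h →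
      ContDiff ℝ l ((pd 0)^[n] h))
    (contDiff_pd : ∀ (l : ℕ) (i : Fin 2) (h : E2 → E3), ContDiff ℝ (l + 1 : ℕ) h →
      ContDiff ℝ l (pd i h))
    (T_comm : ∀ (n : ℕ) (i j : Fin 2) (h : E2 → E3), ContDiff ℝ (n + 2 : ℕ) h →
      T n i j h = (pd 0)^[n] (pd i (pd j h)))
    (decomp : ∀ (a0 a1 N b0 b1 M v v' : E3), ‖N‖ = 1 → ‖M‖ = 1 → ⟪a0, N⟫ = 0 → ⟪a1, N⟫ = 0 →
      ⟪b0, M⟫ = 0 → ⟪b1, M⟫ = 0 → LinearIndependent ℝ ![a0, a1] →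
      ⟪a0, a0⟫ = ⟪b0, b0⟫ → ⟪a0, a1⟫ = ⟪b0, b1⟫ → ⟪a1, a1⟫ = ⟪b1, b1⟫ →
      ⟪v, a0⟫ = ⟪v', b0⟫ → ⟪v, a1⟫ = ⟪v', b1⟫ →
      ∃ c0 c1 : ℝ, v = c0 • a0 + c1 • a1 + ⟪v, N⟫ • N ∧ v' = c0 • b0 + c1 • b1 + ⟪v', M⟫ • M)
    (n : ℕ) (hn : 1 ≤ n) (f g : E2 → E3) (hf : ContDiff ℝ (n + 2 : ℕ) f)
    (hg : ContDiff ℝ (n + 2 : ℕ) g) (p : E2) (r : ℝ) (hr : 0 < r)
    (hmet : ∀ x ∈ ball p r, ∀ i j, ⟪pd i f x, pd j f x⟫ = ⟪pd i g x, pd j g x⟫)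
    (himm : LinearIndependent ℝ ![pd 0 f p, pd 1 f p])
    (Nf Ng : E3) (hNf : ‖Nf‖ = 1) (hNg : ‖Ng‖ = 1)
    (hNf' : ∀ i, ⟪pd i f p, Nf⟫ = 0) (hNg' : ∀ i, ⟪pd i g p, Ng⟫ = 0) :
    ∃ (c C r' : ℝ), 0 < r' ∧ ∀ x ∈ ball p r',
      |(⟪pd 1 (pd 1 g) p, Ng⟫ * ⟪T n 0 0 g x, Ng⟫ - 2 * ⟪pd 0 (pd 1 g) p, Ng⟫ * ⟪T n 0 1 g x, Ng⟫
          + ⟪pd 0 (pd 0 g) p, Ng⟫ * ⟪T n 1 1 g x, Ng⟫)
        - (⟪pd 1 (pd 1 f) p, Nf⟫ * ⟪T n 0 0 f x, Nf⟫ - 2 * ⟪pd 0 (pd 1 f) p, Nf⟫ * ⟪T n 0 1 f x, Nf⟫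
          + ⟪pd 0 (pd 0 f) p, Nf⟫ * ⟪T n 1 1 f x, Nf⟫) - c| ≤ C * ‖x - p‖ := by
  -- the class of functions which are constant up to `O(|x - p|)`
  obtain ⟨Q, hQ⟩ : ∃ Q : (E2 → ℝ) → Prop, ∀ F, Q F ↔
      ∃ c : ℝ, (fun x => F x - c) =O[𝓝 p] (fun x => x - p) := ⟨_, fun F => Iff.rfl⟩
  have Qadd : ∀ F G : E2 → ℝ, Q F → Q G → Q (fun x => F x + G x) := by
    intro F G hF hG
    rw [hQ] at hF hG ⊢
    obtain ⟨c, hc⟩ := hF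
    obtain ⟨d, hd⟩ := hG
    exact ⟨c + d, (hc.add hd).congr_left (fun x => by ring)⟩
  have Qmul : ∀ (k : ℝ) (F : E2 → ℝ), Q F → Q (fun x => k * F x) := by
    intro k F hF
    rw [hQ] at hF ⊢
    obtain ⟨c, hc⟩ := hF
    exact ⟨k * c, (hc.const_mul_left k).congr_left (fun x => by ring)⟩
  have Qsub : ∀ F G : E2 → ℝ, Q F → Q G → Q (fun x => F x - G x) := by
    intro F G hF hG
    have h := Qadd _ _ hF (Qmul (-1) _ hG)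
    have e : (fun x => F x - G x) = fun x => F x + -1 * G x := by funext x; ring
    rw [e]
    exact h
  have Qcongr : ∀ F G : E2 → ℝ, (∀ x ∈ ball p r, F x = G x) → Q F → Q G := by
    intro F G h hF
    rw [hQ] at hF ⊢
    obtain ⟨c, hc⟩ := hF
    refine ⟨c, hc.congr' ?_ (Filter.EventuallyEq.refl _ _)⟩
    filter_upwards [ball_mem_nhds p hr] with x hx
    rw [h x hx]
  have Qdiff : ∀ F : E2 → ℝ, DifferentiableAt ℝ F p → Q F := by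
    intro F hF
    rw [hQ]
    exact ⟨F p, hF.hasFDerivAt.isBigO_sub⟩
  have QC1 : ∀ F : E2 → ℝ, ContDiff ℝ (0 + 1 : ℕ) F → Q F := by
    intro F hF
    exact Qdiff F ((hF.differentiable (by norm_num)) p)
  -- freezing
  have Qfreeze : ∀ U V : E2 → E3, Continuous U → DifferentiableAt ℝ V p →
      Q (fun x => ⟪U x, V x⟫ - ⟪U x, V p⟫) := by
    intro U V hU hV
    rw [hQ]
    refine ⟨0, ?_⟩
    have h1 : (fun x => V x - V p) =O[𝓝 p] (fun x => x - p) := hV.hasFDerivAt.isBigO_sub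
    have h2 : (fun x => ‖U x‖) =O[𝓝 p] (fun _ => (1 : ℝ)) :=
      (hU.norm.continuousAt (x := p)).isBigO_one ℝ
    have h3 : (fun x => ‖U x‖ * ‖V x - V p‖) =O[𝓝 p] (fun x => (1 : ℝ) * ‖x - p‖) :=
      h2.mul h1.norm_norm
    have h4 : (fun x => ⟪U x, V x⟫ - ⟪U x, V p⟫ - 0) =O[𝓝 p] (fun x => ‖U x‖ * ‖V x - V p‖) := by
      refine Asymptotics.IsBigO.of_bound 1 (Filter.Eventually.of_forall ?_)
      intro x
      rw [sub_zero, ← inner_sub_right, one_mul, norm_mul, norm_norm, norm_norm]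
      exact norm_inner_le_norm _ _
    refine (h4.trans h3).trans ?_
    simp only [one_mul]
    exact Asymptotics.isBigO_norm_left.2 (Asymptotics.isBigO_refl _ _)
  -- regularity
  have hn0 : ((0 : ℕ) : ℕ) + 1 ≤ n := by omega
  have c2 : ∀ h : E2 → E3, ContDiff ℝ (n + 2 : ℕ) h → ContDiff ℝ 2 h := by
    intro h hh
    refine hh.of_le ?_
    norm_cast
    omega
  have cl : ∀ h : E2 → E3, ContDiff ℝ (n + 2 : ℕ) h → ∀ l, ContDiff ℝ (n + 1 : ℕ) (pd l h) := by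
    intro h hh l
    exact contDiff_pd (n + 1) l h hh
  have cij : ∀ h : E2 → E3, ContDiff ℝ (n + 2 : ℕ) h → ∀ i j, ContDiff ℝ n (pd i (pd j h)) := by
    intro h hh i j
    exact contDiff_pd n i _ (cl h hh j)
  have dij : ∀ h : E2 → E3, ContDiff ℝ (n + 2 : ℕ) h → ∀ i j,
      Differentiable ℝ (pd i (pd j h)) := by
    intro h hh i j
    refine (cij h hh i j).differentiable ?_
    norm_cast
    omega
  have cT : ∀ h : E2 → E3, ContDiff ℝ (n + 2 : ℕ) h → ∀ i j, Continuous (T n i j h) := by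
    intro h hh i j
    rw [T_comm n i j h hh]
    exact (contDiff_pd_iter n 0 _ (cij h hh i j)).continuous
  -- the function `S_h`
  have hS : ∀ h : E2 → E3, ContDiff ℝ (n + 2 : ℕ) h →
      Q (fun x => ((pd 0)^[n] (fun y => ⟪pd 0 (pd 0 h) y, pd 1 (pd 1 h) y⟫ -
          ⟪pd 0 (pd 1 h) y, pd 0 (pd 1 h) y⟫)) x -
        (⟪T n 0 0 h x, pd 1 (pd 1 h) p⟫ + ⟪T n 1 1 h x, pd 0 (pd 0 h) p⟫
          - 2 * ⟪T n 0 1 h x, pd 0 (pd 1 h) p⟫)) := by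
    intro h hh
    have e1 := sl_iter_sub n (fun y => ⟪pd 0 (pd 0 h) y, pd 1 (pd 1 h) y⟫)
      (fun y => ⟪pd 0 (pd 1 h) y, pd 0 (pd 1 h) y⟫)
      ((cij h hh 0 0).inner ℝ (cij h hh 1 1)) ((cij h hh 0 1).inner ℝ (cij h hh 0 1))
    rw [e1]
    have q1 := QC1 _ (leibniz_rem n hn 0 _ _ (cij h hh 0 0) (cij h hh 1 1))
    have q2 := QC1 _ (leibniz_rem n hn 0 _ _ (cij h hh 0 1) (cij h hh 0 1))
    rw [← T_comm n 0 0 h hh, ← T_comm n 1 1 h hh] at q1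
    rw [← T_comm n 0 1 h hh] at q2
    have f1 := Qfreeze _ _ (cT h hh 0 0) (dij h hh 1 1 p)
    have f2 := Qfreeze _ _ (cT h hh 1 1) (dij h hh 0 0 p)
    have f3 := Qmul 2 _ (Qfreeze _ _ (cT h hh 0 1) (dij h hh 0 1 p))
    have := Qadd _ _ (Qsub _ _ q1 q2) (Qsub _ _ (Qadd _ _ f1 f2) f3)
    convert this using 1
    funext x
    rw [real_inner_comm (T n 1 1 h x) (pd 0 (pd 0 h) x), real_inner_comm (T n 0 1 h x) (pd 0 (pd 1 h) x)]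
    ring
  -- the tangential functions
  have hC : ∀ h : E2 → E3, ContDiff ℝ (n + 2 : ℕ) h → ∀ i j l,
      Q (fun x => ((pd 0)^[n] (fun y => ⟪pd i (pd j h) y, pd l h y⟫)) x -
        ⟪T n i j h x, pd l h p⟫) := by
    intro h hh i j l
    have hl : ContDiff ℝ n (pd l h) := (cl h hh l).of_le (by norm_cast; omega)
    have q1 := QC1 _ (leibniz_rem n hn 0 _ _ (cij h hh i j) hl)
    rw [← T_comm n i j h hh] at q1
    have q2 : Q (fun x => ⟪pd i (pd j h) x, ((pd 0)^[n] (pd l h)) x⟫) := by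
      apply Qdiff
      have h1 : ContDiff ℝ 1 ((pd 0)^[n] (pd l h)) := contDiff_pd_iter n 1 _ (cl h hh l)
      exact ((dij h hh i j) p).inner ℝ ((h1.differentiable (by norm_num)) p)
    have f1 := Qfreeze _ _ (cT h hh i j) (((cl h hh l).differentiable (by norm_cast)) p)
    have := Qadd _ _ (Qadd _ _ q1 q2) f1
    convert this using 1
    funext x
    ring
  -- comparison of `f` and `g`
  have gS : Q (fun x => (⟪T n 0 0 g x, pd 1 (pd 1 g) p⟫ + ⟪T n 1 1 g x, pd 0 (pd 0 g) p⟫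
          - 2 * ⟪T n 0 1 g x, pd 0 (pd 1 g) p⟫) -
        (⟪T n 0 0 f x, pd 1 (pd 1 f) p⟫ + ⟪T n 1 1 f x, pd 0 (pd 0 f) p⟫
          - 2 * ⟪T n 0 1 f x, pd 0 (pd 1 f) p⟫)) := by
    have hK := sl_iter_congr n _ _ (ball p r) isOpen_ball
      (gauss_C2 f g (c2 f hf) (c2 g hg) p r hmet)
    refine Qcongr _ _ ?_ (Qsub _ _ (hS f hf) (hS g hg))
    intro x hx
    have := hK x hx
    simp only [this]
    ring
  have gC : ∀ i j l, Q (fun x => ⟪T n i j g x, pd l g p⟫ - ⟪T n i j f x, pd l f p⟫) := by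
    intro i j l
    have hK := sl_iter_congr n _ _ (ball p r) isOpen_ball
      (fun x hx => christoffel f g (c2 f hf) (c2 g hg) p r hmet x hx i j l)
    refine Qcongr _ _ ?_ (Qsub _ _ (hC f hf i j l) (hC g hg i j l))
    intro x hx
    have := hK x hx
    simp only [this]
    ring
  -- decomposition of the second derivatives at `p`
  have hpp : p ∈ ball p r := mem_ball_self hr
  have dec : ∀ i j, ∃ c0 c1 : ℝ,
      pd i (pd j f) p = c0 • pd 0 f p + c1 • pd 1 f p + ⟪pd i (pd j f) p, Nf⟫ • Nf ∧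
      pd i (pd j g) p = c0 • pd 0 g p + c1 • pd 1 g p + ⟪pd i (pd j g) p, Ng⟫ • Ng := by
    intro i j
    exact decomp _ _ _ _ _ _ _ _ hNf hNg (hNf' 0) (hNf' 1) (hNg' 0) (hNg' 1) himm
      (hmet p hpp 0 0) (hmet p hpp 0 1) (hmet p hpp 1 1)
      (christoffel f g (c2 f hf) (c2 g hg) p r hmet p hpp i j 0)
      (christoffel f g (c2 f hf) (c2 g hg) p r hmet p hpp i j 1)
  obtain ⟨a0, a1, ha1, ha2⟩ := dec 0 0
  obtain ⟨b0, b1, hb1, hb2⟩ := dec 0 1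
  obtain ⟨d0, d1, hd1, hd2⟩ := dec 1 1
  have key : Q (fun x => (⟪pd 1 (pd 1 g) p, Ng⟫ * ⟪T n 0 0 g x, Ng⟫
          - 2 * ⟪pd 0 (pd 1 g) p, Ng⟫ * ⟪T n 0 1 g x, Ng⟫
          + ⟪pd 0 (pd 0 g) p, Ng⟫ * ⟪T n 1 1 g x, Ng⟫)
        - (⟪pd 1 (pd 1 f) p, Nf⟫ * ⟪T n 0 0 f x, Nf⟫ - 2 * ⟪pd 0 (pd 1 f) p, Nf⟫ * ⟪T n 0 1 f x, Nf⟫
          + ⟪pd 0 (pd 0 f) p, Nf⟫ * ⟪T n 1 1 f x, Nf⟫)) := by
    have t1 := Qadd _ _ (Qmul d0 _ (gC 0 0 0)) (Qmul d1 _ (gC 0 0 1))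
    have t2 := Qadd _ _ (Qmul a0 _ (gC 1 1 0)) (Qmul a1 _ (gC 1 1 1))
    have t3 := Qadd _ _ (Qmul (2 * b0) _ (gC 0 1 0)) (Qmul (2 * b1) _ (gC 0 1 1))
    have := Qsub _ _ gS (Qsub _ _ (Qadd _ _ t1 t2) t3)
    convert this using 1
    funext x
    have inr : ∀ (v a b N : E3) (s t k : ℝ), ⟪v, s • a + t • b + k • N⟫ =
        s * ⟪v, a⟫ + t * ⟪v, b⟫ + k * ⟪v, N⟫ := by
      intro v a b N s t k
      rw [inner_add_right, inner_add_right, real_inner_smul_right, real_inner_smul_right,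
        real_inner_smul_right]
    have x1 : ⟪T n 0 0 g x, pd 1 (pd 1 g) p⟫ = d0 * ⟪T n 0 0 g x, pd 0 g p⟫ +
        d1 * ⟪T n 0 0 g x, pd 1 g p⟫ + ⟪pd 1 (pd 1 g) p, Ng⟫ * ⟪T n 0 0 g x, Ng⟫ := by
      conv_lhs => rw [hd2]
      exact inr _ _ _ _ _ _ _
    have x2 : ⟪T n 1 1 g x, pd 0 (pd 0 g) p⟫ = a0 * ⟪T n 1 1 g x, pd 0 g p⟫ +
        a1 * ⟪T n 1 1 g x, pd 1 g p⟫ + ⟪pd 0 (pd 0 g) p, Ng⟫ * ⟪T n 1 1 g x, Ng⟫ := by
      conv_lhs => rw [ha2]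
      exact inr _ _ _ _ _ _ _
    have x3 : ⟪T n 0 1 g x, pd 0 (pd 1 g) p⟫ = b0 * ⟪T n 0 1 g x, pd 0 g p⟫ +
        b1 * ⟪T n 0 1 g x, pd 1 g p⟫ + ⟪pd 0 (pd 1 g) p, Ng⟫ * ⟪T n 0 1 g x, Ng⟫ := by
      conv_lhs => rw [hb2]
      exact inr _ _ _ _ _ _ _
    have y1 : ⟪T n 0 0 f x, pd 1 (pd 1 f) p⟫ = d0 * ⟪T n 0 0 f x, pd 0 f p⟫ +
        d1 * ⟪T n 0 0 f x, pd 1 f p⟫ + ⟪pd 1 (pd 1 f) p, Nf⟫ * ⟪T n 0 0 f x, Nf⟫ := by
      conv_lhs => rw [hd1]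
      exact inr _ _ _ _ _ _ _
    have y2 : ⟪T n 1 1 f x, pd 0 (pd 0 f) p⟫ = a0 * ⟪T n 1 1 f x, pd 0 f p⟫ +
        a1 * ⟪T n 1 1 f x, pd 1 f p⟫ + ⟪pd 0 (pd 0 f) p, Nf⟫ * ⟪T n 1 1 f x, Nf⟫ := by
      conv_lhs => rw [ha1]
      exact inr _ _ _ _ _ _ _
    have y3 : ⟪T n 0 1 f x, pd 0 (pd 1 f) p⟫ = b0 * ⟪T n 0 1 f x, pd 0 f p⟫ +
        b1 * ⟪T n 0 1 f x, pd 1 f p⟫ + ⟪pd 0 (pd 1 f) p, Nf⟫ * ⟪T n 0 1 f x, Nf⟫ := by
      conv_lhs => rw [hb1]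
      exact inr _ _ _ _ _ _ _
    simp only [x1, x2, x3, y1, y2, y3]
    ring
  rw [hQ] at key
  obtain ⟨c, hc⟩ := key
  obtain ⟨C, hC'⟩ := hc.bound
  rw [Metric.eventually_nhds_iff_ball] at hC'
  obtain ⟨r', hr', hball⟩ := hC'
  exact ⟨c, C, r', hr', fun x hx => by simpa [Real.norm_eq_abs] using hball x hx⟩


end J10081
end H575Germ
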