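import Pool.Agent.Helper575.Germ.Defs

open scoped RealInnerProductSpace Topology ContDiff
open MeasureTheory Metric

namespace H575Germ
namespace J10083


/-- local expansion of the Gauss equation, `n = 0` -/
theorem star_quadratic
    (gauss_C2 : ∀ (f g : E2 → E3), ContDiff ℝ 2 f → ContDiff ℝ 2 g → ∀ (p : E2) (r : ℝ),
      (∀ x ∈ ball p r, ∀ i j, ⟪pd i f x, pd j f x⟫ = ⟪pd i g x, pd j g x⟫) →
      ∀ x ∈ ball p r, ⟪pd 0 (pd 0 f) x, pd 1 (pd 1 f) x⟫ - ⟪pd 0 (pd 1 f) x, pd 0 (pd 1 f) x⟫ =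
        ⟪pd 0 (pd 0 g) x, pd 1 (pd 1 g) x⟫ - ⟪pd 0 (pd 1 g) x, pd 0 (pd 1 g) x⟫)
    (christoffel : ∀ (f g : E2 → E3), ContDiff ℝ 2 f → ContDiff ℝ 2 g → ∀ (p : E2) (r : ℝ),
      (∀ x ∈ ball p r, ∀ i j, ⟪pd i f x, pd j f x⟫ = ⟪pd i g x, pd j g x⟫) →
      ∀ x ∈ ball p r, ∀ i j l,
        ⟪pd i (pd j f) x, pd l f x⟫ = ⟪pd i (pd j g) x, pd l g x⟫)
    (tang_formula : ∀ (a0 a1 N v w : E3), ‖N‖ = 1 → ⟪a0, N⟫ = 0 → ⟪a1, N⟫ = 0 →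
      LinearIndependent ℝ ![a0, a1] →
      (⟪a0, a0⟫ * ⟪a1, a1⟫ - ⟪a0, a1⟫ ^ 2) * (⟪v, w⟫ - ⟪v, N⟫ * ⟪w, N⟫) =
      ⟪a1, a1⟫ * (⟪v, a0⟫ * ⟪w, a0⟫) - ⟪a0, a1⟫ * (⟪v, a0⟫ * ⟪w, a1⟫ + ⟪v, a1⟫ * ⟪w, a0⟫)
        + ⟪a0, a0⟫ * (⟪v, a1⟫ * ⟪w, a1⟫))
    (gram_pos : ∀ (a0 a1 : E3), LinearIndependent ℝ ![a0, a1] →
      0 < ⟪a0, a0⟫ * ⟪a1, a1⟫ - ⟪a0, a1⟫ ^ 2)
    (f g : E2 → E3) (hf : ContDiff ℝ 2 f)
    (hg : ContDiff ℝ 2 g) (p : E2) (r : ℝ) (hr : 0 < r)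
    (hmet : ∀ x ∈ ball p r, ∀ i j, ⟪pd i f x, pd j f x⟫ = ⟪pd i g x, pd j g x⟫)
    (himm : LinearIndependent ℝ ![pd 0 f p, pd 1 f p])
    (Nf Ng : E3) (hNf : ‖Nf‖ = 1) (hNg : ‖Ng‖ = 1)
    (hNf' : ∀ i, ⟪pd i f p, Nf⟫ = 0) (hNg' : ∀ i, ⟪pd i g p, Ng⟫ = 0) :
    ∃ (C r' : ℝ), 0 < r' ∧ ∀ x ∈ ball p r',
      |(⟪pd 0 (pd 0 g) x, Ng⟫ * ⟪pd 1 (pd 1 g) x, Ng⟫ - ⟪pd 0 (pd 1 g) x, Ng⟫ ^ 2)
        - (⟪pd 0 (pd 0 f) x, Nf⟫ * ⟪pd 1 (pd 1 f) x, Nf⟫ - ⟪pd 0 (pd 1 f) x, Nf⟫ ^ 2)|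
        ≤ C * ‖x - p‖ := by
  have hC1 : ∀ (h : E2 → E3), ContDiff ℝ 2 h → ∀ l, ContDiff ℝ 1 (pd l h) := by
    intro h hh l
    exact (hh.fderiv_right (m := 1) (by norm_num)).clm_apply contDiff_const
  have hC0 : ∀ (h : E2 → E3), ContDiff ℝ 2 h → ∀ i j, Continuous (pd i (pd j h)) := by
    intro h hh i j
    exact ((hC1 h hh j).continuous_fderiv (by norm_num)).clm_apply continuous_const
  have hloc : ∀ (h : E2 → E3), ContDiff ℝ 2 h → ∀ i j l,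
      (fun x => ⟪pd i (pd j h) x, pd l h p⟫ - ⟪pd i (pd j h) x, pd l h x⟫)
        =O[𝓝 p] (fun x => ‖x - p‖) := by
    intro h hh i j l
    have h1 : (fun x => ‖pd i (pd j h) x‖) =O[𝓝 p] (fun _ => (1 : ℝ)) :=
      ((hC0 h hh i j).norm.tendsto p).isBigO_one ℝ
    have h2 : (fun x => ‖pd l h x - pd l h p‖) =O[𝓝 p] (fun x => ‖x - p‖) := by
      have hd : DifferentiableAt ℝ (pd l h) p :=
        ((hC1 h hh l).differentiable (by norm_num)).differentiableAt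
      exact hd.isBigO_sub.norm_norm
    have h3 := h1.mul h2
    simp only [one_mul] at h3
    refine Asymptotics.IsBigO.trans (Asymptotics.IsBigO.of_bound 1
      (Filter.Eventually.of_forall fun x => ?_)) h3
    rw [← inner_sub_right, one_mul, norm_mul, norm_norm, norm_norm]
    refine (norm_inner_le_norm _ _).trans ?_
    rw [norm_sub_rev]
  have hδ : ∀ i j l, (fun x => ⟪pd i (pd j f) x, pd l f p⟫ - ⟪pd i (pd j g) x, pd l g p⟫)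
        =O[𝓝 p] (fun x => ‖x - p‖) := by
    intro i j l
    refine ((hloc f hf i j l).sub (hloc g hg i j l)).congr' ?_ Filter.EventuallyEq.rfl
    filter_upwards [ball_mem_nhds p hr] with x hx
    have := christoffel f g hf hg p r hmet x hx i j l
    linarith
  have hbd : ∀ (h : E2 → E3), ContDiff ℝ 2 h → ∀ i j l,
      (fun x => ⟪pd i (pd j h) x, pd l h p⟫) =O[𝓝 p] (fun _ => (1 : ℝ)) := by
    intro h hh i j l
    have hc : Continuous (fun x => ⟪pd i (pd j h) x, pd l h p⟫) :=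
      (hC0 h hh i j).inner continuous_const
    exact (hc.tendsto p).isBigO_one ℝ
  have hprod : ∀ i j a k l b,
      (fun x => ⟪pd i (pd j f) x, pd a f p⟫ * ⟪pd k (pd l f) x, pd b f p⟫ -
        ⟪pd i (pd j g) x, pd a g p⟫ * ⟪pd k (pd l g) x, pd b g p⟫)
        =O[𝓝 p] (fun x => ‖x - p‖) := by
    intro i j a k l b
    have h1 := (hbd f hf i j a).mul (hδ k l b)
    have h2 := (hδ i j a).mul (hbd g hg k l b)
    simp only [one_mul] at h1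
    simp only [mul_one] at h2
    refine (h1.add h2).congr_left fun x => ?_
    ring
  have hp : p ∈ ball p r := mem_ball_self hr
  have m00 := hmet p hp 0 0
  have m01 := hmet p hp 0 1
  have m10 := hmet p hp 1 0
  have m11 := hmet p hp 1 1
  have hdet := gram_pos _ _ himm
  have himg : LinearIndependent ℝ ![pd 0 g p, pd 1 g p] := by
    rw [LinearIndependent.pair_iff]
    intro s t hst
    have e0 := congrArg (fun v => ⟪v, pd 0 g p⟫) hst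
    have e1 := congrArg (fun v => ⟪v, pd 1 g p⟫) hst
    simp only [inner_add_left, real_inner_smul_left, inner_zero_left] at e0 e1
    rw [← m00, ← m10] at e0
    rw [← m01, ← m11] at e1
    have hsym : ⟪pd 1 f p, pd 0 f p⟫ = ⟪pd 0 f p, pd 1 f p⟫ := real_inner_comm _ _
    rw [hsym] at e0
    generalize ⟪pd 0 f p, pd 0 f p⟫ = A at *
    generalize ⟪pd 0 f p, pd 1 f p⟫ = B at *
    generalize ⟪pd 1 f p, pd 1 f p⟫ = D at *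
    have hs : s * (A * D - B ^ 2) = 0 := by linear_combination D * e0 - B * e1
    have ht : t * (A * D - B ^ 2) = 0 := by linear_combination A * e1 - B * e0
    exact ⟨(mul_eq_zero.1 hs).resolve_right hdet.ne', (mul_eq_zero.1 ht).resolve_right hdet.ne'⟩
  set A : ℝ := ⟪pd 0 f p, pd 0 f p⟫ with hA
  set B : ℝ := ⟪pd 0 f p, pd 1 f p⟫ with hB
  set D : ℝ := ⟪pd 1 f p, pd 1 f p⟫ with hD
  have hBO : ∀ i j k l,
      (fun x => (D * (⟪pd i (pd j f) x, pd 0 f p⟫ * ⟪pd k (pd l f) x, pd 0 f p⟫)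
        - B * (⟪pd i (pd j f) x, pd 0 f p⟫ * ⟪pd k (pd l f) x, pd 1 f p⟫
          + ⟪pd i (pd j f) x, pd 1 f p⟫ * ⟪pd k (pd l f) x, pd 0 f p⟫)
        + A * (⟪pd i (pd j f) x, pd 1 f p⟫ * ⟪pd k (pd l f) x, pd 1 f p⟫)) -
        (D * (⟪pd i (pd j g) x, pd 0 g p⟫ * ⟪pd k (pd l g) x, pd 0 g p⟫)
        - B * (⟪pd i (pd j g) x, pd 0 g p⟫ * ⟪pd k (pd l g) x, pd 1 g p⟫
          + ⟪pd i (pd j g) x, pd 1 g p⟫ * ⟪pd k (pd l g) x, pd 0 g p⟫)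
        + A * (⟪pd i (pd j g) x, pd 1 g p⟫ * ⟪pd k (pd l g) x, pd 1 g p⟫)))
        =O[𝓝 p] (fun x => ‖x - p‖) := by
    intro i j k l
    refine ((((hprod i j 0 k l 0).const_mul_left D).sub
      (((hprod i j 0 k l 1).add (hprod i j 1 k l 0)).const_mul_left B)).add
      ((hprod i j 1 k l 1).const_mul_left A)).congr_left fun x => ?_
    ring
  have hfin : (fun x => (⟪pd 0 (pd 0 g) x, Ng⟫ * ⟪pd 1 (pd 1 g) x, Ng⟫ -
      ⟪pd 0 (pd 1 g) x, Ng⟫ ^ 2)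
        - (⟪pd 0 (pd 0 f) x, Nf⟫ * ⟪pd 1 (pd 1 f) x, Nf⟫ - ⟪pd 0 (pd 1 f) x, Nf⟫ ^ 2))
        =O[𝓝 p] (fun x => ‖x - p‖) := by
    refine (((hBO 0 0 1 1).sub (hBO 0 1 0 1)).const_mul_left (A * D - B ^ 2)⁻¹).congr' ?_
      Filter.EventuallyEq.rfl
    filter_upwards [ball_mem_nhds p hr] with x hx
    have hg0 := gauss_C2 f g hf hg p r hmet x hx
    have tf1 := tang_formula (pd 0 f p) (pd 1 f p) Nf (pd 0 (pd 0 f) x) (pd 1 (pd 1 f) x) hNf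
      (hNf' 0) (hNf' 1) himm
    have tf2 := tang_formula (pd 0 f p) (pd 1 f p) Nf (pd 0 (pd 1 f) x) (pd 0 (pd 1 f) x) hNf
      (hNf' 0) (hNf' 1) himm
    have tg1 := tang_formula (pd 0 g p) (pd 1 g p) Ng (pd 0 (pd 0 g) x) (pd 1 (pd 1 g) x) hNg
      (hNg' 0) (hNg' 1) himg
    have tg2 := tang_formula (pd 0 g p) (pd 1 g p) Ng (pd 0 (pd 1 g) x) (pd 0 (pd 1 g) x) hNg
      (hNg' 0) (hNg' 1) himg
    rw [← m00, ← m01, ← m11] at tg1 tg2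
    rw [← hA, ← hB, ← hD] at tf1 tf2
    rw [← tf1, ← tf2, ← tg1, ← tg2]
    rw [inv_mul_eq_iff_eq_mul₀ hdet.ne']
    linear_combination (A * D - B ^ 2) * hg0
  obtain ⟨C, hC⟩ := hfin.bound
  obtain ⟨r', hr', hball⟩ := Metric.eventually_nhds_iff_ball.1 hC
  refine ⟨C, r', hr', fun x hx => ?_⟩
  have h := hball x hx
  rwa [Real.norm_eq_abs, norm_norm] at h


end J10083
end H575Germ
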