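import Pool.Agent.Helper575.Germ.Defs

open scoped RealInnerProductSpace Topology ContDiff
open MeasureTheory Metric

namespace H575Germ
namespace J9676


theorem nl_quot (f : E2 → ℝ) (hf : Differentiable ℝ f) (s : Set E2) (hs : Convex ℝ s) (C : ℝ)
    (hC : ∀ x ∈ s, ‖fderiv ℝ f x‖ ≤ C) (x v : E2) (h : ℝ) (hh : h ≠ 0) (hx : x ∈ s)
    (hxv : x + h • v ∈ s) : ‖h⁻¹ * (f (x + h • v) - f x)‖ ≤ C * ‖v‖ := by
  have h1 := hs.norm_image_sub_le_of_norm_fderiv_le (fun x _ => hf x) hC hx hxv
  rw [add_sub_cancel_left, norm_smul] at h1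
  rw [norm_mul, norm_inv]
  have h2 : 0 < ‖h‖ := norm_pos_iff.mpr hh
  rw [inv_mul_le_iff₀ h2]
  linarith

theorem nl_lim (a b : E2 → ℝ) (ha : ContDiff ℝ 1 a) (hac : HasCompactSupport a)
    (hb : ContDiff ℝ 1 b) (v w : E2) :
    Filter.Tendsto (fun h : ℝ => ∫ x, (h⁻¹ * (a (x + h • v) - a x)) * (h⁻¹ * (b (x + h • w) - b x)))
      (𝓝[≠] 0) (𝓝 (∫ x, fderiv ℝ a x v * fderiv ℝ b x w)) := by
  obtain ⟨R, hR⟩ := hac.isCompact.isBounded.subset_closedBall (0 : E2)
  obtain ⟨Ca, hCa⟩ := (hac.fderiv ℝ).exists_bound_of_continuous (ha.continuous_fderiv (by norm_num))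
  obtain ⟨Cb, hCb⟩ := (isCompact_closedBall (0 : E2) (|R| + ‖v‖ + ‖w‖)).exists_bound_of_continuousOn
    (hb.continuous_fderiv (by norm_num)).continuousOn
  have hCa0 : 0 ≤ Ca := (norm_nonneg _).trans (hCa 0)
  have hlin : ∀ (f : E2 → ℝ), ContDiff ℝ 1 f → ∀ (x v : E2), Filter.Tendsto
      (fun h : ℝ => h⁻¹ * (f (x + h • v) - f x)) (𝓝[≠] 0) (𝓝 (fderiv ℝ f x v)) := by
    intro f hf x v
    have h1 : HasFDerivAt f (fderiv ℝ f x) x := (hf.differentiable (by norm_num) x).hasFDerivAt
    have h2 := h1.hasLineDerivAt v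
    have h3 := h2.tendsto_slope_zero
    simpa using h3
  refine tendsto_integral_filter_of_dominated_convergence
    ((closedBall (0 : E2) (|R| + ‖v‖)).indicator (fun _ => (Ca * ‖v‖) * (Cb * ‖w‖))) ?_ ?_ ?_ ?_
  · refine Filter.Eventually.of_forall (fun h => ?_)
    refine Continuous.aestronglyMeasurable ?_
    have h1 := ha.continuous
    have h2 := hb.continuous
    fun_prop
  · have hmem : {h : ℝ | |h| ≤ 1 ∧ h ≠ 0} ∈ 𝓝[≠] (0 : ℝ) := by
      rw [mem_nhdsWithin]
      refine ⟨Metric.ball 0 1, Metric.isOpen_ball, Metric.mem_ball_self one_pos, ?_⟩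
      rintro h ⟨h1, h2⟩
      rw [Metric.mem_ball, dist_zero_right] at h1
      exact ⟨h1.le, h2⟩
    filter_upwards [hmem] with h hh
    refine Filter.Eventually.of_forall (fun x => ?_)
    have hhv : ‖h • v‖ ≤ ‖v‖ := by
      rw [norm_smul]
      exact mul_le_of_le_one_left (norm_nonneg _) hh.1
    have hhw : ‖h • w‖ ≤ ‖w‖ := by
      rw [norm_smul]
      exact mul_le_of_le_one_left (norm_nonneg _) hh.1
    by_cases hx : x ∈ closedBall (0 : E2) (|R| + ‖v‖)
    · rw [Set.indicator_of_mem hx, norm_mul]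
      rw [mem_closedBall_zero_iff] at hx
      refine mul_le_mul ?_ ?_ (norm_nonneg _) (mul_nonneg hCa0 (norm_nonneg _))
      · exact nl_quot a (ha.differentiable (by norm_num)) Set.univ convex_univ Ca (fun x _ => hCa x)
          x v h hh.2 (Set.mem_univ _) (Set.mem_univ _)
      · refine nl_quot b (hb.differentiable (by norm_num)) _ (convex_closedBall _ _) Cb hCb
          x w h hh.2 ?_ ?_
        · rw [mem_closedBall_zero_iff]
          linarith [norm_nonneg w]
        · rw [mem_closedBall_zero_iff]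
          exact (norm_add_le _ _).trans (by linarith)
    · rw [Set.indicator_of_notMem hx]
      rw [mem_closedBall_zero_iff, not_le] at hx
      have hz : ∀ y : E2, |R| < ‖y‖ → a y = 0 := by
        intro y hy
        by_contra hc
        have h1 := hR (subset_tsupport a hc)
        rw [mem_closedBall_zero_iff] at h1
        linarith [le_abs_self R]
      have h1 : a x = 0 := hz x (by linarith [norm_nonneg v])
      have h2 : a (x + h • v) = 0 := by
        refine hz _ ?_
        have h3 : ‖x‖ ≤ ‖x + h • v‖ + ‖h • v‖ := by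
          have h4 := norm_sub_le (x + h • v) (h • v)
          rwa [add_sub_cancel_right] at h4
        linarith
      rw [h1, h2]
      simp
  · rw [integrable_indicator_iff measurableSet_closedBall]
    exact (continuous_const.continuousOn).integrableOn_compact (isCompact_closedBall _ _)
  · exact Filter.Eventually.of_forall (fun x => (hlin a ha x v).mul (hlin b hb x w))

theorem nl_sym (a b : E2 → ℝ) (ha : ContDiff ℝ 1 a) (hac : HasCompactSupport a)
    (hb : ContDiff ℝ 1 b) (v w : E2) :
    ∫ x, fderiv ℝ a x v * fderiv ℝ b x w = ∫ x, fderiv ℝ a x w * fderiv ℝ b x v := by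
  obtain ⟨J, hJ⟩ : ∃ J : E2 → E2 → ℝ, J = fun p q => ∫ x, a (x + p) * b (x + q) := ⟨_, rfl⟩
  have hint : ∀ p q : E2, Integrable (fun x => a (x + p) * b (x + q)) := by
    intro p q
    refine Continuous.integrable_of_hasCompactSupport ?_ ?_
    · have h1 := ha.continuous
      have h2 := hb.continuous
      fun_prop
    · exact (hac.comp_homeomorph (Homeomorph.addRight p)).mul_right
  have htr : ∀ p q r : E2, J (p + r) (q + r) = J p q := by
    intro p q r
    rw [hJ]
    simp only
    rw [← integral_add_right_eq_self (fun x => a (x + p) * b (x + q)) r]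
    refine integral_congr_ae (Filter.Eventually.of_forall fun x => ?_)
    simp only
    rw [add_assoc x r p, add_assoc x r q, add_comm r p, add_comm r q]
  have hexp : ∀ (c : ℝ) (p q : E2), ∫ x, (c * (a (x + p) - a x)) * (c * (b (x + q) - b x)) =
      c * c * (J p q - J p 0 - (J 0 q - J 0 0)) := by
    intro c p q
    rw [hJ]
    simp only
    have hs1 : Integrable (fun x => a (x + p) * b (x + q) - a (x + p) * b (x + 0)) :=
      (hint p q).sub (hint p 0)
    have hs2 : Integrable (fun x => a (x + 0) * b (x + q) - a (x + 0) * b (x + 0)) :=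
      (hint 0 q).sub (hint 0 0)
    rw [← integral_sub (hint p q) (hint p 0), ← integral_sub (hint 0 q) (hint 0 0),
      ← integral_sub hs1 hs2, ← integral_const_mul]
    refine integral_congr_ae (Filter.Eventually.of_forall fun x => ?_)
    simp only [add_zero]
    ring
  have h1 := nl_lim a b ha hac hb v w
  have h2 := nl_lim a b ha hac hb (-w) (-v)
  have h3 : (fun h : ℝ => ∫ x, (h⁻¹ * (a (x + h • v) - a x)) * (h⁻¹ * (b (x + h • w) - b x))) =
      (fun h : ℝ => ∫ x, (h⁻¹ * (a (x + h • (-w)) - a x)) * (h⁻¹ * (b (x + h • (-v)) - b x))) := by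
    funext h
    rw [hexp, hexp]
    have e1 : J (h • v) (h • w) = J (h • (-w)) (h • (-v)) := by
      rw [← htr (h • (-w)) (h • (-v)) (h • v + h • w)]
      congr 1 <;> rw [smul_neg] <;> abel
    have e2 : J (h • v) 0 = J 0 (h • (-v)) := by
      rw [← htr 0 (h • (-v)) (h • v)]
      congr 1 <;> simp
    have e3 : J 0 (h • w) = J (h • (-w)) 0 := by
      rw [← htr (h • (-w)) 0 (h • w)]
      congr 1 <;> simp
    rw [e1, e2, e3]
    ring
  rw [h3] at h1
  have h4 := tendsto_nhds_unique h1 h2
  rw [h4]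
  refine integral_congr_ae (Filter.Eventually.of_forall fun x => ?_)
  simp

theorem null_lagrangian (a b : E2 → ℝ) (ha : ContDiff ℝ 1 a) (hac : HasCompactSupport a)
    (hb : ContDiff ℝ 1 b) :
    Integrable (fun x => pd 0 a x * pd 1 b x - pd 1 a x * pd 0 b x) ∧
    ∫ x, (pd 0 a x * pd 1 b x - pd 1 a x * pd 0 b x) = 0 := by
  have hint : ∀ v w : E2, Integrable (fun x => fderiv ℝ a x v * fderiv ℝ b x w) := by
    intro v w
    refine Continuous.integrable_of_hasCompactSupport ?_ ?_
    · have h1 : Continuous (fun x => fderiv ℝ a x v) :=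
        (ha.continuous_fderiv (by norm_num)).clm_apply continuous_const
      have h2 : Continuous (fun x => fderiv ℝ b x w) :=
        (hb.continuous_fderiv (by norm_num)).clm_apply continuous_const
      exact h1.mul h2
    · exact (hac.fderiv_apply ℝ v).mul_right
  refine ⟨(hint _ _).sub (hint _ _), ?_⟩
  unfold pd
  rw [integral_sub (hint _ _) (hint _ _), nl_sym a b ha hac hb, sub_self]


end J9676
end H575Germ
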