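import Pool.Agent.Helper575.Germ.Defs

open scoped RealInnerProductSpace Topology ContDiff
open MeasureTheory Metric

namespace H575Germ
namespace J9677



lemma job9677_pd_contDiff {F : Type*} [NormedAddCommGroup F] [NormedSpace ℝ F] {h : E2 → F}
    (hh : ContDiff ℝ 2 h) (i : Fin 2) : ContDiff ℝ 1 (pd i h) := by
  unfold pd
  exact (hh.fderiv_right (m := 1) (by norm_num)).clm_apply contDiff_const

lemma job9677_pd_contDiff0 {F : Type*} [NormedAddCommGroup F] [NormedSpace ℝ F] {h : E2 → F}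
    (hh : ContDiff ℝ 1 h) (i : Fin 2) : Continuous (pd i h) := by
  unfold pd
  exact (hh.continuous_fderiv (by norm_num)).clm_apply continuous_const

lemma job9677_pd_pd {F : Type*} [NormedAddCommGroup F] [NormedSpace ℝ F] {h : E2 → F}
    (hh : ContDiff ℝ 2 h) (i j : Fin 2) (x : E2) :
    pd i (pd j h) x = fderiv ℝ (fderiv ℝ h) x (EuclideanSpace.single i 1) (EuclideanSpace.single j 1) := by
  unfold pd
  have hd : DifferentiableAt ℝ (fderiv ℝ h) x :=
    ((hh.fderiv_right (m := 1) (by norm_num)).differentiable (by norm_num)) x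
  rw [fderiv_clm_apply hd (differentiableAt_const _)]
  simp

lemma job9677_symm {F : Type*} [NormedAddCommGroup F] [NormedSpace ℝ F] {h : E2 → F}
    (hh : ContDiff ℝ 2 h) (i j : Fin 2) (x : E2) :
    pd i (pd j h) x = pd j (pd i h) x := by
  rw [job9677_pd_pd hh, job9677_pd_pd hh]
  exact (hh.contDiffAt.isSymmSndFDerivAt (by simp)) _ _

lemma job9677_dinner {h : E2 → E3} (hh : ContDiff ℝ 2 h) (i j l : Fin 2) (x : E2) :
    pd i (fun y => ⟪pd j h y, pd l h y⟫) x =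
      ⟪pd i (pd j h) x, pd l h x⟫ + ⟪pd i (pd l h) x, pd j h x⟫ := by
  have h1 : DifferentiableAt ℝ (pd j h) x := (job9677_pd_contDiff hh j).differentiable (by norm_num) x
  have h2 : DifferentiableAt ℝ (pd l h) x := (job9677_pd_contDiff hh l).differentiable (by norm_num) x
  have := fderiv_inner_apply ℝ h1 h2 (EuclideanSpace.single i 1)
  show fderiv ℝ (fun y => ⟪pd j h y, pd l h y⟫) x (EuclideanSpace.single i 1) = _
  rw [this]
  show ⟪pd j h x, pd i (pd l h) x⟫ + ⟪pd i (pd j h) x, pd l h x⟫ = _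
  rw [real_inner_comm]
  ring

lemma job9677_key {h : E2 → E3} (hh : ContDiff ℝ 2 h) (i j l : Fin 2) (x : E2) :
    2 * ⟪pd i (pd j h) x, pd l h x⟫ = pd i (fun y => ⟪pd j h y, pd l h y⟫) x
      + pd j (fun y => ⟪pd i h y, pd l h y⟫) x - pd l (fun y => ⟪pd i h y, pd j h y⟫) x := by
  rw [job9677_dinner hh, job9677_dinner hh, job9677_dinner hh, job9677_symm hh j i x,
    job9677_symm hh l i x, job9677_symm hh l j x]
  ring

/-- Christoffel symbols are determined by the metric -/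
theorem christoffel (f g : E2 → E3) (hf : ContDiff ℝ 2 f) (hg : ContDiff ℝ 2 g) (p : E2) (r : ℝ)
    (hmet : ∀ x ∈ ball p r, ∀ i j, ⟪pd i f x, pd j f x⟫ = ⟪pd i g x, pd j g x⟫) :
    ∀ x ∈ ball p r, ∀ i j l, ⟪pd i (pd j f) x, pd l f x⟫ = ⟪pd i (pd j g) x, pd l g x⟫ := by
  intro x hx i j l
  have hev : ∀ a b c : Fin 2, pd a (fun y => ⟪pd b f y, pd c f y⟫) x =
      pd a (fun y => ⟪pd b g y, pd c g y⟫) x := by
    intro a b c
    unfold pd
    have : (fun y => ⟪fderiv ℝ f y (EuclideanSpace.single b 1), fderiv ℝ f y (EuclideanSpace.single c 1)⟫)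
        =ᶠ[𝓝 x] (fun y => ⟪fderiv ℝ g y (EuclideanSpace.single b 1),
          fderiv ℝ g y (EuclideanSpace.single c 1)⟫) := by
      filter_upwards [isOpen_ball.mem_nhds hx] with y hy
      exact hmet y hy b c
    rw [this.fderiv_eq]
  have h1 := job9677_key hf i j l x
  have h2 := job9677_key hg i j l x
  rw [hev, hev, hev, ← h2] at h1
  linarith

lemma job9677_coord {h : E2 → E3} {x : E2} (hh : DifferentiableAt ℝ h x) (k : Fin 2) (c : Fin 3) :
    pd k (fun y => h y c) x = (pd k h x) c := by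
  unfold pd
  have h1 := ((EuclideanSpace.proj c : E3 →L[ℝ] ℝ).hasFDerivAt (x := h x)).comp x hh.hasFDerivAt
  have h2 : fderiv ℝ (fun y => h y c) x = (EuclideanSpace.proj c : E3 →L[ℝ] ℝ).comp (fderiv ℝ h x) := by
    rw [← h1.fderiv]; rfl
  rw [h2]
  rfl

lemma job9677_contDiff_coord {h : E2 → E3} {n : ℕ∞ω} (hh : ContDiff ℝ n h) (c : Fin 3) :
    ContDiff ℝ n (fun y => h y c) := by
  have : (fun y => h y c) = (EuclideanSpace.proj c : E3 →L[ℝ] ℝ) ∘ h := rfl
  rw [this]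
  exact (EuclideanSpace.proj c : E3 →L[ℝ] ℝ).contDiff.comp hh

lemma job9677_inner (u v : E3) : ⟪u, v⟫ = ∑ c : Fin 3, u c * v c := by
  rw [PiLp.inner_apply]
  congr 1
  ext c
  simp [mul_comm]

lemma job9677_mul {a b : E2 → ℝ} {x : E2} (ha : DifferentiableAt ℝ a x) (hb : DifferentiableAt ℝ b x)
    (k : Fin 2) : pd k (fun y => a y * b y) x = a x * pd k b x + pd k a x * b x := by
  unfold pd
  rw [fderiv_fun_mul ha hb]
  simp [mul_comm]

lemma job9677_int
    (NL : ∀ (a b : E2 → ℝ), ContDiff ℝ 1 a → HasCompactSupport a → ContDiff ℝ 1 b →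
      Integrable (fun x => pd 0 a x * pd 1 b x - pd 1 a x * pd 0 b x) ∧
      ∫ x, (pd 0 a x * pd 1 b x - pd 1 a x * pd 0 b x) = 0)
    (h : E2 → E3) (hh : ContDiff ℝ 2 h) (ψ : E2 → ℝ) (hψ : ContDiff ℝ ∞ ψ) (hc : HasCompactSupport ψ) :
    Integrable (fun x => ψ x * (⟪pd 0 (pd 0 h) x, pd 1 (pd 1 h) x⟫ - ⟪pd 0 (pd 1 h) x, pd 0 (pd 1 h) x⟫)
      + (pd 0 ψ x * ⟪pd 1 (pd 1 h) x, pd 0 h x⟫ - pd 1 ψ x * ⟪pd 0 (pd 1 h) x, pd 0 h x⟫)) ∧
    ∫ x, (ψ x * (⟪pd 0 (pd 0 h) x, pd 1 (pd 1 h) x⟫ - ⟪pd 0 (pd 1 h) x, pd 0 (pd 1 h) x⟫)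
      + (pd 0 ψ x * ⟪pd 1 (pd 1 h) x, pd 0 h x⟫ - pd 1 ψ x * ⟪pd 0 (pd 1 h) x, pd 0 h x⟫)) = 0 := by
  have hψ1 : ContDiff ℝ 1 ψ := hψ.of_le (by exact_mod_cast le_top)
  have hpd : ∀ i, ContDiff ℝ 1 (pd i h) := job9677_pd_contDiff hh
  have key : ∀ c : Fin 3, Integrable (fun x => pd 0 (fun y => ψ y * pd 0 h y c) x * pd 1 (fun y => pd 1 h y c) x
      - pd 1 (fun y => ψ y * pd 0 h y c) x * pd 0 (fun y => pd 1 h y c) x) ∧
      ∫ x, (pd 0 (fun y => ψ y * pd 0 h y c) x * pd 1 (fun y => pd 1 h y c) x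
      - pd 1 (fun y => ψ y * pd 0 h y c) x * pd 0 (fun y => pd 1 h y c) x) = 0 := by
    intro c
    apply NL
    · exact hψ1.mul (job9677_contDiff_coord (hpd 0) c)
    · exact hc.mul_right
    · exact job9677_contDiff_coord (hpd 1) c
  have heq : ∀ x, ψ x * (⟪pd 0 (pd 0 h) x, pd 1 (pd 1 h) x⟫ - ⟪pd 0 (pd 1 h) x, pd 0 (pd 1 h) x⟫)
      + (pd 0 ψ x * ⟪pd 1 (pd 1 h) x, pd 0 h x⟫ - pd 1 ψ x * ⟪pd 0 (pd 1 h) x, pd 0 h x⟫)
      = ∑ c : Fin 3, (pd 0 (fun y => ψ y * pd 0 h y c) x * pd 1 (fun y => pd 1 h y c) x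
      - pd 1 (fun y => ψ y * pd 0 h y c) x * pd 0 (fun y => pd 1 h y c) x) := by
    intro x
    have hprod : ∀ (k : Fin 2) (c : Fin 3), pd k (fun y => ψ y * pd 0 h y c) x =
        ψ x * pd k (pd 0 h) x c + pd k ψ x * pd 0 h x c := by
      intro k c
      have h1 : DifferentiableAt ℝ ψ x := hψ1.differentiable (by norm_num) x
      have h2 : DifferentiableAt ℝ (pd 0 h) x := (hpd 0).differentiable (by norm_num) x
      have h3 : DifferentiableAt ℝ (fun y => pd 0 h y c) x :=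
        (job9677_contDiff_coord (hpd 0) c).differentiable (by norm_num) x
      rw [← job9677_coord h2 k c, job9677_mul h1 h3]
    have hc1 : ∀ (k : Fin 2) (c : Fin 3), pd k (fun y => pd 1 h y c) x = pd k (pd 1 h) x c :=
      fun k c => job9677_coord ((hpd 1).differentiable (by norm_num) x) k c
    simp only [job9677_inner, hprod, hc1, Fin.sum_univ_three]
    rw [job9677_symm hh 1 0 x]
    ring
  constructor
  · refine (integrable_finsetSum Finset.univ fun c _ => (key c).1).congr (Filter.Eventually.of_forall fun x => ?_)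
    exact (heq x).symm
  · rw [integral_congr_ae (Filter.Eventually.of_forall heq), integral_finsetSum _ fun c _ => (key c).1]
    exact Finset.sum_eq_zero fun c _ => (key c).2

/-- Gauss equation for `C^2` maps with equal metric (`NL` is proved in another job) -/
theorem gauss_C2
    (NL : ∀ (a b : E2 → ℝ), ContDiff ℝ 1 a → HasCompactSupport a → ContDiff ℝ 1 b →
      Integrable (fun x => pd 0 a x * pd 1 b x - pd 1 a x * pd 0 b x) ∧
      ∫ x, (pd 0 a x * pd 1 b x - pd 1 a x * pd 0 b x) = 0)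
    (f g : E2 → E3) (hf : ContDiff ℝ 2 f) (hg : ContDiff ℝ 2 g) (p : E2) (r : ℝ)
    (hmet : ∀ x ∈ ball p r, ∀ i j, ⟪pd i f x, pd j f x⟫ = ⟪pd i g x, pd j g x⟫) :
    ∀ x ∈ ball p r, ⟪pd 0 (pd 0 f) x, pd 1 (pd 1 f) x⟫ - ⟪pd 0 (pd 1 f) x, pd 0 (pd 1 f) x⟫ =
      ⟪pd 0 (pd 0 g) x, pd 1 (pd 1 g) x⟫ - ⟪pd 0 (pd 1 g) x, pd 0 (pd 1 g) x⟫ := by
  have hchr := christoffel f g hf hg p r hmet
  let K : (E2 → E3) → E2 → ℝ := fun h x =>
    ⟪pd 0 (pd 0 h) x, pd 1 (pd 1 h) x⟫ - ⟪pd 0 (pd 1 h) x, pd 0 (pd 1 h) x⟫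
  have hKc : ∀ h : E2 → E3, ContDiff ℝ 2 h → Continuous (K h) := by
    intro h hh
    have h1 : ∀ i j, Continuous (pd i (pd j h)) := fun i j =>
      job9677_pd_contDiff0 (job9677_pd_contDiff hh j) i
    exact ((h1 0 0).inner (h1 1 1)).sub ((h1 0 1).inner (h1 0 1))
  have hcont : Continuous (fun x => K f x - K g x) := (hKc f hf).sub (hKc g hg)
  have hae : ∀ᵐ x : E2, x ∈ ball p r → K f x - K g x = 0 := by
    apply IsOpen.ae_eq_zero_of_integral_contDiff_smul_eq_zero isOpen_ball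
    · exact hcont.locallyIntegrable.locallyIntegrableOn _
    · intro ψ hψ hc hsub
      obtain ⟨i1, e1⟩ := job9677_int NL f hf ψ hψ hc
      obtain ⟨i2, e2⟩ := job9677_int NL g hg ψ hψ hc
      have e3 := integral_sub i1 i2
      rw [e1, e2, sub_zero] at e3
      rw [← e3]
      refine integral_congr_ae (Filter.Eventually.of_forall fun x => ?_)
      show ψ x * (K f x - K g x) = (ψ x * K f x +
          (pd 0 ψ x * ⟪pd 1 (pd 1 f) x, pd 0 f x⟫ - pd 1 ψ x * ⟪pd 0 (pd 1 f) x, pd 0 f x⟫)) -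
          (ψ x * K g x +
          (pd 0 ψ x * ⟪pd 1 (pd 1 g) x, pd 0 g x⟫ - pd 1 ψ x * ⟪pd 0 (pd 1 g) x, pd 0 g x⟫))
      by_cases hx : x ∈ ball p r
      · rw [hchr x hx 1 1 0, hchr x hx 0 1 0]
        ring
      · have hx1 : x ∉ tsupport ψ := fun h => hx (hsub h)
        have hx2 : ψ x = 0 := image_eq_zero_of_notMem_tsupport hx1
        have hx3 : ∀ k : Fin 2, pd k ψ x = 0 := by
          intro k
          unfold pd
          have : ψ =ᶠ[𝓝 x] fun _ => 0 := by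
            filter_upwards [(isClosed_tsupport ψ).isOpen_compl.mem_nhds hx1] with y hy
            exact image_eq_zero_of_notMem_tsupport hy
          rw [this.fderiv_eq]
          simp
        rw [hx2, hx3 0, hx3 1]
        ring
  intro x hx
  have h1 : (fun x => K f x - K g x) =ᵐ[volume.restrict (ball p r)] (fun _ => (0:ℝ)) :=
    (ae_restrict_iff' measurableSet_ball).2 hae
  have h2 := Measure.eqOn_open_of_ae_eq h1 isOpen_ball hcont.continuousOn continuousOn_const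
  have h3 := h2 hx
  simp only at h3
  exact sub_eq_zero.1 h3


end J9677
end H575Germ
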