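import Pool.Agent.Helper575.Germ.Defs

open scoped RealInnerProductSpace Topology ContDiff
open MeasureTheory Metric

namespace H575Germ
namespace J9678


theorem contDiff_pd {F : Type*} [NormedAddCommGroup F] [NormedSpace ℝ F] (i : Fin 2) {h : E2 → F}
    (hh : ContDiff ℝ 2 h) : ContDiff ℝ 1 (pd i h) := by
  unfold pd
  exact (hh.fderiv_right (m := 1) (by norm_num)).clm_apply contDiff_const

theorem continuous_pd {F : Type*} [NormedAddCommGroup F] [NormedSpace ℝ F] (i : Fin 2) {h : E2 → F}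
    (hh : ContDiff ℝ 1 h) : Continuous (pd i h) := by
  unfold pd
  exact (hh.continuous_fderiv (by norm_num)).clm_apply continuous_const

theorem ibp_once (f g : E2 → ℂ) (hf : ContDiff ℝ 1 f) (hfc : HasCompactSupport f)
    (hg : ContDiff ℝ 1 g) (i : Fin 2) :
    ∫ x, f x * pd i g x = - ∫ x, pd i f x * g x := by
  have hfd : Differentiable ℝ f := hf.differentiable (by norm_num)
  have hgd : Differentiable ℝ g := hg.differentiable (by norm_num)
  have hpc : HasCompactSupport (pd i f) := hfc.fderiv_apply (𝕜 := ℝ) _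
  refine integral_mul_fderiv_eq_neg_fderiv_mul_of_integrable ?_ ?_ ?_ (fun x _ => hfd x)
    (fun x _ => hgd x)
  · exact ((continuous_pd i hf).mul hg.continuous).integrable_of_hasCompactSupport
      (HasCompactSupport.mul_right hpc)
  · exact (hf.continuous.mul (continuous_pd i hg)).integrable_of_hasCompactSupport
      (HasCompactSupport.mul_right hfc)
  · exact (hf.continuous.mul hg.continuous).integrable_of_hasCompactSupport
      (HasCompactSupport.mul_right hfc)

theorem pd_comm {F : Type*} [NormedAddCommGroup F] [NormedSpace ℝ F] (i j : Fin 2) {h : E2 → F}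
    (hh : ContDiff ℝ 2 h) (x : E2) : pd i (pd j h) x = pd j (pd i h) x := by
  have hd : DifferentiableAt ℝ (fderiv ℝ h) x :=
    (hh.fderiv_right (m := 1) (by norm_num)).differentiable (by norm_num) x
  have key : ∀ a b : Fin 2, pd a (pd b h) x =
      fderiv ℝ (fderiv ℝ h) x (EuclideanSpace.single a 1) (EuclideanSpace.single b 1) := by
    intro a b
    unfold pd
    rw [fderiv_clm_apply hd (differentiableAt_const _)]
    simp
  rw [key, key]
  exact (hh.contDiffAt.isSymmSndFDerivAt (by simp)) _ _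

theorem pd_ofReal (i : Fin 2) {ζ : E2 → ℝ} (hζ : Differentiable ℝ ζ) :
    pd i (fun x => ((ζ x : ℝ) : ℂ)) = fun x => ((pd i ζ x : ℝ) : ℂ) := by
  funext x
  unfold pd
  have h1 : HasFDerivAt (fun x => ((ζ x : ℝ) : ℂ)) (Complex.ofRealCLM.comp (fderiv ℝ ζ x)) x :=
    Complex.ofRealCLM.hasFDerivAt.comp x (hζ x).hasFDerivAt
  rw [h1.fderiv]
  rfl

/-- pairing with a compactly supported function, twice by parts -/
theorem ibp_twice (ψ : E2 → ℂ) (ζ : E2 → ℝ) (hψ : ContDiff ℝ 2 ψ) (hψc : HasCompactSupport ψ)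
    (hζ : ContDiff ℝ 2 ζ) (i j : Fin 2) :
    ∫ x, ψ x * ((pd i (pd j ζ) x : ℝ) : ℂ) = ∫ x, pd i (pd j ψ) x * ((ζ x : ℝ) : ℂ) := by
  have hZ : ContDiff ℝ 2 (fun x => ((ζ x : ℝ) : ℂ)) := Complex.ofRealCLM.contDiff.comp hζ
  have h1 : pd j (fun x => ((ζ x : ℝ) : ℂ)) = fun x => ((pd j ζ x : ℝ) : ℂ) :=
    pd_ofReal j (hζ.differentiable (by norm_num))
  have h2 : pd i (fun x => ((pd j ζ x : ℝ) : ℂ)) = fun x => ((pd i (pd j ζ) x : ℝ) : ℂ) :=
    pd_ofReal i ((contDiff_pd j hζ).differentiable (by norm_num))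
  have h3 := ibp_once ψ (pd j (fun x => ((ζ x : ℝ) : ℂ))) (hψ.of_le (by norm_num)) hψc
    (contDiff_pd j hZ) i
  have h4 := ibp_once (pd i ψ) (fun x => ((ζ x : ℝ) : ℂ)) (contDiff_pd i hψ)
    (hψc.fderiv_apply (𝕜 := ℝ) _) (hZ.of_le (by norm_num)) j
  rw [h4, neg_neg, h1, h2] at h3
  rw [h3]
  refine integral_congr_ae (Filter.Eventually.of_forall fun x => ?_)
  simp only
  rw [pd_comm i j hψ]


end J9678
end H575Germ
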