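import Pool.Agent.Helper575.Germ.Defs

open scoped RealInnerProductSpace Topology ContDiff
open MeasureTheory Metric

namespace H575Germ
namespace J9680


/-- the complex linear function as a continuous linear map -/
noncomputable def os_wL (a b : ℂ) : E2 →L[ℝ] ℂ :=
  a • (Complex.ofRealCLM.comp (EuclideanSpace.proj (𝕜 := ℝ) (0 : Fin 2))) +
    b • (Complex.ofRealCLM.comp (EuclideanSpace.proj (𝕜 := ℝ) (1 : Fin 2)))

theorem os_wL_apply (a b : ℂ) (y : E2) :
    os_wL a b y = a * (y 0 : ℝ) + b * (y 1 : ℝ) := rfl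

theorem os_ne (a b : ℂ) (him : 0 < ((starRingEnd ℂ) a * b).im) (y : E2) (hy : y ≠ 0) :
    os_wL a b y ≠ 0 := by
  intro h
  apply hy
  rw [os_wL_apply] at h
  have h1 : (starRingEnd ℂ) a * (a * (y 0 : ℝ) + b * (y 1 : ℝ)) = 0 := by rw [h, mul_zero]
  have h2 : (starRingEnd ℂ) a * (a * (y 0 : ℝ) + b * (y 1 : ℝ)) =
      ((Complex.normSq a * y 0 : ℝ) : ℂ) + ((starRingEnd ℂ) a * b) * (y 1 : ℝ) := by
    push_cast
    rw [Complex.normSq_eq_conj_mul_self]
    ring
  rw [h2] at h1
  have h3 := congrArg Complex.im h1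
  rw [Complex.add_im, Complex.ofReal_im, zero_add, Complex.im_mul_ofReal, Complex.zero_im] at h3
  have h4 : y 1 = 0 := by
    rcases mul_eq_zero.1 h3 with h5 | h5
    · exact absurd h5 him.ne'
    · exact h5
  rw [h4] at h
  have ha : a ≠ 0 := by
    rintro rfl
    simp at him
  have h6 : y 0 = 0 := by
    simp only [Complex.ofReal_zero, mul_zero, add_zero] at h
    rcases mul_eq_zero.1 h with h5 | h5
    · exact absurd h5 ha
    · exact Complex.ofReal_eq_zero.1 h5
  ext i
  fin_cases i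
  · exact h6
  · exact h4

theorem os_cont (a b : ℂ) (him : 0 < ((starRingEnd ℂ) a * b).im) (n : ℕ) (K : E2 → ℂ)
    (hK : Continuous K) (h1 : ∀ y, ‖y‖ < 1 → K y = 0) (h2 : ∀ y, 3 / 2 < ‖y‖ → K y = 0) :
    Integrable (fun y => K y / (os_wL a b y) ^ n) := by
  apply Continuous.integrable_of_hasCompactSupport
  · rw [continuous_iff_continuousAt]
    intro y
    rcases lt_or_ge ‖y‖ 1 with hy | hy
    · have hev : (fun y => K y / (os_wL a b y) ^ n) =ᶠ[𝓝 y] fun _ => 0 := by
        have : {z : E2 | ‖z‖ < 1} ∈ 𝓝 y := (isOpen_lt continuous_norm continuous_const).mem_nhds hy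
        filter_upwards [this] with z hz
        rw [h1 z hz, zero_div]
      exact continuousAt_const.congr hev.symm
    · have hy0 : y ≠ 0 := by
        rintro rfl
        rw [norm_zero] at hy
        linarith
      exact hK.continuousAt.div (((os_wL a b).continuous.pow n).continuousAt)
        (pow_ne_zero _ (os_ne a b him y hy0))
  · apply HasCompactSupport.of_support_subset_isCompact (isCompact_closedBall (0 : E2) (3 / 2))
    intro y hy
    rw [mem_closedBall_zero_iff]
    by_contra hc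
    push Not at hc
    apply hy
    show K y / _ = 0
    rw [h2 y hc, zero_div]

theorem os_main (G : E2 → ℝ) (hG : ContDiff ℝ 1 G)
    (hGs : ∀ y, G y ≠ 0 → 1 < ‖y‖ ∧ ‖y‖ < 3 / 2) (a b : ℂ)
    (him : 0 < ((starRingEnd ℂ) a * b).im) (m : ℕ) (i : Fin 2) (c : ℂ)
    (hc : os_wL a b (EuclideanSpace.single i 1) = c) :
    ∫ y, ((pd i G y : ℝ) : ℂ) / (os_wL a b y) ^ m =
      m * c * ∫ y, ((G y : ℝ) : ℂ) / (os_wL a b y) ^ (m + 1) := by
  have hG1 : ∀ y, ‖y‖ ≤ 1 → G y = 0 := by
    intro y hy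
    by_contra hne
    have := (hGs y hne).1
    linarith
  have hG2 : ∀ y, 3 / 2 ≤ ‖y‖ → G y = 0 := by
    intro y hy
    by_contra hne
    have := (hGs y hne).2
    linarith
  have hgrad1 : ∀ y, ‖y‖ < 1 → fderiv ℝ G y = 0 := by
    intro y hy
    have hev : G =ᶠ[𝓝 y] fun _ => 0 := by
      have : {z : E2 | ‖z‖ < 1} ∈ 𝓝 y := (isOpen_lt continuous_norm continuous_const).mem_nhds hy
      filter_upwards [this] with z hz
      exact hG1 z (le_of_lt hz)
    rw [hev.fderiv_eq]
    simp
  have hgrad2 : ∀ y, 3 / 2 < ‖y‖ → fderiv ℝ G y = 0 := by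
    intro y hy
    have hev : G =ᶠ[𝓝 y] fun _ => 0 := by
      have : {z : E2 | 3 / 2 < ‖z‖} ∈ 𝓝 y :=
        (isOpen_lt continuous_const continuous_norm).mem_nhds hy
      filter_upwards [this] with z hz
      exact hG2 z (le_of_lt hz)
    rw [hev.fderiv_eq]
    simp
  have hcG : Continuous fun y => (G y : ℂ) := Complex.continuous_ofReal.comp hG.continuous
  have hcdG : Continuous fun y => ((pd i G y : ℝ) : ℂ) := by
    apply Complex.continuous_ofReal.comp
    unfold pd
    exact (hG.continuous_fderiv one_ne_zero).clm_apply continuous_const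
  have hint1 : Integrable (fun y => ((pd i G y : ℝ) : ℂ) / (os_wL a b y) ^ m) := by
    apply os_cont a b him m _ hcdG
    · intro y hy
      unfold pd
      rw [hgrad1 y hy]; simp
    · intro y hy
      unfold pd
      rw [hgrad2 y hy]; simp
  have hint2 : ∀ n : ℕ, Integrable (fun y => ((G y : ℝ) : ℂ) / (os_wL a b y) ^ n) := by
    intro n
    apply os_cont a b him n _ hcG
    · intro y hy
      rw [hG1 y hy.le]; simp
    · intro y hy
      rw [hG2 y hy.le]; simp
  have hdf : ∀ y, HasFDerivAt (fun y => (G y : ℂ)) (Complex.ofRealCLM.comp (fderiv ℝ G y)) y := by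
    intro y
    exact Complex.ofRealCLM.hasFDerivAt.comp y ((hG.differentiable one_ne_zero) y).hasFDerivAt
  have hdf' : ∀ y, fderiv ℝ (fun y => (G y : ℂ)) y (EuclideanSpace.single i 1) =
      ((pd i G y : ℝ) : ℂ) := by
    intro y
    rw [(hdf y).fderiv]
    rfl
  have hdg : ∀ y : E2, y ≠ 0 → HasFDerivAt (fun y => ((os_wL a b y) ^ m)⁻¹)
      (((ContinuousLinearMap.toSpanSingleton ℂ
        (-(m * (os_wL a b y) ^ (m - 1)) / ((os_wL a b y) ^ m) ^ 2)).restrictScalars ℝ).comp
          (os_wL a b)) y := by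
    intro y hy
    have hw := os_ne a b him y hy
    have h1 : HasDerivAt (fun z : ℂ => (z ^ m)⁻¹)
        (-(m * (os_wL a b y) ^ (m - 1)) / ((os_wL a b y) ^ m) ^ 2) (os_wL a b y) :=
      (hasDerivAt_pow m (os_wL a b y)).inv (pow_ne_zero _ hw)
    exact (h1.hasFDerivAt.restrictScalars ℝ).comp y (os_wL a b).hasFDerivAt
  have hts : ∀ y ∈ tsupport (fun y => (G y : ℂ)), y ≠ 0 := by
    intro y hy hy0
    subst hy0
    have h1 : (0 : E2) ∉ tsupport (fun y => (G y : ℂ)) := by
      rw [notMem_tsupport_iff_eventuallyEq]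
      have : {z : E2 | ‖z‖ < 1} ∈ 𝓝 (0 : E2) :=
        (isOpen_lt continuous_norm continuous_const).mem_nhds (by simp)
      filter_upwards [this] with z hz
      rw [hG1 z (le_of_lt hz)]; simp
    exact h1 hy
  have hpt : ∀ y, (G y : ℂ) * fderiv ℝ (fun y => ((os_wL a b y) ^ m)⁻¹) y
      (EuclideanSpace.single i 1) = -(m * c) * ((G y : ℂ) / (os_wL a b y) ^ (m + 1)) := by
    intro y
    by_cases hy : y = 0
    · subst hy
      rw [hG1 0 (by simp)]
      simp
    · have hw := os_ne a b him y hy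
      rw [(hdg y hy).fderiv]
      have h1 : (((ContinuousLinearMap.toSpanSingleton ℂ
        (-(m * (os_wL a b y) ^ (m - 1)) / ((os_wL a b y) ^ m) ^ 2)).restrictScalars ℝ).comp
          (os_wL a b)) (EuclideanSpace.single i 1) =
          c * (-(m * (os_wL a b y) ^ (m - 1)) / ((os_wL a b y) ^ m) ^ 2) := by
        rw [← hc]
        rfl
      rw [h1]
      rcases Nat.eq_zero_or_pos m with hm | hm
      · subst hm
        simp
      · obtain ⟨k, rfl⟩ : ∃ k, m = k + 1 := ⟨m - 1, by omega⟩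
        rw [show k + 1 - 1 = k by omega]
        field_simp
        ring
  have key := integral_mul_fderiv_eq_neg_fderiv_mul_of_integrable (μ := (volume : Measure E2))
    (f := fun y => (G y : ℂ)) (g := fun y => ((os_wL a b y) ^ m)⁻¹)
    (v := EuclideanSpace.single i (1 : ℝ))
    (by
      simp_rw [hdf', ← div_eq_mul_inv]
      exact hint1)
    (by
      simp_rw [hpt]
      exact (hint2 (m + 1)).const_mul _)
    (by
      simp_rw [← div_eq_mul_inv]
      exact hint2 m)
    (fun y _ => (hdf y).differentiableAt)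
    (fun y hy => (hdg y (hts y hy)).differentiableAt)
  simp_rw [hpt, hdf', ← div_eq_mul_inv] at key
  rw [integral_const_mul] at key
  linear_combination key

/-- one step of integration by parts against a power of the complex linear function `w` -/
theorem one_step (G : E2 → ℝ) (hG : ContDiff ℝ 1 G)
    (hGs : ∀ y, G y ≠ 0 → 1 < ‖y‖ ∧ ‖y‖ < 3 / 2) (a b : ℂ)
    (him : 0 < ((starRingEnd ℂ) a * b).im) (m : ℕ) :
    (∫ y, ((pd 0 G y : ℝ) : ℂ) / (a * (y 0 : ℝ) + b * (y 1 : ℝ)) ^ m =
      m * a * ∫ y, ((G y : ℝ) : ℂ) / (a * (y 0 : ℝ) + b * (y 1 : ℝ)) ^ (m + 1)) ∧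
    (∫ y, ((pd 1 G y : ℝ) : ℂ) / (a * (y 0 : ℝ) + b * (y 1 : ℝ)) ^ m =
      m * b * ∫ y, ((G y : ℝ) : ℂ) / (a * (y 0 : ℝ) + b * (y 1 : ℝ)) ^ (m + 1)) := by
  have hi : (0 : Fin 2) ≠ 1 := by decide
  constructor
  · have h := os_main G hG hGs a b him m 0 a (by
      unfold os_wL
      simp [hi.symm])
    exact h
  · have h := os_main G hG hGs a b him m 1 b (by
      unfold os_wL
      simp [hi])
    exact h


end J9680
end H575Germ
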