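import Pool.Agent.Helper575.Germ.Defs

open scoped RealInnerProductSpace Topology ContDiff
open MeasureTheory Metric

namespace H575Germ
namespace J9681


/-- the bump in the squared radius -/
noncomputable def bmp : ContDiffBump (13 / 8 : ℝ) := ⟨1 / 8, 5 / 8, by norm_num, by norm_num⟩

theorem bmp_ne {t : ℝ} (h : bmp t ≠ 0) : 1 < t ∧ t < 9 / 4 := by
  have h1 : t ∈ Function.support (bmp : ℝ → ℝ) := h
  rw [ContDiffBump.support_eq] at h1
  have h2 : t ∈ ball (13 / 8 : ℝ) (5 / 8) := h1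
  rw [mem_ball, Real.dist_eq, abs_lt] at h2
  constructor <;> linarith [h2.1, h2.2]

theorem bmp_pos {t : ℝ} (h1 : 1 < t) (h2 : t < 9 / 4) : 0 < bmp t := by
  have h3 : t ∈ Function.support (bmp : ℝ → ℝ) := by
    rw [ContDiffBump.support_eq]
    show t ∈ ball (13 / 8 : ℝ) (5 / 8)
    rw [mem_ball, Real.dist_eq, abs_lt]
    constructor <;> linarith
  exact lt_of_le_of_ne bmp.nonneg (Ne.symm h3)

theorem radial_pos : 0 < ∫ r in Set.Ioi (0:ℝ), r * bmp (r ^ 2) := by
  have hc : Continuous (fun r : ℝ => r * bmp (r ^ 2)) :=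
    continuous_id.mul (bmp.continuous.comp (continuous_pow 2))
  have hcs : HasCompactSupport (fun r : ℝ => r * bmp (r ^ 2)) := by
    apply HasCompactSupport.intro (isCompact_closedBall (0:ℝ) 2)
    intro r hr
    by_contra hne
    have h1 : bmp (r ^ 2) ≠ 0 := fun h => hne (by rw [h, mul_zero])
    have h2 := (bmp_ne h1).2
    apply hr
    rw [mem_closedBall, dist_zero_right, Real.norm_eq_abs]
    apply abs_le_of_sq_le_sq _ (by norm_num)
    linarith
  have hi : Integrable (fun r : ℝ => r * bmp (r ^ 2)) := hc.integrable_of_hasCompactSupport hcs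
  rw [setIntegral_pos_iff_support_of_nonneg_ae _ hi.integrableOn]
  · have hsub : Set.Ioo (1:ℝ) (3 / 2) ⊆
        Function.support (fun r : ℝ => r * bmp (r ^ 2)) ∩ Set.Ioi 0 := by
      intro r hr
      have h1 : (0:ℝ) < r := by linarith [hr.1]
      refine ⟨?_, h1⟩
      have h2 : 0 < bmp (r ^ 2) := bmp_pos (by nlinarith [hr.1]) (by nlinarith [hr.1, hr.2])
      exact (mul_pos h1 h2).ne'
    refine lt_of_lt_of_le ?_ (measure_mono hsub)
    rw [Real.volume_Ioo]
    norm_num
  · rw [Filter.EventuallyLE, ae_restrict_iff' measurableSet_Ioi]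
    refine Filter.Eventually.of_forall (fun r hr => ?_)
    exact mul_nonneg (le_of_lt hr) bmp.nonneg

/-- the angular integral -/
theorem angular (N : ℕ) (hN : 1 ≤ N) (a b : ℂ) (h : 0 < ((starRingEnd ℂ) a * b).im) :
    ∫ θ in Set.Ioo (-Real.pi) Real.pi,
      ((Real.cos (N * θ) : ℝ) : ℂ) / (a * (Real.cos θ : ℝ) + b * (Real.sin θ : ℝ)) ^ N ≠ 0 := by
  set al : ℂ := (a - Complex.I * b) / 2 with hal
  set be : ℂ := (a + Complex.I * b) / 2 with hbe
  have hsq : Complex.normSq be < Complex.normSq al := by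
    rw [hal, hbe, Complex.normSq_div, Complex.normSq_div]
    have h2 : (0:ℝ) < Complex.normSq 2 := Complex.normSq_pos.2 (by norm_num)
    apply div_lt_div_of_pos_right _ h2
    simp only [Complex.normSq_apply, Complex.add_re, Complex.add_im, Complex.sub_re,
      Complex.sub_im, Complex.mul_re, Complex.mul_im, Complex.I_re, Complex.I_im]
    simp only [Complex.mul_im, Complex.conj_re, Complex.conj_im] at h
    nlinarith
  have hal0 : al ≠ 0 := by
    intro h0
    rw [h0, Complex.normSq_zero] at hsq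
    exact absurd hsq (not_lt.2 (Complex.normSq_nonneg _))
  set μ : ℂ := be / al with hμ
  have hμ1 : ‖μ‖ < 1 := by
    rw [hμ, norm_div, div_lt_one (norm_pos_iff.2 hal0)]
    have h1 : ‖be‖ ^ 2 < ‖al‖ ^ 2 := by rw [Complex.sq_norm, Complex.sq_norm]; exact hsq
    exact lt_of_pow_lt_pow_left₀ 2 (norm_nonneg _) h1
  set G : ℂ → ℂ := fun z => (1 + z ^ (2 * N)) / (2 * (1 + μ * z ^ 2) ^ N) with hG
  have hne : ∀ z : ℂ, ‖z‖ ≤ 1 → 1 + μ * z ^ 2 ≠ 0 := by
    intro z hz h0
    have h1 : μ * z ^ 2 = -1 := by linear_combination h0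
    have h2 : ‖μ * z ^ 2‖ = 1 := by rw [h1, norm_neg, norm_one]
    rw [norm_mul, norm_pow] at h2
    have h3 : ‖z‖ ^ 2 ≤ 1 := pow_le_one₀ (norm_nonneg _) hz
    nlinarith [norm_nonneg μ, norm_nonneg z]
  have hGd : DiffContOnCl ℂ G (ball 0 |(1:ℝ)|) := by
    rw [abs_one]
    apply DifferentiableOn.diffContOnCl
    rw [closure_ball (0:ℂ) one_ne_zero]
    intro z hz
    have hz1 : ‖z‖ ≤ 1 := by rwa [mem_closedBall, dist_zero_right] at hz
    have hd : 2 * (1 + μ * z ^ 2) ^ N ≠ 0 := mul_ne_zero two_ne_zero (pow_ne_zero _ (hne z hz1))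
    apply DifferentiableAt.differentiableWithinAt
    exact DifferentiableAt.fun_div (by fun_prop) (by fun_prop) hd
  have havg := hGd.circleAverage
  rw [Real.circleAverage_def] at havg
  have hG0 : G 0 = 1 / 2 := by
    rw [hG]; simp only
    rw [zero_pow (by omega), zero_pow (by norm_num)]; simp
  rw [hG0] at havg
  have hint : ∫ θ in (0:ℝ)..(2 * Real.pi), G (circleMap 0 1 θ) ≠ 0 := by
    intro h0
    rw [h0, smul_zero] at havg
    norm_num at havg
  -- reduction
  have hpt : ∀ θ : ℝ, ((Real.cos (N * θ) : ℝ) : ℂ) /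
      (a * (Real.cos θ : ℝ) + b * (Real.sin θ : ℝ)) ^ N
      = (al ^ N)⁻¹ * G (circleMap 0 1 (-θ)) := by
    intro θ
    set E : ℂ := Complex.exp (θ * Complex.I) with hE
    set E' : ℂ := Complex.exp (-(θ * Complex.I)) with hE'
    have hEE : E * E' = 1 := by rw [hE, hE', ← Complex.exp_add, add_neg_cancel, Complex.exp_zero]
    have hE0 : E ≠ 0 := Complex.exp_ne_zero _
    have hcm : circleMap 0 1 (-θ) = E' := by
      rw [circleMap_zero, hE', Complex.ofReal_one, one_mul]
      congr 1; push_cast; ring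
    have hcos : ((Real.cos θ : ℝ) : ℂ) = (E + E') / 2 := by
      rw [Complex.ofReal_cos, Complex.cos, hE, hE', neg_mul]
    have hsin : ((Real.sin θ : ℝ) : ℂ) = (E' - E) * Complex.I / 2 := by
      rw [Complex.ofReal_sin, Complex.sin, hE, hE', neg_mul]
    have hcosN : ((Real.cos (N * θ) : ℝ) : ℂ) = (E ^ N + E' ^ N) / 2 := by
      rw [Complex.ofReal_cos, Complex.cos, hE, hE', ← Complex.exp_nat_mul, ← Complex.exp_nat_mul]
      congr 3
      · push_cast; ring
      · push_cast; ring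
    have hden : a * ((Real.cos θ : ℝ) : ℂ) + b * ((Real.sin θ : ℝ) : ℂ)
        = E * (al * (1 + μ * E' ^ 2)) := by
      rw [hcos, hsin]
      have h1 : al * (1 + μ * E' ^ 2) = al + be * E' ^ 2 := by
        rw [hμ]; field_simp
      rw [h1]
      have h2 : E * (al + be * E' ^ 2) = al * E + be * E' * (E * E') := by ring
      rw [h2, hEE, hal, hbe]
      ring
    have hnum : (E ^ N + E' ^ N) / 2 = E ^ N * ((1 + E' ^ (2 * N)) / 2) := by
      have h1 : E ^ N * E' ^ (2 * N) = E' ^ N := by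
        rw [two_mul, pow_add, ← mul_assoc, ← mul_pow, hEE, one_pow, one_mul]
      rw [← mul_div_assoc, mul_add, mul_one, h1]
    have hE'n : ‖E'‖ ≤ 1 := by
      have : E' = Complex.exp (((-θ : ℝ) : ℂ) * Complex.I) := by
        rw [hE']; congr 1; push_cast; ring
      rw [this, Complex.norm_exp_ofReal_mul_I]
    have hq := hne E' hE'n
    rw [hcm, hcosN, hden, hnum, hG]
    simp only
    rw [mul_pow, mul_pow]
    field_simp
  simp_rw [hpt]
  rw [integral_const_mul]
  apply mul_ne_zero (inv_ne_zero (pow_ne_zero _ hal0))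
  rw [← integral_Ioc_eq_integral_Ioo,
    ← intervalIntegral.integral_of_le (by linarith [Real.pi_pos])]
  rw [intervalIntegral.integral_comp_neg (fun θ => G (circleMap 0 1 θ)), neg_neg]
  have hper : Function.Periodic (fun θ => G (circleMap 0 1 θ)) (2 * Real.pi) := by
    intro θ
    simp only
    rw [periodic_circleMap]
  have h5 := hper.intervalIntegral_add_eq (-Real.pi) 0
  have h6 : -Real.pi + 2 * Real.pi = Real.pi := by ring
  rw [h6, zero_add] at h5
  rw [h5]
  exact hint

/-- a moment that does not vanish -/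
theorem moment_ne_zero (N : ℕ) (hN : 1 ≤ N) : ∃ Z : E2 → ℝ, ContDiff ℝ ∞ Z ∧
    (∀ y, Z y ≠ 0 → 1 < ‖y‖ ∧ ‖y‖ < 3 / 2) ∧
    ∀ a b : ℂ, 0 < ((starRingEnd ℂ) a * b).im →
      ∫ y, ((Z y : ℝ) : ℂ) / (a * (y 0 : ℝ) + b * (y 1 : ℝ)) ^ N ≠ 0 := by
  refine ⟨fun y => bmp (‖y‖ ^ 2) * ((((y 0 : ℝ) : ℂ) + ((y 1 : ℝ) : ℂ) * Complex.I) ^ N).re, ?_, ?_, ?_⟩
  · have h1 : ContDiff ℝ ∞ (fun y : E2 => bmp (‖y‖ ^ 2)) :=
      bmp.contDiff.comp (contDiff_norm_sq ℝ)
    have h0 : ∀ i : Fin 2, ContDiff ℝ ∞ (fun y : E2 => ((y i : ℝ) : ℂ)) := by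
      intro i
      exact Complex.ofRealCLM.contDiff.comp (EuclideanSpace.proj (𝕜 := ℝ) i).contDiff
    have h2 : ContDiff ℝ ∞ (fun y : E2 =>
        ((((y 0 : ℝ) : ℂ) + ((y 1 : ℝ) : ℂ) * Complex.I) ^ N).re) :=
      Complex.reCLM.contDiff.comp (((h0 0).add ((h0 1).mul contDiff_const)).pow N)
    exact h1.mul h2
  · intro y hy
    have h1 : bmp (‖y‖ ^ 2) ≠ 0 := fun h => hy (by simp only [h, zero_mul])
    obtain ⟨h2, h3⟩ := bmp_ne h1
    constructor
    · by_contra hcon
      have := not_lt.1 hcon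
      nlinarith [norm_nonneg y]
    · by_contra hcon
      have := not_lt.1 hcon
      nlinarith [norm_nonneg y]
  · intro a b hab
    set f : ℂ → ℂ := fun ξ => ((bmp (‖ξ‖ ^ 2) * (ξ ^ N).re : ℝ) : ℂ) /
      (a * (ξ.re : ℝ) + b * (ξ.im : ℝ)) ^ N with hf
    have hmp := Complex.orthonormalBasisOneI.measurePreserving_repr
    have hemb : MeasurableEmbedding (Complex.orthonormalBasisOneI.repr : ℂ → E2) :=
      Complex.orthonormalBasisOneI.repr.toHomeomorph.measurableEmbedding
    have hr0 : ∀ ξ : ℂ, (Complex.orthonormalBasisOneI.repr ξ) 0 = ξ.re := by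
      intro ξ; simp
    have hr1 : ∀ ξ : ℂ, (Complex.orthonormalBasisOneI.repr ξ) 1 = ξ.im := by
      intro ξ; simp
    have e1 := hmp.integral_comp hemb (fun y : E2 =>
      ((bmp (‖y‖ ^ 2) * ((((y 0 : ℝ) : ℂ) + ((y 1 : ℝ) : ℂ) * Complex.I) ^ N).re : ℝ) : ℂ) /
        (a * (y 0 : ℝ) + b * (y 1 : ℝ)) ^ N)
    rw [← e1]
    have e2 : ∀ ξ : ℂ, ((bmp (‖Complex.orthonormalBasisOneI.repr ξ‖ ^ 2) *
        (((((Complex.orthonormalBasisOneI.repr ξ) 0 : ℝ) : ℂ) +
          (((Complex.orthonormalBasisOneI.repr ξ) 1 : ℝ) : ℂ) * Complex.I) ^ N).re : ℝ) : ℂ) /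
        (a * ((Complex.orthonormalBasisOneI.repr ξ) 0 : ℝ) +
          b * ((Complex.orthonormalBasisOneI.repr ξ) 1 : ℝ)) ^ N = f ξ := by
      intro ξ
      rw [hr0, hr1, LinearIsometryEquiv.norm_map, Complex.re_add_im]
    simp_rw [e2]
    rw [← Complex.integral_comp_polarCoord_symm f]
    have e3 : ∀ p ∈ polarCoord.target, p.1 • f (Complex.polarCoord.symm p)
        = ((p.1 * bmp (p.1 ^ 2) : ℝ) : ℂ) *
          (((Real.cos (N * p.2) : ℝ) : ℂ) /
            (a * (Real.cos p.2 : ℝ) + b * (Real.sin p.2 : ℝ)) ^ N) := by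
      rintro ⟨r, θ⟩ hp
      have hr : 0 < r := hp.1
      simp only
      have hn : ‖Complex.polarCoord.symm (r, θ)‖ = r := by
        rw [Complex.norm_polarCoord_symm]; exact abs_of_pos hr
      have hsym := Complex.polarCoord_symm_apply (r, θ)
      simp only at hsym
      have hre : (Complex.polarCoord.symm (r, θ)).re = r * Real.cos θ := by
        rw [hsym, Complex.re_ofReal_mul]
        simp only [Complex.add_re, Complex.mul_re, Complex.ofReal_re, Complex.ofReal_im,
          Complex.I_re, Complex.I_im]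
        ring
      have him : (Complex.polarCoord.symm (r, θ)).im = r * Real.sin θ := by
        rw [hsym, Complex.im_ofReal_mul]
        simp only [Complex.add_im, Complex.mul_im, Complex.ofReal_re, Complex.ofReal_im,
          Complex.I_re, Complex.I_im]
        ring
      have hpow : ((Complex.polarCoord.symm (r, θ)) ^ N).re = r ^ N * Real.cos (N * θ) := by
        rw [hsym, mul_pow]
        have h1 : ((Real.cos θ : ℝ) : ℂ) + ((Real.sin θ : ℝ) : ℂ) * Complex.I
            = Complex.cos θ + Complex.sin θ * Complex.I := by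
          rw [Complex.ofReal_cos, Complex.ofReal_sin]
        rw [h1, Complex.cos_add_sin_mul_I_pow, ← Complex.ofReal_pow, Complex.re_ofReal_mul]
        congr 1
        have h2 : (N : ℂ) * (θ : ℂ) = ((N * θ : ℝ) : ℂ) := by push_cast; ring
        rw [h2, ← Complex.ofReal_cos, ← Complex.ofReal_sin]
        simp only [Complex.add_re, Complex.mul_re, Complex.ofReal_re, Complex.ofReal_im,
          Complex.I_re, Complex.I_im]
        ring
      rw [hf]
      simp only
      rw [hn, hre, him, hpow, Complex.real_smul]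
      have hden : a * ((r * Real.cos θ : ℝ) : ℂ) + b * ((r * Real.sin θ : ℝ) : ℂ)
          = (r : ℂ) * (a * ((Real.cos θ : ℝ) : ℂ) + b * ((Real.sin θ : ℝ) : ℂ)) := by
        push_cast; ring
      rw [hden, mul_pow]
      have hrN : ((r : ℂ)) ^ N ≠ 0 := pow_ne_zero _ (by exact_mod_cast hr.ne')
      push_cast
      rw [show (bmp (r ^ 2) : ℂ) * ((r : ℂ) ^ N * Complex.cos (N * θ))
        = (r : ℂ) ^ N * ((bmp (r ^ 2) : ℂ) * Complex.cos (N * θ)) by ring]
      rw [mul_div_mul_left _ _ hrN]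
      ring
    have hms : MeasurableSet polarCoord.target := polarCoord.open_target.measurableSet
    rw [setIntegral_congr_fun hms e3, polarCoord_target, Measure.volume_eq_prod]
    rw [setIntegral_prod_mul (fun r : ℝ => ((r * bmp (r ^ 2) : ℝ) : ℂ))
      (fun θ : ℝ => ((Real.cos (N * θ) : ℝ) : ℂ) /
            (a * (Real.cos θ : ℝ) + b * (Real.sin θ : ℝ)) ^ N)]
    apply mul_ne_zero _ (angular N hN a b hab)
    rw [integral_complex_ofReal]
    exact_mod_cast radial_pos.ne'


end J9681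
end H575Germ
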