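import Pool.Agent.Helper575.Germ.Defs

open scoped RealInnerProductSpace Topology ContDiff
open MeasureTheory Metric

namespace H575Germ
namespace J9682


/-- support condition -/
def SuppA (h : E2 → ℝ) : Prop := ∀ y, h y ≠ 0 → 1 < ‖y‖ ∧ ‖y‖ < 3 / 2

theorem pd_smooth_aux (i : Fin 2) (h : E2 → ℝ) (hh : ContDiff ℝ ∞ h) : ContDiff ℝ ∞ (pd i h) := by
  unfold pd
  exact (hh.fderiv_right (m := ∞) (by simp)).clm_apply contDiff_const

theorem pd_supp_aux (i : Fin 2) (h : E2 → ℝ) (hh : ContDiff ℝ ∞ h) (hs : SuppA h) :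
    SuppA (pd i h) := by
  have hc : Continuous (pd i h) := (pd_smooth_aux i h hh).continuous
  have hloc : ∀ (U : Set E2), IsOpen U → (∀ y ∈ U, h y = 0) → ∀ y ∈ closure U, pd i h y = 0 := by
    intro U hU hz
    have h1 : ∀ y ∈ U, pd i h y = 0 := by
      intro y hy
      have : h =ᶠ[𝓝 y] fun _ => (0 : ℝ) := by
        filter_upwards [hU.mem_nhds hy] with z hz'
        exact hz z hz'
      unfold pd
      rw [this.fderiv_eq]
      simp
    have hcl : IsClosed {y | pd i h y = 0} := isClosed_eq hc continuous_const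
    intro y hy
    exact closure_minimal h1 hcl hy
  intro y hy
  constructor
  · by_contra hcon
    rw [not_lt] at hcon
    apply hy
    apply hloc (ball 0 1) isOpen_ball
    · intro z hz
      by_contra hne
      have := (hs z hne).1
      rw [mem_ball_zero_iff] at hz
      linarith
    · rw [closure_ball (0 : E2) one_ne_zero, mem_closedBall_zero_iff]
      exact hcon
  · by_contra hcon
    rw [not_lt] at hcon
    apply hy
    apply hloc (closedBall 0 (3 / 2))ᶜ isClosed_closedBall.isOpen_compl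
    · intro z hz
      by_contra hne
      have := (hs z hne).2
      rw [Set.mem_compl_iff, mem_closedBall_zero_iff] at hz
      linarith
    · rw [closure_compl, interior_closedBall (0 : E2) (by norm_num), Set.mem_compl_iff,
        mem_ball_zero_iff]
      linarith

theorem iter_aux (n : ℕ) (Z : E2 → ℝ) (hZ : ContDiff ℝ ∞ Z) (hs : SuppA Z) :
    ContDiff ℝ ∞ ((pd 0)^[n] Z) ∧ SuppA ((pd 0)^[n] Z) := by
  induction n with
  | zero => exact ⟨hZ, hs⟩
  | succ n ih =>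
    rw [Function.iterate_succ']
    exact ⟨pd_smooth_aux 0 _ ih.1, pd_supp_aux 0 _ ih.1 ih.2⟩

/-- support of derivatives -/
theorem T_supp (n : ℕ) (Z : E2 → ℝ) (hZ : ContDiff ℝ ∞ Z)
    (hZs : ∀ y, Z y ≠ 0 → 1 < ‖y‖ ∧ ‖y‖ < 3 / 2) (i j : Fin 2) :
    ContDiff ℝ ∞ (T n i j Z) ∧ (∀ y, T n i j Z y ≠ 0 → 1 < ‖y‖ ∧ ‖y‖ < 3 / 2) := by
  obtain ⟨h1, h2⟩ := iter_aux n Z hZ hZs
  have h3 := pd_smooth_aux j _ h1
  have h4 := pd_supp_aux j _ h1 h2
  exact ⟨pd_smooth_aux i _ h3, pd_supp_aux i _ h3 h4⟩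

theorem w_ne_aux (a b : ℂ) (him : 0 < ((starRingEnd ℂ) a * b).im) (y : E2) (hy : y ≠ 0) :
    a * (y 0 : ℝ) + b * (y 1 : ℝ) ≠ 0 := by
  intro h
  have hre := congrArg Complex.re h
  have him' := congrArg Complex.im h
  simp at hre him'
  have hd : 0 < a.re * b.im - a.im * b.re := by
    simp at him
    linarith
  apply hy
  have e0 : (a.re * b.im - a.im * b.re) * y 0 = 0 := by
    linear_combination b.im * hre - b.re * him'
  have e1 : (a.re * b.im - a.im * b.re) * y 1 = 0 := by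
    linear_combination a.re * him' - a.im * hre
  ext k
  fin_cases k
  · exact (mul_eq_zero.mp e0).resolve_left hd.ne'
  · exact (mul_eq_zero.mp e1).resolve_left hd.ne'

theorem integrable_aux (h : E2 → ℝ) (hh : Continuous h) (hs : SuppA h) (a b : ℂ)
    (him : 0 < ((starRingEnd ℂ) a * b).im) (m : ℕ) :
    Integrable (fun y : E2 => ((h y : ℝ) : ℂ) / (a * (y 0 : ℝ) + b * (y 1 : ℝ)) ^ m) := by
  apply Continuous.integrable_of_hasCompactSupport
  · rw [continuous_iff_continuousAt]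
    intro y
    by_cases hy : y = 0
    · subst hy
      have : (fun y : E2 => ((h y : ℝ) : ℂ) / (a * (y 0 : ℝ) + b * (y 1 : ℝ)) ^ m) =ᶠ[𝓝 0]
          fun _ => 0 := by
        filter_upwards [ball_mem_nhds (0 : E2) one_pos] with z hz
        have : h z = 0 := by
          by_contra hne
          have := (hs z hne).1
          rw [mem_ball_zero_iff] at hz
          linarith
        rw [this]
        simp
      exact (continuousAt_const).congr this.symm
    · apply ContinuousAt.div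
      · exact (Complex.continuous_ofReal.comp hh).continuousAt
      · fun_prop
      · exact pow_ne_zero _ (w_ne_aux a b him y hy)
  · apply HasCompactSupport.of_support_subset_isCompact (isCompact_closedBall (0 : E2) (3 / 2))
    intro y hy
    rw [mem_closedBall_zero_iff]
    have : h y ≠ 0 := by
      intro h0
      apply hy
      show ((h y : ℝ) : ℂ) / (a * (y 0 : ℝ) + b * (y 1 : ℝ)) ^ m = 0
      rw [h0]
      simp
    exact (hs y this).2.le

theorem int3_aux (f g k : E2 → ℂ) (hf : Integrable f) (hg : Integrable g) (hk : Integrable k)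
    (p q r : ℂ) : ∫ y, (p * f y + q * g y + r * k y) =
      p * (∫ y, f y) + q * (∫ y, g y) + r * (∫ y, k y) := by
  calc ∫ y, (p * f y + q * g y + r * k y)
      = (∫ y, (p * f y + q * g y)) + ∫ y, r * k y :=
        integral_add (f := fun y => p * f y + q * g y)
          ((hf.const_mul p).add (hg.const_mul q)) (hk.const_mul r)
    _ = ((∫ y, p * f y) + ∫ y, q * g y) + ∫ y, r * k y := by
        rw [integral_add (hf.const_mul p) (hg.const_mul q)]
    _ = _ := by rw [integral_const_mul, integral_const_mul, integral_const_mul]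

/-- existence of the profile, from the one step lemma and the moment lemma (given as hypotheses) -/
theorem exists_profile
    (one_step : ∀ (G : E2 → ℝ), ContDiff ℝ 1 G →
      (∀ y, G y ≠ 0 → 1 < ‖y‖ ∧ ‖y‖ < 3 / 2) → ∀ (a b : ℂ),
      0 < ((starRingEnd ℂ) a * b).im → ∀ (m : ℕ),
      (∫ y, ((pd 0 G y : ℝ) : ℂ) / (a * (y 0 : ℝ) + b * (y 1 : ℝ)) ^ m =
        m * a * ∫ y, ((G y : ℝ) : ℂ) / (a * (y 0 : ℝ) + b * (y 1 : ℝ)) ^ (m + 1)) ∧
      (∫ y, ((pd 1 G y : ℝ) : ℂ) / (a * (y 0 : ℝ) + b * (y 1 : ℝ)) ^ m =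
        m * b * ∫ y, ((G y : ℝ) : ℂ) / (a * (y 0 : ℝ) + b * (y 1 : ℝ)) ^ (m + 1)))
    (moment : ∀ (N : ℕ), 1 ≤ N → ∃ Z : E2 → ℝ, ContDiff ℝ ∞ Z ∧
      (∀ y, Z y ≠ 0 → 1 < ‖y‖ ∧ ‖y‖ < 3 / 2) ∧
      ∀ a b : ℂ, 0 < ((starRingEnd ℂ) a * b).im →
        ∫ y, ((Z y : ℝ) : ℂ) / (a * (y 0 : ℝ) + b * (y 1 : ℝ)) ^ N ≠ 0)
    (n : ℕ) : ∃ Z : E2 → ℝ, ContDiff ℝ ∞ Z ∧
    (∀ y, Z y ≠ 0 → 1 < ‖y‖ ∧ ‖y‖ < 3 / 2) ∧
    ∀ a b : ℂ, 0 < ((starRingEnd ℂ) a * b).im → ∀ m11 m12 m22 : ℝ,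
      ∫ y, ((m11 * T n 0 0 Z y + 2 * m12 * T n 0 1 Z y + m22 * T n 1 1 Z y : ℝ) : ℂ) /
        (a * (y 0 : ℝ) + b * (y 1 : ℝ)) ^ 2 = 0 →
      m11 * a ^ 2 + 2 * m12 * a * b + m22 * b ^ 2 = 0 := by
  obtain ⟨Z, hZ, hZs, hmom⟩ := moment (n + 4) (by omega)
  refine ⟨Z, hZ, hZs, ?_⟩
  intro a b him m11 m12 m22 hint
  have hmom' := hmom a b him
  have ha : a ≠ 0 := by
    intro h
    rw [h] at him
    simp at him
  -- iterated step
  have hiter : ∀ (k : ℕ) (m : ℕ), 1 ≤ m → ∃ K : ℝ, 0 < K ∧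
      ∫ y, (((pd 0)^[k] Z y : ℝ) : ℂ) / (a * (y 0 : ℝ) + b * (y 1 : ℝ)) ^ m =
        K * a ^ k * ∫ y, ((Z y : ℝ) : ℂ) / (a * (y 0 : ℝ) + b * (y 1 : ℝ)) ^ (m + k) := by
    intro k
    induction k with
    | zero =>
      intro m _
      exact ⟨1, one_pos, by simp⟩
    | succ k ih =>
      intro m hm
      obtain ⟨K, hK, hKe⟩ := ih (m + 1) (by omega)
      obtain ⟨h1, h2⟩ := iter_aux k Z hZ hZs
      have h3 := (one_step _ (h1.of_le (by simp)) h2 a b him m).1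
      refine ⟨m * K, by positivity, ?_⟩
      rw [Function.iterate_succ', Function.comp_apply, h3, hKe]
      rw [show m + 1 + k = m + (k + 1) by omega]
      push_cast
      ring
  obtain ⟨K, hK, hKe⟩ := hiter n 4 (by norm_num)
  obtain ⟨h1, h2⟩ := iter_aux n Z hZ hZs
  set τ : ℂ := ∫ y, ((Z y : ℝ) : ℂ) / (a * (y 0 : ℝ) + b * (y 1 : ℝ)) ^ (n + 4) with hτ
  rw [show 4 + n = n + 4 by omega, ← hτ] at hKe
  have hj : ∀ j : Fin 2, ContDiff ℝ ∞ (pd j ((pd 0)^[n] Z)) ∧ SuppA (pd j ((pd 0)^[n] Z)) :=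
    fun j => ⟨pd_smooth_aux j _ h1, pd_supp_aux j _ h1 h2⟩
  have s0 := (one_step _ (h1.of_le (by simp)) h2 a b him 3).1
  have s1 := (one_step _ (h1.of_le (by simp)) h2 a b him 3).2
  have t00 := (one_step _ ((hj 0).1.of_le (by simp)) (hj 0).2 a b him 2).1
  have t01 := (one_step _ ((hj 1).1.of_le (by simp)) (hj 1).2 a b him 2).1
  have t11 := (one_step _ ((hj 1).1.of_le (by simp)) (hj 1).2 a b him 2).2
  norm_num at s0 s1 t00 t01 t11
  rw [s0, hKe] at t00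
  rw [s1, hKe] at t01 t11
  have I : ∀ i j : Fin 2, Integrable (fun y : E2 =>
      ((T n i j Z y : ℝ) : ℂ) / (a * (y 0 : ℝ) + b * (y 1 : ℝ)) ^ 2) := fun i j =>
    integrable_aux _ (T_supp n Z hZ hZs i j).1.continuous (T_supp n Z hZ hZs i j).2 a b him 2
  have hsum : ∫ y, ((m11 * T n 0 0 Z y + 2 * m12 * T n 0 1 Z y + m22 * T n 1 1 Z y : ℝ) : ℂ) /
        (a * (y 0 : ℝ) + b * (y 1 : ℝ)) ^ 2 =
      m11 * (∫ y, ((T n 0 0 Z y : ℝ) : ℂ) / (a * (y 0 : ℝ) + b * (y 1 : ℝ)) ^ 2) +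
      2 * m12 * (∫ y, ((T n 0 1 Z y : ℝ) : ℂ) / (a * (y 0 : ℝ) + b * (y 1 : ℝ)) ^ 2) +
      m22 * (∫ y, ((T n 1 1 Z y : ℝ) : ℂ) / (a * (y 0 : ℝ) + b * (y 1 : ℝ)) ^ 2) := by
    rw [← int3_aux _ _ _ (I 0 0) (I 0 1) (I 1 1)]
    apply integral_congr_ae
    refine Filter.Eventually.of_forall (fun y => ?_)
    simp only
    push_cast
    ring
  rw [hsum] at hint
  have u00 : (∫ y, ((T n 0 0 Z y : ℝ) : ℂ) / (a * (y 0 : ℝ) + b * (y 1 : ℝ)) ^ 2) =
      2 * a * (3 * a * (K * a ^ n * τ)) := t00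
  have u01 : (∫ y, ((T n 0 1 Z y : ℝ) : ℂ) / (a * (y 0 : ℝ) + b * (y 1 : ℝ)) ^ 2) =
      2 * a * (3 * b * (K * a ^ n * τ)) := t01
  have u11 : (∫ y, ((T n 1 1 Z y : ℝ) : ℂ) / (a * (y 0 : ℝ) + b * (y 1 : ℝ)) ^ 2) =
      2 * b * (3 * b * (K * a ^ n * τ)) := t11
  rw [u00, u01, u11] at hint
  have hne : (6 * (K * a ^ n * τ) : ℂ) ≠ 0 := by
    have : (K : ℂ) ≠ 0 := by exact_mod_cast hK.ne'
    exact mul_ne_zero (by norm_num) (mul_ne_zero (mul_ne_zero this (pow_ne_zero _ ha)) hmom')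
  apply mul_left_cancel₀ hne
  rw [mul_zero]
  linear_combination hint


end J9682
end H575Germ
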