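import Pool.Agent.Helper575.Germ.Defs

open scoped RealInnerProductSpace Topology ContDiff
open MeasureTheory Metric

namespace H575Germ
namespace J9683


theorem feature_supp (Z : E2 → ℝ) (hZ : ContDiff ℝ ∞ Z)
    (hZs : ∀ y, Z y ≠ 0 → 1 < ‖y‖ ∧ ‖y‖ < 3 / 2) (n : ℕ) (y : E2)
    (hy : iteratedFDeriv ℝ n Z y ≠ 0) : 1 < ‖y‖ ∧ ‖y‖ < 3 / 2 := by
  have hcont : Continuous (iteratedFDeriv ℝ n Z) := hZ.continuous_iteratedFDeriv (by exact_mod_cast le_top)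
  have hopen : IsOpen (Function.support (iteratedFDeriv ℝ n Z)) := hcont.isOpen_support
  have hts : tsupport Z ⊆ closedBall 0 (3 / 2) ∩ (ball 0 1)ᶜ := by
    refine closure_minimal ?_ (isClosed_closedBall.inter isOpen_ball.isClosed_compl)
    intro z hz
    have := hZs z hz
    simp only [Set.mem_inter_iff, mem_closedBall, dist_zero_right, Set.mem_compl_iff, mem_ball,
      not_lt]
    exact ⟨this.2.le, this.1.le⟩
  have hsub := (support_iteratedFDeriv_subset (𝕜 := ℝ) (f := Z) n).trans hts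
  have h1 : Function.support (iteratedFDeriv ℝ n Z) ⊆ interior (closedBall (0 : E2) (3 / 2)) :=
    hopen.subset_interior_iff.2 (hsub.trans Set.inter_subset_left)
  have h2 : Function.support (iteratedFDeriv ℝ n Z) ⊆ interior ((ball (0 : E2) 1)ᶜ) :=
    hopen.subset_interior_iff.2 (hsub.trans Set.inter_subset_right)
  rw [interior_closedBall _ (by norm_num)] at h1
  rw [interior_compl, closure_ball _ (by norm_num)] at h2
  have m1 := h1 hy
  have m2 := h2 hy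
  simp only [mem_ball, dist_zero_right, Set.mem_compl_iff, mem_closedBall, not_le] at m1 m2
  exact ⟨m2, m1⟩

theorem feature_bdd (Z : E2 → ℝ) (hZ : ContDiff ℝ ∞ Z)
    (hZs : ∀ y, Z y ≠ 0 → 1 < ‖y‖ ∧ ‖y‖ < 3 / 2) (n : ℕ) :
    ∃ C : ℝ, ∀ m : ℕ, m ≤ n → ∀ y, ‖iteratedFDeriv ℝ m Z y‖ ≤ C := by
  have hcs : HasCompactSupport Z := by
    refine HasCompactSupport.intro (isCompact_closedBall (0 : E2) (3 / 2)) fun x hx => ?_
    by_contra h
    have := hZs x h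
    simp only [mem_closedBall, dist_zero_right, not_le] at hx
    linarith [this.2]
  induction n with
  | zero =>
    obtain ⟨C, hC⟩ := (hZ.continuous_iteratedFDeriv (m := 0) (by exact_mod_cast le_top)).bounded_above_of_compact_support
      (hcs.iteratedFDeriv (𝕜 := ℝ) 0)
    refine ⟨C, fun m hm y => ?_⟩
    obtain rfl : m = 0 := by omega
    exact hC y
  | succ n ih =>
    obtain ⟨C, hC⟩ := (hZ.continuous_iteratedFDeriv (m := n + 1) (by exact_mod_cast le_top)).bounded_above_of_compact_support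
      (hcs.iteratedFDeriv (𝕜 := ℝ) (n + 1))
    obtain ⟨C', hC'⟩ := ih
    refine ⟨max C C', fun m hm y => ?_⟩
    rcases Nat.lt_or_ge n m with h | h
    · obtain rfl : m = n + 1 := by omega
      exact (hC y).trans (le_max_left _ _)
    · exact (hC' m h y).trans (le_max_right _ _)

theorem feature_lip {W : Type*} [NormedAddCommGroup W] (g : E2 → W) (C L : ℝ) (hC0 : 0 ≤ C)
    (hL0 : 0 ≤ L) (hC : ∀ y, ‖g y‖ ≤ C) (hL : ∀ a b, ‖g a - g b‖ ≤ L * ‖a - b‖)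
    (hs : ∀ y, g y ≠ 0 → ‖y‖ < 3 / 2) (a b : E2) (hb : b ≠ 0) :
    ‖g a - g b‖ ≤ (3 * L + 4 * C) * (‖a - b‖ / ‖b‖) := by
  have hb' : 0 < ‖b‖ := norm_pos_iff.2 hb
  have hq : 0 ≤ ‖a - b‖ / ‖b‖ := by positivity
  rcases le_or_gt ‖b‖ 3 with h3 | h3
  · have h1 : ‖a - b‖ ≤ 3 * (‖a - b‖ / ‖b‖) := by
      rw [← mul_div_assoc, le_div_iff₀ hb']
      nlinarith [norm_nonneg (a - b)]
    calc ‖g a - g b‖ ≤ L * ‖a - b‖ := hL a b
      _ ≤ L * (3 * (‖a - b‖ / ‖b‖)) := by gcongr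
      _ ≤ (3 * L + 4 * C) * (‖a - b‖ / ‖b‖) := by nlinarith [mul_nonneg hC0 hq]
  · have hgb : g b = 0 := by
      by_contra h
      linarith [hs b h]
    by_cases hga : g a = 0
    · rw [hga, hgb, sub_zero, norm_zero]
      positivity
    · have ha := hs a hga
      have h1 : ‖b‖ / 2 ≤ ‖a - b‖ := by
        have := norm_sub_norm_le b a
        rw [norm_sub_rev] at this
        linarith
      have h2 : (1 : ℝ) / 2 ≤ ‖a - b‖ / ‖b‖ := by
        rw [le_div_iff₀ hb']; linarith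
      rw [hgb, sub_zero]
      calc ‖g a‖ ≤ C := hC a
        _ ≤ (3 * L + 4 * C) * (‖a - b‖ / ‖b‖) := by nlinarith [mul_nonneg hL0 hq]

theorem feature_one {W : Type*} [Zero W] (g : E2 → W) (hs : ∀ y, g y ≠ 0 → 1 < ‖y‖ ∧ ‖y‖ < 3 / 2) (x : E2) :
    ∃ i₀ : ℕ, ∀ i : ℕ, i ≠ i₀ → g (((2:ℝ) ^ i) • x) = 0 := by
  by_cases hex : ∃ i₀ : ℕ, g (((2:ℝ) ^ i₀) • x) ≠ 0
  · obtain ⟨i₀, hi₀⟩ := hex
    refine ⟨i₀, fun i hne => ?_⟩
    by_contra hi
    have h1 := hs _ hi₀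
    have h2 := hs _ hi
    rw [norm_smul, norm_pow, Real.norm_eq_abs, abs_two] at h1 h2
    have key : ∀ p q : ℕ, p < q → 1 < (2:ℝ) ^ p * ‖x‖ → (2:ℝ) ^ q * ‖x‖ < 3 / 2 → False := by
      intro p q hpq ha hb
      obtain ⟨r, rfl⟩ : ∃ r, q = p + 1 + r := ⟨q - p - 1, by omega⟩
      have : (2:ℝ) ^ (p + 1 + r) * ‖x‖ = (2 ^ r) * (2 * (2 ^ p * ‖x‖)) := by ring
      rw [this] at hb
      have hr : (1:ℝ) ≤ 2 ^ r := one_le_pow₀ (by norm_num)
      nlinarith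
    rcases Nat.lt_or_gt_of_ne hne with h | h
    · exact key i i₀ h h2.1 h1.2
    · exact key i₀ i h h1.1 h2.2
  · push Not at hex
    exact ⟨0, fun i _ => hex i⟩

/-- the rough feature at one point -/
theorem feature (k : ℕ) (hk : 1 ≤ k) (Z : E2 → ℝ) (hZ : ContDiff ℝ ∞ Z)
    (hZs : ∀ y, Z y ≠ 0 → 1 < ‖y‖ ∧ ‖y‖ < 3 / 2) :
    ∃ (F : E2 → ℝ) (M : ℝ), ContDiff ℝ k F ∧
      (∀ n : ℕ, n ≤ k → ∀ x, ‖iteratedFDeriv ℝ n F x‖ ≤ M) ∧
      (∀ (m : ℕ) (x : E2), Ann m x → iteratedFDeriv ℝ k F x =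
        ((2:ℝ) ^ m)⁻¹ • ∑ i ∈ Finset.Ico (2 ^ m) (2 ^ (m + 1)),
          iteratedFDeriv ℝ k Z (((2:ℝ) ^ i) • x)) ∧
      iteratedFDeriv ℝ k F 0 = 0 ∧
      (∀ y y' : E2, y' ≠ 0 →
        ‖iteratedFDeriv ℝ k F y - iteratedFDeriv ℝ k F y'‖ ≤ M * ‖y - y'‖ / ‖y'‖) := by
  classical
  obtain ⟨C, hC⟩ := feature_bdd Z hZ hZs (k + 1)
  have hC0 : 0 ≤ C := (norm_nonneg _).trans (hC 0 (by omega) 0)
  have hsupp := feature_supp Z hZ hZs
  have hcd : ∀ n : ℕ, ContDiff ℝ n Z := fun n => hZ.of_le (by exact_mod_cast le_top)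
  -- the pieces
  let P : ℕ → E2 → ℝ := fun m x => ((2:ℝ) ^ m)⁻¹ • ∑ i ∈ Finset.Ico (2 ^ m) (2 ^ (m + 1)),
    (((2:ℝ) ^ i) ^ k)⁻¹ • Z (((2:ℝ) ^ i) • x)
  have hZc : ∀ (n i : ℕ), ContDiff ℝ n (fun x : E2 => (((2:ℝ) ^ i) ^ k)⁻¹ • Z (((2:ℝ) ^ i) • x)) := by
    intro n i
    exact ((hcd n).comp (contDiff_id.const_smul _)).const_smul _
  have hsum : ∀ (n m : ℕ), ContDiff ℝ n (fun x : E2 => ∑ i ∈ Finset.Ico (2 ^ m) (2 ^ (m + 1)),
    (((2:ℝ) ^ i) ^ k)⁻¹ • Z (((2:ℝ) ^ i) • x)) := fun n m => ContDiff.sum fun i _ => hZc n i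
  have hPc : ∀ (n m : ℕ), ContDiff ℝ n (P m) := fun n m => (hsum n m).const_smul _
  have hPd : ∀ (n m : ℕ) (x : E2), iteratedFDeriv ℝ n (P m) x =
      ((2:ℝ) ^ m)⁻¹ • ∑ i ∈ Finset.Ico (2 ^ m) (2 ^ (m + 1)),
        ((((2:ℝ) ^ i) ^ k)⁻¹ * ((2:ℝ) ^ i) ^ n) • iteratedFDeriv ℝ n Z (((2:ℝ) ^ i) • x) := by
    intro n m x
    have e1 := iteratedFDeriv_const_smul_apply' (a := ((2:ℝ) ^ m)⁻¹) (hsum n m).contDiffAt (x := x)
    refine e1.trans ?_
    congr 1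
    rw [iteratedFDeriv_fun_sum_apply fun i _ => (hZc n i).contDiffAt]
    refine Finset.sum_congr rfl fun i _ => ?_
    have e2 := iteratedFDeriv_const_smul_apply' (a := (((2:ℝ) ^ i) ^ k)⁻¹) (i := n)
      (f := fun x : E2 => Z (((2:ℝ) ^ i) • x))
      ((hcd n).comp (contDiff_id.const_smul _)).contDiffAt (x := x)
    refine e2.trans ?_
    rw [iteratedFDeriv_comp_const_smul _ (hcd n), smul_smul]
  have hPb : ∀ (n m : ℕ) (x : E2), n ≤ k → ‖iteratedFDeriv ℝ n (P m) x‖ ≤ C * ((2:ℝ)⁻¹) ^ m := by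
    intro n m x hn
    rw [hPd, norm_smul, norm_inv, norm_pow, Real.norm_eq_abs, abs_two, ← inv_pow, mul_comm C]
    refine mul_le_mul_of_nonneg_left ?_ (by positivity)
    obtain ⟨i₀, hi₀⟩ := feature_one (iteratedFDeriv ℝ n Z) (hsupp n) x
    by_cases hmem : i₀ ∈ Finset.Ico (2 ^ m) (2 ^ (m + 1))
    · rw [Finset.sum_eq_single i₀ (fun i _ hi => by rw [hi₀ i hi, smul_zero]) (fun h => absurd hmem h)]
      rw [norm_smul]
      have hcoef : ‖(((2:ℝ) ^ i₀) ^ k)⁻¹ * ((2:ℝ) ^ i₀) ^ n‖ ≤ 1 := by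
        have hpos : (0:ℝ) < ((2:ℝ) ^ i₀) ^ k := by positivity
        rw [Real.norm_eq_abs, abs_of_nonneg (by positivity), inv_mul_eq_div, div_le_one hpos]
        exact pow_le_pow_right₀ (one_le_pow₀ (by norm_num)) hn
      calc _ ≤ 1 * C := mul_le_mul hcoef (hC n (by omega) _) (norm_nonneg _) zero_le_one
        _ = C := one_mul C
    · rw [Finset.sum_eq_zero, norm_zero]
      · exact hC0
      · intro i hi
        rw [hi₀ i (fun h => hmem (h ▸ hi)), smul_zero]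
  have hsumm : Summable (fun m : ℕ => C * ((2:ℝ)⁻¹) ^ m) :=
    (summable_geometric_of_lt_one (by norm_num) (by norm_num)).mul_left C
  let F : E2 → ℝ := fun x => ∑' m, P m x
  have hFc : ContDiff ℝ k F := by
    refine contDiff_tsum (N := k) (v := fun _ m => C * ((2:ℝ)⁻¹) ^ m) (fun m => hPc k m)
      (fun _ _ => hsumm) ?_
    intro n m x hn
    exact hPb n m x (by exact_mod_cast hn)
  have hFd : ∀ n : ℕ, n ≤ k → ∀ x, iteratedFDeriv ℝ n F x = ∑' m, iteratedFDeriv ℝ n (P m) x := by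
    intro n hn x
    refine iteratedFDeriv_tsum_apply (N := k) (v := fun _ m => C * ((2:ℝ)⁻¹) ^ m)
      (fun m => hPc k m) (fun _ _ => hsumm) ?_ (by exact_mod_cast hn) x
    intro n' m x hn'
    exact hPb n' m x (by exact_mod_cast hn')
  have hFb : ∀ n : ℕ, n ≤ k → ∀ x, ‖iteratedFDeriv ℝ n F x‖ ≤ 2 * C := by
    intro n hn x
    rw [hFd n hn x]
    refine (tsum_of_norm_bounded hsumm.hasSum fun m => hPb n m x hn).trans ?_
    rw [tsum_mul_left, tsum_geometric_of_lt_one (by norm_num) (by norm_num)]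
    norm_num
    linarith
  -- weights
  let ρ : ℕ → ℝ := fun i => if i = 0 then 0 else ((2:ℝ) ^ (Nat.log 2 i))⁻¹
  have hρ0 : ∀ i, 0 ≤ ρ i := by
    intro i
    simp only [ρ]
    split_ifs
    · exact le_rfl
    · positivity
  have hρ1 : ∀ i, ρ i ≤ 1 := by
    intro i
    simp only [ρ]
    split_ifs
    · exact zero_le_one
    · exact inv_le_one_of_one_le₀ (one_le_pow₀ (by norm_num))
  have hPk : ∀ (m : ℕ) (x : E2), iteratedFDeriv ℝ k (P m) x =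
      ((2:ℝ) ^ m)⁻¹ • ∑ i ∈ Finset.Ico (2 ^ m) (2 ^ (m + 1)), iteratedFDeriv ℝ k Z (((2:ℝ) ^ i) • x) := by
    intro m x
    rw [hPd]
    congr 1
    refine Finset.sum_congr rfl fun i _ => ?_
    rw [inv_mul_cancel₀ (by positivity), one_smul]
  have hact : ∀ x, ∃ i, iteratedFDeriv ℝ k F x = ρ i • iteratedFDeriv ℝ k Z (((2:ℝ) ^ i) • x) ∧
      ∀ j, j ≠ i → iteratedFDeriv ℝ k Z (((2:ℝ) ^ j) • x) = 0 := by
    intro x
    obtain ⟨i₀, hi₀⟩ := feature_one (iteratedFDeriv ℝ k Z) (hsupp k) x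
    refine ⟨i₀, ?_, hi₀⟩
    have hzero : ∀ m, i₀ ∉ Finset.Ico (2 ^ m) (2 ^ (m + 1)) → iteratedFDeriv ℝ k (P m) x = 0 := by
      intro m hm
      rw [hPk, Finset.sum_eq_zero, smul_zero]
      intro i hi
      exact hi₀ i (fun h => hm (h ▸ hi))
    rw [hFd k le_rfl]
    by_cases h0 : i₀ = 0
    · have : ∀ m, iteratedFDeriv ℝ k (P m) x = 0 := by
        intro m
        apply hzero
        rw [h0, Finset.mem_Ico]
        have : 0 < 2 ^ m := by positivity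
        omega
      simp only [this, tsum_zero, ρ, h0, if_true, zero_smul]
    · rw [tsum_eq_single (Nat.log 2 i₀)]
      · have hmem : i₀ ∈ Finset.Ico (2 ^ (Nat.log 2 i₀)) (2 ^ (Nat.log 2 i₀ + 1)) := by
          rw [Finset.mem_Ico]
          exact ⟨Nat.pow_log_le_self 2 h0, Nat.lt_pow_succ_log_self (by norm_num) i₀⟩
        rw [hPk, Finset.sum_eq_single i₀ (fun i _ hi => hi₀ i hi) (fun h => absurd hmem h)]
        simp only [ρ, h0, if_false]
      · intro m hm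
        apply hzero
        intro hmem
        rw [Finset.mem_Ico] at hmem
        exact hm ((Nat.log_eq_of_pow_le_of_lt_pow hmem.1 hmem.2).symm)
  have hLip : ∀ a b, ‖iteratedFDeriv ℝ k Z a - iteratedFDeriv ℝ k Z b‖ ≤ C * ‖a - b‖ := by
    intro a b
    refine Convex.norm_image_sub_le_of_norm_fderiv_le (𝕜 := ℝ) (s := Set.univ) ?_ ?_ convex_univ
      (Set.mem_univ b) (Set.mem_univ a)
    · intro z _
      exact (hZ.differentiable_iteratedFDeriv (by exact_mod_cast ENat.natCast_lt_top k)).differentiableAt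
    · intro z _
      rw [norm_fderiv_iteratedFDeriv]
      exact hC (k + 1) le_rfl z
  have hdiff : ∀ (i : ℕ) (y y' : E2), y' ≠ 0 →
      ‖ρ i • iteratedFDeriv ℝ k Z (((2:ℝ) ^ i) • y) - ρ i • iteratedFDeriv ℝ k Z (((2:ℝ) ^ i) • y')‖ ≤
        (3 * C + 4 * C) * (‖y - y'‖ / ‖y'‖) := by
    intro i y y' hy'
    have h2 : (0:ℝ) < 2 ^ i := by positivity
    have hne : ((2:ℝ) ^ i) • y' ≠ 0 := smul_ne_zero h2.ne' hy'
    have h := feature_lip (iteratedFDeriv ℝ k Z) C C hC0 hC0 (hC k (by omega)) hLip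
      (fun y hy => (hsupp k y hy).2) (((2:ℝ) ^ i) • y) (((2:ℝ) ^ i) • y') hne
    have hsc : ‖((2:ℝ) ^ i) • y - ((2:ℝ) ^ i) • y'‖ / ‖((2:ℝ) ^ i) • y'‖ = ‖y - y'‖ / ‖y'‖ := by
      rw [← smul_sub, norm_smul, norm_smul]
      exact mul_div_mul_left _ _ (norm_pos_iff.2 h2.ne').ne'
    rw [hsc] at h
    rw [← smul_sub, norm_smul, Real.norm_eq_abs, abs_of_nonneg (hρ0 i)]
    exact (mul_le_of_le_one_left (norm_nonneg _) (hρ1 i)).trans h
  refine ⟨F, 14 * C, hFc, ?_, ?_, ?_, ?_⟩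
  · intro n hn x
    exact (hFb n hn x).trans (by linarith)
  · intro m x hx
    rw [hFd k le_rfl, tsum_eq_single m, hPk]
    intro m' hm'
    rw [hPk, Finset.sum_eq_zero, smul_zero]
    intro i hi
    rw [Finset.mem_Ico] at hi
    by_contra hne
    have hs := hsupp k _ hne
    rw [norm_smul, norm_pow, Real.norm_eq_abs, abs_two] at hs
    rcases Nat.lt_or_gt_of_ne hm' with h | h
    · -- i < 2^m
      have hi2 : i + 1 ≤ 2 ^ m := by
        have : 2 ^ (m' + 1) ≤ 2 ^ m := Nat.pow_le_pow_right (by norm_num) h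
        omega
      obtain ⟨r, hr⟩ : ∃ r, 2 ^ m = i + 1 + r := ⟨2 ^ m - (i + 1), by omega⟩
      have h1 := hx.2
      rw [hr] at h1
      have h3 : (2:ℝ) ^ i * ‖x‖ ≤ 2 ^ i * (2 * (2 ^ (i + 1 + r))⁻¹) := by gcongr
      have h4 : (2:ℝ) ^ i * (2 * (2 ^ (i + 1 + r))⁻¹) = (2 ^ r)⁻¹ := by
        have : (2:ℝ) ^ (i + 1 + r) = 2 ^ i * 2 * 2 ^ r := by ring
        rw [this]
        field_simp
      have h5 : ((2:ℝ) ^ r)⁻¹ ≤ 1 := inv_le_one_of_one_le₀ (one_le_pow₀ (by norm_num))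
      linarith [hs.1]
    · have hi2 : 2 ^ (m + 1) ≤ i := by
        have : 2 ^ (m + 1) ≤ 2 ^ m' := Nat.pow_le_pow_right (by norm_num) h
        omega
      obtain ⟨r, hr⟩ : ∃ r, i = 2 ^ (m + 1) + r := ⟨i - 2 ^ (m + 1), by omega⟩
      have h1 := hx.1
      have h3 : (2:ℝ) ^ i * ((3 / 2) * ((2:ℝ) ^ (2 ^ (m + 1)))⁻¹) ≤ 2 ^ i * ‖x‖ := by gcongr
      have h4 : (2:ℝ) ^ i * ((3 / 2) * ((2:ℝ) ^ (2 ^ (m + 1)))⁻¹) = 3 / 2 * 2 ^ r := by
        rw [hr, pow_add]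
        field_simp
      have h5 : (1:ℝ) ≤ 2 ^ r := one_le_pow₀ (by norm_num)
      linarith [hs.2]
  · obtain ⟨i, hi, -⟩ := hact 0
    rw [hi, smul_zero]
    have : iteratedFDeriv ℝ k Z 0 = 0 := by
      by_contra h
      have := (hsupp k 0 h).1
      rw [norm_zero] at this
      linarith
    rw [this, smul_zero]
  · intro y y' hy'
    obtain ⟨i, hi, hi'⟩ := hact y
    obtain ⟨j, hj, hj'⟩ := hact y'
    have hq : 0 ≤ ‖y - y'‖ / ‖y'‖ := by positivity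
    rw [mul_div_assoc]
    by_cases hij : i = j
    · subst hij
      rw [hi, hj]
      refine (hdiff i y y' hy').trans ?_
      nlinarith [mul_nonneg hC0 hq]
    · have e : iteratedFDeriv ℝ k F y - iteratedFDeriv ℝ k F y' =
          (ρ i • iteratedFDeriv ℝ k Z (((2:ℝ) ^ i) • y) - ρ i • iteratedFDeriv ℝ k Z (((2:ℝ) ^ i) • y')) +
          (ρ j • iteratedFDeriv ℝ k Z (((2:ℝ) ^ j) • y) - ρ j • iteratedFDeriv ℝ k Z (((2:ℝ) ^ j) • y')) := by
        rw [hi, hj, hi' j (Ne.symm hij), hj' i hij, smul_zero, smul_zero, sub_zero, zero_sub,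
          sub_eq_add_neg]
      rw [e]
      refine (norm_add_le _ _).trans ?_
      have h1 := hdiff i y y' hy'
      have h2 := hdiff j y y' hy'
      linarith


end J9683
end H575Germ
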