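import Pool.Agent.Helper575.Germ.Defs

open scoped RealInnerProductSpace Topology ContDiff
open MeasureTheory Metric

namespace H575Germ
namespace J9684


/-- superposition of features with a dense set of centres -/
theorem superpose (k : ℕ) (hk : 2 ≤ k) (F : E2 → ℝ) (M : ℝ) (hF : ContDiff ℝ k F)
    (hM : ∀ n : ℕ, n ≤ k → ∀ x, ‖iteratedFDeriv ℝ n F x‖ ≤ M)
    (h0 : iteratedFDeriv ℝ k F 0 = 0)
    (hL : ∀ y y' : E2, y' ≠ 0 →
        ‖iteratedFDeriv ℝ k F y - iteratedFDeriv ℝ k F y'‖ ≤ M * ‖y - y'‖ / ‖y'‖)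
    (δ : ℝ) (hδ : 0 < δ) :
    ∃ v : E2 → ℝ, ContDiff ℝ k v ∧ (∀ x, ‖iteratedFDeriv ℝ 2 v x‖ ≤ δ) ∧
      ∃ D : Set E2, Dense D ∧ ∀ p ∈ D, ∃ ε : ℝ, ε ≠ 0 ∧ ∃ C : ℝ, ∀ x : E2,
        ‖iteratedFDeriv ℝ k v x - iteratedFDeriv ℝ k v p - ε • iteratedFDeriv ℝ k F (x - p)‖
          ≤ C * ‖x - p‖ := by
  classical
  have hM0 : 0 ≤ M := le_trans (norm_nonneg _) (hM 0 (Nat.zero_le _) 0)
  -- injective enumeration of a dense set
  obtain ⟨S, hSc, hSd⟩ := TopologicalSpace.exists_countable_dense E2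
  have hSinf : S.Infinite := by
    intro hfin
    have h1 : closure S = S := hfin.isClosed.closure_eq
    rw [hSd.closure_eq] at h1
    have : (Set.univ : Set E2).Finite := h1 ▸ hfin
    exact Set.infinite_univ this
  have : Countable S := hSc.to_subtype
  have : Infinite S := hSinf.to_subtype
  obtain ⟨hden⟩ := nonempty_denumerable S
  let e : ℕ ≃ S := (Denumerable.eqv S).symm
  let s : ℕ → E2 := fun n => (e n : E2)
  have hsinj : Function.Injective s := fun a b h => e.injective (Subtype.ext h)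
  have hsrange : Set.range s = S := by
    ext x
    constructor
    · rintro ⟨n, rfl⟩
      exact (e n).2
    · intro hx
      exact ⟨e.symm ⟨x, hx⟩, by simp [s]⟩
  have hρ : ∀ n : ℕ, ∃ r : ℝ, 0 < r ∧ r ≤ 1 ∧ ∀ m < n, r ≤ ‖s n - s m‖ := by
    intro n
    have : ∀ N : ℕ, N ≤ n → ∃ r : ℝ, 0 < r ∧ r ≤ 1 ∧ ∀ m < N, r ≤ ‖s n - s m‖ := by
      intro N
      induction N with
      | zero => intro _; exact ⟨1, one_pos, le_refl _, fun m hm => absurd hm (Nat.not_lt_zero _)⟩
      | succ N ih =>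
        intro hN
        obtain ⟨r, hr0, hr1, hr⟩ := ih (by omega)
        have hne : 0 < ‖s n - s N‖ := by
          rw [norm_pos_iff, sub_ne_zero]
          intro h
          have := hsinj h
          omega
        refine ⟨min r ‖s n - s N‖, lt_min hr0 hne, le_trans (min_le_left _ _) hr1, ?_⟩
        intro m hm
        rcases Nat.lt_succ_iff_lt_or_eq.1 hm with h | h
        · exact le_trans (min_le_left _ _) (hr m h)
        · rw [h]; exact min_le_right _ _
    exact this n le_rfl
  choose ρ hρ0 hρ1 hρm using hρ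
  set c : ℝ := δ / (2 * (M + 1)) with hc
  have hc0 : 0 < c := by positivity
  let ε : ℕ → ℝ := fun n => c * (1 / 2) ^ n * ρ n
  have hε0 : ∀ n, 0 < ε n := fun n => by
    have := hρ0 n
    simp only [ε]; positivity
  have hεle : ∀ n, ε n ≤ c * (1 / 2) ^ n := fun n => by
    have h1 := hρ1 n
    have h2 : 0 ≤ c * (1 / 2 : ℝ) ^ n := by positivity
    calc ε n = (c * (1 / 2) ^ n) * ρ n := rfl
      _ ≤ (c * (1 / 2) ^ n) * 1 := mul_le_mul_of_nonneg_left h1 h2
      _ = _ := mul_one _
  have hgeo : HasSum (fun n : ℕ => c * (1 / 2 : ℝ) ^ n) (c * 2) := hasSum_geometric_two.mul_left c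
  -- terms
  let f : ℕ → E2 → ℝ := fun n x => ε n • F (x - s n)
  have hf : ∀ n, ContDiff ℝ k (f n) := fun n => by
    have h1 : ContDiff ℝ k (fun x => F (x - s n)) := hF.comp (contDiff_id.sub contDiff_const)
    exact h1.const_smul (ε n)
  have hder : ∀ (m : ℕ), m ≤ k → ∀ n x,
      iteratedFDeriv ℝ m (f n) x = ε n • iteratedFDeriv ℝ m F (x - s n) := by
    intro m hm n x
    have hF' : ContDiff ℝ m (fun x => F (x - s n)) :=
      (hF.of_le (by exact_mod_cast hm)).comp (contDiff_id.sub contDiff_const)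
    have h1 : iteratedFDeriv ℝ m (f n) x
        = ε n • iteratedFDeriv ℝ m (fun x => F (x - s n)) x := by
      have h2 : f n = (ε n) • (fun x => F (x - s n)) := rfl
      rw [h2]
      exact iteratedFDeriv_const_smul_apply hF'.contDiffAt
    rw [h1, iteratedFDeriv_comp_sub]
  have hnorm : ∀ (m : ℕ), m ≤ k → ∀ n x,
      ‖iteratedFDeriv ℝ m (f n) x‖ ≤ (c * (1 / 2) ^ n) * M := by
    intro m hm n x
    rw [hder m hm n x, norm_smul, Real.norm_eq_abs, abs_of_pos (hε0 n)]
    exact mul_le_mul (hεle n) (hM m hm _) (norm_nonneg _) (by positivity)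
  have hsumM : HasSum (fun n : ℕ => (c * (1 / 2 : ℝ) ^ n) * M) (c * 2 * M) := hgeo.mul_right M
  have hv : ContDiff ℝ k (fun x => ∑' n, f n x) :=
    contDiff_tsum (v := fun _ n => (c * (1 / 2) ^ n) * M) hf (fun m _ => hsumM.summable)
      (fun m n x hm => hnorm m (by exact_mod_cast hm) n x)
  have hvder : ∀ m : ℕ, m ≤ k → ∀ x, iteratedFDeriv ℝ m (fun x => ∑' n, f n x) x
      = ∑' n, iteratedFDeriv ℝ m (f n) x := by
    intro m hm x
    have := iteratedFDeriv_tsum (N := k) (v := fun _ n => (c * (1 / 2) ^ n) * M) hf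
      (fun m _ => hsumM.summable)
      (fun m n x hm => hnorm m (by exact_mod_cast hm) n x) (k := m) (by exact_mod_cast hm)
    exact congrFun this x
  refine ⟨fun x => ∑' n, f n x, hv, ?_, S, hSd, ?_⟩
  · intro x
    rw [hvder 2 hk x]
    refine le_trans (tsum_of_norm_bounded hsumM (fun n => hnorm 2 hk n x)) ?_
    have : c * 2 * M = δ * (M / (M + 1)) := by
      rw [hc]; field_simp
    rw [this]
    have h1 : M / (M + 1) ≤ 1 := by
      rw [div_le_one (by linarith)]; linarith
    calc δ * (M / (M + 1)) ≤ δ * 1 := mul_le_mul_of_nonneg_left h1 hδ.le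
      _ = δ := mul_one _
  · intro p hp
    rw [← hsrange] at hp
    obtain ⟨j, rfl⟩ := hp
    refine ⟨ε j, (hε0 j).ne', ?_⟩
    have hasum : Summable (fun n => ε n / ‖s j - s n‖) := by
      rw [← summable_nat_add_iff (j + 1)]
      refine Summable.of_nonneg_of_le (fun n => ?_) (fun n => ?_)
        ((summable_nat_add_iff (j + 1)).2 hgeo.summable)
      · exact div_nonneg (hε0 _).le (norm_nonneg _)
      · have h1 : ρ (n + (j + 1)) ≤ ‖s (n + (j + 1)) - s j‖ := hρm _ j (by omega)
        have h2 : 0 < ‖s j - s (n + (j + 1))‖ := by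
          rw [norm_pos_iff, sub_ne_zero]
          intro h
          have := hsinj h
          omega
        rw [div_le_iff₀ h2]
        rw [norm_sub_rev] at h1
        exact mul_le_mul_of_nonneg_left h1 (by positivity)
    refine ⟨M * ∑' n, ε n / ‖s j - s n‖, fun x => ?_⟩
    rw [hvder k le_rfl x, hvder k le_rfl (s j)]
    have hs1 : Summable (fun n => iteratedFDeriv ℝ k (f n) x) :=
      Summable.of_norm_bounded hsumM.summable (fun n => hnorm k le_rfl n x)
    have hs2 : Summable (fun n => iteratedFDeriv ℝ k (f n) (s j)) :=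
      Summable.of_norm_bounded hsumM.summable (fun n => hnorm k le_rfl n (s j))
    have hs3 : HasSum (fun n => if n = j then ε j • iteratedFDeriv ℝ k F (x - s j) else 0)
        (ε j • iteratedFDeriv ℝ k F (x - s j)) := hasSum_ite_eq j _
    have hs : HasSum (fun n => iteratedFDeriv ℝ k (f n) x - iteratedFDeriv ℝ k (f n) (s j)
        - (if n = j then ε j • iteratedFDeriv ℝ k F (x - s j) else 0))
        (∑' n, iteratedFDeriv ℝ k (f n) x - ∑' n, iteratedFDeriv ℝ k (f n) (s j)
          - ε j • iteratedFDeriv ℝ k F (x - s j)) :=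
      (hs1.hasSum.sub hs2.hasSum).sub hs3
    rw [← hs.tsum_eq]
    have hb : HasSum (fun n => M * ‖x - s j‖ * (ε n / ‖s j - s n‖))
        (M * ‖x - s j‖ * ∑' n, ε n / ‖s j - s n‖) := hasum.hasSum.mul_left _
    refine le_trans (tsum_of_norm_bounded hb (fun n => ?_)) (le_of_eq (by ring))
    rw [hder k le_rfl, hder k le_rfl]
    by_cases hn : n = j
    · subst hn
      simp [h0]
    · rw [if_neg hn, sub_zero, ← smul_sub, norm_smul, Real.norm_eq_abs, abs_of_pos (hε0 n)]
      have hne : s j - s n ≠ 0 := by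
        rw [sub_ne_zero]
        intro h
        exact hn (hsinj h).symm
      have := hL (x - s n) (s j - s n) hne
      have h3 : x - s n - (s j - s n) = x - s j := by abel
      rw [h3] at this
      calc ε n * _ ≤ ε n * (M * ‖x - s j‖ / ‖s j - s n‖) :=
            mul_le_mul_of_nonneg_left this (hε0 n).le
        _ = _ := by ring


end J9684
end H575Germ
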