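import Pool.Agent.Helper575.Germ.Defs

open scoped RealInnerProductSpace Topology ContDiff
open MeasureTheory Metric

namespace H575Germ
namespace J9685


theorem pd_ift_9685 (n : ℕ) (i : Fin 2) (h : E2 → ℝ) (hh : ContDiff ℝ ((n + 1 : ℕ) : WithTop ℕ∞) h)
    (m : Fin n → E2) (x : E2) :
    pd i (fun y => iteratedFDeriv ℝ n h y m) x =
      iteratedFDeriv ℝ (n + 1) h x (Fin.cons (EuclideanSpace.single i 1) m) := by
  rw [iteratedFDeriv_succ_apply_left, Fin.cons_zero, Fin.tail_cons]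
  unfold pd
  have hd : Differentiable ℝ (fun x => iteratedFDeriv ℝ n h x) :=
    hh.differentiable_iteratedFDeriv (by exact_mod_cast Nat.lt_succ_self n)
  exact fderiv_continuousMultilinear_apply_const_apply (hd x) m _

theorem pd_iter_9685 (n : ℕ) : ∀ (h : E2 → ℝ), ContDiff ℝ (n : WithTop ℕ∞) h →
    (pd 0)^[n] h = fun x => iteratedFDeriv ℝ n h x (fun _ => EuclideanSpace.single 0 1) := by
  induction n with
  | zero => intro h _; funext x; simp
  | succ n ih =>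
    intro h hh
    rw [Function.iterate_succ_apply', ih h (hh.of_le (by exact_mod_cast Nat.le_succ n))]
    funext x
    rw [pd_ift_9685 n 0 h hh]
    congr 1
    funext l
    refine Fin.cases ?_ (fun l => ?_) l
    · rfl
    · rfl

/-- `T` is an evaluation of the iterated derivative -/
theorem T_eq_iteratedFDeriv (n : ℕ) (i j : Fin 2) : ∃ v : Fin (n + 2) → E2, (∀ l, ‖v l‖ = 1) ∧
    ∀ (h : E2 → ℝ), ContDiff ℝ (n + 2) h → ∀ x, T n i j h x = iteratedFDeriv ℝ (n + 2) h x v := by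
  refine ⟨Fin.cons (EuclideanSpace.single i 1) (Fin.cons (EuclideanSpace.single j 1)
    (fun _ => EuclideanSpace.single 0 1)), ?_, ?_⟩
  · intro l
    refine Fin.cases ?_ (fun l => Fin.cases ?_ (fun l => ?_) l) l
    · simp
    · simp
    · simp
  · intro h hh x
    have h2 : ContDiff ℝ ((n + 1 + 1 : ℕ) : WithTop ℕ∞) h := by
      have : ((n + 1 + 1 : ℕ) : WithTop ℕ∞) = (n : WithTop ℕ∞) + 2 := by push_cast; rw [add_assoc]; rfl
      rw [this]; exact hh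
    have h1 : ContDiff ℝ ((n + 1 : ℕ) : WithTop ℕ∞) h :=
      h2.of_le (by exact_mod_cast Nat.le_succ (n + 1))
    have h0 : ContDiff ℝ (n : WithTop ℕ∞) h :=
      h1.of_le (by exact_mod_cast Nat.le_succ n)
    unfold T
    rw [pd_iter_9685 n h h0]
    have e1 : pd j (fun x => iteratedFDeriv ℝ n h x (fun _ => EuclideanSpace.single 0 1)) =
        fun x => iteratedFDeriv ℝ (n + 1) h x (Fin.cons (EuclideanSpace.single j 1)
          (fun _ => EuclideanSpace.single 0 1)) := by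
      funext x
      exact pd_ift_9685 n j h h1 _ x
    rw [e1]
    exact pd_ift_9685 (n + 1) i h h2 _ x

/-- the quadratic part -/
noncomputable def q9685 : E2 → ℝ := fun x => (1 / 2) * (x 0 ^ 2 + x 1 ^ 2)

theorem q_cd_9685 (n : WithTop ℕ∞) : ContDiff ℝ n q9685 := by
  unfold q9685
  fun_prop

theorem pd_q_9685 (j : Fin 2) : pd j q9685 = fun x => x j := by
  funext x
  have h0 : HasFDerivAt (fun x : E2 => x 0) (EuclideanSpace.proj (𝕜 := ℝ) (0 : Fin 2)) x :=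
    (EuclideanSpace.proj (𝕜 := ℝ) (0 : Fin 2)).hasFDerivAt
  have h1 : HasFDerivAt (fun x : E2 => x 1) (EuclideanSpace.proj (𝕜 := ℝ) (1 : Fin 2)) x :=
    (EuclideanSpace.proj (𝕜 := ℝ) (1 : Fin 2)).hasFDerivAt
  have h2 := ((h0.pow 2).add (h1.pow 2)).const_mul (1 / 2 : ℝ)
  unfold pd
  have h3 : fderiv ℝ q9685 x = _ := h2.fderiv
  rw [h3]
  fin_cases j <;> simp

theorem pd_coord_9685 (i j : Fin 2) : pd i (fun x : E2 => x j) = fun _ => if i = j then 1 else 0 := by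
  funext x
  have h0 : HasFDerivAt (fun x : E2 => x j) (EuclideanSpace.proj (𝕜 := ℝ) (j : Fin 2)) x :=
    (EuclideanSpace.proj (𝕜 := ℝ) (j : Fin 2)).hasFDerivAt
  unfold pd
  rw [h0.fderiv]
  by_cases hij : i = j
  · subst hij; simp
  · simp [hij, Ne.symm hij]

theorem pd_const_9685 (i : Fin 2) (c : ℝ) : pd i (fun _ : E2 => c) = fun _ => 0 := by
  funext x
  unfold pd
  simp

theorem T_q_9685 (n : ℕ) (i j : Fin 2) (x y : E2) : T n i j q9685 x = T n i j q9685 y := by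
  have hc : ∀ n : ℕ, ∀ c : ℝ, ∃ c' : ℝ, (pd 0)^[n] (fun _ : E2 => c) = fun _ => c' := by
    intro n
    induction n with
    | zero => intro c; exact ⟨c, rfl⟩
    | succ n ih =>
      intro c
      rw [Function.iterate_succ_apply, pd_const_9685]
      exact ih 0
  unfold T
  match n with
  | 0 => rw [Function.iterate_zero, id, pd_q_9685, pd_coord_9685]
  | 1 => rw [Function.iterate_one, pd_q_9685, pd_coord_9685, pd_const_9685]
  | n + 2 =>
    rw [Function.iterate_succ_apply, Function.iterate_succ_apply, pd_q_9685, pd_coord_9685]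
    obtain ⟨c', hc'⟩ := hc n (if (0 : Fin 2) = 0 then 1 else 0)
    rw [hc', pd_const_9685, pd_const_9685]

theorem T_add_9685 (n : ℕ) (i j : Fin 2) (f g : E2 → ℝ) (hf : ContDiff ℝ (n + 2) f)
    (hg : ContDiff ℝ (n + 2) g) (x : E2) :
    T n i j (f + g) x = T n i j f x + T n i j g x := by
  obtain ⟨w, hw, hT⟩ := T_eq_iteratedFDeriv n i j
  rw [hT f hf, hT g hg, hT (f + g) (hf.add hg)]
  have h1 : ((n + 2 : ℕ) : WithTop ℕ∞) = (n : WithTop ℕ∞) + 2 := by push_cast; rfl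
  rw [iteratedFDeriv_add_apply (by rw [h1]; exact hf.contDiffAt) (by rw [h1]; exact hg.contDiffAt)]
  rfl

theorem apply_le_9685 {k : ℕ} (A : ContinuousMultilinearMap ℝ (fun _ : Fin k => E2) ℝ)
    (w : Fin k → E2) (hw : ∀ l, ‖w l‖ = 1) : |A w| ≤ ‖A‖ := by
  have h1 := A.le_opNorm w
  have h2 : ∏ l, ‖w l‖ = 1 := Finset.prod_eq_one fun l _ => hw l
  rw [h2, mul_one, Real.norm_eq_abs] at h1
  exact h1

/-- the height function; the first three hypotheses are proved in other jobs -/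
theorem exists_height
    (feature : ∀ (k : ℕ), 1 ≤ k → ∀ (Z : E2 → ℝ), ContDiff ℝ ∞ Z →
      (∀ y, Z y ≠ 0 → 1 < ‖y‖ ∧ ‖y‖ < 3 / 2) →
      ∃ (F : E2 → ℝ) (M : ℝ), ContDiff ℝ k F ∧
      (∀ n : ℕ, n ≤ k → ∀ x, ‖iteratedFDeriv ℝ n F x‖ ≤ M) ∧
      (∀ (m : ℕ) (x : E2), Ann m x → iteratedFDeriv ℝ k F x =
        ((2:ℝ) ^ m)⁻¹ • ∑ i ∈ Finset.Ico (2 ^ m) (2 ^ (m + 1)),
          iteratedFDeriv ℝ k Z (((2:ℝ) ^ i) • x)) ∧
      iteratedFDeriv ℝ k F 0 = 0 ∧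
      (∀ y y' : E2, y' ≠ 0 →
        ‖iteratedFDeriv ℝ k F y - iteratedFDeriv ℝ k F y'‖ ≤ M * ‖y - y'‖ / ‖y'‖))
    (superpose : ∀ (k : ℕ), 2 ≤ k → ∀ (F : E2 → ℝ) (M : ℝ), ContDiff ℝ k F →
      (∀ n : ℕ, n ≤ k → ∀ x, ‖iteratedFDeriv ℝ n F x‖ ≤ M) →
      iteratedFDeriv ℝ k F 0 = 0 →
      (∀ y y' : E2, y' ≠ 0 →
        ‖iteratedFDeriv ℝ k F y - iteratedFDeriv ℝ k F y'‖ ≤ M * ‖y - y'‖ / ‖y'‖) →
      ∀ (δ : ℝ), 0 < δ →
      ∃ v : E2 → ℝ, ContDiff ℝ k v ∧ (∀ x, ‖iteratedFDeriv ℝ 2 v x‖ ≤ δ) ∧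
      ∃ D : Set E2, Dense D ∧ ∀ p ∈ D, ∃ ε : ℝ, ε ≠ 0 ∧ ∃ C : ℝ, ∀ x : E2,
        ‖iteratedFDeriv ℝ k v x - iteratedFDeriv ℝ k v p - ε • iteratedFDeriv ℝ k F (x - p)‖
          ≤ C * ‖x - p‖)
    (n : ℕ) (Z : E2 → ℝ) (hZ : ContDiff ℝ ∞ Z)
    (hZs : ∀ y, Z y ≠ 0 → 1 < ‖y‖ ∧ ‖y‖ < 3 / 2) :
    ∃ u : E2 → ℝ, ContDiff ℝ (n + 2) u ∧
      (∀ x, 0 < pd 0 (pd 0 u) x ∧
        0 < pd 0 (pd 0 u) x * pd 1 (pd 1 u) x - (pd 0 (pd 1 u) x) ^ 2) ∧
      ∃ D : Set E2, Dense D ∧ ∀ p ∈ D, ∃ ε : ℝ, ε ≠ 0 ∧ ∃ C : ℝ, ∀ (m : ℕ) (x : E2),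
        Ann m (x - p) → ∀ i j : Fin 2,
          |T n i j u x - T n i j u p - ε * blk m (T n i j Z) (x - p)| ≤ C * ‖x - p‖ := by
  obtain ⟨F, M, hF, hFb, hFann, hF0, hFl⟩ := feature (n + 2) (by omega) Z hZ hZs
  obtain ⟨v, hv, hv2, D, hD, hDp⟩ := superpose (n + 2) (by omega) F M hF hFb hF0 hFl (1 / 8)
    (by norm_num)
  have hk : ((n + 2 : ℕ) : WithTop ℕ∞) = (n : WithTop ℕ∞) + 2 := by push_cast; rfl
  have hv' : ContDiff ℝ (n + 2) v := by rw [← hk]; exact hv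
  have hq : ContDiff ℝ (n + 2) q9685 := q_cd_9685 _
  have hv'' : ContDiff ℝ ((0 : ℕ) + 2) v := hv'.of_le (by
    rw [Nat.cast_zero, zero_add]; exact le_add_self)
  have hq'' : ContDiff ℝ ((0 : ℕ) + 2) q9685 := q_cd_9685 _
  have hsec : ∀ i j : Fin 2, ∀ x, ∃ a : ℝ, |a| ≤ 1 / 8 ∧
      pd i (pd j (q9685 + v)) x = (if i = j then 1 else 0) + a := by
    intro i j x
    refine ⟨T 0 i j v x, ?_, ?_⟩
    · obtain ⟨w, hw, hT⟩ := T_eq_iteratedFDeriv 0 i j
      rw [hT v hv'' x]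
      exact (apply_le_9685 _ w hw).trans (hv2 x)
    · have h1 := T_add_9685 0 i j q9685 v hq'' hv'' x
      have h2 : T 0 i j q9685 x = if i = j then 1 else 0 := by
        unfold T
        rw [Function.iterate_zero, id, pd_q_9685, pd_coord_9685]
      rw [h2] at h1
      exact h1
  refine ⟨q9685 + v, hq.add hv', ?_, D, hD, ?_⟩
  · intro x
    obtain ⟨a, ha, ea⟩ := hsec 0 0 x
    obtain ⟨b, hb, eb⟩ := hsec 1 1 x
    obtain ⟨c, hc, ec⟩ := hsec 0 1 x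
    rw [ea, eb, ec, if_pos rfl, if_pos rfl, if_neg (by decide)]
    have ha' := abs_le.mp ha
    have hb' := abs_le.mp hb
    have hc' := abs_le.mp hc
    refine ⟨by linarith [ha'.1], ?_⟩
    have h1 : (7 / 8 : ℝ) * (7 / 8) ≤ (1 + a) * (1 + b) :=
      mul_le_mul (by linarith [ha'.1]) (by linarith [hb'.1]) (by norm_num) (by linarith [ha'.1])
    have h2 : c ^ 2 ≤ (1 / 8) ^ 2 := sq_le_sq' hc'.1 hc'.2
    rw [zero_add]
    linarith
  · intro p hp
    obtain ⟨ε, hε, C, hC⟩ := hDp p hp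
    refine ⟨ε, hε, C, ?_⟩
    intro m x hm i j
    obtain ⟨w, hw, hT⟩ := T_eq_iteratedFDeriv n i j
    have hZ' : ContDiff ℝ (n + 2) Z := by rw [← hk]; exact contDiff_infty.mp hZ (n + 2)
    have e1 : blk m (T n i j Z) (x - p) = iteratedFDeriv ℝ (n + 2) F (x - p) w := by
      rw [hFann m (x - p) hm]
      unfold blk
      rw [ContinuousMultilinearMap.smul_apply, ContinuousMultilinearMap.sum_apply, smul_eq_mul]
      congr 1
      apply Finset.sum_congr rfl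
      intro l _
      exact hT Z hZ' _
    rw [e1, T_add_9685 n i j q9685 v hq hv', T_add_9685 n i j q9685 v hq hv', hT v hv', hT v hv',
      T_q_9685 n i j x p]
    have e2 : T n i j q9685 p + iteratedFDeriv ℝ (n + 2) v x w -
        (T n i j q9685 p + iteratedFDeriv ℝ (n + 2) v p w) -
        ε * iteratedFDeriv ℝ (n + 2) F (x - p) w =
        (iteratedFDeriv ℝ (n + 2) v x - iteratedFDeriv ℝ (n + 2) v p -
          ε • iteratedFDeriv ℝ (n + 2) F (x - p)) w := by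
      rw [ContinuousMultilinearMap.sub_apply, ContinuousMultilinearMap.sub_apply,
        ContinuousMultilinearMap.smul_apply, smul_eq_mul]
      ring
    rw [e2]
    exact (apply_le_9685 _ w hw).trans (hC x)


end J9685
end H575Germ
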