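import Pool.Agent.Helper575.Germ.Defs
import Pool.Agent.Helper575.Germ.J9676
import Pool.Agent.Helper575.Germ.J9677
import Pool.Agent.Helper575.Germ.J9678
import Pool.Agent.Helper575.Germ.J9680
import Pool.Agent.Helper575.Germ.J9681
import Pool.Agent.Helper575.Germ.J9682
import Pool.Agent.Helper575.Germ.J9683
import Pool.Agent.Helper575.Germ.J9684
import Pool.Agent.Helper575.Germ.J9685
import Pool.Agent.Helper575.Germ.J9686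
import Pool.Agent.Helper575.Germ.J10077
import Pool.Agent.Helper575.Germ.J10078
import Pool.Agent.Helper575.Germ.J10079
import Pool.Agent.Helper575.Germ.J10080
import Pool.Agent.Helper575.Germ.J10081
import Pool.Agent.Helper575.Germ.J10083

open scoped RealInnerProductSpace Topology ContDiff
open MeasureTheory Metric

namespace H575Germ

/-- null Lagrangian identity in `C^1` -/
theorem null_lagrangian (a b : E2 → ℝ) (ha : ContDiff ℝ 1 a) (hac : HasCompactSupport a)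
    (hb : ContDiff ℝ 1 b) :
    Integrable (fun x => pd 0 a x * pd 1 b x - pd 1 a x * pd 0 b x) ∧
    ∫ x, (pd 0 a x * pd 1 b x - pd 1 a x * pd 0 b x) = 0 :=
  J9676.null_lagrangian a b ha hac hb

/-- Christoffel symbols are determined by the metric -/
theorem christoffel (f g : E2 → E3) (hf : ContDiff ℝ 2 f) (hg : ContDiff ℝ 2 g) (p : E2) (r : ℝ)
    (hmet : ∀ x ∈ ball p r, ∀ i j, ⟪pd i f x, pd j f x⟫ = ⟪pd i g x, pd j g x⟫) :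
    ∀ x ∈ ball p r, ∀ i j l, ⟪pd i (pd j f) x, pd l f x⟫ = ⟪pd i (pd j g) x, pd l g x⟫ :=
  J9677.christoffel f g hf hg p r hmet

/-- Gauss equation for `C^2` maps with equal metric -/
theorem gauss_C2 (f g : E2 → E3) (hf : ContDiff ℝ 2 f) (hg : ContDiff ℝ 2 g) (p : E2) (r : ℝ)
    (hmet : ∀ x ∈ ball p r, ∀ i j, ⟪pd i f x, pd j f x⟫ = ⟪pd i g x, pd j g x⟫) :
    ∀ x ∈ ball p r, ⟪pd 0 (pd 0 f) x, pd 1 (pd 1 f) x⟫ - ⟪pd 0 (pd 1 f) x, pd 0 (pd 1 f) x⟫ =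
      ⟪pd 0 (pd 0 g) x, pd 1 (pd 1 g) x⟫ - ⟪pd 0 (pd 1 g) x, pd 0 (pd 1 g) x⟫ :=
  J9677.gauss_C2 null_lagrangian f g hf hg p r hmet

theorem ibp_twice (ψ : E2 → ℂ) (ζ : E2 → ℝ) (hψ : ContDiff ℝ 2 ψ) (hψc : HasCompactSupport ψ)
    (hζ : ContDiff ℝ 2 ζ) (i j : Fin 2) :
    ∫ x, ψ x * ((pd i (pd j ζ) x : ℝ) : ℂ) = ∫ x, pd i (pd j ψ) x * ((ζ x : ℝ) : ℂ) :=
  J9678.ibp_twice ψ ζ hψ hψc hζ i j

theorem T_supp (n : ℕ) (Z : E2 → ℝ) (hZ : ContDiff ℝ ∞ Z)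
    (hZs : ∀ y, Z y ≠ 0 → 1 < ‖y‖ ∧ ‖y‖ < 3 / 2) (i j : Fin 2) :
    ContDiff ℝ ∞ (T n i j Z) ∧ (∀ y, T n i j Z y ≠ 0 → 1 < ‖y‖ ∧ ‖y‖ < 3 / 2) :=
  J9682.T_supp n Z hZ hZs i j

/-- the profile -/
theorem exists_profile (n : ℕ) : ∃ Z : E2 → ℝ, ContDiff ℝ ∞ Z ∧
    (∀ y, Z y ≠ 0 → 1 < ‖y‖ ∧ ‖y‖ < 3 / 2) ∧
    ∀ a b : ℂ, 0 < ((starRingEnd ℂ) a * b).im → ∀ m11 m12 m22 : ℝ,
      ∫ y, ((m11 * T n 0 0 Z y + 2 * m12 * T n 0 1 Z y + m22 * T n 1 1 Z y : ℝ) : ℂ) /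
        (a * (y 0 : ℝ) + b * (y 1 : ℝ)) ^ 2 = 0 →
      m11 * a ^ 2 + 2 * m12 * a * b + m22 * b ^ 2 = 0 :=
  J9682.exists_profile J9680.one_step J9681.moment_ne_zero n

/-- the height function -/
theorem exists_height (n : ℕ) (Z : E2 → ℝ) (hZ : ContDiff ℝ ∞ Z)
    (hZs : ∀ y, Z y ≠ 0 → 1 < ‖y‖ ∧ ‖y‖ < 3 / 2) :
    ∃ u : E2 → ℝ, ContDiff ℝ (n + 2) u ∧
      (∀ x, 0 < pd 0 (pd 0 u) x ∧
        0 < pd 0 (pd 0 u) x * pd 1 (pd 1 u) x - (pd 0 (pd 1 u) x) ^ 2) ∧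
      ∃ D : Set E2, Dense D ∧ ∀ p ∈ D, ∃ ε : ℝ, ε ≠ 0 ∧ ∃ C : ℝ, ∀ (m : ℕ) (x : E2),
        Ann m (x - p) → ∀ i j : Fin 2,
          |T n i j u x - T n i j u p - ε * blk m (T n i j Z) (x - p)| ≤ C * ‖x - p‖ :=
  J9685.exists_height J9683.feature J9684.superpose n Z hZ hZs

theorem leibniz_rem (n : ℕ) (hn : 1 ≤ n) (l : ℕ) (a b : E2 → E3)
    (ha : ContDiff ℝ (n + l : ℕ) a) (hb : ContDiff ℝ (n + l : ℕ) b) :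
    ContDiff ℝ (l + 1 : ℕ) (fun x => ((pd 0)^[n] (fun y => ⟪a y, b y⟫)) x
      - ⟪((pd 0)^[n] a) x, b x⟫ - ⟪a x, ((pd 0)^[n] b) x⟫) :=
  J9686.leibniz_rem n hn l a b ha hb

theorem contDiff_pd_iter {F : Type*} [NormedAddCommGroup F] [NormedSpace ℝ F] (n l : ℕ)
    (h : E2 → F) (hh : ContDiff ℝ (n + l : ℕ) h) : ContDiff ℝ l ((pd 0)^[n] h) :=
  J9686.contDiff_pd_iter n l h hh

theorem contDiff_pd {F : Type*} [NormedAddCommGroup F] [NormedSpace ℝ F] (l : ℕ) (i : Fin 2)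
    (h : E2 → F) (hh : ContDiff ℝ (l + 1 : ℕ) h) : ContDiff ℝ l (pd i h) :=
  J9686.contDiff_pd l i h hh

theorem pd_comm {F : Type*} [NormedAddCommGroup F] [NormedSpace ℝ F] (i j : Fin 2)
    (h : E2 → F) (hh : ContDiff ℝ 2 h) (x : E2) : pd i (pd j h) x = pd j (pd i h) x :=
  J9686.pd_comm i j h hh x

theorem T_comm {F : Type*} [NormedAddCommGroup F] [NormedSpace ℝ F] (n : ℕ) (i j : Fin 2)
    (h : E2 → F) (hh : ContDiff ℝ (n + 2 : ℕ) h) : T n i j h = (pd 0)^[n] (pd i (pd j h)) :=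
  J9686.T_comm n i j h hh

theorem gram_pos (a0 a1 : E3) (hli : LinearIndependent ℝ ![a0, a1]) :
    0 < ⟪a0, a0⟫ * ⟪a1, a1⟫ - ⟪a0, a1⟫ ^ 2 := J10077.gram_pos a0 a1 hli

/-- the part of the inner product orthogonal to the normal is determined -/
theorem tangential_inner (a0 a1 N b0 b1 M v w v' w' : E3)
    (hN : ‖N‖ = 1) (hM : ‖M‖ = 1) (hN0 : ⟪a0, N⟫ = 0) (hN1 : ⟪a1, N⟫ = 0)
    (hM0 : ⟪b0, M⟫ = 0) (hM1 : ⟪b1, M⟫ = 0) (hli : LinearIndependent ℝ ![a0, a1])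
    (h00 : ⟪a0, a0⟫ = ⟪b0, b0⟫) (h01 : ⟪a0, a1⟫ = ⟪b0, b1⟫) (h11 : ⟪a1, a1⟫ = ⟪b1, b1⟫)
    (hv0 : ⟪v, a0⟫ = ⟪v', b0⟫) (hv1 : ⟪v, a1⟫ = ⟪v', b1⟫)
    (hw0 : ⟪w, a0⟫ = ⟪w', b0⟫) (hw1 : ⟪w, a1⟫ = ⟪w', b1⟫) :
    ⟪v, w⟫ - ⟪v, N⟫ * ⟪w, N⟫ = ⟪v', w'⟫ - ⟪v', M⟫ * ⟪w', M⟫ :=
  J10077.tangential_inner a0 a1 N b0 b1 M v w v' w' hN hM hN0 hN1 hM0 hM1 hli h00 h01 h11
    hv0 hv1 hw0 hw1

theorem exists_normal (a0 a1 : E3) : ∃ N : E3, ‖N‖ = 1 ∧ ⟪a0, N⟫ = 0 ∧ ⟪a1, N⟫ = 0 :=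
  J10077.exists_normal a0 a1

theorem proportional (m11 m12 m22 c11 c12 c22 : ℝ) (a b : ℂ)
    (him : 0 < ((starRingEnd ℂ) a * b).im)
    (h1 : (m11 : ℂ) * a ^ 2 + 2 * m12 * a * b + m22 * b ^ 2 = 0)
    (h2 : (c11 : ℂ) * a ^ 2 + 2 * c12 * a * b + c22 * b ^ 2 = 0)
    (hd : m11 * m22 - m12 ^ 2 = c11 * c22 - c12 ^ 2) (hpos : 0 < c11 * c22 - c12 ^ 2) :
    (m11 = c11 ∧ m12 = c12 ∧ m22 = c22) ∨ (m11 = -c11 ∧ m12 = -c12 ∧ m22 = -c22) :=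
  J10078.proportional m11 m12 m22 c11 c12 c22 a b him h1 h2 hd hpos

theorem extend_global (k : ℕ) (g : E2 → E3) (r : ℝ) (hr : 0 < r)
    (hg : ContDiffOn ℝ k g (ball 0 r)) :
    ∃ (G : E2 → E3) (r' : ℝ), 0 < r' ∧ r' ≤ r ∧ ContDiff ℝ k G ∧
      ∀ x ∈ ball (0:E2) r', G x = g x := J10078.extend_global k g r hr hg

theorem contDiff_graph (k : ℕ) (u : E2 → ℝ) (hu : ContDiff ℝ k u) : ContDiff ℝ k (graph u) :=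
  J10078.contDiff_graph k u hu

theorem pd_graph (u : E2 → ℝ) (hu : ContDiff ℝ 1 u) (x : E2) :
    pd 0 (graph u) x = !₂[1, 0, pd 0 u x] ∧ pd 1 (graph u) x = !₂[0, 1, pd 1 u x] :=
  J10078.pd_graph u hu x

theorem T_graph (n : ℕ) (u : E2 → ℝ) (hu : ContDiff ℝ (n + 2 : ℕ) u) (i j : Fin 2) (x : E2) :
    T n i j (graph u) x = !₂[0, 0, T n i j u x] := J10078.T_graph n u hu i j x

theorem blk_bound (β : E2 → ℝ) (M : ℝ) (hM : ∀ y, |β y| ≤ M)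
    (hβs : ∀ y, β y ≠ 0 → 1 < ‖y‖ ∧ ‖y‖ < 3 / 2) (m : ℕ) (x : E2) :
    |blk m β x| ≤ ((2:ℝ) ^ m)⁻¹ * M := J10078.blk_bound β M hM hβs m x

theorem blk_linear (β1 β2 β3 : E2 → ℝ) (c1 c2 c3 : ℝ) (m : ℕ) (x : E2) :
    blk m (fun y => c1 * β1 y + c2 * β2 y + c3 * β3 y) x =
      c1 * blk m β1 x + c2 * blk m β2 x + c3 * blk m β3 x :=
  J10078.blk_linear β1 β2 β3 c1 c2 c3 m x

theorem fundamental (f g : E2 → E3) (hf : ContDiff ℝ 2 f) (hg : ContDiff ℝ 2 g) (r : ℝ)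
    (hr : 0 < r)
    (h1 : ∀ x ∈ ball (0:E2) r, ∀ i j, ⟪pd i f x, pd j f x⟫ = ⟪pd i g x, pd j g x⟫)
    (h2 : ∀ x ∈ ball (0:E2) r, ∀ i j l, ⟪pd i (pd j f) x, pd l f x⟫ = ⟪pd i (pd j g) x, pd l g x⟫)
    (h3 : ∀ x ∈ ball (0:E2) r, ∀ i j k l, ⟪pd i (pd j f) x, pd k (pd l f) x⟫ =
      ⟪pd i (pd j g) x, pd k (pd l g) x⟫)
    (hli : ∀ x ∈ ball (0:E2) r, LinearIndependent ℝ ![pd 0 f x, pd 1 f x, pd 0 (pd 0 f) x]) :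
    ∃ A : E3 ≃ᵢ E3, ∀ x ∈ ball (0:E2) r, g x = A (f x) :=
  J10080.fundamental J10079.gram_isometry J10079.near_isometry f g hf hg r hr h1 h2 h3 hli

/-- local expansion of the differentiated Gauss equation, `n ≥ 1` -/
theorem star_linear (n : ℕ) (hn : 1 ≤ n) (f g : E2 → E3) (hf : ContDiff ℝ (n + 2 : ℕ) f)
    (hg : ContDiff ℝ (n + 2 : ℕ) g) (p : E2) (r : ℝ) (hr : 0 < r)
    (hmet : ∀ x ∈ ball p r, ∀ i j, ⟪pd i f x, pd j f x⟫ = ⟪pd i g x, pd j g x⟫)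
    (himm : LinearIndependent ℝ ![pd 0 f p, pd 1 f p])
    (Nf Ng : E3) (hNf : ‖Nf‖ = 1) (hNg : ‖Ng‖ = 1)
    (hNf' : ∀ i, ⟪pd i f p, Nf⟫ = 0) (hNg' : ∀ i, ⟪pd i g p, Ng⟫ = 0) :
    ∃ (c C r' : ℝ), 0 < r' ∧ ∀ x ∈ ball p r',
      |(⟪pd 1 (pd 1 g) p, Ng⟫ * ⟪T n 0 0 g x, Ng⟫ - 2 * ⟪pd 0 (pd 1 g) p, Ng⟫ * ⟪T n 0 1 g x, Ng⟫
          + ⟪pd 0 (pd 0 g) p, Ng⟫ * ⟪T n 1 1 g x, Ng⟫)
        - (⟪pd 1 (pd 1 f) p, Nf⟫ * ⟪T n 0 0 f x, Nf⟫ - 2 * ⟪pd 0 (pd 1 f) p, Nf⟫ * ⟪T n 0 1 f x, Nf⟫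
          + ⟪pd 0 (pd 0 f) p, Nf⟫ * ⟪T n 1 1 f x, Nf⟫) - c| ≤ C * ‖x - p‖ :=
  J10081.star_linear gauss_C2 christoffel leibniz_rem contDiff_pd_iter contDiff_pd T_comm
    J10077.decomp n hn f g hf hg p r hr hmet himm Nf Ng hNf hNg hNf' hNg'

/-- local expansion of the Gauss equation, `n = 0` -/
theorem star_quadratic (f g : E2 → E3) (hf : ContDiff ℝ 2 f)
    (hg : ContDiff ℝ 2 g) (p : E2) (r : ℝ) (hr : 0 < r)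
    (hmet : ∀ x ∈ ball p r, ∀ i j, ⟪pd i f x, pd j f x⟫ = ⟪pd i g x, pd j g x⟫)
    (himm : LinearIndependent ℝ ![pd 0 f p, pd 1 f p])
    (Nf Ng : E3) (hNf : ‖Nf‖ = 1) (hNg : ‖Ng‖ = 1)
    (hNf' : ∀ i, ⟪pd i f p, Nf⟫ = 0) (hNg' : ∀ i, ⟪pd i g p, Ng⟫ = 0) :
    ∃ (C r' : ℝ), 0 < r' ∧ ∀ x ∈ ball p r',
      |(⟪pd 0 (pd 0 g) x, Ng⟫ * ⟪pd 1 (pd 1 g) x, Ng⟫ - ⟪pd 0 (pd 1 g) x, Ng⟫ ^ 2)
        - (⟪pd 0 (pd 0 f) x, Nf⟫ * ⟪pd 1 (pd 1 f) x, Nf⟫ - ⟪pd 0 (pd 1 f) x, Nf⟫ ^ 2)|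
        ≤ C * ‖x - p‖ :=
  J10083.star_quadratic gauss_C2 christoffel J10077.tang_formula J10077.gram_pos f g hf hg p r hr
    hmet himm Nf Ng hNf hNg hNf' hNg'

end H575Germ
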