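import Pool.Agent.Helper575.Germ.Defs

open scoped RealInnerProductSpace Topology ContDiff
open MeasureTheory Metric

namespace H575Germ
namespace J10239



/-- `h` has partial derivative `d` at `P` -/
def HasPd (i : Fin 2) (h : E2 → ℂ) (d : ℂ) (P : E2) : Prop :=
  DifferentiableAt ℝ h P ∧ pd i h P = d

theorem HasPd.mul {i : Fin 2} {h g : E2 → ℂ} {d e : ℂ} {P : E2} (hh : HasPd i h d P)
    (hg : HasPd i g e P) : HasPd i (fun Q => h Q * g Q) (d * g P + h P * e) P := by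
  refine ⟨hh.1.mul hg.1, ?_⟩
  have h1 : HasFDerivAt (fun Q => h Q * g Q) _ P := hh.1.hasFDerivAt.mul hg.1.hasFDerivAt
  have h2 := hh.2
  have h3 := hg.2
  unfold pd at *
  rw [h1.fderiv]
  simp only [ContinuousLinearMap.add_apply, ContinuousLinearMap.smul_apply, h2, h3, smul_eq_mul]
  ring

theorem HasPd.sub {i : Fin 2} {h g : E2 → ℂ} {d e : ℂ} {P : E2} (hh : HasPd i h d P)
    (hg : HasPd i g e P) : HasPd i (fun Q => h Q - g Q) (d - e) P := by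
  refine ⟨hh.1.sub hg.1, ?_⟩
  have h1 : HasFDerivAt (fun Q => h Q - g Q) _ P := hh.1.hasFDerivAt.sub hg.1.hasFDerivAt
  have h2 := hh.2
  have h3 := hg.2
  unfold pd at *
  rw [h1.fderiv]
  simp only [ContinuousLinearMap.sub_apply, h2, h3]

theorem HasPd.const_mul {i : Fin 2} {h : E2 → ℂ} {d : ℂ} {P : E2} (c : ℂ)
    (hh : HasPd i h d P) : HasPd i (fun Q => c * h Q) (c * d) P := by
  refine ⟨hh.1.const_mul c, ?_⟩
  have h1 : HasFDerivAt (fun Q => c * h Q) _ P := hh.1.hasFDerivAt.const_mul c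
  have h2 := hh.2
  unfold pd at *
  rw [h1.fderiv]
  simp only [ContinuousLinearMap.smul_apply, h2, smul_eq_mul]

theorem HasPd.inv {i : Fin 2} {h : E2 → ℂ} {d : ℂ} {P : E2} (hh : HasPd i h d P)
    (h0 : h P ≠ 0) : HasPd i (fun Q => (h Q)⁻¹) (-d * ((h P)⁻¹) ^ 2) P := by
  have h1 : HasFDerivAt (fun Q => (h Q)⁻¹) _ P :=
    ((hasDerivAt_inv h0).complexToReal_fderiv).comp P hh.1.hasFDerivAt
  refine ⟨h1.differentiableAt, ?_⟩
  have h2 := hh.2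
  unfold pd at *
  rw [h1.fderiv]
  simp only [ContinuousLinearMap.comp_apply, ContinuousLinearMap.smul_apply, h2, smul_eq_mul,
    ContinuousLinearMap.one_apply]
  field_simp

theorem HasPd.comp_smul {i : Fin 2} {h : E2 → ℂ} {d : ℂ} {P : E2} (c : ℝ)
    (hh : HasPd i h d (c • P)) : HasPd i (fun Q => h (c • Q)) ((c : ℂ) * d) P := by
  have h2 : HasFDerivAt (fun Q : E2 => c • Q) (c • ContinuousLinearMap.id ℝ E2) P :=
    (hasFDerivAt_id P).const_smul c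
  have h1 : HasFDerivAt (fun Q => h (c • Q)) _ P := hh.1.hasFDerivAt.comp P h2
  refine ⟨h1.differentiableAt, ?_⟩
  have h3 := hh.2
  unfold pd at *
  rw [h1.fderiv]
  simp only [ContinuousLinearMap.comp_apply, ContinuousLinearMap.smul_apply,
    ContinuousLinearMap.id_apply, map_smul, h3, Complex.real_smul]

theorem HasPd.congr {i : Fin 2} {h g : E2 → ℂ} {d : ℂ} {P : E2} (hh : HasPd i h d P)
    (hg : g =ᶠ[𝓝 P] h) : HasPd i g d P := by
  refine ⟨hh.1.congr_of_eventuallyEq hg, ?_⟩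
  unfold pd
  rw [hg.fderiv_eq]
  exact hh.2

theorem HasPd.eq {i : Fin 2} {h : E2 → ℂ} {d : ℂ} {P : E2} (hh : HasPd i h d P) :
    pd i h P = d := hh.2

theorem hasPd_const (i : Fin 2) (c : ℂ) (P : E2) : HasPd i (fun _ => c) 0 P := by
  refine ⟨differentiableAt_const c, ?_⟩
  unfold pd
  simp

/-- the linear form -/
noncomputable def Wl (s : ℝ) : E2 →L[ℝ] ℂ :=
  Complex.ofRealCLM.comp (EuclideanSpace.proj 0 : E2 →L[ℝ] ℝ) +
    (Complex.I / (s : ℂ)) • Complex.ofRealCLM.comp (EuclideanSpace.proj 1 : E2 →L[ℝ] ℝ)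

theorem Wl_apply (s : ℝ) (P : E2) :
    Wl s P = (P 0 : ℝ) + Complex.I * (P 1 : ℝ) / s := by
  unfold Wl
  simp
  ring

theorem Wl_re (s : ℝ) (P : E2) : (Wl s P).re = P 0 := by
  rw [Wl_apply, show Complex.I * ((P 1 : ℝ) : ℂ) / s = ((P 1 / s : ℝ) : ℂ) * Complex.I by
    push_cast; ring]
  simp

theorem Wl_im (s : ℝ) (P : E2) : (Wl s P).im = P 1 / s := by
  rw [Wl_apply, show Complex.I * ((P 1 : ℝ) : ℂ) / s = ((P 1 / s : ℝ) : ℂ) * Complex.I by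
    push_cast; ring]
  simp

theorem Wl_norm (s : ℝ) (hs : 0 < s) (P : E2) : min 1 (1 / s) * ‖P‖ ≤ ‖Wl s P‖ := by
  set k := min 1 (1 / s) with hk
  have hk0 : 0 < k := by
    rw [hk]; exact lt_min one_pos (by positivity)
  have hk1 : k ≤ 1 := min_le_left _ _
  have hk2 : k ≤ 1 / s := min_le_right _ _
  have h1 : (k * ‖P‖) ^ 2 ≤ ‖Wl s P‖ ^ 2 := by
    rw [Complex.sq_norm, Complex.normSq_apply, Wl_re, Wl_im, mul_pow, EuclideanSpace.norm_sq_eq,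
      Fin.sum_univ_two]
    simp only [Real.norm_eq_abs, sq_abs]
    have h2 : k ^ 2 ≤ 1 := by nlinarith
    have h3 : k ^ 2 ≤ (1 / s) ^ 2 := by
      apply pow_le_pow_left₀ hk0.le hk2
    have h4 : P 1 / s * (P 1 / s) = (1 / s) ^ 2 * P 1 ^ 2 := by ring
    rw [h4]
    nlinarith [sq_nonneg (P 0), sq_nonneg (P 1), mul_le_mul_of_nonneg_right h2 (sq_nonneg (P 0)),
      mul_le_mul_of_nonneg_right h3 (sq_nonneg (P 1))]
  exact le_of_sq_le_sq h1 (norm_nonneg _)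

theorem Wl_ne (s : ℝ) (hs : 0 < s) (P : E2) (hP : P ≠ 0) : Wl s P ≠ 0 := by
  have h1 := Wl_norm s hs P
  have h2 : 0 < min 1 (1 / s) * ‖P‖ := by
    have : 0 < min 1 (1 / s) := lt_min one_pos (by positivity)
    have := norm_pos_iff.mpr hP
    positivity
  intro h
  rw [h, norm_zero] at h1
  linarith

/-- the coefficients -/
noncomputable def wc (s : ℝ) (i : Fin 2) : ℂ := if i = 0 then 1 else Complex.I / s

theorem hasPd_Wl (s : ℝ) (i : Fin 2) (P : E2) : HasPd i (fun Q => Wl s Q) (wc s i) P := by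
  refine ⟨(Wl s).differentiableAt, ?_⟩
  unfold pd
  have : fderiv ℝ (fun Q => Wl s Q) P = Wl s := (Wl s).fderiv
  rw [this, Wl_apply]
  unfold wc
  fin_cases i <;> simp

/-- the cut-off -/
noncomputable def bmp : ContDiffBump (0 : E2) := ⟨3 / 4, 1, by norm_num, by norm_num⟩

noncomputable def ee (P : E2) : ℂ := ((bmp P : ℝ) : ℂ)

theorem ee_contDiff : ContDiff ℝ ∞ ee := by
  unfold ee
  exact Complex.ofRealCLM.contDiff.comp bmp.contDiff

theorem ee_one (P : E2) (h : ‖P‖ ≤ 3 / 4) : ee P = 1 := by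
  unfold ee
  rw [bmp.one_of_mem_closedBall]
  · simp
  · rw [mem_closedBall_zero_iff]
    exact h

theorem ee_zero (P : E2) (h : 1 ≤ ‖P‖) : ee P = 0 := by
  unfold ee
  rw [bmp.zero_of_le_dist]
  · simp
  · rw [dist_zero_right]
    exact h

theorem ee_norm (P : E2) : ‖ee P‖ ≤ 1 := by
  unfold ee
  rw [Complex.norm_real, Real.norm_eq_abs, abs_of_nonneg bmp.nonneg]
  exact bmp.le_one

theorem pd_contDiff (i : Fin 2) (h : E2 → ℂ) (hh : ContDiff ℝ ∞ h) : ContDiff ℝ ∞ (pd i h) := by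
  unfold pd
  exact (hh.fderiv_right (m := ∞) (by simp)).clm_apply contDiff_const

theorem hasPd_self (i : Fin 2) (h : E2 → ℂ) (hh : ContDiff ℝ ∞ h) (P : E2) :
    HasPd i h (pd i h P) P :=
  ⟨(hh.differentiable (by simp)).differentiableAt, rfl⟩

theorem ee_ev_one (P : E2) (h : ‖P‖ < 3 / 4) : ee =ᶠ[𝓝 P] fun _ => 1 := by
  have : {Q : E2 | ‖Q‖ < 3 / 4} ∈ 𝓝 P :=
    (isOpen_lt continuous_norm continuous_const).mem_nhds h
  filter_upwards [this] with Q hQ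
  exact ee_one Q (le_of_lt hQ)

theorem ee_ev_zero (P : E2) (h : 1 < ‖P‖) : ee =ᶠ[𝓝 P] fun _ => 0 := by
  have : {Q : E2 | 1 < ‖Q‖} ∈ 𝓝 P :=
    (isOpen_lt continuous_const continuous_norm).mem_nhds h
  filter_upwards [this] with Q hQ
  exact ee_zero Q (le_of_lt hQ)

theorem pd_ee_zero1 (i : Fin 2) (P : E2) (h : ‖P‖ < 3 / 4) : pd i ee P = 0 :=
  ((hasPd_const i 1 P).congr (ee_ev_one P h)).eq

theorem pd_ee_zero2 (i : Fin 2) (P : E2) (h : 1 < ‖P‖) : pd i ee P = 0 :=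
  ((hasPd_const i 0 P).congr (ee_ev_zero P h)).eq

theorem pd_pd_ee_zero1 (i j : Fin 2) (P : E2) (h : ‖P‖ < 3 / 4) : pd i (pd j ee) P = 0 := by
  apply HasPd.eq
  apply (hasPd_const i 0 P).congr
  have : {Q : E2 | ‖Q‖ < 3 / 4} ∈ 𝓝 P :=
    (isOpen_lt continuous_norm continuous_const).mem_nhds h
  filter_upwards [this] with Q hQ
  exact pd_ee_zero1 j Q hQ

theorem pd_pd_ee_zero2 (i j : Fin 2) (P : E2) (h : 1 < ‖P‖) : pd i (pd j ee) P = 0 := by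
  apply HasPd.eq
  apply (hasPd_const i 0 P).congr
  have : {Q : E2 | 1 < ‖Q‖} ∈ 𝓝 P :=
    (isOpen_lt continuous_const continuous_norm).mem_nhds h
  filter_upwards [this] with Q hQ
  exact pd_ee_zero2 j Q hQ

/-- the scaled cut-off quotient -/
noncomputable def FF (s c : ℝ) (P : E2) : ℂ := ee (c • P) * (Wl s P)⁻¹

/-- its first derivative -/
noncomputable def GG (s : ℝ) (i : Fin 2) (c : ℝ) (P : E2) : ℂ :=
  (c : ℂ) * (pd i ee (c • P) * (Wl s P)⁻¹) - wc s i * (ee (c • P) * ((Wl s P)⁻¹) ^ 2)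

theorem hasPd_FF (s : ℝ) (hs : 0 < s) (c : ℝ) (i : Fin 2) (P : E2) (hP : P ≠ 0) :
    HasPd i (FF s c) (GG s i c P) P := by
  have h1 := (hasPd_self i ee ee_contDiff (c • P)).comp_smul c
  have h2 := (hasPd_Wl s i P).inv (Wl_ne s hs P hP)
  have h3 := h1.mul h2
  refine ⟨h3.1, ?_⟩
  have h4 := h3.2
  unfold FF GG
  rw [h4]
  ring

theorem hasPd_GG (s : ℝ) (hs : 0 < s) (c : ℝ) (i : Fin 2) (P : E2) (hP : P ≠ 0) :
    HasPd i (GG s i c) ((c : ℂ) ^ 2 * (pd i (pd i ee) (c • P) * (Wl s P)⁻¹) -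
      2 * (c : ℂ) * wc s i * (pd i ee (c • P) * ((Wl s P)⁻¹) ^ 2) +
      2 * (wc s i) ^ 2 * (ee (c • P) * ((Wl s P)⁻¹) ^ 3)) P := by
  have h0 := (hasPd_self i (pd i ee) (pd_contDiff i ee ee_contDiff) (c • P)).comp_smul c
  have h1 := (hasPd_self i ee ee_contDiff (c • P)).comp_smul c
  have h2 := (hasPd_Wl s i P).inv (Wl_ne s hs P hP)
  have h3 := (h0.mul h2).const_mul (c : ℂ)
  have h4 := (h1.mul (h2.mul h2)).const_mul (wc s i)
  have h5 := h3.sub h4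
  have h6 : GG s i c = fun Q => (c : ℂ) * (pd i ee (c • Q) * (Wl s Q)⁻¹) -
      wc s i * (ee (c • Q) * ((Wl s Q)⁻¹ * (Wl s Q)⁻¹)) := by
    funext Q
    unfold GG
    ring
  rw [h6]
  refine ⟨h5.1, ?_⟩
  rw [h5.2]
  ring

theorem ne_mem (P : E2) (hP : P ≠ 0) : {Q : E2 | Q ≠ 0} ∈ 𝓝 P := isOpen_ne.mem_nhds hP

/-- the operator applied to `ee`, over `W` -/
noncomputable def Lam (s : ℝ) (Q : E2) : ℂ :=
  (pd 0 (pd 0 ee) Q + (s : ℂ) ^ 2 * pd 1 (pd 1 ee) Q) * (Wl s Q)⁻¹ -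
    2 * (pd 0 ee Q + (s : ℂ) * Complex.I * pd 1 ee Q) * ((Wl s Q)⁻¹) ^ 2

theorem Lam_zero1 (s : ℝ) (Q : E2) (h : ‖Q‖ < 3 / 4) : Lam s Q = 0 := by
  unfold Lam
  rw [pd_pd_ee_zero1 0 0 Q h, pd_pd_ee_zero1 1 1 Q h, pd_ee_zero1 0 Q h, pd_ee_zero1 1 Q h]
  simp

theorem Lam_zero2 (s : ℝ) (Q : E2) (h : 1 < ‖Q‖) : Lam s Q = 0 := by
  unfold Lam
  rw [pd_pd_ee_zero2 0 0 Q h, pd_pd_ee_zero2 1 1 Q h, pd_ee_zero2 0 Q h, pd_ee_zero2 1 Q h]
  simp

theorem Lam_cont (s : ℝ) (hs : 0 < s) : Continuous (Lam s) := by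
  rw [continuous_iff_continuousAt]
  intro P
  by_cases hP : P = 0
  · have h1 : Lam s =ᶠ[𝓝 P] fun _ => 0 := by
      have : {Q : E2 | ‖Q‖ < 3 / 4} ∈ 𝓝 P :=
        (isOpen_lt continuous_norm continuous_const).mem_nhds (by rw [hP]; simp)
      filter_upwards [this] with Q hQ
      exact Lam_zero1 s Q hQ
    exact (continuousAt_const).congr h1.symm
  · have c00 := (pd_contDiff 0 _ (pd_contDiff 0 ee ee_contDiff)).continuous.continuousAt (x := P)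
    have c11 := (pd_contDiff 1 _ (pd_contDiff 1 ee ee_contDiff)).continuous.continuousAt (x := P)
    have c0 := (pd_contDiff 0 ee ee_contDiff).continuous.continuousAt (x := P)
    have c1 := (pd_contDiff 1 ee ee_contDiff).continuous.continuousAt (x := P)
    have cW : ContinuousAt (fun Q => (Wl s Q)⁻¹) P :=
      ((Wl s).continuous.continuousAt).inv₀ (Wl_ne s hs P hP)
    unfold Lam
    exact ((c00.add (continuousAt_const.mul c11)).mul cW).sub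
      ((continuousAt_const.mul (c0.add (continuousAt_const.mul c1))).mul (cW.pow 2))

theorem Wl_smul_inv (s c : ℝ) (P : E2) : (Wl s (c • P))⁻¹ = (c : ℂ)⁻¹ * (Wl s P)⁻¹ := by
  rw [map_smul, Complex.real_smul, mul_inv]

theorem L_FF (s : ℝ) (hs : 0 < s) (c : ℝ) (hc : 0 < c) (P : E2) (hP : P ≠ 0) :
    pd 0 (GG s 0 c) P + (s : ℂ) ^ 2 * pd 1 (GG s 1 c) P = (c : ℂ) ^ 3 * Lam s (c • P) := by
  rw [(hasPd_GG s hs c 0 P hP).eq, (hasPd_GG s hs c 1 P hP).eq]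
  unfold Lam wc
  rw [Wl_smul_inv]
  have hc' : (c : ℂ) ≠ 0 := by exact_mod_cast hc.ne'
  have hs' : (s : ℂ) ≠ 0 := by exact_mod_cast hs.ne'
  simp only [if_true, one_ne_zero, if_false]
  have hW := Wl_ne s hs P hP
  field_simp
  ring_nf
  simp only [Complex.I_sq]
  ring

/-- the test functions -/
noncomputable def Ph (s : ℝ) (a b : ℕ) (P : E2) : ℂ := FF s (2 ^ a) P - FF s (2 ^ b) P

theorem Ph_small (s : ℝ) (a b : ℕ) (hab : a < b) (P : E2)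
    (h : ‖P‖ < (3 / 4) * ((2:ℝ) ^ b)⁻¹) : Ph s a b P = 0 := by
  have hb : (0:ℝ) < 2 ^ b := by positivity
  have ha : (0:ℝ) < 2 ^ a := by positivity
  have hab' : (2:ℝ) ^ a ≤ 2 ^ b := pow_le_pow_right₀ (by norm_num) hab.le
  have h1 : (2:ℝ) ^ b * ‖P‖ < 3 / 4 := by
    have := mul_lt_mul_of_pos_left h hb
    calc (2:ℝ) ^ b * ‖P‖ < 2 ^ b * (3 / 4 * (2 ^ b)⁻¹) := this
      _ = 3 / 4 := by field_simp
  have h2 : (2:ℝ) ^ a * ‖P‖ < 3 / 4 :=
    lt_of_le_of_lt (mul_le_mul_of_nonneg_right hab' (norm_nonneg _)) h1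
  unfold Ph FF
  rw [ee_one ((2:ℝ) ^ a • P) (by rw [norm_smul, Real.norm_of_nonneg ha.le]; exact h2.le),
    ee_one ((2:ℝ) ^ b • P) (by rw [norm_smul, Real.norm_of_nonneg hb.le]; exact h1.le)]
  simp

theorem Ph_big (s : ℝ) (a b : ℕ) (hab : a < b) (P : E2)
    (h : ((2:ℝ) ^ a)⁻¹ < ‖P‖) : Ph s a b P = 0 := by
  have hb : (0:ℝ) < 2 ^ b := by positivity
  have ha : (0:ℝ) < 2 ^ a := by positivity
  have hab' : (2:ℝ) ^ a ≤ 2 ^ b := pow_le_pow_right₀ (by norm_num) hab.le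
  have h1 : 1 < (2:ℝ) ^ a * ‖P‖ := by
    have := mul_lt_mul_of_pos_left h ha
    rwa [mul_inv_cancel₀ ha.ne'] at this
  have h2 : 1 < (2:ℝ) ^ b * ‖P‖ :=
    lt_of_lt_of_le h1 (mul_le_mul_of_nonneg_right hab' (norm_nonneg _))
  unfold Ph FF
  rw [ee_zero ((2:ℝ) ^ a • P) (by rw [norm_smul, Real.norm_of_nonneg ha.le]; exact h1.le),
    ee_zero ((2:ℝ) ^ b • P) (by rw [norm_smul, Real.norm_of_nonneg hb.le]; exact h2.le)]
  simp

theorem Ph_ev_zero (s : ℝ) (a b : ℕ) (hab : a < b) : Ph s a b =ᶠ[𝓝 0] fun _ => 0 := by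
  have : {Q : E2 | ‖Q‖ < (3 / 4) * ((2:ℝ) ^ b)⁻¹} ∈ 𝓝 (0 : E2) :=
    (isOpen_lt continuous_norm continuous_const).mem_nhds (by
      show ‖(0 : E2)‖ < _
      rw [norm_zero]; positivity)
  filter_upwards [this] with Q hQ
  exact Ph_small s a b hab Q hQ

theorem Ph_pd (s : ℝ) (hs : 0 < s) (a b : ℕ) (i : Fin 2) (P : E2) (hP : P ≠ 0) :
    HasPd i (Ph s a b) (GG s i (2 ^ a) P - GG s i (2 ^ b) P) P :=
  (hasPd_FF s hs (2 ^ a) i P hP).sub (hasPd_FF s hs (2 ^ b) i P hP)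

theorem Ph_pd_pd (s : ℝ) (hs : 0 < s) (a b : ℕ) (i : Fin 2) (P : E2) (hP : P ≠ 0) :
    pd i (pd i (Ph s a b)) P = pd i (GG s i (2 ^ a)) P - pd i (GG s i (2 ^ b)) P := by
  apply HasPd.eq
  have h1 := (hasPd_GG s hs (2 ^ a) i P hP).sub (hasPd_GG s hs (2 ^ b) i P hP)
  rw [(hasPd_GG s hs (2 ^ a) i P hP).eq, (hasPd_GG s hs (2 ^ b) i P hP).eq]
  apply h1.congr
  filter_upwards [ne_mem P hP] with Q hQ
  exact (Ph_pd s hs a b i Q hQ).eq

theorem Ph_L (s : ℝ) (hs : 0 < s) (a b : ℕ) (hab : a < b) (P : E2) :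
    pd 0 (pd 0 (Ph s a b)) P + (s : ℂ) ^ 2 * pd 1 (pd 1 (Ph s a b)) P =
        8 ^ a * Lam s (((2:ℝ) ^ a) • P) - 8 ^ b * Lam s (((2:ℝ) ^ b) • P) := by
  by_cases hP : P = 0
  · subst hP
    have h2 : ∀ i j, pd i (pd j (Ph s a b)) 0 = 0 := by
      intro i j
      apply HasPd.eq
      apply (hasPd_const i 0 0).congr
      have : {Q : E2 | ‖Q‖ < (3 / 4) * ((2:ℝ) ^ b)⁻¹} ∈ 𝓝 (0 : E2) :=
        (isOpen_lt continuous_norm continuous_const).mem_nhds (by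
          show ‖(0 : E2)‖ < _
          rw [norm_zero]; positivity)
      have h4 : IsOpen {Q : E2 | ‖Q‖ < (3 / 4) * ((2:ℝ) ^ b)⁻¹} :=
        isOpen_lt continuous_norm continuous_const
      filter_upwards [this] with Q hQ
      apply HasPd.eq
      apply (hasPd_const j 0 Q).congr
      filter_upwards [h4.mem_nhds hQ] with R hR
      exact Ph_small s a b hab R hR
    rw [h2, h2, smul_zero, smul_zero, Lam_zero1 s 0 (by rw [norm_zero]; norm_num)]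
    simp
  · rw [Ph_pd_pd s hs a b 0 P hP, Ph_pd_pd s hs a b 1 P hP]
    have h1 := L_FF s hs (2 ^ a) (by positivity) P hP
    have h2 := L_FF s hs (2 ^ b) (by positivity) P hP
    have e1 : (8:ℂ) ^ a = (((2:ℝ) ^ a : ℝ) : ℂ) ^ 3 := by
      push_cast
      rw [← pow_mul, mul_comm, pow_mul]
      norm_num
    have e2 : (8:ℂ) ^ b = (((2:ℝ) ^ b : ℝ) : ℂ) ^ 3 := by
      push_cast
      rw [← pow_mul, mul_comm, pow_mul]
      norm_num
    rw [e1, e2, ← h1, ← h2]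
    ring

theorem Ph_contDiff (s : ℝ) (hs : 0 < s) (a b : ℕ) (hab : a < b) :
    ContDiff ℝ ∞ (Ph s a b) := by
  rw [contDiff_iff_contDiffAt]
  intro P
  by_cases hP : P = 0
  · subst hP
    exact (contDiffAt_const (c := (0:ℂ))).congr_of_eventuallyEq (Ph_ev_zero s a b hab)
  · have hF : ∀ c : ℝ, ContDiffAt ℝ ∞ (FF s c) P := by
      intro c
      unfold FF
      apply ContDiffAt.mul
      · exact (ee_contDiff.comp (contDiff_const_smul c)).contDiffAt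
      · exact ((Wl s).contDiff.contDiffAt).inv (Wl_ne s hs P hP)
    exact (hF _).sub (hF _)

theorem pd_ee_bound : ∃ M : ℝ, 0 ≤ M ∧ ∀ Q, ‖pd 1 ee Q‖ * ‖Q‖ ≤ M := by
  have hc : ContinuousOn (fun Q => ‖pd 1 ee Q‖ * ‖Q‖) (closedBall (0 : E2) 1) :=
    (((pd_contDiff 1 ee ee_contDiff).continuous.norm).mul continuous_norm).continuousOn
  obtain ⟨M, hM⟩ := (isCompact_closedBall (0 : E2) 1).exists_bound_of_continuousOn hc
  refine ⟨max M 0, le_max_right _ _, ?_⟩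
  intro Q
  rcases le_or_gt ‖Q‖ 1 with h | h
  · have := hM Q (by rw [mem_closedBall_zero_iff]; exact h)
    exact le_trans (le_trans (le_abs_self _) (by simpa using this)) (le_max_left _ _)
  · rw [pd_ee_zero2 1 Q h, norm_zero, zero_mul]
    exact le_max_right _ _

/-- the test functions: cut-offs of `1/(X + i Y/s)` -/
theorem testfun (s : ℝ) (hs : 0 < s) : ∃ (Λ : E2 → ℂ) (Φ : ℕ → ℕ → E2 → ℂ) (C1 : ℝ),
    Continuous Λ ∧ (∀ P, Λ P ≠ 0 → ‖P‖ ≤ 1) ∧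
    ∀ a b : ℕ, a < b → ContDiff ℝ ∞ (Φ a b) ∧
      (∀ P, Φ a b P ≠ 0 → (3 / 4) * ((2:ℝ) ^ b)⁻¹ ≤ ‖P‖ ∧ ‖P‖ ≤ ((2:ℝ) ^ a)⁻¹) ∧
      (∀ P, ‖pd 1 (Φ a b) P‖ * ‖P‖ ^ 2 ≤ C1) ∧
      (∀ P, ((2:ℝ) ^ b)⁻¹ < ‖P‖ → ‖P‖ < (3 / 4) * ((2:ℝ) ^ a)⁻¹ →
        pd 1 (Φ a b) P = -(Complex.I / s) / ((P 0 : ℝ) + Complex.I * (P 1 : ℝ) / s) ^ 2) ∧
      (∀ P, pd 0 (pd 0 (Φ a b)) P + (s : ℂ) ^ 2 * pd 1 (pd 1 (Φ a b)) P =
        8 ^ a * Λ (((2:ℝ) ^ a) • P) - 8 ^ b * Λ (((2:ℝ) ^ b) • P)) := by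
  obtain ⟨M, hM0, hM⟩ := pd_ee_bound
  set k : ℝ := min 1 (1 / s) with hk
  have hk0 : 0 < k := lt_min one_pos (by positivity)
  have hG : ∀ (c : ℝ), 0 < c → ∀ P : E2, P ≠ 0 → ‖GG s 1 c P‖ * ‖P‖ ^ 2 ≤ M / k + 1 / s / k ^ 2 := by
    intro c hc P hP
    have hP0 : 0 < ‖P‖ := norm_pos_iff.mpr hP
    have hW := Wl_norm s hs P
    rw [← hk] at hW
    have hW0 : 0 < ‖Wl s P‖ := lt_of_lt_of_le (by positivity) hW
    have hr : ‖P‖ * ‖Wl s P‖⁻¹ ≤ 1 / k := by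
      rw [← div_eq_mul_inv, div_le_div_iff₀ hW0 hk0]
      linarith
    have h1 : ‖GG s 1 c P‖ ≤ c * (‖pd 1 ee (c • P)‖ * ‖Wl s P‖⁻¹) +
        1 / s * (‖ee (c • P)‖ * (‖Wl s P‖⁻¹) ^ 2) := by
      unfold GG
      refine (norm_sub_le _ _).trans ?_
      rw [norm_mul, norm_mul, norm_mul, norm_mul, norm_pow, norm_inv, Complex.norm_real,
        Real.norm_of_nonneg hc.le]
      have : ‖wc s 1‖ = 1 / s := by
        unfold wc
        simp [abs_of_pos hs]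
      rw [this]
    have h2 := hM (c • P)
    rw [norm_smul, Real.norm_of_nonneg hc.le] at h2
    have h3 := ee_norm (c • P)
    calc ‖GG s 1 c P‖ * ‖P‖ ^ 2 ≤ (c * (‖pd 1 ee (c • P)‖ * ‖Wl s P‖⁻¹) +
        1 / s * (‖ee (c • P)‖ * (‖Wl s P‖⁻¹) ^ 2)) * ‖P‖ ^ 2 := by gcongr
      _ = (‖pd 1 ee (c • P)‖ * (c * ‖P‖)) * (‖P‖ * ‖Wl s P‖⁻¹) +
          1 / s * ‖ee (c • P)‖ * (‖P‖ * ‖Wl s P‖⁻¹) ^ 2 := by ring
      _ ≤ M * (1 / k) + 1 / s * 1 * (1 / k) ^ 2 := by gcongr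
      _ = M / k + 1 / s / k ^ 2 := by ring
  refine ⟨Lam s, Ph s, 2 * (M / k + 1 / s / k ^ 2), Lam_cont s hs, ?_, ?_⟩
  · intro P hP
    by_contra h
    exact hP (Lam_zero2 s P (not_le.mp h))
  · intro a b hab
    refine ⟨Ph_contDiff s hs a b hab, ?_, ?_, ?_, ?_⟩
    · intro P hP
      constructor
      · by_contra h
        exact hP (Ph_small s a b hab P (not_le.mp h))
      · by_contra h
        exact hP (Ph_big s a b hab P (not_le.mp h))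
    · intro P
      by_cases hP : P = 0
      · rw [hP, norm_zero]
        have : 0 ≤ 2 * (M / k + 1 / s / k ^ 2) := by positivity
        simpa using this
      · rw [(Ph_pd s hs a b 1 P hP).eq]
        have h1 := hG (2 ^ a) (by positivity) P hP
        have h2 := hG (2 ^ b) (by positivity) P hP
        have h3 := norm_sub_le (GG s 1 (2 ^ a) P) (GG s 1 (2 ^ b) P)
        calc ‖GG s 1 (2 ^ a) P - GG s 1 (2 ^ b) P‖ * ‖P‖ ^ 2
            ≤ (‖GG s 1 (2 ^ a) P‖ + ‖GG s 1 (2 ^ b) P‖) * ‖P‖ ^ 2 := by gcongr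
          _ = ‖GG s 1 (2 ^ a) P‖ * ‖P‖ ^ 2 + ‖GG s 1 (2 ^ b) P‖ * ‖P‖ ^ 2 := by ring
          _ ≤ 2 * (M / k + 1 / s / k ^ 2) := by linarith
    · intro P h1 h2
      have hb : (0:ℝ) < 2 ^ b := by positivity
      have ha : (0:ℝ) < 2 ^ a := by positivity
      have hP : P ≠ 0 := by
        rintro rfl
        rw [norm_zero] at h1
        have : 0 < ((2:ℝ) ^ b)⁻¹ := by positivity
        linarith
      have h3 : ‖(2:ℝ) ^ a • P‖ < 3 / 4 := by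
        rw [norm_smul, Real.norm_of_nonneg ha.le]
        have := mul_lt_mul_of_pos_left h2 ha
        calc (2:ℝ) ^ a * ‖P‖ < 2 ^ a * (3 / 4 * (2 ^ a)⁻¹) := this
          _ = 3 / 4 := by field_simp
      have h4 : 1 < ‖(2:ℝ) ^ b • P‖ := by
        rw [norm_smul, Real.norm_of_nonneg hb.le]
        have := mul_lt_mul_of_pos_left h1 hb
        rwa [mul_inv_cancel₀ hb.ne'] at this
      rw [(Ph_pd s hs a b 1 P hP).eq]
      unfold GG
      rw [pd_ee_zero1 1 _ h3, pd_ee_zero2 1 _ h4, ee_one _ h3.le, ee_zero _ h4.le, Wl_apply]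
      unfold wc
      simp only [one_ne_zero, if_false]
      rw [div_eq_mul_inv (-(Complex.I / (s : ℂ))), inv_pow]
      ring
    · exact Ph_L s hs a b hab


end J10239
end H575Germ
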