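import Pool.Agent.Helper575.Germ.Defs

open scoped RealInnerProductSpace Topology ContDiff
open MeasureTheory Metric

namespace H575Germ
namespace J10240


theorem cd_pd {F : Type*} [NormedAddCommGroup F] [NormedSpace ℝ F] {n m : WithTop ℕ∞} (h : E2 → F)
    (hh : ContDiff ℝ n h) (hmn : m + 1 ≤ n) (i : Fin 2) : ContDiff ℝ m (pd i h) :=
  (hh.fderiv_right hmn).clm_apply contDiff_const

theorem cont_pd {F : Type*} [NormedAddCommGroup F] [NormedSpace ℝ F] (h : E2 → F)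
    (hh : ContDiff ℝ 1 h) (i : Fin 2) : Continuous (pd i h) :=
  (cd_pd (m := 0) h hh (by norm_num) i).continuous

theorem pd_coord (i j : Fin 2) (x : E2) : pd i (fun x : E2 => x j) x = if i = j then 1 else 0 := by
  unfold pd
  have h : HasFDerivAt (fun x : E2 => x j) (EuclideanSpace.proj j : E2 →L[ℝ] ℝ) x :=
    (EuclideanSpace.proj j : E2 →L[ℝ] ℝ).hasFDerivAt
  rw [h.fderiv]
  simp [eq_comm]

/-- null Lagrangian identity on a ball, when `a` vanishes near the boundary -/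
theorem loc_null
    (null_lagrangian : ∀ (a b : E2 → ℝ), ContDiff ℝ 1 a → HasCompactSupport a → ContDiff ℝ 1 b →
      ∫ x, (pd 0 a x * pd 1 b x - pd 1 a x * pd 0 b x) = 0)
    (a b : E2 → ℝ) (ha : ContDiff ℝ 1 a) (hb : ContDiff ℝ 1 b) (ρ : ℝ) (hρ : 0 < ρ)
    (hz : ∀ x, ρ / 2 ≤ ‖x‖ → ‖x‖ ≤ ρ → x ∉ tsupport a) :
    ∫ x in ball (0:E2) ρ, (pd 0 a x * pd 1 b x - pd 1 a x * pd 0 b x) = 0 := by
  classical
  set a' : E2 → ℝ := (ball (0:E2) ρ).indicator a with ha'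
  have hin : ∀ x ∈ ball (0:E2) ρ, a' =ᶠ[𝓝 x] a := by
    intro x hx
    filter_upwards [isOpen_ball.mem_nhds hx] with y hy
    exact Set.indicator_of_mem hy a
  have hout : ∀ x ∉ ball (0:E2) ρ, a' =ᶠ[𝓝 x] 0 := by
    intro x hx
    rw [mem_ball_zero_iff, not_lt] at hx
    rcases hx.lt_or_eq with h | h
    · have : (closedBall (0:E2) ρ)ᶜ ∈ 𝓝 x := by
        apply isClosed_closedBall.isOpen_compl.mem_nhds
        rw [Set.mem_compl_iff, mem_closedBall_zero_iff, not_le]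
        exact h
      filter_upwards [this] with y hy
      apply Set.indicator_of_notMem
      intro hy'
      exact hy (ball_subset_closedBall hy')
    · have h1 := notMem_tsupport_iff_eventuallyEq.mp (hz x (by linarith) h.symm.le)
      filter_upwards [h1] with y hy
      by_cases hyb : y ∈ ball (0:E2) ρ
      · rw [ha', Set.indicator_of_mem hyb, hy]
      · rw [ha', Set.indicator_of_notMem hyb]; rfl
  have hcd : ContDiff ℝ 1 a' := by
    rw [contDiff_iff_contDiffAt]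
    intro x
    by_cases hx : x ∈ ball (0:E2) ρ
    · exact ha.contDiffAt.congr_of_eventuallyEq (hin x hx)
    · exact (contDiffAt_const (c := (0:ℝ))).congr_of_eventuallyEq (hout x hx)
  have hcs : HasCompactSupport a' := by
    apply HasCompactSupport.intro (isCompact_closedBall (0:E2) ρ)
    intro x hx
    apply Set.indicator_of_notMem
    intro h
    exact hx (ball_subset_closedBall h)
  have hpd : ∀ i x, pd i a' x = (ball (0:E2) ρ).indicator (pd i a) x := by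
    intro i x
    by_cases hx : x ∈ ball (0:E2) ρ
    · rw [Set.indicator_of_mem hx]
      unfold pd
      rw [(hin x hx).fderiv_eq]
    · rw [Set.indicator_of_notMem hx]
      unfold pd
      rw [(hout x hx).fderiv_eq]
      simp
  have h := null_lagrangian a' b hcd hcs hb
  rw [← integral_indicator isOpen_ball.measurableSet, ← h]
  congr 1
  funext x
  rw [hpd, hpd]
  by_cases hx : x ∈ ball (0:E2) ρ
  · rw [Set.indicator_of_mem hx, Set.indicator_of_mem hx, Set.indicator_of_mem hx]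
  · rw [Set.indicator_of_notMem hx, Set.indicator_of_notMem hx, Set.indicator_of_notMem hx]
    ring

theorem cd_Θ {n : WithTop ℕ∞} (z1 : E2 → ℝ) (hz1 : ContDiff ℝ n z1) :
    ContDiff ℝ n (fun x : E2 => (!₂[x 0, z1 x] : E2)) := by
  rw [contDiff_euclidean]
  intro i
  fin_cases i
  · simpa using (EuclideanSpace.proj (0 : Fin 2) : E2 →L[ℝ] ℝ).contDiff
  · simpa using hz1

theorem chain_Θ (z1 : E2 → ℝ) (hz1 : ContDiff ℝ 1 z1) (ψ : E2 → ℝ) (hψ : ContDiff ℝ 1 ψ) (x : E2) :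
    pd 0 (fun x => ψ !₂[x 0, z1 x]) x = pd 0 ψ !₂[x 0, z1 x] + pd 1 ψ !₂[x 0, z1 x] * pd 0 z1 x ∧
    pd 1 (fun x => ψ !₂[x 0, z1 x]) x = pd 1 ψ !₂[x 0, z1 x] * pd 1 z1 x := by
  have hΘ : DifferentiableAt ℝ (fun x : E2 => (!₂[x 0, z1 x] : E2)) x :=
    (cd_Θ z1 hz1).differentiable one_ne_zero x
  have hψd : DifferentiableAt ℝ ψ !₂[x 0, z1 x] := hψ.differentiable one_ne_zero _
  have hc : HasFDerivAt (fun x : E2 => ψ !₂[x 0, z1 x]) ((fderiv ℝ ψ !₂[x 0, z1 x]).comp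
      (fderiv ℝ (fun x : E2 => (!₂[x 0, z1 x] : E2)) x)) x := hψd.hasFDerivAt.comp x hΘ.hasFDerivAt
  have hco : ∀ i, HasFDerivAt (fun x : E2 => (!₂[x 0, z1 x] : E2) i) (PiLp.proj _ _ i ∘L
      fderiv ℝ (fun x : E2 => (!₂[x 0, z1 x] : E2)) x) x := fun i =>
    (hasFDerivWithinAt_euclidean.mp (hΘ.hasFDerivAt.hasFDerivWithinAt (s := Set.univ)) i).hasFDerivAt
      Filter.univ_mem
  have h0 : ∀ v, (fderiv ℝ (fun x : E2 => (!₂[x 0, z1 x] : E2)) x v) 0 = fderiv ℝ (fun x : E2 => x 0) x v := by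
    intro v
    have := (hco 0).fderiv
    simp only [Matrix.cons_val_zero] at this
    have h2 := congrArg (fun L => L v) this
    simpa using h2.symm
  have h1 : ∀ v, (fderiv ℝ (fun x : E2 => (!₂[x 0, z1 x] : E2)) x v) 1 = fderiv ℝ z1 x v := by
    intro v
    have := (hco 1).fderiv
    simp only [Matrix.cons_val_one] at this
    have h2 := congrArg (fun L => L v) this
    simpa using h2.symm
  have hv : ∀ i, fderiv ℝ (fun x : E2 => (!₂[x 0, z1 x] : E2)) x (EuclideanSpace.single i 1) =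
      (pd i (fun x : E2 => x 0) x) • EuclideanSpace.single 0 1 + (pd i z1 x) • EuclideanSpace.single 1 1 := by
    intro i
    ext j
    fin_cases j
    · simp [h0, pd]
    · simp [h1, pd]
  constructor
  · conv_lhs => unfold pd
    rw [hc.fderiv, ContinuousLinearMap.comp_apply, hv, map_add, map_smul, map_smul, pd_coord]
    simp only [pd, if_true, one_smul, smul_eq_mul]
    ring
  · conv_lhs => unfold pd
    rw [hc.fderiv, ContinuousLinearMap.comp_apply, hv, map_add, map_smul, map_smul, pd_coord]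
    simp only [pd, smul_eq_mul]
    norm_num
    ring

theorem pd_mul (i : Fin 2) (a b : E2 → ℝ) (ha : ContDiff ℝ 1 a) (hb : ContDiff ℝ 1 b) (x : E2) :
    pd i (fun x => a x * b x) x = pd i a x * b x + a x * pd i b x := by
  unfold pd
  rw [fderiv_fun_mul (ha.differentiable one_ne_zero x) (hb.differentiable one_ne_zero x)]
  simp only [ContinuousLinearMap.add_apply, ContinuousLinearMap.smul_apply, smul_eq_mul]
  ring

theorem pd_symm (z : E2 → ℝ) (hz : ContDiff ℝ 2 z) (x : E2) : pd 1 (pd 0 z) x = pd 0 (pd 1 z) x := by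
  have h1 : DifferentiableAt ℝ (fderiv ℝ z) x :=
    (hz.fderiv_right (m := 1) (by norm_num)).differentiable one_ne_zero x
  have key : ∀ i j : Fin 2, pd i (pd j z) x = fderiv ℝ (fderiv ℝ z) x (EuclideanSpace.single i 1)
      (EuclideanSpace.single j 1) := by
    intro i j
    unfold pd
    rw [fderiv_clm_apply h1 (differentiableAt_const _)]
    simp
  rw [key, key]
  exact (hz.contDiffAt.isSymmSndFDerivAt (by simp)) _ _

theorem int_ball (g : E2 → ℝ) (hg : Continuous g) (ρ : ℝ) : IntegrableOn g (ball (0:E2) ρ) :=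
  (hg.continuousOn.integrableOn_compact (isCompact_closedBall (0:E2) ρ)).mono_set ball_subset_closedBall

theorem tsub_Θ (z1 : E2 → ℝ) (hz1 : ContDiff ℝ 1 z1) (Ψ a : E2 → ℝ)
    (h : ∀ x, a x ≠ 0 → (!₂[x 0, z1 x] : E2) ∈ tsupport Ψ) (x : E2) (hx : x ∈ tsupport a) :
    (!₂[x 0, z1 x] : E2) ∈ tsupport Ψ := by
  have hcl : IsClosed ((fun x : E2 => (!₂[x 0, z1 x] : E2)) ⁻¹' tsupport Ψ) :=
    (isClosed_tsupport Ψ).preimage (cd_Θ z1 hz1).continuous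
  have : tsupport a ⊆ (fun x : E2 => (!₂[x 0, z1 x] : E2)) ⁻¹' tsupport Ψ :=
    closure_minimal (fun y hy => h y hy) hcl
  exact this hx

theorem pd_mem_tsupport (Ψ : E2 → ℝ) (i : Fin 2) (y : E2) (h : pd i Ψ y ≠ 0) : y ∈ tsupport Ψ := by
  apply support_fderiv_subset ℝ
  intro h0
  apply h
  unfold pd
  rw [h0]
  rfl

/-- the partial Legendre identity -/
theorem legendre_identity
    (null_lagrangian : ∀ (a b : E2 → ℝ), ContDiff ℝ 1 a → HasCompactSupport a → ContDiff ℝ 1 b →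
      ∫ x, (pd 0 a x * pd 1 b x - pd 1 a x * pd 0 b x) = 0)
    (z : E2 → ℝ) (hz : ContDiff ℝ 2 z) (Ψ : E2 → ℝ) (hΨ : ContDiff ℝ ∞ Ψ) (κ ρ : ℝ) (hρ : 0 < ρ)
    (hs : ∀ x : E2, ρ / 2 ≤ ‖x‖ → ‖x‖ ≤ ρ → (!₂[x 0, pd 1 z x] : E2) ∉ tsupport Ψ) :
    ∫ x in ball (0:E2) ρ, (pd 0 (pd 0 z) x * pd 1 (pd 1 z) x - (pd 0 (pd 1 z) x) ^ 2 - κ) *
        pd 1 Ψ !₂[x 0, pd 1 z x] =
      ∫ x in ball (0:E2) ρ, (x 1 * pd 1 (pd 1 z) x) *
        (pd 0 (pd 0 Ψ) !₂[x 0, pd 1 z x] + κ * pd 1 (pd 1 Ψ) !₂[x 0, pd 1 z x]) := by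
  have hz1 : ContDiff ℝ 1 (pd 1 z) := cd_pd z hz (by norm_num) 1
  have hz0 : ContDiff ℝ 1 (pd 0 z) := cd_pd z hz (by norm_num) 0
  have hΨ1 : ContDiff ℝ 1 Ψ := hΨ.of_le (by exact_mod_cast le_top)
  have hΨ2 : ContDiff ℝ 2 Ψ := hΨ.of_le ENat.LEInfty.out
  have hΨX : ContDiff ℝ 1 (pd 0 Ψ) := cd_pd Ψ hΨ2 (by norm_num) 0
  have hΨY : ContDiff ℝ 1 (pd 1 Ψ) := cd_pd Ψ hΨ2 (by norm_num) 1
  have hΘ := cd_Θ (pd 1 z) hz1
  have hx0 : ContDiff ℝ 1 (fun x : E2 => x 0) := (EuclideanSpace.proj (0 : Fin 2) : E2 →L[ℝ] ℝ).contDiff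
  have hx1 : ContDiff ℝ 1 (fun x : E2 => x 1) := (EuclideanSpace.proj (1 : Fin 2) : E2 →L[ℝ] ℝ).contDiff
  have ha1 : ContDiff ℝ 1 (fun x => Ψ !₂[x 0, pd 1 z x]) := hΨ1.comp hΘ
  have hX : ContDiff ℝ 1 (fun x => pd 0 Ψ !₂[x 0, pd 1 z x]) := hΨX.comp hΘ
  have hY : ContDiff ℝ 1 (fun x => pd 1 Ψ !₂[x 0, pd 1 z x]) := hΨY.comp hΘ
  have ha2 : ContDiff ℝ 1 (fun x => x 1 * pd 0 Ψ !₂[x 0, pd 1 z x]) := hx1.mul hX
  have ha3 : ContDiff ℝ 1 (fun x => x 1 * pd 1 Ψ !₂[x 0, pd 1 z x]) := hx1.mul hY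
  have e1 := loc_null null_lagrangian _ _ ha1 hz0 ρ hρ (fun x h1 h2 h3 => hs x h1 h2
    (tsub_Θ (pd 1 z) hz1 Ψ _ (fun y hy => subset_tsupport _ hy) x h3))
  have e2 := loc_null null_lagrangian _ _ ha2 hz1 ρ hρ (fun x h1 h2 h3 => hs x h1 h2
    (tsub_Θ (pd 1 z) hz1 Ψ _ (fun y hy => pd_mem_tsupport Ψ 0 _ (right_ne_zero_of_mul hy)) x h3))
  have e3 := loc_null null_lagrangian _ _ ha3 hx0 ρ hρ (fun x h1 h2 h3 => hs x h1 h2
    (tsub_Θ (pd 1 z) hz1 Ψ _ (fun y hy => pd_mem_tsupport Ψ 1 _ (right_ne_zero_of_mul hy)) x h3))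
  set I1 : E2 → ℝ := fun x => pd 0 (fun x => Ψ !₂[x 0, pd 1 z x]) x * pd 1 (pd 0 z) x -
    pd 1 (fun x => Ψ !₂[x 0, pd 1 z x]) x * pd 0 (pd 0 z) x with hI1
  set I2 : E2 → ℝ := fun x => pd 0 (fun x => x 1 * pd 0 Ψ !₂[x 0, pd 1 z x]) x * pd 1 (pd 1 z) x -
    pd 1 (fun x => x 1 * pd 0 Ψ !₂[x 0, pd 1 z x]) x * pd 0 (pd 1 z) x with hI2
  set I3 : E2 → ℝ := fun x => pd 0 (fun x => x 1 * pd 1 Ψ !₂[x 0, pd 1 z x]) x * pd 1 (fun x : E2 => x 0) x -
    pd 1 (fun x => x 1 * pd 1 Ψ !₂[x 0, pd 1 z x]) x * pd 0 (fun x : E2 => x 0) x with hI3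
  set R : E2 → ℝ := fun x => (x 1 * pd 1 (pd 1 z) x) *
        (pd 0 (pd 0 Ψ) !₂[x 0, pd 1 z x] + κ * pd 1 (pd 1 Ψ) !₂[x 0, pd 1 z x]) with hR
  have c1 : IntegrableOn I1 (ball (0:E2) ρ) := int_ball _ (by
    exact ((cont_pd _ ha1 0).mul (cont_pd _ hz0 1)).sub ((cont_pd _ ha1 1).mul (cont_pd _ hz0 0))) ρ
  have c2 : IntegrableOn I2 (ball (0:E2) ρ) := int_ball _ (by
    exact ((cont_pd _ ha2 0).mul (cont_pd _ hz1 1)).sub ((cont_pd _ ha2 1).mul (cont_pd _ hz1 0))) ρ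
  have c3 : IntegrableOn I3 (ball (0:E2) ρ) := int_ball _ (by
    exact ((cont_pd _ ha3 0).mul (cont_pd _ hx0 1)).sub ((cont_pd _ ha3 1).mul (cont_pd _ hx0 0))) ρ
  have cR : IntegrableOn R (ball (0:E2) ρ) := int_ball _ (by
    exact (hx1.continuous.mul (cont_pd _ hz1 1)).mul
      (((cont_pd _ hΨX 0).comp hΘ.continuous).add
        (continuous_const.mul ((cont_pd _ hΨY 1).comp hΘ.continuous)))) ρ
  have hL : ∀ x : E2, (pd 0 (pd 0 z) x * pd 1 (pd 1 z) x - (pd 0 (pd 1 z) x) ^ 2 - κ) *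
        pd 1 Ψ !₂[x 0, pd 1 z x] = R x - I1 x - I2 x + κ * I3 x := by
    intro x
    obtain ⟨p1, p2⟩ := chain_Θ (pd 1 z) hz1 Ψ hΨ1 x
    obtain ⟨q1, q2⟩ := chain_Θ (pd 1 z) hz1 (pd 0 Ψ) hΨX x
    obtain ⟨r1, r2⟩ := chain_Θ (pd 1 z) hz1 (pd 1 Ψ) hΨY x
    simp only [hI1, hI2, hI3, hR]
    rw [pd_mul 0 _ _ hx1 hX, pd_mul 1 _ _ hx1 hX, pd_mul 0 _ _ hx1 hY, pd_mul 1 _ _ hx1 hY, p1, p2, q1, q2, r1, r2,
      pd_symm z hz, pd_coord, pd_coord, pd_coord, pd_coord]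
    norm_num
    ring
  simp_rw [hL]
  have s1 := integral_add (f := fun x => R x - I1 x - I2 x) (g := fun x => κ * I3 x)
    ((cR.sub c1).sub c2) (c3.const_mul κ)
  have s2 := integral_sub (f := fun x => R x - I1 x) (g := fun x => I2 x) (cR.sub c1) c2
  have s3 := integral_sub (f := fun x => R x) (g := fun x => I1 x) cR c1
  have s4 := integral_const_mul (μ := volume.restrict (ball (0:E2) ρ)) κ (fun x => I3 x)
  rw [s1, s2, s3, s4]
  rw [e1, e2, e3]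
  ring

theorem pd_re (i : Fin 2) (h : E2 → ℂ) (hh : Differentiable ℝ h) : pd i (fun x => (h x).re) = fun x => (pd i h x).re := by
  funext x
  unfold pd
  have := (Complex.reCLM.hasFDerivAt (x := h x)).comp x (hh x).hasFDerivAt
  have h2 : HasFDerivAt (fun x => (h x).re) (Complex.reCLM.comp (fderiv ℝ h x)) x := this
  rw [h2.fderiv]
  rfl

theorem pd_im (i : Fin 2) (h : E2 → ℂ) (hh : Differentiable ℝ h) : pd i (fun x => (h x).im) = fun x => (pd i h x).im := by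
  funext x
  unfold pd
  have := (Complex.imCLM.hasFDerivAt (x := h x)).comp x (hh x).hasFDerivAt
  have h2 : HasFDerivAt (fun x => (h x).im) (Complex.imCLM.comp (fderiv ℝ h x)) x := this
  rw [h2.fderiv]
  rfl

theorem int_ballC (g : E2 → ℂ) (hg : Continuous g) (ρ : ℝ) : IntegrableOn g (ball (0:E2) ρ) :=
  (hg.continuousOn.integrableOn_compact (isCompact_closedBall (0:E2) ρ)).mono_set ball_subset_closedBall

/-- the partial Legendre identity for complex test functions -/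
theorem legendre_identity_complex
    (null_lagrangian : ∀ (a b : E2 → ℝ), ContDiff ℝ 1 a → HasCompactSupport a → ContDiff ℝ 1 b →
      ∫ x, (pd 0 a x * pd 1 b x - pd 1 a x * pd 0 b x) = 0)
    (z : E2 → ℝ) (hz : ContDiff ℝ 2 z) (Ψ : E2 → ℂ) (hΨ : ContDiff ℝ ∞ Ψ) (κ ρ : ℝ) (hρ : 0 < ρ)
    (hs : ∀ x : E2, ρ / 2 ≤ ‖x‖ → ‖x‖ ≤ ρ → (!₂[x 0, pd 1 z x] : E2) ∉ tsupport Ψ) :
    ∫ x in ball (0:E2) ρ,
        ((pd 0 (pd 0 z) x * pd 1 (pd 1 z) x - (pd 0 (pd 1 z) x) ^ 2 - κ : ℝ) : ℂ) *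
        pd 1 Ψ !₂[x 0, pd 1 z x] =
      ∫ x in ball (0:E2) ρ, ((x 1 * pd 1 (pd 1 z) x : ℝ) : ℂ) *
        (pd 0 (pd 0 Ψ) !₂[x 0, pd 1 z x] + (κ : ℂ) * pd 1 (pd 1 Ψ) !₂[x 0, pd 1 z x]) := by
  have hz1 : ContDiff ℝ 1 (pd 1 z) := cd_pd z hz (by norm_num) 1
  have hz0 : ContDiff ℝ 1 (pd 0 z) := cd_pd z hz (by norm_num) 0
  have hΨ1 : ContDiff ℝ 1 Ψ := hΨ.of_le (by exact_mod_cast le_top)
  have hΨ2 : ContDiff ℝ 2 Ψ := hΨ.of_le ENat.LEInfty.out
  have hΨX : ContDiff ℝ 1 (pd 0 Ψ) := cd_pd Ψ hΨ2 (by norm_num) 0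
  have hΨY : ContDiff ℝ 1 (pd 1 Ψ) := cd_pd Ψ hΨ2 (by norm_num) 1
  have hΘ := (cd_Θ (pd 1 z) hz1).continuous
  have hx1 : Continuous (fun x : E2 => x 1) := (EuclideanSpace.proj (1 : Fin 2) : E2 →L[ℝ] ℝ).continuous
  have c1 := int_ballC (fun x => ((pd 0 (pd 0 z) x * pd 1 (pd 1 z) x - (pd 0 (pd 1 z) x) ^ 2 - κ : ℝ) : ℂ) *
        pd 1 Ψ !₂[x 0, pd 1 z x]) (by
    apply Continuous.mul
    · exact Complex.continuous_ofReal.comp ((((cont_pd _ hz0 0).mul (cont_pd _ hz1 1)).sub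
        ((cont_pd _ hz1 0).pow 2)).sub continuous_const)
    · exact hΨY.continuous.comp hΘ) ρ
  have c2 := int_ballC (fun x => ((x 1 * pd 1 (pd 1 z) x : ℝ) : ℂ) *
        (pd 0 (pd 0 Ψ) !₂[x 0, pd 1 z x] + (κ : ℂ) * pd 1 (pd 1 Ψ) !₂[x 0, pd 1 z x])) (by
    apply Continuous.mul
    · exact Complex.continuous_ofReal.comp (hx1.mul (cont_pd _ hz1 1))
    · exact ((cont_pd _ hΨX 0).comp hΘ).add (continuous_const.mul ((cont_pd _ hΨY 1).comp hΘ))) ρ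
  have dΨ := hΨ1.differentiable one_ne_zero
  have dX := hΨX.differentiable one_ne_zero
  have dY := hΨY.differentiable one_ne_zero
  apply Complex.ext
  · have e := legendre_identity null_lagrangian z hz (fun x => (Ψ x).re)
      (Complex.reCLM.contDiff.comp hΨ) κ ρ hρ (fun x h1 h2 h3 => hs x h1 h2
        (tsupport_comp_subset (g := Complex.re) Complex.zero_re Ψ h3))
    rw [pd_re 0 Ψ dΨ, pd_re 1 Ψ dΨ, pd_re 0 _ dX, pd_re 1 _ dY] at e
    have r1 := Complex.reCLM.integral_comp_comm c1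
    have r2 := Complex.reCLM.integral_comp_comm c2
    rw [Complex.reCLM_apply] at r1 r2
    rw [← r1, ← r2]
    simp only [Complex.reCLM_apply, Complex.re_ofReal_mul, Complex.add_re]
    exact e
  · have e := legendre_identity null_lagrangian z hz (fun x => (Ψ x).im)
      (Complex.imCLM.contDiff.comp hΨ) κ ρ hρ (fun x h1 h2 h3 => hs x h1 h2
        (tsupport_comp_subset (g := Complex.im) Complex.zero_im Ψ h3))
    rw [pd_im 0 Ψ dΨ, pd_im 1 Ψ dΨ, pd_im 0 _ dX, pd_im 1 _ dY] at e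
    have r1 := Complex.imCLM.integral_comp_comm c1
    have r2 := Complex.imCLM.integral_comp_comm c2
    rw [Complex.imCLM_apply] at r1 r2
    rw [← r1, ← r2]
    simp only [Complex.imCLM_apply, Complex.im_ofReal_mul, Complex.add_im]
    exact e


end J10240
end H575Germ
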