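import Pool.Agent.Helper575.Germ.Defs

open scoped RealInnerProductSpace Topology ContDiff
open MeasureTheory Metric

namespace H575Germ
namespace J10241


theorem aux_coord (x : E2) (i : Fin 2) : |x i| ≤ ‖x‖ := by
  simpa using PiLp.norm_apply_le x i

theorem aux_sum (x : E2) : ‖x‖ ≤ |x 0| + |x 1| := by
  rw [EuclideanSpace.norm_eq, Fin.sum_univ_two, Real.norm_eq_abs, Real.norm_eq_abs]
  rw [Real.sqrt_le_left (by positivity)]
  nlinarith [abs_nonneg (x 0), abs_nonneg (x 1)]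

theorem theta0_bounds (A01 A11 : ℝ) (hA : 0 < A11) : ∃ c C : ℝ, 0 < c ∧ 0 < C ∧ ∀ x : E2,
    c * ‖x‖ ≤ ‖(!₂[x 0, A01 * x 0 + A11 * x 1] : E2)‖ ∧
      ‖(!₂[x 0, A01 * x 0 + A11 * x 1] : E2)‖ ≤ C * ‖x‖ := by
  refine ⟨(1 + (1 + |A01|) / A11)⁻¹, 1 + |A01| + A11, by positivity, by positivity, fun x => ⟨?_, ?_⟩⟩
  · set y : E2 := !₂[x 0, A01 * x 0 + A11 * x 1] with hy
    have h0 : |x 0| ≤ ‖y‖ := by
      have := aux_coord y 0
      simpa [hy] using this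
    have h1 : |A01 * x 0 + A11 * x 1| ≤ ‖y‖ := by
      have := aux_coord y 1
      simpa [hy] using this
    have h2 : |x 1| ≤ (1 + |A01|) / A11 * ‖y‖ := by
      rw [div_mul_eq_mul_div, le_div_iff₀ hA]
      have e : |x 1| * A11 = |(A01 * x 0 + A11 * x 1) - A01 * x 0| := by
        rw [show (A01 * x 0 + A11 * x 1) - A01 * x 0 = x 1 * A11 by ring, abs_mul, abs_of_pos hA]
      rw [e]
      refine (abs_sub _ _).trans ?_
      rw [abs_mul]
      have := mul_le_mul_of_nonneg_left h0 (abs_nonneg A01)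
      linarith
    rw [inv_mul_le_iff₀ (by positivity)]
    have := aux_sum x
    nlinarith
  · refine (aux_sum _).trans ?_
    simp only [Matrix.cons_val_zero, Matrix.cons_val_one]
    have h0 := aux_coord x 0
    have h1 := aux_coord x 1
    have h2 : |A01 * x 0 + A11 * x 1| ≤ |A01| * |x 0| + A11 * |x 1| := by
      refine (abs_add_le _ _).trans ?_
      rw [abs_mul, abs_mul, abs_of_pos hA]
    have h3 := mul_le_mul_of_nonneg_left h0 (abs_nonneg A01)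
    have h4 := mul_le_mul_of_nonneg_left h1 hA.le
    linarith

theorem theta_asymp (z : E2 → ℝ) (hz : ContDiff ℝ 2 z) (hz1 : pd 1 z 0 = 0)
    (A01 A11 : ℝ) (h01 : pd 0 (pd 1 z) 0 = A01) (h11 : pd 1 (pd 1 z) 0 = A11) (δ : ℝ)
    (hδ : 0 < δ) :
    ∃ ρ > 0, ∀ x : E2, ‖x‖ ≤ ρ →
      ‖(!₂[x 0, pd 1 z x] : E2) - !₂[x 0, A01 * x 0 + A11 * x 1]‖ ≤ δ * ‖x‖ := by
  have hC1 : ContDiff ℝ 1 (pd 1 z) := by
    have h1 : ContDiff ℝ 1 (fderiv ℝ z) := hz.fderiv_right (by norm_num)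
    exact h1.clm_apply contDiff_const
  have hd : HasFDerivAt (pd 1 z) (fderiv ℝ (pd 1 z) 0) 0 :=
    (hC1.differentiable (by norm_num) 0).hasFDerivAt
  have ho := hd.isLittleO
  rw [Asymptotics.isLittleO_iff] at ho
  have h := ho hδ
  rw [Metric.eventually_nhds_iff] at h
  obtain ⟨ε, hε, h⟩ := h
  refine ⟨ε / 2, by positivity, fun x hx => ?_⟩
  have h' := h (y := x) (by rw [dist_zero_right]; linarith)
  rw [hz1, sub_zero, sub_zero] at h'
  have hL : fderiv ℝ (pd 1 z) 0 x = A01 * x 0 + A11 * x 1 := by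
    have hx' : x = x 0 • EuclideanSpace.single (0 : Fin 2) (1:ℝ) + x 1 • EuclideanSpace.single (1 : Fin 2) (1:ℝ) := by
      ext i; fin_cases i <;> simp
    conv_lhs => rw [hx']
    rw [map_add, map_smul, map_smul]
    have e0 : fderiv ℝ (pd 1 z) 0 (EuclideanSpace.single (0 : Fin 2) (1:ℝ)) = A01 := h01
    have e1 : fderiv ℝ (pd 1 z) 0 (EuclideanSpace.single (1 : Fin 2) (1:ℝ)) = A11 := h11
    rw [e0, e1]; simp [mul_comm]
  rw [hL] at h'
  refine le_trans ?_ h'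
  refine (aux_sum _).trans ?_
  simp

/-- limit of rescaled integrals -/
theorem rhs_limit (A01 A11 : ℝ) (hA : 0 < A11) (Θ : E2 → E2) (hΘc : Continuous Θ)
    (hΘ : ∀ δ > 0, ∃ ρ > 0, ∀ x : E2, ‖x‖ ≤ ρ →
      ‖Θ x - !₂[x 0, A01 * x 0 + A11 * x 1]‖ ≤ δ * ‖x‖)
    (q : E2 → ℝ) (hq : Continuous q) (Λ : E2 → ℂ) (hΛ : Continuous Λ)
    (hΛs : ∀ P, Λ P ≠ 0 → ‖P‖ ≤ 1) :
    ∃ ρ0 > 0, ∀ ρ, 0 < ρ → ρ ≤ ρ0 →
      (∀ a : ℕ, IntegrableOn (fun x : E2 => ((x 1 * q x : ℝ) : ℂ) *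
        (8 ^ a * Λ (((2:ℝ) ^ a) • Θ x))) (ball (0:E2) ρ)) ∧
      ∃ J : ℂ, Filter.Tendsto (fun a : ℕ => ∫ x in ball (0:E2) ρ, ((x 1 * q x : ℝ) : ℂ) *
        (8 ^ a * Λ (((2:ℝ) ^ a) • Θ x))) Filter.atTop (𝓝 J) := by
  obtain ⟨c, C, hc, hC, hcC⟩ := theta0_bounds A01 A11 hA
  obtain ⟨ρ0, hρ0, hρΘ⟩ := hΘ (c / 2) (by positivity)
  refine ⟨ρ0, hρ0, fun ρ hρ hρρ => ?_⟩
  have hcont : ∀ a : ℕ, Continuous (fun x : E2 => ((x 1 * q x : ℝ) : ℂ) *
        (8 ^ a * Λ (((2:ℝ) ^ a) • Θ x))) := fun a => by fun_prop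
  refine ⟨fun a => ((hcont a).continuousOn.integrableOn_compact (isCompact_closedBall 0 ρ)).mono_set ball_subset_closedBall, ?_⟩
  -- lower bound for Θ
  have hlow : ∀ x : E2, ‖x‖ ≤ ρ0 → c / 2 * ‖x‖ ≤ ‖Θ x‖ := by
    intro x hx
    have h1 := hρΘ x hx
    have h2 := (hcC x).1
    have h3 := norm_sub_norm_le (!₂[x 0, A01 * x 0 + A11 * x 1] : E2) (Θ x)
    rw [norm_sub_rev] at h3
    linarith
  -- bounds for q and Λ
  obtain ⟨Q, hQ⟩ := (isCompact_closedBall (0:E2) ρ0).exists_bound_of_continuousOn hq.continuousOn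
  obtain ⟨M, hM⟩ := (isCompact_closedBall (0:E2) 1).exists_bound_of_continuousOn hΛ.continuousOn
  have hM' : ∀ P, ‖Λ P‖ ≤ M := by
    intro P
    by_cases hP : Λ P = 0
    · rw [hP, norm_zero]
      exact (norm_nonneg _).trans (hM 0 (by simp))
    · exact hM P (by simpa using hΛs P hP)
  have hQ0 : 0 ≤ Q := (norm_nonneg _).trans (hQ 0 (by simp [hρ0.le]))
  have hM0 : 0 ≤ M := (norm_nonneg _).trans (hM' 0)
  -- rescaled integrand
  set G : ℕ → E2 → ℂ := fun a y => Set.indicator (ball (0:E2) ρ) (fun x => ((y 1 * q x : ℝ) : ℂ) *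
    Λ (((2:ℝ) ^ a) • Θ x)) (((2:ℝ) ^ a)⁻¹ • y) with hG
  have hint : ∀ a : ℕ, ∫ x in ball (0:E2) ρ, ((x 1 * q x : ℝ) : ℂ) *
        (8 ^ a * Λ (((2:ℝ) ^ a) • Θ x)) = ∫ y, G a y := by
    intro a
    rw [← integral_indicator measurableSet_ball]
    have h1 := Measure.integral_comp_smul (volume : Measure E2) (Set.indicator (ball (0:E2) ρ) (fun x : E2 => ((x 1 * q x : ℝ) : ℂ) *
        (8 ^ a * Λ (((2:ℝ) ^ a) • Θ x)))) (((2:ℝ) ^ a)⁻¹)
    have hfr : Module.finrank ℝ E2 = 2 := by simp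
    rw [hfr] at h1
    have e1 : |(((2:ℝ) ^ a)⁻¹ ^ 2)⁻¹| = (4:ℝ) ^ a := by
      rw [inv_pow, inv_inv, abs_of_pos (by positivity), ← pow_mul, mul_comm, pow_mul]; norm_num
    rw [e1] at h1
    have h2 : ∫ x, (Set.indicator (ball (0:E2) ρ) (fun x : E2 => ((x 1 * q x : ℝ) : ℂ) *
        (8 ^ a * Λ (((2:ℝ) ^ a) • Θ x)))) x = ((4:ℝ) ^ a)⁻¹ • ∫ x, (Set.indicator (ball (0:E2) ρ) (fun x : E2 => ((x 1 * q x : ℝ) : ℂ) *
        (8 ^ a * Λ (((2:ℝ) ^ a) • Θ x)))) (((2:ℝ) ^ a)⁻¹ • x) := by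
      rw [h1, smul_smul, inv_mul_cancel₀ (by positivity), one_smul]
    rw [h2, ← integral_smul]
    refine integral_congr_ae (Filter.Eventually.of_forall fun y => ?_)
    simp only [hG, Set.indicator]
    split_ifs
    · simp only [PiLp.smul_apply, smul_eq_mul, Complex.real_smul]
      push_cast
      have e8 : (8:ℂ) ^ a = 4 ^ a * 2 ^ a := by rw [← mul_pow]; norm_num
      rw [e8]
      have h4 : (4:ℂ) ^ a ≠ 0 := pow_ne_zero _ (by norm_num)
      have h22 : (2:ℂ) ^ a ≠ 0 := pow_ne_zero _ (by norm_num)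
      field_simp
    · simp
  simp_rw [hint]
  refine ⟨∫ y : E2, ((y 1 * q 0 : ℝ) : ℂ) * Λ (!₂[y 0, A01 * y 0 + A11 * y 1]), ?_⟩
  refine tendsto_integral_of_dominated_convergence
    (fun y => Set.indicator (closedBall (0:E2) (2 / c)) (fun _ => 2 / c * Q * M) y) ?_ ?_ ?_ ?_
  · intro a
    have : G a = Set.indicator ((fun y : E2 => ((2:ℝ) ^ a)⁻¹ • y) ⁻¹' ball (0:E2) ρ) (fun y : E2 => ((y 1 * q (((2:ℝ) ^ a)⁻¹ • y) : ℝ) : ℂ) *
        Λ (((2:ℝ) ^ a) • Θ (((2:ℝ) ^ a)⁻¹ • y))) := by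
      funext y
      simp only [hG, Set.indicator]
      rfl
    rw [this]
    refine AEStronglyMeasurable.indicator (Continuous.aestronglyMeasurable (by fun_prop)) ?_
    exact measurableSet_ball.preimage (by fun_prop)
  · rw [integrable_indicator_iff measurableSet_closedBall]
    exact integrableOn_const (by exact (isCompact_closedBall (0:E2) (2/c)).measure_lt_top.ne)
  · intro a
    refine Filter.Eventually.of_forall fun y => ?_
    have h2a : (0:ℝ) < 2 ^ a := by positivity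
    by_cases hx : ((2:ℝ) ^ a)⁻¹ • y ∈ ball (0:E2) ρ
    · have hGe : G a y = ((y 1 * q (((2:ℝ) ^ a)⁻¹ • y) : ℝ) : ℂ) *
        Λ (((2:ℝ) ^ a) • Θ (((2:ℝ) ^ a)⁻¹ • y)) := by
        simp only [hG, Set.indicator, if_pos hx]
      have hx' : ‖((2:ℝ) ^ a)⁻¹ • y‖ ≤ ρ0 := by
        have := mem_ball_zero_iff.1 hx; linarith
      by_cases hL : Λ (((2:ℝ) ^ a) • Θ (((2:ℝ) ^ a)⁻¹ • y)) = 0
      · rw [hGe, hL, mul_zero, norm_zero]
        exact Set.indicator_nonneg (fun _ _ => by positivity) _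
      · have h1 := hΛs _ hL
        have h2 := hlow _ hx'
        rw [norm_smul, Real.norm_eq_abs, abs_of_pos h2a] at h1
        rw [norm_smul, Real.norm_eq_abs, abs_of_pos (inv_pos.2 h2a)] at h2
        have h3 : c / 2 * ‖y‖ ≤ 1 := by
          have : c / 2 * ‖y‖ = 2 ^ a * (c / 2 * (((2:ℝ) ^ a)⁻¹ * ‖y‖)) := by field_simp
          rw [this]
          exact (mul_le_mul_of_nonneg_left h2 h2a.le).trans h1
        have h4 : ‖y‖ ≤ 2 / c := by
          rw [le_div_iff₀ hc]; linarith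
        rw [Set.indicator_of_mem (by simpa using h4), hGe, norm_mul, Complex.norm_real, norm_mul]
        have h5 : ‖y 1‖ ≤ 2 / c := (aux_coord y 1).trans h4
        have h6 := hQ (((2:ℝ) ^ a)⁻¹ • y) (by simpa using hx')
        exact mul_le_mul (mul_le_mul h5 h6 (norm_nonneg _) (by positivity)) (hM' _) (norm_nonneg _) (by positivity)
    · have hGe : G a y = 0 := by
        simp only [hG, Set.indicator, if_neg hx]
      rw [hGe, norm_zero]
      exact Set.indicator_nonneg (fun _ _ => by positivity) _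
  · refine Filter.Eventually.of_forall fun y => ?_
    have hr : Filter.Tendsto (fun a : ℕ => ((2:ℝ) ^ a)⁻¹ • y) Filter.atTop (𝓝 0) := by
      have h1 : Filter.Tendsto (fun a : ℕ => ((2:ℝ) ^ a)⁻¹) Filter.atTop (𝓝 0) := by
        have := tendsto_pow_atTop_nhds_zero_of_lt_one (r := (2:ℝ)⁻¹) (by norm_num) (by norm_num)
        simpa [inv_pow] using this
      have := h1.smul_const y
      simpa using this
    have hev : ∀ ε > 0, ∀ᶠ a : ℕ in Filter.atTop, ‖((2:ℝ) ^ a)⁻¹ • y‖ < ε := by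
      intro ε hε
      have := (Metric.tendsto_nhds.1 hr) ε hε
      simpa [dist_zero_right] using this
    have hΘl : Filter.Tendsto (fun a : ℕ => ((2:ℝ) ^ a) • Θ (((2:ℝ) ^ a)⁻¹ • y)) Filter.atTop
        (𝓝 (!₂[y 0, A01 * y 0 + A11 * y 1] : E2)) := by
      rw [Metric.tendsto_nhds]
      intro ε hε
      obtain ⟨r, hr0, hrr⟩ := hΘ (ε / (‖y‖ + 1)) (by positivity)
      filter_upwards [hev r hr0] with a ha
      have h2a : (0:ℝ) < 2 ^ a := by positivity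
      have h1 := hrr _ ha.le
      have e : (2:ℝ) ^ a • Θ (((2:ℝ) ^ a)⁻¹ • y) - (!₂[y 0, A01 * y 0 + A11 * y 1] : E2)
          = (2:ℝ) ^ a • (Θ (((2:ℝ) ^ a)⁻¹ • y) - !₂[(((2:ℝ) ^ a)⁻¹ • y) 0, A01 * (((2:ℝ) ^ a)⁻¹ • y) 0 + A11 * (((2:ℝ) ^ a)⁻¹ • y) 1]) := by
        rw [smul_sub]
        congr 1
        ext i
        fin_cases i
        · simp
        · simp; field_simp
      rw [dist_eq_norm, e, norm_smul, Real.norm_eq_abs, abs_of_pos h2a]
      calc _ ≤ 2 ^ a * (ε / (‖y‖ + 1) * ‖((2:ℝ) ^ a)⁻¹ • y‖) := mul_le_mul_of_nonneg_left h1 h2a.le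
        _ = ε * (‖y‖ / (‖y‖ + 1)) := by
          rw [norm_smul, Real.norm_eq_abs, abs_of_pos (inv_pos.2 h2a)]; field_simp
        _ < ε * 1 := by
          refine mul_lt_mul_of_pos_left ?_ hε
          rw [div_lt_one (by positivity)]; linarith
        _ = ε := mul_one _
    have hql : Filter.Tendsto (fun a : ℕ => q (((2:ℝ) ^ a)⁻¹ • y)) Filter.atTop (𝓝 (q 0)) :=
      (hq.tendsto 0).comp hr
    have hlim : Filter.Tendsto (fun a : ℕ => ((y 1 * q (((2:ℝ) ^ a)⁻¹ • y) : ℝ) : ℂ) *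
        Λ (((2:ℝ) ^ a) • Θ (((2:ℝ) ^ a)⁻¹ • y))) Filter.atTop
        (𝓝 (((y 1 * q 0 : ℝ) : ℂ) * Λ (!₂[y 0, A01 * y 0 + A11 * y 1]))) := by
      refine Filter.Tendsto.mul ?_ ((hΛ.tendsto _).comp hΘl)
      exact (Complex.continuous_ofReal.tendsto _).comp (hql.const_mul (y 1))
    refine hlim.congr' ?_
    filter_upwards [hev ρ hρ] with a ha
    have hx : ((2:ℝ) ^ a)⁻¹ • y ∈ ball (0:E2) ρ := by simpa using ha
    simp only [hG, Set.indicator, if_pos hx]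


end J10241
end H575Germ
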