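import Pool.Agent.Helper575.Germ.Defs

open scoped RealInnerProductSpace Topology ContDiff
open MeasureTheory Metric

namespace H575Germ
namespace J10242



lemma nb_preimage_aux (g : ℝ → ℝ) (s : Set ℝ) :
    (norm ⁻¹' s).indicator (fun x : E2 => g ‖x‖) = fun x : E2 => (s.indicator g) ‖x‖ := by
  funext x
  by_cases hx : ‖x‖ ∈ s
  · have hx' : x ∈ (norm ⁻¹' s : Set E2) := hx
    rw [Set.indicator_of_mem hx', Set.indicator_of_mem hx]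
  · have hx' : x ∉ (norm ⁻¹' s : Set E2) := hx
    rw [Set.indicator_of_notMem hx', Set.indicator_of_notMem hx]

lemma nb_fun_aux (g : ℝ → ℝ) (s : Set ℝ) :
    (fun y : ℝ => y ^ (Module.finrank ℝ E2 - 1) • s.indicator g y) =
      s.indicator (fun y => y * g y) := by
  funext y
  by_cases hy : y ∈ s
  · simp [hy, E2]
  · simp [hy, E2]

lemma polar_int (g : ℝ → ℝ) (s : Set ℝ) (hs : MeasurableSet s) :
    IntegrableOn (fun x : E2 => g ‖x‖) (norm ⁻¹' s) ↔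
      IntegrableOn (fun y : ℝ => y * g y) (s ∩ Set.Ioi 0) := by
  rw [← integrable_indicator_iff (hs.preimage measurable_norm), nb_preimage_aux,
    integrable_fun_norm_addHaar (μ := (volume : Measure E2)), nb_fun_aux, IntegrableOn,
    integrable_indicator_iff hs, IntegrableOn, Measure.restrict_restrict hs, IntegrableOn]

lemma polar_eq (g : ℝ → ℝ) (s : Set ℝ) (hs : MeasurableSet s) :
    ∫ x in norm ⁻¹' s, g ‖(x : E2)‖ = 2 * Real.pi * ∫ y in s ∩ Set.Ioi 0, y * g y := by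
  rw [← integral_indicator (hs.preimage measurable_norm), nb_preimage_aux,
    integral_fun_norm_addHaar (μ := (volume : Measure E2)), nb_fun_aux, integral_indicator hs,
    Measure.restrict_restrict hs]
  have h1 : (volume : Measure E2).real (ball 0 1) = Real.pi := by
    rw [Measure.real, EuclideanSpace.volume_ball_fin_two]
    simp [Real.pi_pos.le]
  rw [h1]
  simp [E2, mul_assoc]

theorem shell_log (a b : ℕ) (h : a ≤ b) :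
    IntegrableOn (fun x : E2 => (‖x‖ ^ 2)⁻¹)
      {x : E2 | ((2:ℝ) ^ b)⁻¹ ≤ ‖x‖ ∧ ‖x‖ ≤ ((2:ℝ) ^ a)⁻¹} ∧
    ∫ x in {x : E2 | ((2:ℝ) ^ b)⁻¹ ≤ ‖x‖ ∧ ‖x‖ ≤ ((2:ℝ) ^ a)⁻¹}, (‖x‖ ^ 2)⁻¹
      ≤ 16 * ((b : ℝ) - a + 1) := by
  have hset : {x : E2 | ((2:ℝ) ^ b)⁻¹ ≤ ‖x‖ ∧ ‖x‖ ≤ ((2:ℝ) ^ a)⁻¹} =
      norm ⁻¹' (Set.Icc ((2:ℝ) ^ b)⁻¹ ((2:ℝ) ^ a)⁻¹) := rfl
  have hpos : (0:ℝ) < ((2:ℝ) ^ b)⁻¹ := by positivity
  have hposa : (0:ℝ) < ((2:ℝ) ^ a)⁻¹ := by positivity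
  have hle : ((2:ℝ) ^ b)⁻¹ ≤ ((2:ℝ) ^ a)⁻¹ := by
    apply inv_anti₀ (by positivity)
    exact pow_le_pow_right₀ (by norm_num) h
  have hinter : Set.Icc ((2:ℝ) ^ b)⁻¹ ((2:ℝ) ^ a)⁻¹ ∩ Set.Ioi 0 =
      Set.Icc ((2:ℝ) ^ b)⁻¹ ((2:ℝ) ^ a)⁻¹ := by
    apply Set.inter_eq_left.2
    intro y hy
    exact lt_of_lt_of_le hpos hy.1
  have hcongr : Set.EqOn (fun y : ℝ => y * (y ^ 2)⁻¹) (fun y => y⁻¹)
      (Set.Icc ((2:ℝ) ^ b)⁻¹ ((2:ℝ) ^ a)⁻¹) := by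
    intro y hy
    have hy0 : y ≠ 0 := (lt_of_lt_of_le hpos hy.1).ne'
    show y * (y ^ 2)⁻¹ = y⁻¹
    field_simp
  rw [hset]
  constructor
  · rw [polar_int (fun y => (y ^ 2)⁻¹) _ measurableSet_Icc, hinter,
      integrableOn_congr_fun hcongr measurableSet_Icc]
    apply ContinuousOn.integrableOn_Icc
    intro y hy
    have hy0 : y ≠ 0 := (lt_of_lt_of_le hpos hy.1).ne'
    exact (continuousAt_inv₀ hy0).continuousWithinAt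
  · rw [polar_eq (fun y => (y ^ 2)⁻¹) _ measurableSet_Icc, hinter,
      setIntegral_congr_fun measurableSet_Icc hcongr, integral_Icc_eq_integral_Ioc,
      ← intervalIntegral.integral_of_le hle, integral_inv_of_pos hpos hposa]
    have h1 : Real.log (((2:ℝ) ^ a)⁻¹ / ((2:ℝ) ^ b)⁻¹) = ((b:ℝ) - a) * Real.log 2 := by
      rw [Real.log_div hposa.ne' hpos.ne', Real.log_inv, Real.log_inv, Real.log_pow, Real.log_pow]
      ring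
    rw [h1]
    have h2 : Real.log 2 ≤ 1 := by
      have := Real.log_two_lt_d9
      linarith
    have h3 : Real.pi ≤ 4 := Real.pi_le_four
    have h4 : (0:ℝ) ≤ (b:ℝ) - a := by
      have : (a:ℝ) ≤ b := by exact_mod_cast h
      linarith
    have h5 : 0 ≤ Real.log 2 := Real.log_nonneg (by norm_num)
    have h6 : ((b:ℝ) - a) * Real.log 2 ≤ (b:ℝ) - a := by
      nlinarith
    have h7 : 0 ≤ ((b:ℝ) - a) * Real.log 2 := mul_nonneg h4 h5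
    have h8 : Real.pi * (((b:ℝ) - a) * Real.log 2) ≤ 4 * ((b:ℝ) - a) := by
      apply mul_le_mul h3 h6 h7 (by norm_num)
    nlinarith

theorem disc_lin (R : ℝ) (hR : 0 < R) :
    IntegrableOn (fun x : E2 => ‖x‖⁻¹) (closedBall (0:E2) R) ∧
    ∫ x in closedBall (0:E2) R, ‖x‖⁻¹ ≤ 32 * R := by
  have hset : closedBall (0:E2) R = norm ⁻¹' (Set.Iic R) := by
    ext x
    simp
  have hinter : Set.Iic R ∩ Set.Ioi 0 = Set.Ioc 0 R := by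
    ext y
    simp [and_comm]
  have hcongr : Set.EqOn (fun y : ℝ => y * y⁻¹) (fun _ => (1:ℝ)) (Set.Ioc 0 R) := by
    intro y hy
    exact mul_inv_cancel₀ hy.1.ne'
  rw [hset]
  constructor
  · rw [polar_int (fun y => y⁻¹) _ measurableSet_Iic, hinter,
      integrableOn_congr_fun hcongr measurableSet_Ioc]
    simp
  · rw [polar_eq (fun y => y⁻¹) _ measurableSet_Iic, hinter,
      setIntegral_congr_fun measurableSet_Ioc hcongr]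
    have h1 : ∫ _y in Set.Ioc (0:ℝ) R, (1:ℝ) = R := by
      simp [hR.le]
    rw [h1]
    have h3 : Real.pi ≤ 4 := Real.pi_le_four
    nlinarith

lemma two_pow_pred (m : ℕ) : (2:ℝ) ^ (2 ^ m) = 2 * (2:ℝ) ^ (2 ^ m - 1) := by
  have h1 : 2 ^ m = (2 ^ m - 1) + 1 := by
    have : 0 < 2 ^ m := by positivity
    omega
  conv_lhs => rw [h1]
  rw [pow_succ]
  ring

/-- the bound of one integral -/
lemma block_bound (M : ℝ) (hM : 0 ≤ M) (m : ℕ) (f : E2 → ℂ) (ρ : ℝ)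
    (h1 : ∀ x ∈ ball (0:E2) ρ, f x ≠ 0 → Ann m x ∧
      ‖f x‖ ≤ M * (‖x‖⁻¹ + ((2:ℝ) ^ (2 * m))⁻¹ * (‖x‖ ^ 2)⁻¹)) :
    ‖∫ x in ball (0:E2) ρ, f x‖ ≤ 112 * M * (1 / 2) ^ m := by
  set S : Set E2 := {x : E2 | ((2:ℝ) ^ (2 ^ (m + 1)))⁻¹ ≤ ‖x‖ ∧ ‖x‖ ≤ ((2:ℝ) ^ (2 ^ m - 1))⁻¹}
    with hS
  set D : Set E2 := closedBall (0:E2) (2 * ((2:ℝ) ^ (2 ^ m))⁻¹) with hD
  have hSm : MeasurableSet S := by
    have : S = norm ⁻¹' (Set.Icc ((2:ℝ) ^ (2 ^ (m + 1)))⁻¹ ((2:ℝ) ^ (2 ^ m - 1))⁻¹) := rfl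
    rw [this]
    exact measurableSet_Icc.preimage measurable_norm
  have hDm : MeasurableSet D := measurableSet_closedBall
  have hle : 2 ^ m - 1 ≤ 2 ^ (m + 1) := by
    have : 2 ^ m ≤ 2 ^ (m + 1) := Nat.pow_le_pow_right (by norm_num) (by omega)
    omega
  obtain ⟨hs1, hs2⟩ := shell_log (2 ^ m - 1) (2 ^ (m + 1)) hle
  obtain ⟨hd1, hd2⟩ := disc_lin (2 * ((2:ℝ) ^ (2 ^ m))⁻¹) (by positivity)
  set H : E2 → ℝ := fun x => M * (D.indicator (fun x : E2 => ‖x‖⁻¹) x +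
    ((2:ℝ) ^ (2 * m))⁻¹ * S.indicator (fun x : E2 => (‖x‖ ^ 2)⁻¹) x) with hH
  have hi1 : Integrable (D.indicator (fun x : E2 => ‖x‖⁻¹)) :=
    (integrable_indicator_iff hDm).2 hd1
  have hi2 : Integrable (S.indicator (fun x : E2 => (‖x‖ ^ 2)⁻¹)) :=
    (integrable_indicator_iff hSm).2 hs1
  have hHi : Integrable H := (hi1.add (hi2.const_mul _)).const_mul _
  have hH0 : ∀ x, 0 ≤ H x := by
    intro x
    refine mul_nonneg hM (add_nonneg ?_ (mul_nonneg (by positivity) ?_))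
    · exact Set.indicator_nonneg (fun x _ => by positivity) x
    · exact Set.indicator_nonneg (fun x _ => by positivity) x
  have hbd : ∀ x ∈ ball (0:E2) ρ, ‖f x‖ ≤ H x := by
    intro x hx
    by_cases hf : f x = 0
    · rw [hf, norm_zero]
      exact hH0 x
    · obtain ⟨hA, hb⟩ := h1 x hx hf
      have hxS : x ∈ S := by
        refine ⟨?_, ?_⟩
        · refine le_trans ?_ hA.1
          have : (0:ℝ) < ((2:ℝ) ^ (2 ^ (m + 1)))⁻¹ := by positivity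
          linarith
        · refine hA.2.trans (le_of_eq ?_)
          rw [two_pow_pred, mul_inv]
          ring
      have hxD : x ∈ D := by
        rw [hD, mem_closedBall_zero_iff]
        exact hA.2
      rw [hH]
      simp only [Set.indicator_of_mem hxS, Set.indicator_of_mem hxD]
      exact hb
  have h2 : ‖∫ x in ball (0:E2) ρ, f x‖ ≤ ∫ x in ball (0:E2) ρ, H x := by
    apply norm_integral_le_of_norm_le hHi.integrableOn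
    exact ae_restrict_of_forall_mem measurableSet_ball hbd
  have h3 : ∫ x in ball (0:E2) ρ, H x ≤ ∫ x, H x :=
    setIntegral_le_integral hHi (Filter.Eventually.of_forall hH0)
  have h4 : ∫ x, H x = M * ((∫ x in D, ‖x‖⁻¹) +
      ((2:ℝ) ^ (2 * m))⁻¹ * ∫ x in S, (‖x‖ ^ 2)⁻¹) := by
    rw [hH, integral_const_mul, integral_add hi1 (hi2.const_mul _), integral_const_mul,
      integral_indicator hDm, integral_indicator hSm]
  have h5 : ((2 ^ (m + 1) : ℕ) : ℝ) - ((2 ^ m - 1 : ℕ) : ℝ) + 1 = (2:ℝ) ^ m + 2 := by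
    have : 1 ≤ 2 ^ m := Nat.one_le_two_pow
    push_cast [Nat.cast_sub this]
    ring
  rw [h5] at hs2
  have h6 : ((2:ℝ) ^ (2 ^ m))⁻¹ ≤ (1 / 2) ^ m := by
    rw [one_div, inv_pow]
    apply inv_anti₀ (by positivity)
    exact pow_le_pow_right₀ (by norm_num) (Nat.lt_two_pow_self).le
  have h7 : ((2:ℝ) ^ (2 * m))⁻¹ * ((2:ℝ) ^ m + 2) ≤ 3 * (1 / 2) ^ m := by
    have h8 : (1:ℝ) ≤ 2 ^ m := one_le_pow₀ (by norm_num)
    have h9 : ((2:ℝ) ^ (2 * m))⁻¹ = (1 / 2) ^ m * ((2:ℝ) ^ m)⁻¹ := by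
      rw [two_mul, pow_add, mul_inv, one_div, inv_pow]
    rw [h9, mul_assoc, mul_comm (3:ℝ)]
    apply mul_le_mul_of_nonneg_left _ (by positivity)
    rw [inv_mul_le_iff₀ (by positivity)]
    linarith
  have h10 : 0 ≤ ((2:ℝ) ^ (2 * m))⁻¹ := by positivity
  calc ‖∫ x in ball (0:E2) ρ, f x‖ ≤ ∫ x in ball (0:E2) ρ, H x := h2
    _ ≤ ∫ x, H x := h3
    _ = M * ((∫ x in D, ‖x‖⁻¹) + ((2:ℝ) ^ (2 * m))⁻¹ * ∫ x in S, (‖x‖ ^ 2)⁻¹) := h4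
    _ ≤ M * (32 * (2 * ((2:ℝ) ^ (2 ^ m))⁻¹) +
        ((2:ℝ) ^ (2 * m))⁻¹ * (16 * ((2:ℝ) ^ m + 2))) := by
      gcongr
    _ ≤ M * (32 * (2 * (1 / 2) ^ m) + 16 * (3 * (1 / 2) ^ m)) := by
      apply mul_le_mul_of_nonneg_left _ hM
      have : ((2:ℝ) ^ (2 * m))⁻¹ * (16 * ((2:ℝ) ^ m + 2)) =
        16 * (((2:ℝ) ^ (2 * m))⁻¹ * ((2:ℝ) ^ m + 2)) := by ring
      rw [this]
      linarith
    _ = 112 * M * (1 / 2) ^ m := by ring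

lemma coord_le (x : E2) (i : Fin 2) : |x i| ≤ ‖x‖ := by
  have := PiLp.norm_apply_le x i
  simpa using this

lemma norm_le_coords (x : E2) : ‖x‖ ≤ |x 0| + |x 1| := by
  rw [EuclideanSpace.norm_eq, Fin.sum_univ_two]
  apply Real.sqrt_le_iff.2
  refine ⟨by positivity, ?_⟩
  simp only [Real.norm_eq_abs]
  nlinarith [abs_nonneg (x 0), abs_nonneg (x 1)]

lemma lin_bounds (A01 A11 : ℝ) (hA : 0 < A11) :
    ∃ c C : ℝ, 0 < c ∧ 0 < C ∧ ∀ x : E2, c * ‖x‖ ≤ ‖(!₂[x 0, A01 * x 0 + A11 * x 1] : E2)‖ ∧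
      ‖(!₂[x 0, A01 * x 0 + A11 * x 1] : E2)‖ ≤ C * ‖x‖ := by
  refine ⟨(1 + (1 + |A01|) / A11)⁻¹, 1 + |A01| + A11, by positivity, by positivity, fun x => ?_⟩
  set y : E2 := !₂[x 0, A01 * x 0 + A11 * x 1] with hy
  have hy0 : y 0 = x 0 := by simp [hy]
  have hy1 : y 1 = A01 * x 0 + A11 * x 1 := by simp [hy]
  have h0 : |x 0| ≤ ‖y‖ := by rw [← hy0]; exact coord_le y 0
  have h1 : |A01 * x 0 + A11 * x 1| ≤ ‖y‖ := by rw [← hy1]; exact coord_le y 1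
  constructor
  · rw [inv_mul_le_iff₀ (by positivity)]
    have h2 : A11 * |x 1| ≤ (1 + |A01|) * ‖y‖ := by
      calc A11 * |x 1| = |(A01 * x 0 + A11 * x 1) - A01 * x 0| := by
            rw [add_sub_cancel_left, abs_mul, abs_of_pos hA]
        _ ≤ |A01 * x 0 + A11 * x 1| + |A01 * x 0| := abs_sub _ _
        _ = |A01 * x 0 + A11 * x 1| + |A01| * |x 0| := by rw [abs_mul]
        _ ≤ ‖y‖ + |A01| * ‖y‖ := by gcongr
        _ = _ := by ring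
    have h3 : |x 1| ≤ (1 + |A01|) / A11 * ‖y‖ := by
      rw [div_mul_eq_mul_div, le_div_iff₀ hA]
      linarith
    calc ‖x‖ ≤ |x 0| + |x 1| := norm_le_coords x
      _ ≤ ‖y‖ + (1 + |A01|) / A11 * ‖y‖ := by linarith
      _ = _ := by ring
  · calc ‖y‖ ≤ |y 0| + |y 1| := norm_le_coords y
      _ = |x 0| + |A01 * x 0 + A11 * x 1| := by rw [hy0, hy1]
      _ ≤ |x 0| + (|A01 * x 0| + |A11 * x 1|) := by gcongr; exact abs_add_le _ _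
      _ = |x 0| + (|A01| * |x 0| + A11 * |x 1|) := by rw [abs_mul, abs_mul, abs_of_pos hA]
      _ ≤ ‖x‖ + (|A01| * ‖x‖ + A11 * ‖x‖) := by
        gcongr
        · exact coord_le x 0
        · exact coord_le x 0
        · exact coord_le x 1
      _ = _ := by ring

/-- the error term tends to zero -/
theorem error_limit (A01 A11 : ℝ) (hA : 0 < A11) (Θ : E2 → E2) (hΘc : Continuous Θ)
    (hΘ : ∀ δ > 0, ∃ ρ > 0, ∀ x : E2, ‖x‖ ≤ ρ →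
      ‖Θ x - !₂[x 0, A01 * x 0 + A11 * x 1]‖ ≤ δ * ‖x‖)
    (E : ℕ → E2 → ℝ) (hE : ∀ m, Continuous (E m)) (K r : ℝ) (hr : 0 < r)
    (hmain : ∀ (m : ℕ) (x : E2), ‖x‖ < r → Ann m x →
      |E m x| ≤ K * (‖x‖ + ((2:ℝ) ^ (2 * m))⁻¹))
    (F : ℕ → ℕ → E2 → ℂ) (C1 : ℝ) (hFc : ∀ a b, a < b → Continuous (F a b))
    (hFs : ∀ a b, a < b → ∀ P, F a b P ≠ 0 →
      (3 / 4) * ((2:ℝ) ^ b)⁻¹ ≤ ‖P‖ ∧ ‖P‖ ≤ ((2:ℝ) ^ a)⁻¹)
    (hFb : ∀ a b, a < b → ∀ P, ‖F a b P‖ * ‖P‖ ^ 2 ≤ C1) :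
    ∃ n1 : ℕ, ∀ n0 : ℕ, n1 ≤ n0 → ∃ ρ0 > 0, ∀ ρ, 0 < ρ → ρ ≤ ρ0 →
      Filter.Tendsto (fun m : ℕ => ∫ x in ball (0:E2) ρ, ((E m x : ℝ) : ℂ) *
        F (2 ^ m + n0) (2 ^ (m + 1) - n0) (Θ x)) Filter.atTop (𝓝 0) := by
  obtain ⟨c, C, hc, hC, hL⟩ := lin_bounds A01 A11 hA
  obtain ⟨ρ1, hρ1, hΘ1⟩ := hΘ (c / 2) (by positivity)
  have hΘ2 : ∀ x : E2, ‖x‖ ≤ ρ1 → c / 2 * ‖x‖ ≤ ‖Θ x‖ ∧ ‖Θ x‖ ≤ (C + c / 2) * ‖x‖ := by
    intro x hx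
    have h1 := hΘ1 x hx
    obtain ⟨h2, h3⟩ := hL x
    have h4 := norm_sub_norm_le (!₂[x 0, A01 * x 0 + A11 * x 1] : E2) (Θ x)
    have h5 := norm_sub_norm_le (Θ x) (!₂[x 0, A01 * x 0 + A11 * x 1] : E2)
    rw [norm_sub_rev] at h4
    constructor
    · linarith
    · linarith
  obtain ⟨n2, hn2⟩ := exists_pow_lt_of_lt_one hc (by norm_num : (1 / 2 : ℝ) < 1)
  obtain ⟨n3, hn3⟩ := pow_unbounded_of_one_lt (2 * (C + c / 2)) (by norm_num : (1:ℝ) < 2)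
  refine ⟨max n2 n3, fun n0 hn0 => ⟨min ρ1 r, lt_min hρ1 hr, fun ρ hρ hρ0 => ?_⟩⟩
  have hn2' : ((2:ℝ) ^ n0)⁻¹ ≤ c := by
    refine le_trans ?_ hn2.le
    rw [one_div, inv_pow]
    apply inv_anti₀ (by positivity)
    exact pow_le_pow_right₀ (by norm_num) ((le_max_left _ _).trans hn0)
  have hn3' : 2 * (C + c / 2) ≤ (2:ℝ) ^ n0 := by
    refine hn3.le.trans ?_
    exact pow_le_pow_right₀ (by norm_num) ((le_max_right _ _).trans hn0)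
  set M : ℝ := |K| * |C1| * (4 / c ^ 2) with hM
  have hM0 : 0 ≤ M := by positivity
  have hlim : Filter.Tendsto (fun m : ℕ => 112 * M * (1 / 2 : ℝ) ^ m) Filter.atTop (𝓝 0) := by
    have := (tendsto_pow_atTop_nhds_zero_of_lt_one (r := (1 / 2 : ℝ)) (by norm_num)
      (by norm_num)).const_mul (112 * M)
    simpa using this
  refine squeeze_zero_norm' ?_ hlim
  filter_upwards [Filter.eventually_ge_atTop (2 * n0 + 1)] with m hm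
  have hm2 : m < 2 ^ m := Nat.lt_two_pow_self
  have hab : 2 ^ m + n0 < 2 ^ (m + 1) - n0 := by
    rw [pow_succ]
    omega
  have hbn : (2 ^ (m + 1) - n0) + n0 = 2 ^ (m + 1) := by
    rw [pow_succ] at *
    omega
  apply block_bound M hM0 m
  intro x hx hf
  have hx' : ‖x‖ < ρ := by simpa using hx
  have hxr : ‖x‖ < r := hx'.trans_le (hρ0.trans (min_le_right _ _))
  have hxρ : ‖x‖ ≤ ρ1 := hx'.le.trans (hρ0.trans (min_le_left _ _))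
  obtain ⟨hT1, hT2⟩ := hΘ2 x hxρ
  have hF0 : F (2 ^ m + n0) (2 ^ (m + 1) - n0) (Θ x) ≠ 0 := right_ne_zero_of_mul hf
  obtain ⟨hs1, hs2⟩ := hFs _ _ hab _ hF0
  have hx2 : ‖x‖ ≤ 2 * ((2:ℝ) ^ (2 ^ m))⁻¹ := by
    have h1 : c / 2 * ‖x‖ ≤ ((2:ℝ) ^ (2 ^ m))⁻¹ * ((2:ℝ) ^ n0)⁻¹ := by
      rw [← mul_inv, ← pow_add]
      exact hT1.trans hs2
    have h2 : ((2:ℝ) ^ (2 ^ m))⁻¹ * ((2:ℝ) ^ n0)⁻¹ ≤ ((2:ℝ) ^ (2 ^ m))⁻¹ * c := by gcongr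
    have h3 : c * ‖x‖ ≤ c * (2 * ((2:ℝ) ^ (2 ^ m))⁻¹) := by linarith
    exact le_of_mul_le_mul_left h3 hc
  have hx1 : (3 / 2) * ((2:ℝ) ^ (2 ^ (m + 1)))⁻¹ ≤ ‖x‖ := by
    have h1 : (3 / 4) * ((2:ℝ) ^ (2 ^ (m + 1) - n0))⁻¹ ≤ (C + c / 2) * ‖x‖ := hs1.trans hT2
    have h2 : ((2:ℝ) ^ (2 ^ (m + 1) - n0))⁻¹ = (2:ℝ) ^ n0 * ((2:ℝ) ^ (2 ^ (m + 1)))⁻¹ := by
      conv_rhs => rw [← hbn, pow_add]
      field_simp
    rw [h2] at h1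
    have h3 : (3 / 4) * (2 * (C + c / 2) * ((2:ℝ) ^ (2 ^ (m + 1)))⁻¹) ≤ (C + c / 2) * ‖x‖ := by
      refine le_trans ?_ h1
      gcongr
    have h4 : (C + c / 2) * ((3 / 2) * ((2:ℝ) ^ (2 ^ (m + 1)))⁻¹) ≤ (C + c / 2) * ‖x‖ := by
      linarith
    exact le_of_mul_le_mul_left h4 (by positivity)
  have hAnn : Ann m x := ⟨hx1, hx2⟩
  refine ⟨hAnn, ?_⟩
  have hxpos : 0 < ‖x‖ := lt_of_lt_of_le (by positivity) hx1
  have hEb := hmain m x hxr hAnn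
  have hFb1 := hFb _ _ hab (Θ x)
  have hTpos : 0 < c / 2 * ‖x‖ := by positivity
  have hFb2 : ‖F (2 ^ m + n0) (2 ^ (m + 1) - n0) (Θ x)‖ ≤ |C1| * (4 / c ^ 2) * (‖x‖ ^ 2)⁻¹ := by
    have h1 : ‖F (2 ^ m + n0) (2 ^ (m + 1) - n0) (Θ x)‖ * (c / 2 * ‖x‖) ^ 2 ≤ |C1| := by
      refine le_trans ?_ (hFb1.trans (le_abs_self C1))
      gcongr
    have h2 : |C1| * (4 / c ^ 2) * (‖x‖ ^ 2)⁻¹ = |C1| / (c / 2 * ‖x‖) ^ 2 := by
      field_simp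
      try norm_num
    rw [h2, le_div_iff₀ (by positivity)]
    exact h1
  have hEb2 : |E m x| ≤ |K| * (‖x‖ + ((2:ℝ) ^ (2 * m))⁻¹) := by
    refine hEb.trans ?_
    gcongr
    exact le_abs_self K
  rw [norm_mul, Complex.norm_real, Real.norm_eq_abs]
  calc |E m x| * ‖F (2 ^ m + n0) (2 ^ (m + 1) - n0) (Θ x)‖
      ≤ (|K| * (‖x‖ + ((2:ℝ) ^ (2 * m))⁻¹)) * (|C1| * (4 / c ^ 2) * (‖x‖ ^ 2)⁻¹) := by
        gcongr
    _ = M * (‖x‖⁻¹ + ((2:ℝ) ^ (2 * m))⁻¹ * (‖x‖ ^ 2)⁻¹) := by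
        rw [hM]
        have : ‖x‖ * (‖x‖ ^ 2)⁻¹ = ‖x‖⁻¹ := by field_simp
        rw [← this]
        ring


end J10242
end H575Germ
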