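import Pool.Agent.Helper575.Germ.Defs

open scoped RealInnerProductSpace Topology ContDiff
open MeasureTheory Metric

namespace H575Germ
namespace J10243


theorem cesaro_block (t : ℕ → ℕ → ℂ) (J : ℂ) (C2 : ℝ) (n2 : ℕ) (hb : ∀ m i, ‖t m i‖ ≤ C2)
    (hJ : ∀ δ > 0, ∃ M : ℕ, ∀ m ≥ M, ∀ i, 2 ^ m + n2 ≤ i → i + n2 ≤ 2 ^ (m + 1) →
      ‖t m i - J‖ ≤ δ) :
    Filter.Tendsto (fun m : ℕ => ((2:ℂ) ^ m)⁻¹ * ∑ i ∈ Finset.Ico (2 ^ m) (2 ^ (m + 1)), t m i)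
      Filter.atTop (𝓝 J) := by
  have hC2 : 0 ≤ C2 := (norm_nonneg _).trans (hb 0 0)
  rw [Metric.tendsto_atTop]
  intro ε hε
  obtain ⟨M, hM⟩ := hJ (ε / 2) (by positivity)
  have hlim : Filter.Tendsto (fun m : ℕ => (C2 + ‖J‖) * (2 * n2) * (1 / 2 : ℝ) ^ m) Filter.atTop (𝓝 0) := by
    have := (tendsto_pow_atTop_nhds_zero_of_lt_one (r := (1 / 2 : ℝ)) (by norm_num) (by norm_num)).const_mul
      ((C2 + ‖J‖) * (2 * n2))
    simpa using this
  obtain ⟨M2, hM2⟩ := Filter.eventually_atTop.mp (hlim.eventually (gt_mem_nhds (show (0:ℝ) < ε / 2 by positivity)))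
  refine ⟨max M M2, ?_⟩
  intro m hm
  have hm1 : M ≤ m := (le_max_left _ _).trans hm
  have hm2 : M2 ≤ m := (le_max_right _ _).trans hm
  have h1 : ((2:ℂ) ^ m)⁻¹ * ∑ i ∈ Finset.Ico (2 ^ m) (2 ^ (m + 1)), t m i - J =
      ((2:ℂ) ^ m)⁻¹ * ∑ i ∈ Finset.Ico (2 ^ m) (2 ^ (m + 1)), (t m i - J) := by
    rw [Finset.sum_sub_distrib, Finset.sum_const, Nat.card_Ico, mul_sub]
    have h2 : 2 ^ (m + 1) - 2 ^ m = 2 ^ m := by rw [pow_succ]; omega
    rw [h2, nsmul_eq_mul]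
    push_cast
    rw [← mul_assoc, inv_mul_cancel₀ (pow_ne_zero m (by norm_num)), one_mul]
  rw [dist_eq_norm, h1, norm_mul]
  have h3 : ‖∑ i ∈ Finset.Ico (2 ^ m) (2 ^ (m + 1)), (t m i - J)‖ ≤
      ε / 2 * 2 ^ m + (C2 + ‖J‖) * (2 * n2) := by
    refine (norm_sum_le _ _).trans ?_
    have h4 : ∀ i ∈ Finset.Ico (2 ^ m) (2 ^ (m + 1)), ‖t m i - J‖ ≤
        ε / 2 + (if (i < 2 ^ m + n2 ∨ 2 ^ (m + 1) < i + n2) then (C2 + ‖J‖) else 0) := by
      intro i _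
      split_ifs with hi
      · have := norm_sub_le (t m i) J
        have := hb m i
        linarith
      · push Not at hi
        have := hM m hm1 i hi.1 hi.2
        linarith
    refine (Finset.sum_le_sum h4).trans ?_
    rw [Finset.sum_add_distrib, Finset.sum_const, Nat.card_Ico, ← Finset.sum_filter, Finset.sum_const]
    have h2 : 2 ^ (m + 1) - 2 ^ m = 2 ^ m := by rw [pow_succ]; omega
    rw [h2, nsmul_eq_mul, nsmul_eq_mul]
    push_cast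
    have h5 : (Finset.filter (fun i => i < 2 ^ m + n2 ∨ 2 ^ (m + 1) < i + n2)
        (Finset.Ico (2 ^ m) (2 ^ (m + 1)))).card ≤ 2 * n2 := by
      have h6 : Finset.filter (fun i => i < 2 ^ m + n2 ∨ 2 ^ (m + 1) < i + n2)
        (Finset.Ico (2 ^ m) (2 ^ (m + 1))) ⊆ Finset.Ico (2 ^ m) (2 ^ m + n2) ∪
          Finset.Ico (2 ^ (m + 1) - n2) (2 ^ (m + 1)) := by
        intro i hi
        simp only [Finset.mem_filter, Finset.mem_Ico, Finset.mem_union] at hi ⊢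
        omega
      refine (Finset.card_le_card h6).trans ?_
      refine (Finset.card_union_le _ _).trans ?_
      rw [Nat.card_Ico, Nat.card_Ico]
      omega
    have h7 : ((Finset.filter (fun i => i < 2 ^ m + n2 ∨ 2 ^ (m + 1) < i + n2)
        (Finset.Ico (2 ^ m) (2 ^ (m + 1)))).card : ℝ) ≤ 2 * n2 := by exact_mod_cast h5
    have h8 : 0 ≤ C2 + ‖J‖ := by positivity
    have h9 := mul_le_mul_of_nonneg_right h7 h8
    linarith
  have h10 : ‖((2:ℂ) ^ m)⁻¹‖ = (1 / 2 : ℝ) ^ m := by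
    rw [norm_inv, norm_pow]
    simp
  rw [h10]
  have h11 : (1 / 2 : ℝ) ^ m * 2 ^ m = 1 := by rw [← mul_pow]; norm_num
  have h12 := hM2 m hm2
  have h13 : (0:ℝ) ≤ (1 / 2 : ℝ) ^ m := by positivity
  calc (1 / 2 : ℝ) ^ m * ‖∑ i ∈ Finset.Ico (2 ^ m) (2 ^ (m + 1)), (t m i - J)‖
      ≤ (1 / 2 : ℝ) ^ m * (ε / 2 * 2 ^ m + (C2 + ‖J‖) * (2 * n2)) := mul_le_mul_of_nonneg_left h3 h13
    _ = ε / 2 * ((1 / 2 : ℝ) ^ m * 2 ^ m) + (C2 + ‖J‖) * (2 * n2) * (1 / 2 : ℝ) ^ m := by ring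
    _ < ε := by rw [h11]; linarith

theorem term_limit_W_le (s : ℝ) (hs : 0 < s) (P : E2) :
    ‖((P 0 : ℝ) : ℂ) + Complex.I * ((P 1 : ℝ) : ℂ) / s‖ ≤ (1 + 1 / s) * ‖P‖ := by
  have h0 : |P 0| ≤ ‖P‖ := by
    have := PiLp.norm_apply_le P 0
    rwa [Real.norm_eq_abs] at this
  have h1 : |P 1| ≤ ‖P‖ := by
    have := PiLp.norm_apply_le P 1
    rwa [Real.norm_eq_abs] at this
  refine (norm_add_le _ _).trans ?_
  rw [norm_div, norm_mul, Complex.norm_I, one_mul, Complex.norm_real, Complex.norm_real,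
    Complex.norm_real, Real.norm_eq_abs, Real.norm_eq_abs, Real.norm_eq_abs, abs_of_pos hs]
  have h2 : |P 1| / s ≤ ‖P‖ / s := div_le_div_of_nonneg_right h1 hs.le
  calc |P 0| + |P 1| / s ≤ ‖P‖ + ‖P‖ / s := add_le_add h0 h2
    _ = (1 + 1 / s) * ‖P‖ := by ring

theorem term_limit_W_ge (s A01 A11 : ℝ) (hs : 0 < s) (hA : 0 < A11) (y : E2) :
    ‖y‖ ≤ (1 + (s + |A01|) / A11) *
      ‖((y 0 : ℝ) : ℂ) + Complex.I * ((A01 * y 0 + A11 * y 1 : ℝ) : ℂ) / s‖ := by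
  set w := ((y 0 : ℝ) : ℂ) + Complex.I * ((A01 * y 0 + A11 * y 1 : ℝ) : ℂ) / s with hw
  have hw' : w = ((y 0 : ℝ) : ℂ) + Complex.I * (((A01 * y 0 + A11 * y 1) / s : ℝ) : ℂ) := by
    rw [hw]; push_cast; ring
  have hre : w.re = y 0 := by rw [hw']; simp
  have him : w.im = (A01 * y 0 + A11 * y 1) / s := by
    rw [hw', Complex.add_im, Complex.I_mul_im, Complex.ofReal_im, Complex.ofReal_re, zero_add]
  have h0 : |y 0| ≤ ‖w‖ := by rw [← hre]; exact Complex.abs_re_le_norm w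
  have h1 : |(A01 * y 0 + A11 * y 1) / s| ≤ ‖w‖ := by rw [← him]; exact Complex.abs_im_le_norm w
  have h2 : |A01 * y 0 + A11 * y 1| ≤ s * ‖w‖ := by
    rw [abs_div, abs_of_pos hs, div_le_iff₀ hs] at h1
    linarith
  have h3 : A11 * |y 1| ≤ (s + |A01|) * ‖w‖ := by
    have h4 : A11 * |y 1| = |(A01 * y 0 + A11 * y 1) - A01 * y 0| := by
      rw [add_sub_cancel_left, abs_mul, abs_of_pos hA]
    rw [h4]
    refine (abs_sub _ _).trans ?_
    rw [abs_mul]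
    have := mul_le_mul_of_nonneg_left h0 (abs_nonneg A01)
    linarith
  have h5 : |y 1| ≤ (s + |A01|) / A11 * ‖w‖ := by
    rw [div_mul_eq_mul_div, le_div_iff₀ hA]
    linarith
  have h6 : ‖y‖ ≤ |y 0| + |y 1| := by
    rw [EuclideanSpace.norm_eq, Fin.sum_univ_two, Real.sqrt_le_left (by positivity)]
    rw [Real.norm_eq_abs, Real.norm_eq_abs]
    nlinarith [abs_nonneg (y 0), abs_nonneg (y 1)]
  calc ‖y‖ ≤ |y 0| + |y 1| := h6
    _ ≤ ‖w‖ + (s + |A01|) / A11 * ‖w‖ := add_le_add h0 h5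
    _ = _ := by ring

theorem term_limit (s A01 A11 : ℝ) (hs : 0 < s) (hA : 0 < A11) (Θ : E2 → E2)
    (hΘc : Continuous Θ)
    (hΘ : ∀ δ > 0, ∃ ρ > 0, ∀ x : E2, ‖x‖ ≤ ρ →
      ‖Θ x - !₂[x 0, A01 * x 0 + A11 * x 1]‖ ≤ δ * ‖x‖)
    (β : E2 → ℝ) (hβ : Continuous β) (hβs : ∀ y, β y ≠ 0 → 1 < ‖y‖ ∧ ‖y‖ < 3 / 2) :
    Filter.Tendsto (fun i : ℕ => ∫ x : E2, ((β (((2:ℝ) ^ i) • x) : ℝ) : ℂ) *
        (-(Complex.I / s) / (((Θ x) 0 : ℝ) + Complex.I * ((Θ x) 1 : ℝ) / s) ^ 2))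
      Filter.atTop (𝓝 (-(Complex.I * s) * ∫ y : E2, ((β y : ℝ) : ℂ) /
        ((s + Complex.I * A01) * (y 0 : ℝ) + (Complex.I * A11) * (y 1 : ℝ)) ^ 2)) := by
  have hsC : (s : ℂ) ≠ 0 := by exact_mod_cast hs.ne'
  -- rescaled map
  let Φ : ℕ → E2 → E2 := fun i y => ((2:ℝ) ^ i) • Θ ((((2:ℝ) ^ i)⁻¹) • y)
  let Θ0 : E2 → E2 := fun y => !₂[y 0, A01 * y 0 + A11 * y 1]
  let W : E2 → ℂ := fun P => ((P 0 : ℝ) : ℂ) + Complex.I * ((P 1 : ℝ) : ℂ) / s
  have hWadd : ∀ P Q : E2, W P = W Q + W (P - Q) := by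
    intro P Q
    simp only [W, PiLp.sub_apply]
    push_cast
    ring
  have hWsmul : ∀ (c : ℝ) (P : E2), W (c • P) = c * W P := by
    intro c P
    simp only [W, PiLp.smul_apply, smul_eq_mul]
    push_cast
    ring
  have hΘ0smul : ∀ (c : ℝ) (y : E2), Θ0 (c • y) = c • Θ0 y := by
    intro c y
    ext j
    fin_cases j
    · simp [Θ0]
    · simp [Θ0]; ring
  have hconv : ∀ δ > 0, ∃ N : ℕ, ∀ i ≥ N, ∀ y : E2, ‖y‖ ≤ 3 / 2 → ‖Φ i y - Θ0 y‖ ≤ δ * ‖y‖ := by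
    intro δ hδ
    obtain ⟨ρ, hρ, h1⟩ := hΘ δ hδ
    have hlim : Filter.Tendsto (fun i : ℕ => (3 / 2 : ℝ) * (1 / 2 : ℝ) ^ i) Filter.atTop (𝓝 0) := by
      have := (tendsto_pow_atTop_nhds_zero_of_lt_one (r := (1 / 2 : ℝ)) (by norm_num) (by norm_num)).const_mul
        (3 / 2 : ℝ)
      simpa using this
    obtain ⟨N, hN⟩ := Filter.eventually_atTop.mp (hlim.eventually (gt_mem_nhds hρ))
    refine ⟨N, ?_⟩
    intro i hi y hy
    have hpow : (0:ℝ) < 2 ^ i := by positivity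
    have h2 : ‖(((2:ℝ) ^ i)⁻¹) • y‖ = (((2:ℝ) ^ i)⁻¹) * ‖y‖ := by
      rw [norm_smul, Real.norm_of_nonneg (by positivity)]
    have h3 : ‖(((2:ℝ) ^ i)⁻¹) • y‖ ≤ ρ := by
      rw [h2]
      have := hN i hi
      have h4 : (((2:ℝ) ^ i)⁻¹) = (1 / 2 : ℝ) ^ i := by rw [one_div, inv_pow]
      rw [h4]
      have h5 : (0:ℝ) < (1 / 2 : ℝ) ^ i := by positivity
      nlinarith
    have h6 := h1 _ h3
    have h7 : Φ i y - Θ0 y = ((2:ℝ) ^ i) • (Θ ((((2:ℝ) ^ i)⁻¹) • y) - Θ0 ((((2:ℝ) ^ i)⁻¹) • y)) := by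
      rw [hΘ0smul, smul_sub, smul_smul, mul_inv_cancel₀ hpow.ne', one_smul]
    rw [h7, norm_smul, Real.norm_of_nonneg hpow.le]
    have h8 : ‖Θ ((((2:ℝ) ^ i)⁻¹) • y) - Θ0 ((((2:ℝ) ^ i)⁻¹) • y)‖ ≤ δ * ((((2:ℝ) ^ i)⁻¹) * ‖y‖) := by
      rw [← h2]; exact h6
    calc (2:ℝ) ^ i * ‖Θ ((((2:ℝ) ^ i)⁻¹) • y) - Θ0 ((((2:ℝ) ^ i)⁻¹) • y)‖
        ≤ (2:ℝ) ^ i * (δ * ((((2:ℝ) ^ i)⁻¹) * ‖y‖)) := mul_le_mul_of_nonneg_left h8 hpow.le
      _ = δ * ‖y‖ := by field_simp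
  -- substitution
  have hsub : ∀ i : ℕ, ∫ x : E2, ((β (((2:ℝ) ^ i) • x) : ℝ) : ℂ) *
        (-(Complex.I / s) / (((Θ x) 0 : ℝ) + Complex.I * ((Θ x) 1 : ℝ) / s) ^ 2) =
      ∫ y : E2, ((β y : ℝ) : ℂ) * (-(Complex.I / s) / (W (Φ i y)) ^ 2) := by
    intro i
    have hpow : (0:ℝ) < 2 ^ i := by positivity
    have h1 := Measure.integral_comp_smul (volume : Measure E2)
      (fun y : E2 => ((β y : ℝ) : ℂ) * (-(Complex.I / s) / (W (Θ ((((2:ℝ) ^ i)⁻¹) • y))) ^ 2)) ((2:ℝ) ^ i)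
    have h2 : (fun x : E2 => ((β (((2:ℝ) ^ i) • x) : ℝ) : ℂ) *
        (-(Complex.I / s) / (((Θ x) 0 : ℝ) + Complex.I * ((Θ x) 1 : ℝ) / s) ^ 2)) =
        fun x : E2 => (fun y : E2 => ((β y : ℝ) : ℂ) * (-(Complex.I / s) / (W (Θ ((((2:ℝ) ^ i)⁻¹) • y))) ^ 2)) (((2:ℝ) ^ i) • x) := by
      funext x
      simp only [smul_smul, inv_mul_cancel₀ hpow.ne', one_smul, W]
    rw [h2, h1, ← integral_smul]
    congr 1
    funext y
    simp only [Φ, hWsmul]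
    rw [finrank_euclideanSpace, Fintype.card_fin, abs_of_pos (by positivity), Complex.real_smul]
    push_cast
    have h3 : ((2:ℂ) ^ i) ≠ 0 := pow_ne_zero i (by norm_num)
    by_cases hW0 : W (Θ ((((2:ℝ) ^ i)⁻¹) • y)) = 0
    · rw [hW0]; simp
    · field_simp
  simp_rw [hsub]
  -- bound
  set c : ℝ := (1 + (s + |A01|) / A11) with hc
  have hcpos : 0 < c := by positivity
  have hlow : ∀ y : E2, ‖y‖ ≤ c * ‖W (Θ0 y)‖ := by
    intro y
    have := term_limit_W_ge s A01 A11 hs hA y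
    simpa [W, Θ0] using this
  have hlim0 : ∀ y : E2, ‖y‖ ≤ 3 / 2 → Filter.Tendsto (fun i => W (Φ i y)) Filter.atTop (𝓝 (W (Θ0 y))) := by
    intro y hy
    rw [tendsto_iff_norm_sub_tendsto_zero]
    rw [Metric.tendsto_atTop]
    intro ε hε
    obtain ⟨N, hN⟩ := hconv (ε / (2 * (1 + 1 / s) * (3 / 2))) (by positivity)
    refine ⟨N, fun i hi => ?_⟩
    have h1 := hN i hi y hy
    rw [dist_zero_right, norm_norm]
    have h2 : W (Φ i y) - W (Θ0 y) = W (Φ i y - Θ0 y) := by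
      rw [hWadd (Φ i y) (Θ0 y)]; ring
    rw [h2]
    refine (term_limit_W_le s hs _).trans_lt ?_
    have h3 : (1 + 1 / s) * ‖Φ i y - Θ0 y‖ ≤ (1 + 1 / s) * (ε / (2 * (1 + 1 / s) * (3 / 2)) * (3 / 2)) := by
      apply mul_le_mul_of_nonneg_left _ (by positivity)
      refine h1.trans ?_
      apply mul_le_mul_of_nonneg_left hy (by positivity)
    refine h3.trans_lt ?_
    have h4 : (1 + 1 / s) * (ε / (2 * (1 + 1 / s) * (3 / 2)) * (3 / 2)) = ε / 2 := by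
      field_simp
    rw [h4]; linarith
  obtain ⟨N0, hN0⟩ := hconv (1 / (2 * c * (1 + 1 / s))) (by positivity)
  have hbound : ∀ i ≥ N0, ∀ y : E2, 1 < ‖y‖ → ‖y‖ < 3 / 2 → 1 / (2 * c) ≤ ‖W (Φ i y)‖ := by
    intro i hi y hy1 hy2
    have h1 := hN0 i hi y hy2.le
    have h2 := term_limit_W_le s hs (Φ i y - Θ0 y)
    have h3 : ‖W (Φ i y - Θ0 y)‖ ≤ ‖y‖ / (2 * c) := by
      refine h2.trans ?_
      calc (1 + 1 / s) * ‖Φ i y - Θ0 y‖ ≤ (1 + 1 / s) * (1 / (2 * c * (1 + 1 / s)) * ‖y‖) :=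
            mul_le_mul_of_nonneg_left h1 (by positivity)
        _ = ‖y‖ / (2 * c) := by field_simp
    have h4 := hlow y
    have h5 : ‖y‖ / c ≤ ‖W (Θ0 y)‖ := by
      rw [div_le_iff₀ hcpos]; linarith
    have h6 : ‖W (Θ0 y)‖ ≤ ‖W (Φ i y)‖ + ‖W (Φ i y - Θ0 y)‖ := by
      have h7 : W (Θ0 y) = W (Φ i y) - W (Φ i y - Θ0 y) := by
        rw [hWadd (Φ i y) (Θ0 y)]; ring
      rw [h7]
      exact norm_sub_le _ _
    have h8 : ‖y‖ / (2 * c) = ‖y‖ / c / 2 := by field_simp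
    have h9 : 1 / (2 * c) ≤ ‖y‖ / (2 * c) := by
      apply div_le_div_of_nonneg_right hy1.le (by positivity)
    linarith
  have hcs : HasCompactSupport β := by
    apply HasCompactSupport.of_support_subset_isCompact (isCompact_closedBall (0 : E2) (3 / 2))
    intro y hy
    rw [Function.mem_support] at hy
    rw [mem_closedBall_zero_iff]
    exact (hβs y hy).2.le
  have hint : Integrable (fun y : E2 => |β y| * (1 / s * (2 * c) ^ 2)) := by
    apply Integrable.mul_const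
    exact (hβ.integrable_of_hasCompactSupport hcs).abs
  have hmain := tendsto_integral_filter_of_dominated_convergence (l := Filter.atTop) (μ := (volume : Measure E2))
    (F := fun (i : ℕ) (y : E2) => ((β y : ℝ) : ℂ) * (-(Complex.I / s) / (W (Φ i y)) ^ 2))
    (f := fun y : E2 => ((β y : ℝ) : ℂ) * (-(Complex.I / s) / (W (Θ0 y)) ^ 2))
    (fun y : E2 => |β y| * (1 / s * (2 * c) ^ 2))
    (Filter.Eventually.of_forall (fun i => by
      apply Measurable.aestronglyMeasurable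
      have h1 : Continuous (Φ i) := by
        simp only [Φ]
        exact (hΘc.comp (continuous_const_smul ((((2:ℝ) ^ i)⁻¹)))).const_smul ((2:ℝ) ^ i)
      have h2 : Continuous W := by
        simp only [W]
        fun_prop
      have h3 : Measurable (fun y => W (Φ i y)) := (h2.comp h1).measurable
      have h4 : Measurable (fun y => ((β y : ℝ) : ℂ)) := (Complex.continuous_ofReal.comp hβ).measurable
      exact h4.mul (measurable_const.div (h3.pow_const 2))))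
    (Filter.eventually_atTop.mpr ⟨N0, fun i hi => Filter.Eventually.of_forall (fun y => by
      by_cases hy : β y = 0
      · rw [hy]; simp
      · obtain ⟨hy1, hy2⟩ := hβs y hy
        have h1 := hbound i hi y hy1 hy2
        rw [norm_mul, Complex.norm_real, Real.norm_eq_abs]
        apply mul_le_mul_of_nonneg_left _ (abs_nonneg _)
        rw [norm_div, norm_neg, norm_div, Complex.norm_I, Complex.norm_real, Real.norm_eq_abs,
          abs_of_pos hs, norm_pow]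
        have h2 : 0 < 1 / (2 * c) := by positivity
        have h3 : 0 < ‖W (Φ i y)‖ := lt_of_lt_of_le h2 h1
        rw [div_le_iff₀ (by positivity)]
        have h4 : (1 / (2 * c)) ^ 2 ≤ ‖W (Φ i y)‖ ^ 2 := pow_le_pow_left₀ h2.le h1 2
        have h5 : (2 * c) ^ 2 * (1 / (2 * c)) ^ 2 = 1 := by field_simp
        have h6 : 1 ≤ (2 * c) ^ 2 * ‖W (Φ i y)‖ ^ 2 := by
          rw [← h5]
          exact mul_le_mul_of_nonneg_left h4 (by positivity)
        calc 1 / s = 1 / s * 1 := by ring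
          _ ≤ 1 / s * ((2 * c) ^ 2 * ‖W (Φ i y)‖ ^ 2) := mul_le_mul_of_nonneg_left h6 (by positivity)
          _ = _ := by ring)⟩)
    hint
    (Filter.Eventually.of_forall (fun y => by
      by_cases hy : β y = 0
      · simp only [hy, Complex.ofReal_zero, zero_mul]
        exact tendsto_const_nhds
      · obtain ⟨hy1, hy2⟩ := hβs y hy
        have h1 := hlim0 y hy2.le
        have h2 : W (Θ0 y) ≠ 0 := by
          intro h3
          have := hlow y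
          rw [h3, norm_zero, mul_zero] at this
          linarith
        apply Filter.Tendsto.const_mul
        apply Filter.Tendsto.div tendsto_const_nhds (h1.pow 2)
        exact pow_ne_zero 2 h2))
  have hfin : ∫ y : E2, ((β y : ℝ) : ℂ) * (-(Complex.I / s) / (W (Θ0 y)) ^ 2) =
      -(Complex.I * s) * ∫ y : E2, ((β y : ℝ) : ℂ) /
        ((s + Complex.I * A01) * (y 0 : ℝ) + (Complex.I * A11) * (y 1 : ℝ)) ^ 2 := by
    rw [← integral_const_mul]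
    congr 1
    funext y
    have h1 : W (Θ0 y) = ((s + Complex.I * A01) * (y 0 : ℝ) + (Complex.I * A11) * (y 1 : ℝ)) / s := by
      simp [W, Θ0]
      field_simp
      ring
    rw [h1]
    by_cases h0 : ((s + Complex.I * A01) * (y 0 : ℝ) + (Complex.I * A11) * (y 1 : ℝ)) = 0
    · rw [h0]; simp
    · field_simp
  rw [← hfin]
  exact hmain


end J10243
end H575Germ
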