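import Pool.Agent.Helper575.Germ.Defs

open scoped RealInnerProductSpace Topology ContDiff
open MeasureTheory Metric

namespace H575Germ
namespace J10244


theorem ml_abs (x : E2) (i : Fin 2) : |x i| ≤ ‖x‖ := by
  have := PiLp.norm_apply_le x i
  simpa using this

theorem ml_norm_le (x : E2) : ‖x‖ ≤ |x 0| + |x 1| := by
  rw [EuclideanSpace.norm_eq, Fin.sum_univ_two]
  apply Real.sqrt_le_iff.2
  refine ⟨by positivity, ?_⟩
  simp only [Real.norm_eq_abs]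
  nlinarith [abs_nonneg (x 0), abs_nonneg (x 1), mul_nonneg (abs_nonneg (x 0)) (abs_nonneg (x 1))]

theorem ml_two (A01 A11 : ℝ) (hA : 0 < A11) (Θ : E2 → E2)
    (hΘ : ∀ δ > 0, ∃ ρ > 0, ∀ x : E2, ‖x‖ ≤ ρ →
      ‖Θ x - !₂[x 0, A01 * x 0 + A11 * x 1]‖ ≤ δ * ‖x‖) :
    ∃ ρ0 > 0, ∃ c > 0, ∃ C > 0, ∀ x : E2, ‖x‖ ≤ ρ0 → c * ‖x‖ ≤ ‖Θ x‖ ∧ ‖Θ x‖ ≤ C * ‖x‖ := by
  have hL : ∀ x : E2, (1 + (1 + |A01|) / A11)⁻¹ * ‖x‖ ≤
      ‖(!₂[x 0, A01 * x 0 + A11 * x 1] : E2)‖ ∧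
      ‖(!₂[x 0, A01 * x 0 + A11 * x 1] : E2)‖ ≤ (1 + |A01| + A11) * ‖x‖ := by
    intro x
    set y : E2 := !₂[x 0, A01 * x 0 + A11 * x 1] with hy
    have h0 : y 0 = x 0 := by simp [hy]
    have h1 : y 1 = A01 * x 0 + A11 * x 1 := by simp [hy]
    have a0 := ml_abs y 0
    have a1 := ml_abs y 1
    rw [h0] at a0
    rw [h1] at a1
    constructor
    · have h3 : A11 * |x 1| ≤ (1 + |A01|) * ‖y‖ := by
        have e1 : A11 * x 1 = (A01 * x 0 + A11 * x 1) - A01 * x 0 := by ring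
        have e2 : A11 * |x 1| = |A11 * x 1| := by rw [abs_mul, abs_of_pos hA]
        rw [e2, e1]
        calc _ ≤ |A01 * x 0 + A11 * x 1| + |A01 * x 0| := abs_sub _ _
          _ ≤ ‖y‖ + |A01| * ‖y‖ := by
            rw [abs_mul A01]
            gcongr
          _ = _ := by ring
      have h4 : |x 1| ≤ (1 + |A01|) / A11 * ‖y‖ := by
        rw [div_mul_eq_mul_div, le_div_iff₀ hA]
        linarith
      rw [inv_mul_le_iff₀ (by positivity)]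
      have := ml_norm_le x
      linarith
    · have := ml_norm_le y
      rw [h0, h1] at this
      have b0 := ml_abs x 0
      have b1 := ml_abs x 1
      calc ‖y‖ ≤ |x 0| + |A01 * x 0 + A11 * x 1| := this
        _ ≤ |x 0| + (|A01| * |x 0| + A11 * |x 1|) := by
          gcongr
          calc _ ≤ |A01 * x 0| + |A11 * x 1| := abs_add_le _ _
            _ = _ := by rw [abs_mul, abs_mul, abs_of_pos hA]
        _ ≤ ‖x‖ + (|A01| * ‖x‖ + A11 * ‖x‖) := by gcongr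
        _ = _ := by ring
  have hc0 : 0 < (1 + (1 + |A01|) / A11)⁻¹ := by positivity
  generalize (1 + (1 + |A01|) / A11)⁻¹ = c0 at hL hc0
  obtain ⟨ρ, hρ, h⟩ := hΘ (c0 / 2) (by positivity)
  refine ⟨ρ, hρ, c0 / 2, by positivity, (1 + |A01| + A11) + c0 / 2, by positivity,
    fun x hx => ?_⟩
  have h1 := h x hx
  obtain ⟨h2, h3⟩ := hL x
  set y : E2 := !₂[x 0, A01 * x 0 + A11 * x 1] with hy
  have h4 : ‖y‖ ≤ ‖Θ x‖ + ‖Θ x - y‖ := by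
    have : y = Θ x - (Θ x - y) := by abel
    calc ‖y‖ = ‖Θ x - (Θ x - y)‖ := by rw [← this]
      _ ≤ _ := norm_sub_le _ _
  have h5 : ‖Θ x‖ ≤ ‖y‖ + ‖Θ x - y‖ := by
    have : Θ x = y + (Θ x - y) := by abel
    calc ‖Θ x‖ = ‖y + (Θ x - y)‖ := by rw [← this]
      _ ≤ _ := norm_add_le _ _
  constructor
  · linarith
  · linarith

theorem ml_supp (β : E2 → ℝ) (hβs : ∀ y, β y ≠ 0 → 1 < ‖y‖ ∧ ‖y‖ < 3 / 2) (i : ℕ) (x : E2)
    (h : β (((2:ℝ) ^ i) • x) ≠ 0) : ((2:ℝ) ^ i)⁻¹ < ‖x‖ ∧ ‖x‖ < 3 / 2 * ((2:ℝ) ^ i)⁻¹ := by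
  have h1 := hβs _ h
  rw [norm_smul, norm_pow, Real.norm_ofNat] at h1
  have h2 : (0:ℝ) < 2 ^ i := by positivity
  constructor
  · rw [inv_lt_iff_one_lt_mul₀ h2]
    linarith [h1.1, mul_comm ((2:ℝ) ^ i) ‖x‖]
  · rw [← div_eq_mul_inv, lt_div_iff₀ h2]
    linarith [h1.2, mul_comm ((2:ℝ) ^ i) ‖x‖]

theorem ml_bound (Θ : E2 → E2) (ρ c : ℝ) (hc : 0 < c)
    (hlow : ∀ x : E2, ‖x‖ ≤ ρ → c * ‖x‖ ≤ ‖Θ x‖)
    (β : E2 → ℝ) (hβs : ∀ y, β y ≠ 0 → 1 < ‖y‖ ∧ ‖y‖ < 3 / 2) (B : ℝ) (hB : ∀ y, |β y| ≤ B)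
    (G : E2 → ℂ) (C1 : ℝ) (hG : ∀ P, ‖G P‖ * ‖P‖ ^ 2 ≤ C1) (i : ℕ) :
    ‖∫ x in ball (0:E2) ρ, ((β (((2:ℝ) ^ i) • x) : ℝ) : ℂ) * G (Θ x)‖ ≤
      (9 / 4) * (volume.real (ball (0:E2) 1)) * (B * (C1 / c ^ 2)) := by
  have hB0 : 0 ≤ B := (abs_nonneg _).trans (hB 0)
  have hC1 : 0 ≤ C1 := le_trans (by positivity) (hG 0)
  have h2 : (0:ℝ) < 2 ^ i := by positivity
  rw [← integral_indicator measurableSet_ball]
  set K : ℝ := B * (C1 / c ^ 2 * ((2:ℝ) ^ i) ^ 2) with hK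
  have hK0 : 0 ≤ K := by positivity
  have hint : Integrable ((ball (0:E2) (3 / 2 * ((2:ℝ) ^ i)⁻¹)).indicator (fun _ => K))
      (volume : Measure E2) := by
    rw [integrable_indicator_iff measurableSet_ball]
    exact integrableOn_const (by exact measure_ball_lt_top.ne)
  refine (norm_integral_le_of_norm_le hint (Filter.Eventually.of_forall fun x => ?_)).trans
    (le_of_eq ?_)
  · by_cases hx : x ∈ ball (0:E2) ρ
    · rw [Set.indicator_of_mem hx]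
      by_cases hβ0 : β (((2:ℝ) ^ i) • x) = 0
      · rw [hβ0]
        simp only [Complex.ofReal_zero, zero_mul, norm_zero]
        exact Set.indicator_nonneg (fun _ _ => hK0) _
      · obtain ⟨h3, h4⟩ := ml_supp β hβs i x hβ0
        have hx' : x ∈ ball (0:E2) (3 / 2 * ((2:ℝ) ^ i)⁻¹) := by
          rw [mem_ball_zero_iff]
          exact h4
        rw [Set.indicator_of_mem hx', norm_mul, Complex.norm_real, Real.norm_eq_abs]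
        have h5 : c * ‖x‖ ≤ ‖Θ x‖ := hlow x (by
          rw [mem_ball_zero_iff] at hx
          exact hx.le)
        have h6 : c * ((2:ℝ) ^ i)⁻¹ ≤ ‖Θ x‖ := by
          refine le_trans ?_ h5
          gcongr
        have h7 : ‖G (Θ x)‖ ≤ C1 / c ^ 2 * ((2:ℝ) ^ i) ^ 2 := by
          have h8 : ‖G (Θ x)‖ * (c * ((2:ℝ) ^ i)⁻¹) ^ 2 ≤ C1 := by
            refine le_trans ?_ (hG (Θ x))
            gcongr
          have h9 : C1 / c ^ 2 * ((2:ℝ) ^ i) ^ 2 = C1 / (c * ((2:ℝ) ^ i)⁻¹) ^ 2 := by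
            field_simp
          rw [h9, le_div_iff₀ (by positivity)]
          exact h8
        exact mul_le_mul (hB _) h7 (norm_nonneg _) hB0
    · rw [Set.indicator_of_notMem hx, norm_zero]
      exact Set.indicator_nonneg (fun _ _ => hK0) _
  · rw [integral_indicator_const _ measurableSet_ball, smul_eq_mul, measureReal_def,
      Measure.addHaar_ball _ _ (by positivity), ENNReal.toReal_mul,
      ENNReal.toReal_ofReal (by positivity), ← measureReal_def]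
    have hfr : Module.finrank ℝ E2 = 2 := by simp [E2]
    rw [hfr, hK]
    field_simp
    ring

theorem ml_mid (s : ℝ) (Θ : E2 → E2) (ρ c C : ℝ) (hc : 0 < c) (hC : 0 < C)
    (h2 : ∀ x : E2, ‖x‖ ≤ ρ → c * ‖x‖ ≤ ‖Θ x‖ ∧ ‖Θ x‖ ≤ C * ‖x‖)
    (β : E2 → ℝ) (hβs : ∀ y, β y ≠ 0 → 1 < ‖y‖ ∧ ‖y‖ < 3 / 2)
    (G : E2 → ℂ) (a b i : ℕ)
    (hG : ∀ P, ((2:ℝ) ^ b)⁻¹ < ‖P‖ → ‖P‖ < (3 / 4) * ((2:ℝ) ^ a)⁻¹ →
      G P = -(Complex.I / s) / ((P 0 : ℝ) + Complex.I * (P 1 : ℝ) / s) ^ 2)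
    (h3 : ((2:ℝ) ^ b)⁻¹ ≤ c * ((2:ℝ) ^ i)⁻¹)
    (h4 : C * (3 / 2 * ((2:ℝ) ^ i)⁻¹) ≤ 3 / 4 * ((2:ℝ) ^ a)⁻¹)
    (h5 : 3 / 2 * ((2:ℝ) ^ i)⁻¹ ≤ ρ) :
    ∫ x in ball (0:E2) ρ, ((β (((2:ℝ) ^ i) • x) : ℝ) : ℂ) * G (Θ x) =
      ∫ x : E2, ((β (((2:ℝ) ^ i) • x) : ℝ) : ℂ) *
        (-(Complex.I / s) / (((Θ x) 0 : ℝ) + Complex.I * ((Θ x) 1 : ℝ) / s) ^ 2) := by
  refine Eq.trans ?_ (setIntegral_eq_integral_of_forall_compl_eq_zero (s := ball (0:E2) ρ) ?_)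
  · apply setIntegral_congr_fun measurableSet_ball
    intro x hx
    simp only
    by_cases hβ0 : β (((2:ℝ) ^ i) • x) = 0
    · rw [hβ0]
      simp
    · obtain ⟨h6, h7⟩ := ml_supp β hβs i x hβ0
      rw [mem_ball_zero_iff] at hx
      obtain ⟨h8, h9⟩ := h2 x hx.le
      rw [hG (Θ x)]
      · calc ((2:ℝ) ^ b)⁻¹ ≤ c * ((2:ℝ) ^ i)⁻¹ := h3
          _ < c * ‖x‖ := by gcongr
          _ ≤ _ := h8
      · calc ‖Θ x‖ ≤ C * ‖x‖ := h9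
          _ < C * (3 / 2 * ((2:ℝ) ^ i)⁻¹) := by gcongr
          _ ≤ _ := h4
  · intro x hx
    have hβ0 : β (((2:ℝ) ^ i) • x) = 0 := by
      by_contra hne
      obtain ⟨h6, h7⟩ := ml_supp β hβs i x hne
      apply hx
      rw [mem_ball_zero_iff]
      linarith
    rw [hβ0]
    simp

/-- the main term -/
theorem main_limit
    (cesaro_block : ∀ (t : ℕ → ℕ → ℂ) (J : ℂ) (C2 : ℝ) (n2 : ℕ), (∀ m i, ‖t m i‖ ≤ C2) →
      (∀ δ > 0, ∃ M : ℕ, ∀ m ≥ M, ∀ i, 2 ^ m + n2 ≤ i → i + n2 ≤ 2 ^ (m + 1) →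
        ‖t m i - J‖ ≤ δ) →
      Filter.Tendsto (fun m : ℕ => ((2:ℂ) ^ m)⁻¹ * ∑ i ∈ Finset.Ico (2 ^ m) (2 ^ (m + 1)), t m i)
        Filter.atTop (𝓝 J))
    (s A01 A11 : ℝ) (hs : 0 < s) (hA : 0 < A11) (Θ : E2 → E2)
    (hΘc : Continuous Θ)
    (hΘ : ∀ δ > 0, ∃ ρ > 0, ∀ x : E2, ‖x‖ ≤ ρ →
      ‖Θ x - !₂[x 0, A01 * x 0 + A11 * x 1]‖ ≤ δ * ‖x‖)
    (β : E2 → ℝ) (hβ : Continuous β) (hβs : ∀ y, β y ≠ 0 → 1 < ‖y‖ ∧ ‖y‖ < 3 / 2)
    (J : ℂ)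
    (hJ : Filter.Tendsto (fun i : ℕ => ∫ x : E2, ((β (((2:ℝ) ^ i) • x) : ℝ) : ℂ) *
        (-(Complex.I / s) / (((Θ x) 0 : ℝ) + Complex.I * ((Θ x) 1 : ℝ) / s) ^ 2))
      Filter.atTop (𝓝 J))
    (F : ℕ → ℕ → E2 → ℂ) (C1 : ℝ) (hFc : ∀ a b, a < b → Continuous (F a b))
    (hFb : ∀ a b, a < b → ∀ P, ‖F a b P‖ * ‖P‖ ^ 2 ≤ C1)
    (hFm : ∀ a b, a < b → ∀ P, ((2:ℝ) ^ b)⁻¹ < ‖P‖ → ‖P‖ < (3 / 4) * ((2:ℝ) ^ a)⁻¹ →
      F a b P = -(Complex.I / s) / ((P 0 : ℝ) + Complex.I * (P 1 : ℝ) / s) ^ 2)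
    (n0 : ℕ) :
    ∃ ρ0 > 0, ∀ ρ, 0 < ρ → ρ ≤ ρ0 →
      Filter.Tendsto (fun m : ℕ => ∫ x in ball (0:E2) ρ, ((blk m β x : ℝ) : ℂ) *
        F (2 ^ m + n0) (2 ^ (m + 1) - n0) (Θ x)) Filter.atTop (𝓝 J) := by
  obtain ⟨ρ0, hρ0, c, hc, C, hC, h2⟩ := ml_two A01 A11 hA Θ hΘ
  refine ⟨ρ0, hρ0, fun ρ hρ hρρ0 => ?_⟩
  have h2' : ∀ x : E2, ‖x‖ ≤ ρ → c * ‖x‖ ≤ ‖Θ x‖ ∧ ‖Θ x‖ ≤ C * ‖x‖ := fun x hx =>
    h2 x (hx.trans hρρ0)
  obtain ⟨B, hB⟩ : ∃ B, ∀ y, |β y| ≤ B := by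
    have hcs : HasCompactSupport β := by
      apply HasCompactSupport.intro (isCompact_closedBall (0:E2) (3 / 2))
      intro x hx
      by_contra hne
      apply hx
      rw [mem_closedBall_zero_iff]
      exact (hβs x hne).2.le
    obtain ⟨B, hB⟩ := hβ.bounded_above_of_compact_support hcs
    exact ⟨B, fun y => by simpa using hB y⟩
  -- the constant `n2`
  obtain ⟨n2, hn2⟩ := pow_unbounded_of_one_lt (max ((2:ℝ) ^ n0 / c) (2 * C * (2:ℝ) ^ n0))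
    (by norm_num : (1:ℝ) < 2)
  have hn2a : (2:ℝ) ^ n0 ≤ c * (2:ℝ) ^ n2 := by
    have h := (le_max_left _ _).trans hn2.le
    rw [div_le_iff₀ hc] at h
    linarith
  have hn2b : 2 * C * (2:ℝ) ^ n0 ≤ (2:ℝ) ^ n2 := (le_max_right _ _).trans hn2.le
  obtain ⟨M1, hM1⟩ := pow_unbounded_of_one_lt (3 / 2 / ρ) (by norm_num : (1:ℝ) < 2)
  rw [div_lt_iff₀ hρ] at hM1
  have hab : ∀ m : ℕ, 2 * n0 + 1 ≤ m → 2 ^ m + n0 < 2 ^ (m + 1) - n0 := by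
    intro m hm
    have h1 : m < 2 ^ m := Nat.lt_two_pow_self
    rw [pow_succ]
    omega
  -- the terms
  let t : ℕ → ℕ → ℂ := fun m i => if 2 ^ m + n0 < 2 ^ (m + 1) - n0 then
    ∫ x in ball (0:E2) ρ, ((β (((2:ℝ) ^ i) • x) : ℝ) : ℂ) *
      F (2 ^ m + n0) (2 ^ (m + 1) - n0) (Θ x) else J
  have ht : ∀ m i, 2 ^ m + n0 < 2 ^ (m + 1) - n0 → t m i =
      ∫ x in ball (0:E2) ρ, ((β (((2:ℝ) ^ i) • x) : ℝ) : ℂ) *
      F (2 ^ m + n0) (2 ^ (m + 1) - n0) (Θ x) := by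
    intro m i h
    simp only [t]
    rw [if_pos h]
  have hlim := cesaro_block t J
    (max ((9 / 4) * (volume.real (ball (0:E2) 1)) * (B * (C1 / c ^ 2))) ‖J‖) n2
    (by
      intro m i
      by_cases h : 2 ^ m + n0 < 2 ^ (m + 1) - n0
      · rw [ht m i h]
        exact (ml_bound Θ ρ c hc (fun x hx => (h2' x hx).1) β hβs B hB _ C1
          (hFb _ _ h) i).trans (le_max_left _ _)
      · simp only [t]
        rw [if_neg h]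
        exact le_max_right _ _)
    (by
      intro δ hδ
      obtain ⟨I0, hI0⟩ := Metric.tendsto_atTop.1 hJ δ hδ
      refine ⟨max (max I0 M1) (2 * n0 + 1), fun m hm i hi1 hi2 => ?_⟩
      have hm1 : I0 ≤ m := (le_max_left _ _).trans ((le_max_left _ _).trans hm)
      have hm2 : M1 ≤ m := (le_max_right _ _).trans ((le_max_left _ _).trans hm)
      have hm3 : 2 * n0 + 1 ≤ m := (le_max_right _ _).trans hm
      have hlt : m < 2 ^ m := Nat.lt_two_pow_self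
      have h := hab m hm3
      rw [ht m i h]
      have hi : (0:ℝ) < 2 ^ i := by positivity
      have hb : (0:ℝ) < 2 ^ (2 ^ (m + 1) - n0) := by positivity
      have ha : (0:ℝ) < 2 ^ (2 ^ m + n0) := by positivity
      have e1 : (2:ℝ) ^ i * 2 ^ n2 ≤ 2 ^ (2 ^ (m + 1) - n0) * 2 ^ n0 := by
        rw [← pow_add, ← pow_add]
        apply pow_le_pow_right₀ (by norm_num)
        omega
      have e2 : (2:ℝ) ^ (2 ^ m + n0) * 2 ^ n2 ≤ 2 ^ i * 2 ^ n0 := by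
        rw [← pow_add, ← pow_add]
        apply pow_le_pow_right₀ (by norm_num)
        omega
      rw [ml_mid s Θ ρ c C hc hC h2' β hβs _ _ _ i (hFm _ _ h)]
      · have h6 := hI0 i (by omega)
        rw [dist_eq_norm] at h6
        exact h6.le
      · have e3 : (2:ℝ) ^ i ≤ c * 2 ^ (2 ^ (m + 1) - n0) := by
          have e4 : (2:ℝ) ^ i * 2 ^ n2 ≤ (c * 2 ^ (2 ^ (m + 1) - n0)) * 2 ^ n2 := by
            calc _ ≤ _ := e1
              _ ≤ 2 ^ (2 ^ (m + 1) - n0) * (c * (2:ℝ) ^ n2) := by gcongr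
              _ = _ := by ring
          exact le_of_mul_le_mul_right e4 (by positivity)
        rw [inv_le_iff_one_le_mul₀ hb]
        have e5 : c * ((2:ℝ) ^ i)⁻¹ * 2 ^ (2 ^ (m + 1) - n0) =
            (c * 2 ^ (2 ^ (m + 1) - n0)) / 2 ^ i := by
          rw [div_eq_mul_inv]; ring
        rw [e5, le_div_iff₀ hi]
        linarith
      · have e3 : 2 * C * (2:ℝ) ^ (2 ^ m + n0) ≤ 2 ^ i := by
          have e4 : (2 * C * (2:ℝ) ^ (2 ^ m + n0)) * 2 ^ n0 ≤ 2 ^ i * 2 ^ n0 := by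
            calc _ = (2:ℝ) ^ (2 ^ m + n0) * (2 * C * 2 ^ n0) := by ring
              _ ≤ (2:ℝ) ^ (2 ^ m + n0) * 2 ^ n2 := by gcongr
              _ ≤ _ := e2
          exact le_of_mul_le_mul_right e4 (by positivity)
        have e5 : C * (3 / 2 * ((2:ℝ) ^ i)⁻¹) = (3 / 2 * C) / 2 ^ i := by
          rw [div_eq_mul_inv]; ring
        have e6 : 3 / 4 * ((2:ℝ) ^ (2 ^ m + n0))⁻¹ = (3 / 4) / 2 ^ (2 ^ m + n0) :=
          (div_eq_mul_inv _ _).symm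
        rw [e5, e6, div_le_div_iff₀ hi ha]
        linarith
      · have e3 : (2:ℝ) ^ M1 ≤ 2 ^ i := pow_le_pow_right₀ (by norm_num) (by omega)
        rw [← div_eq_mul_inv, div_le_iff₀ hi]
        calc (3 / 2 : ℝ) ≤ 2 ^ M1 * ρ := hM1.le
          _ ≤ 2 ^ i * ρ := by gcongr
          _ = _ := by ring)
  refine hlim.congr' ?_
  filter_upwards [Filter.eventually_ge_atTop (2 * n0 + 1)] with m hm
  have h := hab m hm
  have hFΘ : Continuous fun x => F (2 ^ m + n0) (2 ^ (m + 1) - n0) (Θ x) :=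
    (hFc _ _ h).comp hΘc
  have hterm : ∀ i, Integrable (fun x : E2 => ((β (((2:ℝ) ^ i) • x) : ℝ) : ℂ) *
      F (2 ^ m + n0) (2 ^ (m + 1) - n0) (Θ x)) (volume.restrict (ball (0:E2) ρ)) := by
    intro i
    have h1 : Continuous (fun x : E2 => ((β (((2:ℝ) ^ i) • x) : ℝ) : ℂ) *
      F (2 ^ m + n0) (2 ^ (m + 1) - n0) (Θ x)) := by
      refine Continuous.mul ?_ hFΘ
      exact Complex.continuous_ofReal.comp (hβ.comp (by fun_prop))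
    exact (h1.continuousOn.integrableOn_compact (isCompact_closedBall (0:E2) ρ)).mono_set
      ball_subset_closedBall
  have hpt : ∀ x : E2, ((blk m β x : ℝ) : ℂ) * F (2 ^ m + n0) (2 ^ (m + 1) - n0) (Θ x) =
      ((2:ℂ) ^ m)⁻¹ * ∑ i ∈ Finset.Ico (2 ^ m) (2 ^ (m + 1)),
        ((β (((2:ℝ) ^ i) • x) : ℝ) : ℂ) * F (2 ^ m + n0) (2 ^ (m + 1) - n0) (Θ x) := by
    intro x
    unfold blk
    push_cast
    rw [mul_assoc, Finset.sum_mul]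
  simp only [hpt]
  rw [integral_const_mul, integral_finset_sum _ (fun i _ => hterm i)]
  congr 1
  exact Finset.sum_congr rfl fun i _ => ht m i h


end J10244
end H575Germ
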