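import Pool.Agent.Helper575.Germ.Defs

open scoped RealInnerProductSpace Topology ContDiff
open MeasureTheory Metric

namespace H575Germ
namespace J9679


/-- the complex linear form `a y₀ + b y₁` -/
noncomputable def wL (a b : ℂ) : E2 →L[ℝ] ℂ :=
  a • (Complex.ofRealCLM.comp (EuclideanSpace.proj (0 : Fin 2) : E2 →L[ℝ] ℝ)) +
    b • (Complex.ofRealCLM.comp (EuclideanSpace.proj (1 : Fin 2) : E2 →L[ℝ] ℝ))

lemma wL_apply (a b : ℂ) (y : E2) : wL a b y = a * (y 0 : ℝ) + b * (y 1 : ℝ) := by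
  simp [wL]

lemma wL_ne {a b : ℂ} (him : 0 < ((starRingEnd ℂ) a * b).im) {y : E2} (hy : y ≠ 0) :
    wL a b y ≠ 0 := by
  intro h
  rw [wL_apply] at h
  apply hy
  have h1 := congrArg (fun z => (starRingEnd ℂ) a * z) h
  simp only [mul_add, mul_zero] at h1
  have h2 := congrArg Complex.im h1
  have h3 := congrArg Complex.re h1
  simp only [Complex.add_im, Complex.mul_im, Complex.mul_re, Complex.conj_re, Complex.conj_im,
    Complex.ofReal_re, Complex.ofReal_im, Complex.zero_im, Complex.zero_re, Complex.add_re]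
    at h2 h3
  simp only [Complex.mul_im, Complex.conj_re, Complex.conj_im] at him
  have h4 : (a.re * b.im + -a.im * b.re) * y 1 = 0 := by linarith
  have h5 : y 1 = 0 := by
    rcases mul_eq_zero.1 h4 with h | h
    · exact absurd h him.ne'
    · exact h
  have h6 : (a.re ^ 2 + a.im ^ 2) * y 0 = 0 := by
    rw [h5] at h3
    linarith
  have h7 : y 0 = 0 := by
    rcases mul_eq_zero.1 h6 with h | h
    · exfalso
      have ha : a.re = 0 := by nlinarith [sq_nonneg a.re, sq_nonneg a.im]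
      have hb : a.im = 0 := by nlinarith [sq_nonneg a.re, sq_nonneg a.im]
      rw [ha, hb] at him
      simp at him
    · exact h
  ext i
  fin_cases i
  · exact h7
  · exact h5

section pdsec

variable {F : Type*} [NormedAddCommGroup F] [NormedSpace ℝ F]

lemma pd_comp_smul (i : Fin 2) (h : E2 → F) (s : ℝ) :
    pd i (fun y => h (s • y)) = fun y => s • pd i h (s • y) := by
  funext y
  unfold pd
  rw [fderiv_comp_smul]
  rfl

lemma pd_const_smul (i : Fin 2) (h : E2 → F) (s : ℝ) :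
    pd i (fun y => s • h y) = fun y => s • pd i h y := by
  funext y
  unfold pd
  have : (fun y => s • h y) = s • h := rfl
  rw [this, fderiv_const_smul_field]
  rfl

lemma pd2_comp_smul (i j : Fin 2) (h : E2 → F) (s : ℝ) :
    pd i (pd j (fun y => h (s • y))) = fun y => s ^ 2 • pd i (pd j h) (s • y) := by
  rw [pd_comp_smul, pd_const_smul, pd_comp_smul]
  funext y
  rw [smul_smul, sq]

lemma pd2_smul_comp_smul (i j : Fin 2) (h : E2 → F) (c s : ℝ) :
    pd i (pd j (fun y => c • h (s • y))) = fun y => (c * s ^ 2) • pd i (pd j h) (s • y) := by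
  rw [pd_const_smul j (fun y => h (s • y)) c, pd_const_smul, pd2_comp_smul]
  funext y
  rw [smul_smul]

lemma pd_sub {f g : E2 → F} (hf : Differentiable ℝ f) (hg : Differentiable ℝ g) (i : Fin 2) :
    pd i (fun y => f y - g y) = fun y => pd i f y - pd i g y := by
  funext y
  unfold pd
  have : (fun y => f y - g y) = f - g := rfl
  rw [this, fderiv_sub (hf y) (hg y)]
  rfl

lemma pd_contDiff {f : E2 → F} {n : ℕ} (hf : ContDiff ℝ (n + 1) f) (i : Fin 2) :
    ContDiff ℝ n (pd i f) := by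
  unfold pd
  exact (hf.fderiv_right (m := n) le_rfl).clm_apply contDiff_const

lemma pd2_sub {f g : E2 → F} (hf : ContDiff ℝ 2 f) (hg : ContDiff ℝ 2 g) (i j : Fin 2) :
    pd i (pd j (fun y => f y - g y)) = fun y => pd i (pd j f) y - pd i (pd j g) y := by
  rw [pd_sub (hf.differentiable (by norm_num)) (hg.differentiable (by norm_num))]
  have h1 : ContDiff ℝ 1 (pd j f) := pd_contDiff (n := 1) (by simpa [one_add_one_eq_two] using hf) j
  have h2 : ContDiff ℝ 1 (pd j g) := pd_contDiff (n := 1) (by simpa [one_add_one_eq_two] using hg) j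
  rw [pd_sub (h1.differentiable (by norm_num)) (h2.differentiable (by norm_num))]

lemma pd2_continuous {f : E2 → F} (hf : ContDiff ℝ 2 f) (i j : Fin 2) :
    Continuous (pd i (pd j f)) := by
  have h1 : ContDiff ℝ 1 (pd j f) := pd_contDiff (n := 1) (by simpa [one_add_one_eq_two] using hf) j
  have h2 : ContDiff ℝ 0 (pd i (pd j f)) := pd_contDiff (n := 0) (by simpa using h1) i
  exact h2.continuous

lemma pd_congr {f g : E2 → F} {y : E2} (h : f =ᶠ[𝓝 y] g) (i : Fin 2) : pd i f y = pd i g y := by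
  unfold pd
  rw [h.fderiv_eq]

lemma pd_congr' {f g : E2 → F} {y : E2} (h : f =ᶠ[𝓝 y] g) (i : Fin 2) :
    pd i f =ᶠ[𝓝 y] pd i g := by
  filter_upwards [h.eventuallyEq_nhds] with z hz
  exact pd_congr hz i

end pdsec

/-- derivative of powers of the linear form -/
lemma pd_zpow {a b : ℂ} (n : ℤ) {y : E2} (hy : wL a b y ≠ 0) (i : Fin 2) (k : ℂ) :
    pd i (fun y => k * (wL a b y) ^ n) y =
      k * n * (wL a b (EuclideanSpace.single i 1)) * (wL a b y) ^ (n - 1) := by
  unfold pd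
  have h1 : HasDerivAt (fun z : ℂ => k * z ^ n) (k * (n * (wL a b y) ^ (n - 1))) (wL a b y) :=
    (hasDerivAt_zpow n _ (Or.inl hy)).const_mul k
  have h2 : HasFDerivAt (fun y : E2 => k * (wL a b y) ^ n) _ y :=
    (h1.hasFDerivAt.restrictScalars ℝ).comp y (wL a b).hasFDerivAt
  rw [h2.fderiv]
  simp
  ring

/-- the cut-off -/
noncomputable def etaB : ContDiffBump (0 : E2) := ⟨3 / 4, 1, by norm_num, by norm_num⟩

/-- the cut off kernel -/
noncomputable def FF (a b : ℂ) (y : E2) : ℂ :=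
  ((1 - etaB y : ℝ) : ℂ) * ((wL a b y) ^ (-2 : ℤ))

lemma FF_zero {a b : ℂ} {y : E2} (hy : ‖y‖ ≤ 3 / 4) : FF a b y = 0 := by
  have h : etaB y = 1 := etaB.one_of_mem_closedBall (by
    rw [mem_closedBall, dist_zero_right]; exact hy)
  rw [FF, h]; simp

lemma FF_far {a b : ℂ} {y : E2} (hy : 1 ≤ ‖y‖) : FF a b y = (wL a b y) ^ (-2 : ℤ) := by
  have h : etaB y = 0 := etaB.zero_of_le_dist (by
    rw [dist_zero_right]; exact hy)
  rw [FF, h]; simp

lemma FF_contDiff {a b : ℂ} (him : 0 < ((starRingEnd ℂ) a * b).im) : ContDiff ℝ 2 (FF a b) := by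
  rw [contDiff_iff_contDiffAt]
  intro y
  by_cases hy : y = 0
  · have h : FF a b =ᶠ[𝓝 y] fun _ => 0 := by
      filter_upwards [ball_mem_nhds y (show (0 : ℝ) < 3 / 4 by norm_num)] with z hz
      apply FF_zero
      rw [mem_ball, hy, dist_zero_right] at hz
      exact hz.le
    exact contDiffAt_const.congr_of_eventuallyEq h
  · have h1 : ContDiffAt ℝ 2 (fun y => ((1 - etaB y : ℝ) : ℂ)) y := by
      refine (Complex.ofRealCLM.contDiff.contDiffAt).comp y ?_
      exact contDiffAt_const.sub etaB.contDiff.contDiffAt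
    have h2 : ContDiffAt ℝ 2 (fun y => ((wL a b y) ^ 2)⁻¹) y := by
      apply ContDiffAt.inv
      · exact ((wL a b).contDiff.pow 2).contDiffAt
      · exact pow_ne_zero 2 (wL_ne him hy)
    have h3 : FF a b = fun y => ((1 - etaB y : ℝ) : ℂ) * ((wL a b y) ^ 2)⁻¹ := by
      funext z
      rw [FF, zpow_neg]
      rfl
    rw [h3]
    exact h1.mul h2

/-- the second order operator -/
noncomputable def Lop (c11 c12 c22 : ℝ) (h : E2 → ℂ) (y : E2) : ℂ :=
  c11 * pd 0 (pd 0 h) y + 2 * c12 * pd 0 (pd 1 h) y + c22 * pd 1 (pd 1 h) y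

lemma wL_single0 (a b : ℂ) : wL a b (EuclideanSpace.single 0 1) = a := by
  rw [wL_apply]; simp

lemma wL_single1 (a b : ℂ) : wL a b (EuclideanSpace.single 1 1) = b := by
  rw [wL_apply]; simp

lemma pd2_FF_far {a b : ℂ} (him : 0 < ((starRingEnd ℂ) a * b).im) {y : E2} (hy : 1 < ‖y‖)
    (i j : Fin 2) : pd i (pd j (FF a b)) y = 6 * wL a b (EuclideanSpace.single i 1) *
      wL a b (EuclideanSpace.single j 1) * (wL a b y) ^ (-4 : ℤ) := by
  have hopen : {z : E2 | 1 < ‖z‖} ∈ 𝓝 y := (isOpen_lt continuous_const continuous_norm).mem_nhds hy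
  have hne : ∀ z : E2, 1 < ‖z‖ → wL a b z ≠ 0 := by
    intro z hz
    apply wL_ne him
    intro h
    rw [h, norm_zero] at hz
    linarith
  have h1 : ∀ z : E2, 1 < ‖z‖ → FF a b =ᶠ[𝓝 z] fun y => 1 * (wL a b y) ^ (-2 : ℤ) := by
    intro z hz
    filter_upwards [(isOpen_lt continuous_const continuous_norm).mem_nhds hz] with u hu
    rw [FF_far (le_of_lt hu), one_mul]
  have h2 : pd j (FF a b) =ᶠ[𝓝 y] fun y => (-2 * wL a b (EuclideanSpace.single j 1)) *
      (wL a b y) ^ (-3 : ℤ) := by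
    filter_upwards [hopen] with z hz
    rw [pd_congr (h1 z hz), pd_zpow (-2) (hne z hz)]
    norm_num
  rw [pd_congr h2, pd_zpow (-3) (hne y hy)]
  have h3 : (-3 : ℤ) - 1 = -4 := by norm_num
  rw [h3]
  push_cast
  ring

lemma Lop_FF_far {a b : ℂ} (him : 0 < ((starRingEnd ℂ) a * b).im) {c11 c12 c22 : ℝ}
    (hab : c11 * a ^ 2 + 2 * c12 * a * b + c22 * b ^ 2 = 0) {y : E2} (hy : 1 < ‖y‖) :
    Lop c11 c12 c22 (FF a b) y = 0 := by
  unfold Lop
  rw [pd2_FF_far him hy, pd2_FF_far him hy, pd2_FF_far him hy, wL_single0, wL_single1]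
  linear_combination (6 * (wL a b y) ^ (-4 : ℤ)) * hab

lemma Lop_continuous {c11 c12 c22 : ℝ} {h : E2 → ℂ} (hh : ContDiff ℝ 2 h) :
    Continuous (Lop c11 c12 c22 h) := by
  unfold Lop
  have h1 := pd2_continuous hh 0 0
  have h2 := pd2_continuous hh 0 1
  have h3 := pd2_continuous hh 1 1
  fun_prop

/-- the difference of the dilated kernels -/
noncomputable def ph (a b : ℂ) (y : E2) : ℂ := (4 : ℝ) • FF a b ((2 : ℝ) • y) - FF a b y

lemma ph_contDiff {a b : ℂ} (him : 0 < ((starRingEnd ℂ) a * b).im) : ContDiff ℝ 2 (ph a b) := by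
  unfold ph
  refine ContDiff.sub ?_ (FF_contDiff him)
  refine ContDiff.const_smul _ ?_
  exact (FF_contDiff him).comp (contDiff_const_smul _)

lemma ph_small {a b : ℂ} {y : E2} (hy : ‖y‖ ≤ 3 / 8) : ph a b y = 0 := by
  unfold ph
  rw [FF_zero, FF_zero]
  · simp
  · linarith
  · rw [norm_smul, Real.norm_eq_abs, abs_of_pos (by norm_num : (0 : ℝ) < 2)]
    linarith

lemma ph_large {a b : ℂ} {y : E2} (hy : 1 ≤ ‖y‖) : ph a b y = 0 := by
  unfold ph
  rw [FF_far hy, FF_far]
  · rw [map_smul, Complex.real_smul, Complex.real_smul, mul_zpow]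
    norm_num
    ring
  · rw [norm_smul, Real.norm_eq_abs, abs_of_pos (by norm_num : (0 : ℝ) < 2)]
    linarith

lemma ph_compact {a b : ℂ} : HasCompactSupport (ph a b) := by
  refine HasCompactSupport.intro (isCompact_closedBall (0 : E2) 1) fun y hy => ?_
  apply ph_large
  rw [mem_closedBall, dist_zero_right, not_le] at hy
  exact hy.le

lemma Lop_ph {a b : ℂ} (him : 0 < ((starRingEnd ℂ) a * b).im) (c11 c12 c22 : ℝ) (y : E2) :
    Lop c11 c12 c22 (ph a b) y = 16 * Lop c11 c12 c22 (FF a b) ((2 : ℝ) • y) -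
      Lop c11 c12 c22 (FF a b) y := by
  have h : ∀ i j, pd i (pd j (ph a b)) y =
      16 * pd i (pd j (FF a b)) ((2 : ℝ) • y) - pd i (pd j (FF a b)) y := by
    intro i j
    have hf : ContDiff ℝ 2 (fun y => (4 : ℝ) • FF a b ((2 : ℝ) • y)) :=
      ((FF_contDiff him).comp (contDiff_const_smul _)).const_smul _
    unfold ph
    rw [pd2_sub hf (FF_contDiff him), pd2_smul_comp_smul]
    simp only [Complex.real_smul]
    norm_num
  unfold Lop
  rw [h, h, h]
  ring

lemma Lop_compact {a b : ℂ} (him : 0 < ((starRingEnd ℂ) a * b).im) {c11 c12 c22 : ℝ}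
    (hab : c11 * a ^ 2 + 2 * c12 * a * b + c22 * b ^ 2 = 0) :
    HasCompactSupport (Lop c11 c12 c22 (FF a b)) := by
  refine HasCompactSupport.intro (isCompact_closedBall (0 : E2) 1) fun y hy => ?_
  apply Lop_FF_far him hab
  rw [mem_closedBall, dist_zero_right, not_le] at hy
  exact hy

/-- the real second order operator -/
noncomputable def LR (c11 c12 c22 : ℝ) (h : E2 → ℝ) (y : E2) : ℝ :=
  c11 * pd 0 (pd 0 h) y + 2 * c12 * pd 0 (pd 1 h) y + c22 * pd 1 (pd 1 h) y

/-- the pairing of the dilated function with the kernel -/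
noncomputable def PP (a b : ℂ) (c11 c12 c22 : ℝ) (ζ : E2 → ℝ) (s : ℝ) : ℂ :=
  ∫ y, Lop c11 c12 c22 (FF a b) y * (((s ^ 2)⁻¹ * ζ (s • y) : ℝ) : ℂ)

lemma int_smul2 (f : E2 → ℂ) {R : ℝ} (hR : 0 < R) :
    ∫ x, f (R • x) = ((R ^ 2)⁻¹ : ℝ) • ∫ x, f x := by
  rw [Measure.integral_comp_smul]
  congr 1
  rw [finrank_euclideanSpace, Fintype.card_fin, abs_of_pos (by positivity)]

lemma integrable_mul_compact {f g : E2 → ℂ} (hf : Continuous f) (hg : Continuous g)
    (hfc : HasCompactSupport f) : Integrable (fun y => f y * g y) := by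
  apply (hf.mul hg).integrable_of_hasCompactSupport
  exact hfc.mul_right

lemma int_id
    (ibp_twice : ∀ (ψ : E2 → ℂ) (ζ : E2 → ℝ), ContDiff ℝ 2 ψ → HasCompactSupport ψ →
      ContDiff ℝ 2 ζ → ∀ (i j : Fin 2),
      ∫ x, ψ x * ((pd i (pd j ζ) x : ℝ) : ℂ) = ∫ x, pd i (pd j ψ) x * ((ζ x : ℝ) : ℂ))
    {a b : ℂ} (him : 0 < ((starRingEnd ℂ) a * b).im) {c11 c12 c22 : ℝ}
    (hab : c11 * a ^ 2 + 2 * c12 * a * b + c22 * b ^ 2 = 0)
    {ζ : E2 → ℝ} (hζ : ContDiff ℝ 2 ζ) {s : ℝ} (hs : 0 < s) :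
    ∫ y, ph a b y * ((LR c11 c12 c22 ζ (s • y) : ℝ) : ℂ) =
      PP a b c11 c12 c22 ζ (s / 2) - PP a b c11 c12 c22 ζ s := by
  set ζs : E2 → ℝ := fun y => (s ^ 2)⁻¹ • ζ (s • y) with hζs
  have hζsc : ContDiff ℝ 2 ζs := (hζ.comp (contDiff_const_smul s)).const_smul _
  have hpd : ∀ i j y, pd i (pd j ζs) y = pd i (pd j ζ) (s • y) := by
    intro i j y
    rw [hζs, pd2_smul_comp_smul]
    have : (s ^ 2)⁻¹ * s ^ 2 = 1 := by field_simp
    simp only [this, one_smul]
  have hibp : ∀ i j, ∫ y, ph a b y * ((pd i (pd j ζ) (s • y) : ℝ) : ℂ) =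
      ∫ y, pd i (pd j (ph a b)) y * ((ζs y : ℝ) : ℂ) := by
    intro i j
    rw [← ibp_twice (ph a b) ζs (ph_contDiff him) ph_compact hζsc i j]
    simp only [hpd]
  have hphc := (ph_contDiff (a := a) (b := b) him).continuous
  have hi1 : ∀ i j, Integrable (fun y => ph a b y * ((pd i (pd j ζ) (s • y) : ℝ) : ℂ)) := by
    intro i j
    refine integrable_mul_compact hphc ?_ ph_compact
    have := pd2_continuous hζ i j
    exact Complex.continuous_ofReal.comp (this.comp (continuous_const_smul s))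
  have hpc : ∀ i j, HasCompactSupport (pd i (pd j (ph a b))) := by
    intro i j
    refine HasCompactSupport.intro (isCompact_closedBall (0 : E2) 1) fun y hy => ?_
    rw [mem_closedBall, dist_zero_right, not_le] at hy
    have hopen : ∀ z : E2, 1 < ‖z‖ → ph a b =ᶠ[𝓝 z] fun _ => 0 := by
      intro z hz
      filter_upwards [(isOpen_lt continuous_const continuous_norm).mem_nhds hz] with u hu
      exact ph_large (le_of_lt hu)
    have h1 : pd j (ph a b) =ᶠ[𝓝 y] fun _ => 0 := by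
      filter_upwards [(isOpen_lt continuous_const continuous_norm).mem_nhds hy] with u hu
      rw [pd_congr (hopen u hu)]
      simp [pd]
    rw [pd_congr h1]
    simp [pd]
  have hi2 : ∀ i j, Integrable (fun y => pd i (pd j (ph a b)) y * ((ζs y : ℝ) : ℂ)) := by
    intro i j
    refine integrable_mul_compact (pd2_continuous (ph_contDiff him) i j) ?_ (hpc i j)
    exact Complex.continuous_ofReal.comp hζsc.continuous
  have e1 : ∫ y, ph a b y * ((LR c11 c12 c22 ζ (s • y) : ℝ) : ℂ) =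
      ∫ y, Lop c11 c12 c22 (ph a b) y * ((ζs y : ℝ) : ℂ) := by
    have l1 : (fun y => ph a b y * ((LR c11 c12 c22 ζ (s • y) : ℝ) : ℂ)) = fun y =>
        ((c11 : ℂ) * (ph a b y * ((pd 0 (pd 0 ζ) (s • y) : ℝ) : ℂ)) +
        (2 * c12 : ℂ) * (ph a b y * ((pd 0 (pd 1 ζ) (s • y) : ℝ) : ℂ))) +
        (c22 : ℂ) * (ph a b y * ((pd 1 (pd 1 ζ) (s • y) : ℝ) : ℂ)) := by
      funext y
      unfold LR
      push_cast
      ring
    have l2 : (fun y => Lop c11 c12 c22 (ph a b) y * ((ζs y : ℝ) : ℂ)) = fun y =>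
        ((c11 : ℂ) * (pd 0 (pd 0 (ph a b)) y * ((ζs y : ℝ) : ℂ)) +
        (2 * c12 : ℂ) * (pd 0 (pd 1 (ph a b)) y * ((ζs y : ℝ) : ℂ))) +
        (c22 : ℂ) * (pd 1 (pd 1 (ph a b)) y * ((ζs y : ℝ) : ℂ)) := by
      funext y
      unfold Lop
      ring
    rw [l1, l2, integral_add, integral_add, integral_add, integral_add, integral_const_mul,
      integral_const_mul, integral_const_mul, integral_const_mul, integral_const_mul,
      integral_const_mul, hibp, hibp, hibp]
    · exact (hi2 0 0).const_mul _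
    · exact (hi2 0 1).const_mul _
    · exact ((hi2 0 0).const_mul _).add ((hi2 0 1).const_mul _)
    · exact (hi2 1 1).const_mul _
    · exact (hi1 0 0).const_mul _
    · exact (hi1 0 1).const_mul _
    · exact ((hi1 0 0).const_mul _).add ((hi1 0 1).const_mul _)
    · exact (hi1 1 1).const_mul _
  rw [e1]
  have hΛ := Lop_continuous (c11 := c11) (c12 := c12) (c22 := c22)
    (FF_contDiff (a := a) (b := b) him)
  have hΛc := Lop_compact him hab
  set Λ := Lop c11 c12 c22 (FF a b) with hΛd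
  set g : E2 → ℂ := fun u => 16 * Λ u * ((ζs ((1 / 2 : ℝ) • u) : ℝ) : ℂ) with hg
  have l3 : (fun y => Lop c11 c12 c22 (ph a b) y * ((ζs y : ℝ) : ℂ)) =
      fun y => g ((2 : ℝ) • y) - Λ y * ((ζs y : ℝ) : ℂ) := by
    funext y
    rw [Lop_ph him, hg]
    simp only
    rw [smul_smul]
    norm_num
    ring
  have hgi : Integrable g := by
    have : g = fun u => Λ u * (16 * ((ζs ((1 / 2 : ℝ) • u) : ℝ) : ℂ)) := by
      funext u
      rw [hg]
      ring
    rw [this]
    refine integrable_mul_compact hΛ ?_ hΛc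
    have := hζsc.continuous
    exact continuous_const.mul (Complex.continuous_ofReal.comp (this.comp (continuous_const_smul _)))
  have hgi2 : Integrable (fun y => g ((2 : ℝ) • y)) := hgi.comp_smul (by norm_num)
  have hΛi : Integrable (fun y => Λ y * ((ζs y : ℝ) : ℂ)) :=
    integrable_mul_compact hΛ (Complex.continuous_ofReal.comp hζsc.continuous) hΛc
  rw [l3, integral_sub hgi2 hΛi, int_smul2 g (by norm_num)]
  congr 1
  · rw [PP, ← integral_smul]
    congr 1
    funext y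
    rw [hg, hζs]
    simp only [smul_eq_mul, Complex.real_smul, smul_smul]
    have h5 : s * (1 / 2) = s / 2 := by ring
    rw [h5]
    push_cast
    field_simp
    ring

/-- pairing of the kernel with a dilate of `β` -/
noncomputable def NN (a b : ℂ) (β : E2 → ℝ) (t : ℝ) : ℂ :=
  ∫ y, FF a b y * ((β (t • y) : ℝ) : ℂ)

lemma beta_compact {β : E2 → ℝ} (hβs : ∀ y, β y ≠ 0 → 1 < ‖y‖ ∧ ‖y‖ < 3 / 2) {t : ℝ}
    (ht : 0 < t) : HasCompactSupport (fun y => ((β (t • y) : ℝ) : ℂ)) := by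
  refine HasCompactSupport.intro (isCompact_closedBall (0 : E2) ((3 / 2) / t)) fun y hy => ?_
  by_contra h
  apply hy
  have h1 : β (t • y) ≠ 0 := fun h0 => h (by rw [h0]; simp)
  have h2 := (hβs _ h1).2
  rw [norm_smul, Real.norm_eq_abs, abs_of_pos ht] at h2
  rw [mem_closedBall, dist_zero_right, le_div_iff₀ ht]
  linarith

lemma NN_integrable {a b : ℂ} (him : 0 < ((starRingEnd ℂ) a * b).im) {β : E2 → ℝ}
    (hβ : Continuous β) (hβs : ∀ y, β y ≠ 0 → 1 < ‖y‖ ∧ ‖y‖ < 3 / 2) {t : ℝ} (ht : 0 < t) :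
    Integrable (fun y => FF a b y * ((β (t • y) : ℝ) : ℂ)) := by
  have h1 : Continuous (fun y => ((β (t • y) : ℝ) : ℂ)) :=
    Complex.continuous_ofReal.comp (hβ.comp (continuous_const_smul t))
  have h2 := integrable_mul_compact h1 (FF_contDiff him).continuous (beta_compact hβs ht)
  refine h2.congr (Filter.Eventually.of_forall fun y => ?_)
  simp only
  ring

lemma NN_id {a b : ℂ} (him : 0 < ((starRingEnd ℂ) a * b).im) {β : E2 → ℝ}
    (hβ : Continuous β) (hβs : ∀ y, β y ≠ 0 → 1 < ‖y‖ ∧ ‖y‖ < 3 / 2) {t : ℝ} (ht : 0 < t) :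
    ∫ y, ph a b y * ((β (t • y) : ℝ) : ℂ) = NN a b β (t / 2) - NN a b β t := by
  set g : E2 → ℂ := fun u => 4 * (FF a b u * ((β ((t / 2) • u) : ℝ) : ℂ)) with hg
  have hgi : Integrable g := (NN_integrable him hβ hβs (by linarith)).const_mul 4
  have hgi2 : Integrable (fun y => g ((2 : ℝ) • y)) := hgi.comp_smul (by norm_num)
  have l3 : (fun y => ph a b y * ((β (t • y) : ℝ) : ℂ)) =
      fun y => g ((2 : ℝ) • y) - FF a b y * ((β (t • y) : ℝ) : ℂ) := by
    funext y
    rw [ph, hg]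
    simp only
    rw [smul_smul, Complex.real_smul]
    have : t / 2 * 2 = t := by ring
    rw [this]
    push_cast
    ring
  rw [l3, integral_sub hgi2 (NN_integrable him hβ hβs ht), int_smul2 g (by norm_num), hg,
    integral_const_mul, NN, NN, Complex.real_smul]
  push_cast
  ring

lemma NN_zero {a b : ℂ} {β : E2 → ℝ} (hβs : ∀ y, β y ≠ 0 → 1 < ‖y‖ ∧ ‖y‖ < 3 / 2) {t : ℝ}
    (ht : 2 ≤ t) : NN a b β t = 0 := by
  have h : (fun y => FF a b y * ((β (t • y) : ℝ) : ℂ)) = fun _ => 0 := by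
    funext y
    by_cases h1 : β (t • y) = 0
    · rw [h1]; simp
    · have h2 := (hβs _ h1).2
      rw [norm_smul, Real.norm_eq_abs, abs_of_pos (by linarith)] at h2
      rw [FF_zero, zero_mul]
      have := norm_nonneg y
      nlinarith
  rw [NN, h, integral_zero]

lemma NN_one {a b : ℂ} {β : E2 → ℝ} (hβs : ∀ y, β y ≠ 0 → 1 < ‖y‖ ∧ ‖y‖ < 3 / 2) {t : ℝ}
    (ht0 : 0 < t) (ht : t ≤ 1) : NN a b β t =
      ∫ y, ((β y : ℝ) : ℂ) / (a * (y 0 : ℝ) + b * (y 1 : ℝ)) ^ 2 := by
  set g : E2 → ℂ := fun u => ((β u : ℝ) : ℂ) / (a * (u 0 : ℝ) + b * (u 1 : ℝ)) ^ 2 with hg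
  have h : (fun y => FF a b y * ((β (t • y) : ℝ) : ℂ)) =
      fun y => ((t ^ 2 : ℝ) : ℂ) * g (t • y) := by
    funext y
    rw [hg]
    simp only
    rw [← wL_apply]
    by_cases h1 : β (t • y) = 0
    · rw [h1]; simp
    · have h2 := (hβs _ h1).1
      rw [norm_smul, Real.norm_eq_abs, abs_of_pos ht0] at h2
      have h3 : 1 ≤ ‖y‖ := by
        have := norm_nonneg y
        nlinarith
      rw [FF_far h3, map_smul, Complex.real_smul, mul_pow, zpow_neg]
      have h4 : (t : ℂ) ≠ 0 := by exact_mod_cast ht0.ne'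
      push_cast
      have h5 : (wL a b y) ^ (2 : ℤ) = (wL a b y) ^ 2 := rfl
      rw [h5]
      field_simp
  rw [NN, h, integral_const_mul, int_smul2 g ht0, Complex.real_smul]
  have h4 : (t : ℂ) ≠ 0 := by exact_mod_cast ht0.ne'
  push_cast
  field_simp

/-- the `2`-jet estimate along rays -/
lemma taylor2 {ζ : E2 → ℝ} (hζ : ContDiff ℝ 2 ζ) (h0 : ζ 0 = 0) (h1 : fderiv ℝ ζ 0 = 0) :
    ∃ B : E2 →L[ℝ] E2 →L[ℝ] ℝ, ∀ ε > 0, ∃ δ > 0, ∀ x : E2, ‖x‖ < δ →
      |ζ x - (1 / 2) * B x x| ≤ ε * ‖x‖ ^ 2 := by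
  have hd : ContDiff ℝ 1 (fderiv ℝ ζ) := hζ.fderiv_right (m := 1) (by norm_num)
  set B := fderiv ℝ (fderiv ℝ ζ) 0 with hB
  refine ⟨B, fun ε hε => ?_⟩
  have h2 : HasFDerivAt (fderiv ℝ ζ) B 0 := (hd.differentiable (by norm_num) 0).hasFDerivAt
  rw [hasFDerivAt_iff_isLittleO_nhds_zero] at h2
  have h3 := h2.def hε
  rw [Metric.eventually_nhds_iff] at h3
  obtain ⟨δ, hδ, h4⟩ := h3
  refine ⟨δ, hδ, fun x hx => ?_⟩
  set G : ℝ → ℝ := fun t => ζ (t • x) - t ^ 2 / 2 * B x x with hG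
  have hGd : ∀ t ∈ Set.Icc (0 : ℝ) 1, HasDerivWithinAt G
      (fderiv ℝ ζ (t • x) x - t * B x x) (Set.Icc 0 1) t := by
    intro t _
    have e1 : HasDerivAt (fun t : ℝ => t • x) x t := by
      simpa using (hasDerivAt_id t).smul_const x
    have e2 : HasDerivAt (fun t : ℝ => ζ (t • x)) (fderiv ℝ ζ (t • x) x) t :=
      ((hζ.differentiable (by norm_num) (t • x)).hasFDerivAt).comp_hasDerivAt t e1
    have e3 : HasDerivAt (fun t : ℝ => t ^ 2 / 2 * B x x) (t * B x x) t := by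
      have := ((hasDerivAt_pow 2 t).div_const 2).mul_const (B x x)
      refine this.congr_deriv ?_
      norm_num
    exact (e2.sub e3).hasDerivWithinAt
  have hbd : ∀ t ∈ Set.Ico (0 : ℝ) 1, ‖fderiv ℝ ζ (t • x) x - t * B x x‖ ≤ ε * ‖x‖ ^ 2 := by
    intro t ht
    have e1 : dist (t • x) 0 < δ := by
      rw [dist_zero_right, norm_smul, Real.norm_eq_abs, abs_of_nonneg ht.1]
      have := norm_nonneg x
      nlinarith [ht.2]
    have e2 := h4 e1
    rw [zero_add, h1, sub_zero] at e2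
    have e3 : fderiv ℝ ζ (t • x) x - t * B x x = (fderiv ℝ ζ (t • x) - B (t • x)) x := by
      rw [map_smul]
      simp
    rw [e3]
    calc ‖(fderiv ℝ ζ (t • x) - B (t • x)) x‖ ≤ ‖fderiv ℝ ζ (t • x) - B (t • x)‖ * ‖x‖ :=
          ContinuousLinearMap.le_opNorm _ _
      _ ≤ (ε * ‖t • x‖) * ‖x‖ := mul_le_mul_of_nonneg_right e2 (norm_nonneg _)
      _ ≤ ε * ‖x‖ ^ 2 := by
          rw [norm_smul, Real.norm_eq_abs, abs_of_nonneg ht.1]
          have e4 : t * ‖x‖ ≤ ‖x‖ := mul_le_of_le_one_left (norm_nonneg x) ht.2.le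
          have e5 := mul_le_mul_of_nonneg_left e4 hε.le
          have e6 := mul_le_mul_of_nonneg_right e5 (norm_nonneg x)
          calc ε * (t * ‖x‖) * ‖x‖ ≤ ε * ‖x‖ * ‖x‖ := e6
            _ = ε * ‖x‖ ^ 2 := by ring
  have h5 := norm_image_sub_le_of_norm_deriv_le_segment_01' hGd hbd
  rw [hG] at h5
  simp only [one_smul, zero_smul, h0] at h5
  norm_num at h5
  rw [← Real.norm_eq_abs]
  norm_num
  exact h5

lemma PP_lim {a b : ℂ} (him : 0 < ((starRingEnd ℂ) a * b).im) {c11 c12 c22 : ℝ}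
    (hab : c11 * a ^ 2 + 2 * c12 * a * b + c22 * b ^ 2 = 0)
    {ζ : E2 → ℝ} (hζ : ContDiff ℝ 2 ζ) (h0 : ζ 0 = 0) (h1 : fderiv ℝ ζ 0 = 0) :
    ∃ L : ℂ, ∀ δ > 0, ∃ s₀ > 0, ∀ s : ℝ, 0 < s → s < s₀ →
      ‖PP a b c11 c12 c22 ζ s - L‖ ≤ δ := by
  obtain ⟨B, hB⟩ := taylor2 hζ h0 h1
  have hΛ := Lop_continuous (c11 := c11) (c12 := c12) (c22 := c22)
    (FF_contDiff (a := a) (b := b) him)
  have hΛc := Lop_compact him hab
  have hΛz : ∀ y, 1 < ‖y‖ → Lop c11 c12 c22 (FF a b) y = 0 := fun y hy => Lop_FF_far him hab hy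
  set Λ := Lop c11 c12 c22 (FF a b) with hΛd
  have hBc : Continuous (fun y : E2 => (((1 / 2) * B y y : ℝ) : ℂ)) := by
    apply Complex.continuous_ofReal.comp
    have : Continuous fun y : E2 => B y y := (B.continuous).clm_apply continuous_id
    exact continuous_const.mul this
  set I := ∫ y, ‖Λ y‖ with hI
  have hI0 : 0 ≤ I := integral_nonneg fun y => norm_nonneg _
  have hΛn : Integrable (fun y => ‖Λ y‖) :=
    (hΛ.integrable_of_hasCompactSupport hΛc).norm
  refine ⟨∫ y, Λ y * (((1 / 2) * B y y : ℝ) : ℂ), fun δ hδ => ?_⟩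
  obtain ⟨s₀, hs₀, hs⟩ := hB (δ / (I + 1)) (by positivity)
  refine ⟨s₀, hs₀, fun s hs0 hss => ?_⟩
  have i1 : Integrable (fun y => Λ y * (((s ^ 2)⁻¹ * ζ (s • y) : ℝ) : ℂ)) := by
    refine integrable_mul_compact hΛ ?_ hΛc
    apply Complex.continuous_ofReal.comp
    exact continuous_const.mul (hζ.continuous.comp (continuous_const_smul s))
  have i2 : Integrable (fun y => Λ y * (((1 / 2) * B y y : ℝ) : ℂ)) :=
    integrable_mul_compact hΛ hBc hΛc
  rw [PP, ← hΛd, ← integral_sub i1 i2]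
  have hbd : ∀ y, ‖Λ y * (((s ^ 2)⁻¹ * ζ (s • y) : ℝ) : ℂ) - Λ y * (((1 / 2) * B y y : ℝ) : ℂ)‖ ≤
      (δ / (I + 1)) * ‖Λ y‖ := by
    intro y
    rw [← mul_sub, norm_mul, mul_comm]
    by_cases hy : 1 < ‖y‖
    · rw [hΛz y hy]; simp
    · push Not at hy
      apply mul_le_mul_of_nonneg_right _ (norm_nonneg _)
      rw [← Complex.ofReal_sub, Complex.norm_real, Real.norm_eq_abs]
      have e1 : ‖s • y‖ < s₀ := by
        rw [norm_smul, Real.norm_eq_abs, abs_of_pos hs0]
        have := norm_nonneg y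
        nlinarith
      have e2 := hs _ e1
      have e3 : (s ^ 2)⁻¹ * ζ (s • y) - 1 / 2 * B y y =
          (s ^ 2)⁻¹ * (ζ (s • y) - 1 / 2 * B (s • y) (s • y)) := by
        rw [map_smul, map_smul]
        simp only [smul_eq_mul, ContinuousLinearMap.smul_apply]
        field_simp
      rw [e3, abs_mul, abs_of_pos (by positivity : 0 < (s ^ 2)⁻¹)]
      rw [norm_smul, Real.norm_eq_abs, abs_of_pos hs0] at e2
      have hδI : 0 < δ / (I + 1) := by positivity
      calc (s ^ 2)⁻¹ * |ζ (s • y) - 1 / 2 * B (s • y) (s • y)| ≤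
            (s ^ 2)⁻¹ * (δ / (I + 1) * (s * ‖y‖) ^ 2) :=
            mul_le_mul_of_nonneg_left e2 (by positivity)
        _ = δ / (I + 1) * ‖y‖ ^ 2 := by field_simp
        _ ≤ δ / (I + 1) * 1 := by
            apply mul_le_mul_of_nonneg_left _ hδI.le
            have := norm_nonneg y
            nlinarith
        _ = δ / (I + 1) := mul_one _
  refine (norm_integral_le_of_norm_le (hΛn.const_mul _) (Filter.Eventually.of_forall hbd)).trans ?_
  rw [integral_const_mul, ← hI]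
  rw [div_mul_eq_mul_div, div_le_iff₀ (by linarith)]
  nlinarith

lemma sub_poly {ζ : E2 → ℝ} (hζ : ContDiff ℝ 2 ζ) (c11 c12 c22 c : ℝ) (hc : c11 ≠ 0) :
    ∃ ζ₁ : E2 → ℝ, ContDiff ℝ 2 ζ₁ ∧ ζ₁ 0 = 0 ∧ fderiv ℝ ζ₁ 0 = 0 ∧
      ∀ x, LR c11 c12 c22 ζ₁ x = LR c11 c12 c22 ζ x - c := by
  set D := fderiv ℝ ζ 0 with hD
  set π : E2 →L[ℝ] ℝ := EuclideanSpace.proj (0 : Fin 2) with hπ
  set p : E2 → ℝ := fun x => ζ 0 + D x + (c / (2 * c11)) * (π x) ^ 2 with hp
  have hpc : ContDiff ℝ 2 p :=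
    (contDiff_const.add D.contDiff).add (contDiff_const.mul (π.contDiff.pow 2))
  have hp1 : ∀ x, HasFDerivAt p (D + (c / (2 * c11)) • ((2 * π x) • π)) x := by
    intro x
    have e1 : HasFDerivAt (fun x => (π x) ^ 2) ((2 * π x) • π) x := by
      have := π.hasFDerivAt (x := x) |>.pow 2
      refine this.congr_fderiv ?_
      ext v
      simp
    exact ((D.hasFDerivAt.const_add (ζ 0)).add (e1.const_mul _))
  have hpd1 : ∀ j, pd j p = fun x => D (EuclideanSpace.single j 1) +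
      (c / c11) * π (EuclideanSpace.single j 1) * π x := by
    intro j
    funext x
    unfold pd
    rw [(hp1 x).fderiv]
    simp
    field_simp
  have hpd2 : ∀ i j x, pd i (pd j p) x =
      (c / c11) * π (EuclideanSpace.single j 1) * π (EuclideanSpace.single i 1) := by
    intro i j x
    rw [hpd1]
    unfold pd
    have e1 : HasFDerivAt (fun x => D (EuclideanSpace.single j 1) +
      (c / c11) * π (EuclideanSpace.single j 1) * π x)
        (((c / c11) * π (EuclideanSpace.single j 1)) • π) x :=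
      (π.hasFDerivAt.const_mul _).const_add _
    rw [e1.fderiv]
    simp
  refine ⟨fun x => ζ x - p x, hζ.sub hpc, ?_, ?_, ?_⟩
  · rw [hp]; simp
  · have e1 := ((hζ.differentiable (by norm_num) 0).hasFDerivAt).sub (hp1 0)
    have e2 : (fun x => ζ x - p x) = ζ - p := rfl
    rw [e2, e1.fderiv]
    simp [hD]
  · intro x
    unfold LR
    rw [pd2_sub hζ hpc, pd2_sub hζ hpc, pd2_sub hζ hpc]
    simp only [hpd2]
    have e0 : π (EuclideanSpace.single 0 1) = 1 := by simp [hπ]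
    have e1 : π (EuclideanSpace.single 1 1) = 0 := by simp [hπ]
    rw [e0, e1]
    field_simp
    ring

lemma blk_continuous {β : E2 → ℝ} (hβ : Continuous β) (m : ℕ) : Continuous (blk m β) := by
  unfold blk
  refine continuous_const.mul (continuous_finsetSum _ fun i _ => ?_)
  exact hβ.comp (continuous_const_smul _)

/-- one scale -/
lemma scale_id
    (ibp_twice : ∀ (ψ : E2 → ℂ) (ζ : E2 → ℝ), ContDiff ℝ 2 ψ → HasCompactSupport ψ →
      ContDiff ℝ 2 ζ → ∀ (i j : Fin 2),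
      ∫ x, ψ x * ((pd i (pd j ζ) x : ℝ) : ℂ) = ∫ x, pd i (pd j ψ) x * ((ζ x : ℝ) : ℂ))
    {a b : ℂ} (him : 0 < ((starRingEnd ℂ) a * b).im) {c11 c12 c22 : ℝ}
    (hab : c11 * a ^ 2 + 2 * c12 * a * b + c22 * b ^ 2 = 0)
    {ζ : E2 → ℝ} (hζ : ContDiff ℝ 2 ζ) {β : E2 → ℝ}
    (hβ : Continuous β) (hβs : ∀ y, β y ≠ 0 → 1 < ‖y‖ ∧ ‖y‖ < 3 / 2) (ε : ℝ) (m : ℕ)
    {s : ℝ} (hs : 0 < s) :
    ∫ y, ph a b y * ((LR c11 c12 c22 ζ (s • y) - ε * blk m β (s • y) : ℝ) : ℂ) =
      (PP a b c11 c12 c22 ζ (s / 2) - PP a b c11 c12 c22 ζ s) -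
      ε * (((2 : ℂ) ^ m)⁻¹ * ∑ i ∈ Finset.Ico (2 ^ m) (2 ^ (m + 1)),
        (NN a b β (2 ^ i * (s / 2)) - NN a b β (2 ^ i * s))) := by
  have hphc := (ph_contDiff (a := a) (b := b) him).continuous
  have hLc : Continuous (LR c11 c12 c22 ζ) := by
    unfold LR
    have h1 := pd2_continuous hζ 0 0
    have h2 := pd2_continuous hζ 0 1
    have h3 := pd2_continuous hζ 1 1
    fun_prop
  have i1 : Integrable (fun y => ph a b y * ((LR c11 c12 c22 ζ (s • y) : ℝ) : ℂ)) :=
    integrable_mul_compact hphc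
      (Complex.continuous_ofReal.comp (hLc.comp (continuous_const_smul s))) ph_compact
  have i3 : ∀ i : ℕ, Integrable (fun y => ph a b y * ((β (((2 : ℝ) ^ i * s) • y) : ℝ) : ℂ)) :=
    fun i => integrable_mul_compact hphc
      (Complex.continuous_ofReal.comp (hβ.comp (continuous_const_smul _))) ph_compact
  have i4 : Integrable (fun y => ∑ i ∈ Finset.Ico (2 ^ m) (2 ^ (m + 1)),
      ph a b y * ((β (((2 : ℝ) ^ i * s) • y) : ℝ) : ℂ)) :=
    integrable_finsetSum _ fun i _ => i3 i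
  have l1 : (fun y => ph a b y * ((LR c11 c12 c22 ζ (s • y) - ε * blk m β (s • y) : ℝ) : ℂ)) =
      fun y => ph a b y * ((LR c11 c12 c22 ζ (s • y) : ℝ) : ℂ) -
        ((ε : ℂ) * ((2 : ℂ) ^ m)⁻¹) * ∑ i ∈ Finset.Ico (2 ^ m) (2 ^ (m + 1)),
          ph a b y * ((β (((2 : ℝ) ^ i * s) • y) : ℝ) : ℂ) := by
    funext y
    unfold blk
    simp only [smul_smul]
    push_cast
    rw [← Finset.mul_sum]
    ring
  rw [l1, integral_sub i1 (i4.const_mul _), integral_const_mul,
    integral_finsetSum _ (fun i _ => i3 i), int_id ibp_twice him hab hζ hs, mul_assoc]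
  congr 2
  congr 1
  apply Finset.sum_congr rfl
  intro i _
  rw [NN_id him hβ hβs (by positivity)]
  congr 2
  ring

/-- linear divergence lemma (`ibp_twice` is proved in another job and given here as hypothesis) -/
theorem LDL
    (ibp_twice : ∀ (ψ : E2 → ℂ) (ζ : E2 → ℝ), ContDiff ℝ 2 ψ → HasCompactSupport ψ →
      ContDiff ℝ 2 ζ → ∀ (i j : Fin 2),
      ∫ x, ψ x * ((pd i (pd j ζ) x : ℝ) : ℂ) = ∫ x, pd i (pd j ψ) x * ((ζ x : ℝ) : ℂ))
    (ζ : E2 → ℝ) (hζ : ContDiff ℝ 2 ζ) (c11 c12 c22 : ℝ) (hc : c11 ≠ 0) (a b : ℂ)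
    (hab : c11 * a ^ 2 + 2 * c12 * a * b + c22 * b ^ 2 = 0)
    (him : 0 < ((starRingEnd ℂ) a * b).im)
    (β : E2 → ℝ) (hβ : Continuous β) (hβs : ∀ y, β y ≠ 0 → 1 < ‖y‖ ∧ ‖y‖ < 3 / 2)
    (c ε K r : ℝ) (hr : 0 < r) (hε : ε ≠ 0)
    (hmain : ∀ (m : ℕ) (x : E2), ‖x‖ < r → Ann m x →
      |c11 * pd 0 (pd 0 ζ) x + 2 * c12 * pd 0 (pd 1 ζ) x + c22 * pd 1 (pd 1 ζ) x
        - c - ε * blk m β x| ≤ K * ‖x‖) :
    ∫ y, ((β y : ℝ) : ℂ) / (a * (y 0 : ℝ) + b * (y 1 : ℝ)) ^ 2 = 0 := by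
  obtain ⟨ζ₁, hζ₁, h0, h1, hL⟩ := sub_poly hζ c11 c12 c22 c hc
  obtain ⟨L, hLim⟩ := PP_lim him hab hζ₁ h0 h1
  set J := ∫ y, ((β y : ℝ) : ℂ) / (a * (y 0 : ℝ) + b * (y 1 : ℝ)) ^ 2 with hJ
  have hphc := (ph_contDiff (a := a) (b := b) him).continuous
  have hphn : Integrable (fun y => ‖ph a b y‖) :=
    (hphc.integrable_of_hasCompactSupport ph_compact).norm
  set C := ∫ y, ‖ph a b y‖ with hC
  have hC0 : 0 ≤ C := integral_nonneg fun y => norm_nonneg _
  have hKabs : 0 ≤ |K| := abs_nonneg K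
  have key : ∀ δ > 0, ‖(ε : ℂ) * J‖ ≤ 3 * δ := by
    intro δ hδ
    obtain ⟨s₀, hs₀, hs⟩ := hLim δ hδ
    set η : ℝ := min (min s₀ r) (δ / (2 * |K| * C + 1)) with hη
    have hηpos : 0 < η := by
      refine lt_min (lt_min hs₀ hr) (by positivity)
    obtain ⟨m, hm⟩ := exists_pow_lt_of_lt_one hηpos (show (1 / 2 : ℝ) < 1 by norm_num)
    set A : ℕ := 2 ^ m - 1 with hA
    have hmA : m ≤ A := by
      have : m < 2 ^ m := Nat.lt_two_pow_self
      omega
    have hA1 : A + 1 = 2 ^ m := by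
      have : 0 < 2 ^ m := by positivity
      omega
    set s : ℕ → ℝ := fun l => (1 / 2 : ℝ) ^ (A + l) with hsd
    have hs0 : ∀ l, 0 < s l := fun l => by positivity
    have hsle : ∀ l, s l ≤ (1 / 2 : ℝ) ^ m := fun l =>
      pow_le_pow_of_le_one (by norm_num) (by norm_num) (by omega)
    have hsη : ∀ l, s l < η := fun l => (hsle l).trans_lt hm
    have hshalf : ∀ l, s l / 2 = s (l + 1) := fun l => by
      rw [hsd]
      simp only
      rw [← add_assoc, pow_succ]
      ring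
    set D : ℕ → ℂ := fun l => ∫ y, ph a b y *
      ((LR c11 c12 c22 ζ₁ (s l • y) - ε * blk m β (s l • y) : ℝ) : ℂ) with hD
    -- the errors
    have hDb : ∀ l < 2 ^ m, ‖D l‖ ≤ |K| * s l * C := by
      intro l hl
      have hbd : ∀ y, ‖ph a b y *
          ((LR c11 c12 c22 ζ₁ (s l • y) - ε * blk m β (s l • y) : ℝ) : ℂ)‖ ≤
            (|K| * s l) * ‖ph a b y‖ := by
        intro y
        rw [norm_mul, mul_comm]
        by_cases hy1 : ‖y‖ ≤ 3 / 8
        · rw [ph_small hy1]; simp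
        by_cases hy2 : 1 ≤ ‖y‖
        · rw [ph_large hy2]; simp
        push Not at hy1 hy2
        apply mul_le_mul_of_nonneg_right _ (norm_nonneg _)
        rw [Complex.norm_real, Real.norm_eq_abs, hL]
        have hn : ‖s l • y‖ = s l * ‖y‖ := by
          rw [norm_smul, Real.norm_eq_abs, abs_of_pos (hs0 l)]
        have hr' : ‖s l • y‖ < r := by
          rw [hn]
          have e1 := hsη l
          have e2 : η ≤ r := (min_le_left _ _).trans (min_le_right _ _)
          have e3 := hs0 l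
          nlinarith
        have hann : Ann m (s l • y) := by
          unfold Ann
          rw [hn]
          constructor
          · have e1 : s (2 ^ m - 1) ≤ s l :=
              pow_le_pow_of_le_one (by norm_num) (by norm_num) (by omega)
            have e2 : s (2 ^ m - 1) = 4 * ((2 : ℝ) ^ (2 ^ (m + 1)))⁻¹ := by
              have e3 : A + (2 ^ m - 1) + 2 = 2 ^ (m + 1) := by
                rw [pow_succ]
                have : 0 < 2 ^ m := by positivity
                omega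
              rw [← e3, pow_add, hsd]
              simp only [one_div, inv_pow]
              field_simp
              norm_num
            have e4 : 0 < ((2 : ℝ) ^ (2 ^ (m + 1)))⁻¹ := by positivity
            nlinarith [hs0 l]
          · have e1 : s l ≤ s 0 :=
              pow_le_pow_of_le_one (by norm_num) (by norm_num) (by omega)
            have e2 : s 0 = 2 * ((2 : ℝ) ^ (2 ^ m))⁻¹ := by
              rw [← hA1, pow_succ, hsd]
              simp only [one_div, inv_pow, add_zero]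
              field_simp
            rw [← e2]
            have e3 := hs0 l
            nlinarith
        have e5 := hmain m (s l • y) hr' hann
        have e6 : LR c11 c12 c22 ζ (s l • y) - c - ε * blk m β (s l • y) =
            c11 * pd 0 (pd 0 ζ) (s l • y) + 2 * c12 * pd 0 (pd 1 ζ) (s l • y) +
              c22 * pd 1 (pd 1 ζ) (s l • y) - c - ε * blk m β (s l • y) := rfl
        rw [e6]
        refine e5.trans ?_
        rw [hn]
        have e7 : K ≤ |K| := le_abs_self K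
        have e8 := hs0 l
        have e9 : s l * ‖y‖ ≤ s l := by nlinarith
        have e10 : 0 ≤ s l * ‖y‖ := by positivity
        calc K * (s l * ‖y‖) ≤ |K| * (s l * ‖y‖) := mul_le_mul_of_nonneg_right e7 e10
          _ ≤ |K| * s l := mul_le_mul_of_nonneg_left e9 hKabs
      refine (norm_integral_le_of_norm_le (hphn.const_mul _)
        (Filter.Eventually.of_forall hbd)).trans ?_
      rw [integral_const_mul]
    -- the telescoping sum
    have hDval : ∀ l, D l = (PP a b c11 c12 c22 ζ₁ (s (l + 1)) - PP a b c11 c12 c22 ζ₁ (s l)) -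
        ε * (((2 : ℂ) ^ m)⁻¹ * ∑ i ∈ Finset.Ico (2 ^ m) (2 ^ (m + 1)),
          (NN a b β (2 ^ i * s (l + 1)) - NN a b β (2 ^ i * s l))) := by
      intro l
      rw [hD]
      simp only
      rw [scale_id ibp_twice him hab hζ₁ hβ hβs ε m (hs0 l), hshalf]
    have hsum : ∑ l ∈ Finset.range (2 ^ m), D l =
        (PP a b c11 c12 c22 ζ₁ (s (2 ^ m)) - PP a b c11 c12 c22 ζ₁ (s 0)) - ε * J := by
      simp only [hDval]
      rw [Finset.sum_sub_distrib, ← Finset.mul_sum, ← Finset.mul_sum, Finset.sum_comm]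
      have e1 : ∑ l ∈ Finset.range (2 ^ m),
          (PP a b c11 c12 c22 ζ₁ (s (l + 1)) - PP a b c11 c12 c22 ζ₁ (s l)) =
          PP a b c11 c12 c22 ζ₁ (s (2 ^ m)) - PP a b c11 c12 c22 ζ₁ (s 0) :=
        Finset.sum_range_sub (fun l => PP a b c11 c12 c22 ζ₁ (s l)) (2 ^ m)
      have e2 : ∀ i ∈ Finset.Ico (2 ^ m) (2 ^ (m + 1)), ∑ l ∈ Finset.range (2 ^ m),
          (NN a b β (2 ^ i * s (l + 1)) - NN a b β (2 ^ i * s l)) = J := by
        intro i hi
        rw [Finset.mem_Ico] at hi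
        rw [Finset.sum_range_sub (fun l => NN a b β (2 ^ i * s l)) (2 ^ m)]
        have e3 : NN a b β (2 ^ i * s 0) = 0 := by
          apply NN_zero hβs
          have e4 : (2 : ℝ) ^ i * s 0 = 2 ^ (i - A) := by
            rw [hsd]
            simp only [one_div, inv_pow, add_zero]
            rw [← div_eq_mul_inv, div_eq_iff (by positivity), ← pow_add]
            congr 1
            omega
          rw [e4]
          calc (2 : ℝ) = 2 ^ 1 := (pow_one _).symm
            _ ≤ 2 ^ (i - A) := pow_le_pow_right₀ (by norm_num) (by omega)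
        have e5 : NN a b β (2 ^ i * s (2 ^ m)) = J := by
          apply NN_one hβs (by positivity)
          rw [hsd]
          simp only [one_div, inv_pow]
          rw [← div_eq_mul_inv, div_le_one (by positivity)]
          apply pow_le_pow_right₀ (by norm_num)
          have : 2 ^ (m + 1) = 2 ^ m + 2 ^ m := by rw [pow_succ]; ring
          omega
        simp only [e3, e5, sub_zero]
      rw [e1, Finset.sum_congr rfl e2, Finset.sum_const, Nat.card_Ico]
      have e6 : 2 ^ (m + 1) - 2 ^ m = 2 ^ m := by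
        rw [pow_succ]; omega
      rw [e6]
      have e7 : ((2 : ℂ) ^ m) ≠ 0 := pow_ne_zero _ two_ne_zero
      rw [nsmul_eq_mul]
      push_cast
      field_simp
    have hεJ : (ε : ℂ) * J = (PP a b c11 c12 c22 ζ₁ (s (2 ^ m)) - L) -
        (PP a b c11 c12 c22 ζ₁ (s 0) - L) - ∑ l ∈ Finset.range (2 ^ m), D l := by
      rw [hsum]; ring
    have hsums : ∑ l ∈ Finset.range (2 ^ m), s l ≤ 2 * s 0 := by
      have e1 : ∀ n : ℕ, ∑ l ∈ Finset.range n, s l = 2 * s 0 - 2 * s n := by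
        intro n
        induction n with
        | zero => simp
        | succ n ih =>
          rw [Finset.sum_range_succ, ih, ← hshalf n]
          ring
      rw [e1]
      have := hs0 (2 ^ m)
      linarith
    have hDs : ‖∑ l ∈ Finset.range (2 ^ m), D l‖ ≤ δ := by
      calc ‖∑ l ∈ Finset.range (2 ^ m), D l‖ ≤ ∑ l ∈ Finset.range (2 ^ m), ‖D l‖ :=
            norm_sum_le _ _
        _ ≤ ∑ l ∈ Finset.range (2 ^ m), |K| * s l * C :=
            Finset.sum_le_sum fun l hl => hDb l (Finset.mem_range.1 hl)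
        _ = |K| * C * ∑ l ∈ Finset.range (2 ^ m), s l := by
            rw [Finset.mul_sum]
            apply Finset.sum_congr rfl
            intro l _
            ring
        _ ≤ |K| * C * (2 * s 0) := mul_le_mul_of_nonneg_left hsums (by positivity)
        _ = (2 * |K| * C) * s 0 := by ring
        _ ≤ (2 * |K| * C + 1) * (δ / (2 * |K| * C + 1)) := by
            apply mul_le_mul (by linarith) _ (hs0 0).le (by positivity)
            exact (hsη 0).le.trans (min_le_right _ _)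
        _ = δ := by field_simp
    have e1 := hs (s (2 ^ m)) (hs0 _) ((hsη _).trans_le ((min_le_left _ _).trans (min_le_left _ _)))
    have e2 := hs (s 0) (hs0 _) ((hsη _).trans_le ((min_le_left _ _).trans (min_le_left _ _)))
    rw [hεJ]
    refine (norm_sub_le _ _).trans ?_
    have e3 := norm_sub_le (PP a b c11 c12 c22 ζ₁ (s (2 ^ m)) - L)
      (PP a b c11 c12 c22 ζ₁ (s 0) - L)
    linarith
  have h2 : ‖(ε : ℂ) * J‖ ≤ 0 := by
    apply le_of_forall_pos_le_add
    intro δ hδ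
    have := key (δ / 3) (by positivity)
    linarith
  have h3 : (ε : ℂ) * J = 0 := norm_le_zero_iff.1 h2
  rcases mul_eq_zero.1 h3 with h | h
  · exact absurd (by exact_mod_cast h) hε
  · exact h



end J9679
end H575Germ
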