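import Pool.Agent.Helper575.Germ.Defs

open scoped RealInnerProductSpace Topology ContDiff
open MeasureTheory Metric

namespace H575Germ
namespace J9686


theorem contDiff_pd_aux {F : Type*} [NormedAddCommGroup F] [NormedSpace ℝ F] (l : ℕ) (i : Fin 2)
    (h : E2 → F) (hh : ContDiff ℝ (l + 1 : ℕ) h) : ContDiff ℝ l (pd i h) := by
  unfold pd
  have h1 : ContDiff ℝ l (fderiv ℝ h) := hh.fderiv_right (by norm_cast)
  exact h1.clm_apply contDiff_const

theorem contDiff_pd_iter_aux {F : Type*} [NormedAddCommGroup F] [NormedSpace ℝ F] (n : ℕ) :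
    ∀ (l : ℕ) (h : E2 → F), ContDiff ℝ (n + l : ℕ) h → ContDiff ℝ l ((pd 0)^[n] h) := by
  induction n with
  | zero =>
    intro l h hh
    rw [zero_add] at hh
    exact hh
  | succ n ih =>
    intro l h hh
    rw [Function.iterate_succ_apply]
    apply ih
    apply contDiff_pd_aux
    have e : n + l + 1 = n + 1 + l := by omega
    rw [e]
    exact hh

theorem pd_add_aux {F : Type*} [NormedAddCommGroup F] [NormedSpace ℝ F] (i : Fin 2)
    (f g : E2 → F) (x : E2) (hf : DifferentiableAt ℝ f x) (hg : DifferentiableAt ℝ g x) :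
    pd i (fun y => f y + g y) x = pd i f x + pd i g x := by
  unfold pd
  rw [fderiv_fun_add hf hg]
  rfl

theorem pd_inner_aux (i : Fin 2) (a b : E2 → E3) (x : E2) (ha : DifferentiableAt ℝ a x)
    (hb : DifferentiableAt ℝ b x) :
    pd i (fun y => ⟪a y, b y⟫) x = ⟪pd i a x, b x⟫ + ⟪a x, pd i b x⟫ := by
  unfold pd
  rw [fderiv_inner_apply ℝ ha hb]
  ring

theorem leibniz_aux (n : ℕ) (hn : 1 ≤ n) : ∀ (l : ℕ) (a b : E2 → E3),
    ContDiff ℝ (n + l : ℕ) a → ContDiff ℝ (n + l : ℕ) b →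
    ContDiff ℝ (l + 1 : ℕ) (fun x => ((pd 0)^[n] (fun y => ⟪a y, b y⟫)) x
      - ⟪((pd 0)^[n] a) x, b x⟫ - ⟪a x, ((pd 0)^[n] b) x⟫) := by
  induction n, hn using Nat.le_induction with
  | base =>
    intro l a b ha hb
    have ha' : Differentiable ℝ a := ha.differentiable (by norm_cast; omega)
    have hb' : Differentiable ℝ b := hb.differentiable (by norm_cast; omega)
    have e : (fun x => ((pd 0)^[1] (fun y => ⟪a y, b y⟫)) x
      - ⟪((pd 0)^[1] a) x, b x⟫ - ⟪a x, ((pd 0)^[1] b) x⟫) = fun _ => (0 : ℝ) := by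
      funext x
      simp only [Function.iterate_one]
      rw [pd_inner_aux 0 a b x (ha' x) (hb' x)]
      ring
    rw [e]
    exact contDiff_const
  | succ n hn ih =>
    intro l a b ha hb
    have e0 : n + 1 + l = n + (l + 1) := by omega
    rw [e0] at ha hb
    have hr := ih (l + 1) a b ha hb
    set r : E2 → ℝ := fun x => ((pd 0)^[n] (fun y => ⟪a y, b y⟫)) x
      - ⟪((pd 0)^[n] a) x, b x⟫ - ⟪a x, ((pd 0)^[n] b) x⟫ with hrdef
    have hna : ContDiff ℝ (l + 1 : ℕ) ((pd 0)^[n] a) := contDiff_pd_iter_aux n (l + 1) a ha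
    have hnb : ContDiff ℝ (l + 1 : ℕ) ((pd 0)^[n] b) := contDiff_pd_iter_aux n (l + 1) b hb
    have h1a : ContDiff ℝ (l + 1 : ℕ) (pd 0 a) := by
      apply contDiff_pd_aux
      exact ha.of_le (by norm_cast; omega)
    have h1b : ContDiff ℝ (l + 1 : ℕ) (pd 0 b) := by
      apply contDiff_pd_aux
      exact hb.of_le (by norm_cast; omega)
    have hrp : ContDiff ℝ (l + 1 : ℕ) (pd 0 r) := contDiff_pd_aux (l + 1) 0 r hr
    have da : Differentiable ℝ a := ha.differentiable (by norm_cast)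
    have db : Differentiable ℝ b := hb.differentiable (by norm_cast)
    have dna : Differentiable ℝ ((pd 0)^[n] a) := hna.differentiable (by norm_cast)
    have dnb : Differentiable ℝ ((pd 0)^[n] b) := hnb.differentiable (by norm_cast)
    have dr : Differentiable ℝ r := hr.differentiable (by norm_cast)
    have e : (fun x => ((pd 0)^[n + 1] (fun y => ⟪a y, b y⟫)) x
      - ⟪((pd 0)^[n + 1] a) x, b x⟫ - ⟪a x, ((pd 0)^[n + 1] b) x⟫) =
      fun x => pd 0 r x + ⟪((pd 0)^[n] a) x, pd 0 b x⟫ + ⟪pd 0 a x, ((pd 0)^[n] b) x⟫ := by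
      funext x
      have e1 : ((pd 0)^[n] (fun y => ⟪a y, b y⟫)) =
          fun y => (r y + ⟪((pd 0)^[n] a) y, b y⟫) + ⟪a y, ((pd 0)^[n] b) y⟫ := by
        funext y
        rw [hrdef]
        ring
      rw [Function.iterate_succ_apply', Function.iterate_succ_apply', Function.iterate_succ_apply',
        e1, pd_add_aux 0 (fun y => r y + ⟪((pd 0)^[n] a) y, b y⟫)
          (fun y => ⟪a y, ((pd 0)^[n] b) y⟫) x
          ((dr x).add ((dna x).inner ℝ (db x))) ((da x).inner ℝ (dnb x)),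
        pd_add_aux 0 r (fun y => ⟪((pd 0)^[n] a) y, b y⟫) x (dr x) ((dna x).inner ℝ (db x)),
        pd_inner_aux 0 ((pd 0)^[n] a) b x (dna x) (db x),
        pd_inner_aux 0 a ((pd 0)^[n] b) x (da x) (dnb x)]
      ring
    rw [e]
    exact (hrp.add (hna.inner ℝ h1b)).add (h1a.inner ℝ hnb)

theorem pd_comm_aux {F : Type*} [NormedAddCommGroup F] [NormedSpace ℝ F] (i j : Fin 2)
    (h : E2 → F) (hh : ContDiff ℝ 2 h) (x : E2) : pd i (pd j h) x = pd j (pd i h) x := by
  have h1 : ContDiff ℝ 1 (fderiv ℝ h) := hh.fderiv_right (by norm_num)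
  have hd : DifferentiableAt ℝ (fderiv ℝ h) x := h1.differentiable (by norm_num) x
  have key : ∀ i j : Fin 2, pd i (pd j h) x =
      fderiv ℝ (fderiv ℝ h) x (EuclideanSpace.single i 1) (EuclideanSpace.single j 1) := by
    intro i j
    unfold pd
    rw [fderiv_clm_apply hd (differentiableAt_const _)]
    simp
  rw [key i j, key j i]
  have hs : IsSymmSndFDerivAt ℝ h x := hh.contDiffAt.isSymmSndFDerivAt (by simp)
  exact hs _ _

theorem T_comm_aux {F : Type*} [NormedAddCommGroup F] [NormedSpace ℝ F] (n : ℕ) (i j : Fin 2) :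
    ∀ (h : E2 → F), ContDiff ℝ (n + 2 : ℕ) h →
      pd i (pd j ((pd 0)^[n] h)) = (pd 0)^[n] (pd i (pd j h)) := by
  induction n with
  | zero =>
    intro h hh
    rfl
  | succ n ih =>
    intro h hh
    rw [Function.iterate_succ_apply, Function.iterate_succ_apply]
    have h0 : ContDiff ℝ (n + 2 : ℕ) (pd 0 h) := by
      apply contDiff_pd_aux
      exact hh.of_le (by norm_cast)
    have hj : ContDiff ℝ (n + 2 : ℕ) (pd j h) := by
      apply contDiff_pd_aux
      exact hh.of_le (by norm_cast)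
    rw [ih (pd 0 h) h0]
    congr 1
    have e1 : pd j (pd 0 h) = pd 0 (pd j h) :=
      funext (fun x => pd_comm_aux j 0 h (hh.of_le (by norm_cast; omega)) x)
    have e2 : pd i (pd 0 (pd j h)) = pd 0 (pd i (pd j h)) :=
      funext (fun x => pd_comm_aux i 0 (pd j h) (hj.of_le (by norm_cast; omega)) x)
    rw [e1, e2]

/-- Leibniz rule modulo lower order terms -/
theorem leibniz_rem (n : ℕ) (hn : 1 ≤ n) (l : ℕ) (a b : E2 → E3)
    (ha : ContDiff ℝ (n + l : ℕ) a) (hb : ContDiff ℝ (n + l : ℕ) b) :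
    ContDiff ℝ (l + 1 : ℕ) (fun x => ((pd 0)^[n] (fun y => ⟪a y, b y⟫)) x
      - ⟪((pd 0)^[n] a) x, b x⟫ - ⟪a x, ((pd 0)^[n] b) x⟫) :=
  leibniz_aux n hn l a b ha hb

theorem contDiff_pd_iter {F : Type*} [NormedAddCommGroup F] [NormedSpace ℝ F] (n l : ℕ)
    (h : E2 → F) (hh : ContDiff ℝ (n + l : ℕ) h) : ContDiff ℝ l ((pd 0)^[n] h) :=
  contDiff_pd_iter_aux n l h hh

theorem contDiff_pd {F : Type*} [NormedAddCommGroup F] [NormedSpace ℝ F] (l : ℕ) (i : Fin 2)
    (h : E2 → F) (hh : ContDiff ℝ (l + 1 : ℕ) h) : ContDiff ℝ l (pd i h) :=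
  contDiff_pd_aux l i h hh

theorem pd_comm {F : Type*} [NormedAddCommGroup F] [NormedSpace ℝ F] (i j : Fin 2)
    (h : E2 → F) (hh : ContDiff ℝ 2 h) (x : E2) : pd i (pd j h) x = pd j (pd i h) x :=
  pd_comm_aux i j h hh x

/-- `∂_0^n` commutes with `∂_i ∂_j` -/
theorem T_comm {F : Type*} [NormedAddCommGroup F] [NormedSpace ℝ F] (n : ℕ) (i j : Fin 2)
    (h : E2 → F) (hh : ContDiff ℝ (n + 2 : ℕ) h) : T n i j h = (pd 0)^[n] (pd i (pd j h)) :=
  T_comm_aux n i j h hh


end J9686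
end H575Germ
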