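import Pool.Agent.Helper575.Germ.Glue
import Pool.Agent.Helper575.Germ.J10239
import Pool.Agent.Helper575.Germ.J10240
import Pool.Agent.Helper575.Germ.J10241
import Pool.Agent.Helper575.Germ.J10242
import Pool.Agent.Helper575.Germ.J10243
import Pool.Agent.Helper575.Germ.J10244

open scoped RealInnerProductSpace Topology ContDiff
open MeasureTheory Metric Filter

namespace H575Germ

theorem continuous_blk (β : E2 → ℝ) (hβ : Continuous β) (m : ℕ) : Continuous (blk m β) := by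
  unfold blk
  refine continuous_const.mul (continuous_finsetSum _ fun i _ => ?_)
  exact hβ.comp (continuous_const_smul _)

/-- nonlinear divergence lemma -/
theorem NDL (z : E2 → ℝ) (hz : ContDiff ℝ 2 z) (hz1 : pd 1 z 0 = 0)
    (A01 A11 s : ℝ) (h01 : pd 0 (pd 1 z) 0 = A01)
    (h11 : pd 1 (pd 1 z) 0 = A11) (hA : 0 < A11) (hs : 0 < s)
    (β : E2 → ℝ) (hβ : Continuous β) (hβs : ∀ y, β y ≠ 0 → 1 < ‖y‖ ∧ ‖y‖ < 3 / 2)
    (ε K r : ℝ) (hr : 0 < r) (hε : ε ≠ 0)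
    (hmain : ∀ (m : ℕ) (x : E2), ‖x‖ < r → Ann m x →
      |pd 0 (pd 0 z) x * pd 1 (pd 1 z) x - (pd 0 (pd 1 z) x) ^ 2 - s ^ 2 - ε * blk m β x|
        ≤ K * (‖x‖ + ((2:ℝ) ^ (2 * m))⁻¹)) :
    ∫ y, ((β y : ℝ) : ℂ) / ((s + Complex.I * A01) * (y 0 : ℝ) + (Complex.I * A11) * (y 1 : ℝ)) ^ 2
      = 0 := by
  have hzp : ∀ i, ContDiff ℝ 1 (pd i z) := fun i =>
    contDiff_pd 1 i z (by exact_mod_cast hz)
  have hzpp : ∀ i j, Continuous (pd i (pd j z)) := fun i j => by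
    have := contDiff_pd 0 i (pd j z) (by exact_mod_cast hzp j)
    exact this.continuous
  set Θ : E2 → E2 := fun x => !₂[x 0, pd 1 z x] with hΘdef
  have hΘc : Continuous Θ := by
    have h1 : Continuous (pd 1 z) := (hzp 1).continuous
    rw [hΘdef]
    fun_prop
  have hΘ : ∀ δ > 0, ∃ ρ > 0, ∀ x : E2, ‖x‖ ≤ ρ →
      ‖Θ x - !₂[x 0, A01 * x 0 + A11 * x 1]‖ ≤ δ * ‖x‖ := fun δ hδ =>
    J10241.theta_asymp z hz hz1 A01 A11 h01 h11 δ hδ
  obtain ⟨Λ, Φ, C1, hΛc, hΛs, hΦ⟩ := J10239.testfun s hs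
  obtain ⟨c, C, hc, hC, hcC⟩ := J10241.theta0_bounds A01 A11 hA
  set D : E2 → ℝ := fun x => pd 0 (pd 0 z) x * pd 1 (pd 1 z) x - (pd 0 (pd 1 z) x) ^ 2 - s ^ 2
    with hD
  have hDc : Continuous D := by
    have := hzpp 0 0; have := hzpp 1 1; have := hzpp 0 1
    rw [hD]; fun_prop
  set F : ℕ → ℕ → E2 → ℂ := fun a b => pd 1 (Φ a b) with hF
  have hFc : ∀ a b, a < b → Continuous (F a b) := by
    intro a b hab
    have := contDiff_pd 0 1 (Φ a b) (((hΦ a b hab).1).of_le (by exact_mod_cast le_top))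
    exact this.continuous
  have hFsupp : ∀ a b, a < b → ∀ P, F a b P ≠ 0 →
      (3 / 4) * ((2:ℝ) ^ b)⁻¹ ≤ ‖P‖ ∧ ‖P‖ ≤ ((2:ℝ) ^ a)⁻¹ := by
    intro a b hab P hP
    -- the support of the derivative is contained in the closed support
    have hcl : IsClosed {Q : E2 | (3 / 4) * ((2:ℝ) ^ b)⁻¹ ≤ ‖Q‖ ∧ ‖Q‖ ≤ ((2:ℝ) ^ a)⁻¹} :=
      (isClosed_le continuous_const continuous_norm).inter
        (isClosed_le continuous_norm continuous_const)
    by_contra hn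
    have hnb : ∀ᶠ Q in 𝓝 P, Φ a b Q = 0 := by
      have : ∀ᶠ Q in 𝓝 P, Q ∉ {Q : E2 | (3 / 4) * ((2:ℝ) ^ b)⁻¹ ≤ ‖Q‖ ∧ ‖Q‖ ≤ ((2:ℝ) ^ a)⁻¹} :=
        hcl.isOpen_compl.eventually_mem hn
      filter_upwards [this] with Q hQ
      by_contra h
      exact hQ ((hΦ a b hab).2.1 Q h)
    apply hP
    have : Φ a b =ᶠ[𝓝 P] fun _ => 0 := hnb
    simp only [hF, pd]
    rw [this.fderiv_eq]
    simp
  have hFb : ∀ a b, a < b → ∀ P, ‖F a b P‖ * ‖P‖ ^ 2 ≤ C1 := fun a b hab => (hΦ a b hab).2.2.1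
  have hFm : ∀ a b, a < b → ∀ P, ((2:ℝ) ^ b)⁻¹ < ‖P‖ → ‖P‖ < (3 / 4) * ((2:ℝ) ^ a)⁻¹ →
      F a b P = -(Complex.I / s) / ((P 0 : ℝ) + Complex.I * (P 1 : ℝ) / s) ^ 2 :=
    fun a b hab => (hΦ a b hab).2.2.2.1
  obtain ⟨n1, hn1⟩ := J10242.error_limit A01 A11 hA Θ hΘc hΘ
    (fun m x => D x - ε * blk m β x)
    (fun m => hDc.sub (continuous_const.mul (continuous_blk β hβ m))) K r hr hmain F C1 hFc
    hFsupp hFb
  obtain ⟨ρ1, hρ1, hlim1⟩ := hn1 n1 le_rfl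
  obtain ⟨ρ2, hρ2, hlim2⟩ := J10244.main_limit J10243.cesaro_block s A01 A11 hs hA Θ hΘc hΘ β hβ
    hβs _ (J10243.term_limit s A01 A11 hs hA Θ hΘc hΘ β hβ hβs) F C1 hFc hFb hFm n1
  obtain ⟨ρ3, hρ3, hlim3⟩ := J10241.rhs_limit A01 A11 hA Θ hΘc hΘ (pd 1 (pd 1 z)) (hzpp 1 1) Λ
    hΛc hΛs
  obtain ⟨ρ4, hρ4, hb4⟩ := hΘ (c / 2) (by positivity)
  set ρ : ℝ := min (min ρ1 ρ2) (min ρ3 ρ4) with hρdef
  have hρ : 0 < ρ := by positivity
  have hρle1 : ρ ≤ ρ1 := le_trans (min_le_left _ _) (min_le_left _ _)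
  have hρle2 : ρ ≤ ρ2 := le_trans (min_le_left _ _) (min_le_right _ _)
  have hρle3 : ρ ≤ ρ3 := le_trans (min_le_right _ _) (min_le_left _ _)
  have hρle4 : ρ ≤ ρ4 := le_trans (min_le_right _ _) (min_le_right _ _)
  have L1 := hlim1 ρ hρ hρle1
  have L2 := hlim2 ρ hρ hρle2
  obtain ⟨hint, J, L3⟩ := hlim3 ρ hρ hρle3
  -- the sequences of scales
  have ha : Tendsto (fun m : ℕ => 2 ^ m + n1) atTop atTop := by
    exact tendsto_atTop_mono (fun m => Nat.le_add_right _ _)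
      (tendsto_pow_atTop_atTop_of_one_lt (by norm_num : 1 < 2))
  have hb : Tendsto (fun m : ℕ => 2 ^ (m + 1) - n1) atTop atTop := by
    refine Filter.tendsto_atTop_atTop.2 fun B => ⟨B + n1, fun m hm => ?_⟩
    have : m + 1 < 2 ^ (m + 1) := Nat.lt_two_pow_self
    omega
  have hab : ∀ᶠ m : ℕ in atTop, 2 ^ m + n1 < 2 ^ (m + 1) - n1 := by
    filter_upwards [Filter.eventually_ge_atTop (2 * n1 + 1)] with m hm
    have h1 : m < 2 ^ m := Nat.lt_two_pow_self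
    have h2 : 2 ^ (m + 1) = 2 * 2 ^ m := by ring
    omega
  have hsmall : ∀ᶠ m : ℕ in atTop, ((2:ℝ) ^ (2 ^ m + n1))⁻¹ < c / 2 * (ρ / 2) := by
    have t : Tendsto (fun m : ℕ => ((2:ℝ) ^ (2 ^ m + n1))⁻¹) atTop (𝓝 0) := by
      have := (tendsto_pow_atTop_nhds_zero_of_lt_one (r := (1/2:ℝ)) (by norm_num) (by norm_num)).comp ha
      refine this.congr fun m => ?_
      simp [Function.comp]
    exact t.eventually_lt_const (by positivity)
  -- identity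
  have hid : ∀ᶠ m : ℕ in atTop,
      (∫ x in ball (0:E2) ρ, ((D x : ℝ) : ℂ) * F (2 ^ m + n1) (2 ^ (m + 1) - n1) (Θ x)) =
      (∫ x in ball (0:E2) ρ, ((x 1 * pd 1 (pd 1 z) x : ℝ) : ℂ) *
        (8 ^ (2 ^ m + n1) * Λ (((2:ℝ) ^ (2 ^ m + n1)) • Θ x))) -
      (∫ x in ball (0:E2) ρ, ((x 1 * pd 1 (pd 1 z) x : ℝ) : ℂ) *
        (8 ^ (2 ^ (m + 1) - n1) * Λ (((2:ℝ) ^ (2 ^ (m + 1) - n1)) • Θ x))) := by
    filter_upwards [hab, hsmall] with m hm hm2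
    set a := 2 ^ m + n1
    set b := 2 ^ (m + 1) - n1
    have hsupp : ∀ x : E2, ρ / 2 ≤ ‖x‖ → ‖x‖ ≤ ρ → (!₂[x 0, pd 1 z x] : E2) ∉ tsupport (Φ a b) := by
      intro x hx1 hx2 hmem
      have hcl : IsClosed {Q : E2 | ‖Q‖ ≤ ((2:ℝ) ^ a)⁻¹} :=
        isClosed_le continuous_norm continuous_const
      have hsub : tsupport (Φ a b) ⊆ {Q : E2 | ‖Q‖ ≤ ((2:ℝ) ^ a)⁻¹} := by
        apply closure_minimal _ hcl
        intro Q hQ
        exact ((hΦ a b hm).2.1 Q hQ).2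
      have h1 := hsub hmem
      simp only [Set.mem_ofPred_eq] at h1
      have h2 := hb4 x (hx2.trans hρle4)
      have h3 := (hcC x).1
      have h4 : ‖(!₂[x 0, A01 * x 0 + A11 * x 1] : E2)‖ ≤
          ‖Θ x - !₂[x 0, A01 * x 0 + A11 * x 1]‖ + ‖Θ x‖ := by
        have := norm_sub_le (Θ x) (Θ x - !₂[x 0, A01 * x 0 + A11 * x 1])
        rw [sub_sub_cancel] at this
        linarith
      have h5 : ‖Θ x‖ ≤ ((2:ℝ) ^ a)⁻¹ := h1
      have h6 : c / 2 * (ρ / 2) ≤ c / 2 * ‖x‖ := by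
        apply mul_le_mul_of_nonneg_left hx1 (by positivity)
      nlinarith
    have key := J10240.legendre_identity_complex (fun a b ha hac hb => (null_lagrangian a b ha hac hb).2)
      z hz (Φ a b) (hΦ a b hm).1 (s ^ 2) ρ hρ hsupp
    have hrw : ∀ x : E2, (pd 0 (pd 0 (Φ a b)) !₂[x 0, pd 1 z x] +
        ((s ^ 2 : ℝ) : ℂ) * pd 1 (pd 1 (Φ a b)) !₂[x 0, pd 1 z x]) =
        8 ^ a * Λ (((2:ℝ) ^ a) • Θ x) - 8 ^ b * Λ (((2:ℝ) ^ b) • Θ x) := by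
      intro x
      have := (hΦ a b hm).2.2.2.2 (Θ x)
      rw [← this]
      push_cast
      rfl
    simp only [hrw] at key
    rw [← integral_sub (hint a) (hint b)]
    rw [show (∫ x in ball (0:E2) ρ, ((D x : ℝ) : ℂ) * F a b (Θ x)) = _ from key]
    congr 1
    ext x
    ring
  have LR : Tendsto (fun m : ℕ =>
      (∫ x in ball (0:E2) ρ, ((x 1 * pd 1 (pd 1 z) x : ℝ) : ℂ) *
        (8 ^ (2 ^ m + n1) * Λ (((2:ℝ) ^ (2 ^ m + n1)) • Θ x))) -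
      (∫ x in ball (0:E2) ρ, ((x 1 * pd 1 (pd 1 z) x : ℝ) : ℂ) *
        (8 ^ (2 ^ (m + 1) - n1) * Λ (((2:ℝ) ^ (2 ^ (m + 1) - n1)) • Θ x)))) atTop (𝓝 (J - J)) :=
    (L3.comp ha).sub (L3.comp hb)
  have hsplit : ∀ᶠ m : ℕ in atTop,
      (∫ x in ball (0:E2) ρ, ((D x : ℝ) : ℂ) * F (2 ^ m + n1) (2 ^ (m + 1) - n1) (Θ x)) =
      (∫ x in ball (0:E2) ρ, ((D x - ε * blk m β x : ℝ) : ℂ) *
        F (2 ^ m + n1) (2 ^ (m + 1) - n1) (Θ x)) +
      (ε : ℂ) * (∫ x in ball (0:E2) ρ, ((blk m β x : ℝ) : ℂ) *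
        F (2 ^ m + n1) (2 ^ (m + 1) - n1) (Θ x)) := by
    filter_upwards [hab] with m hm
    have hFΘ : Continuous (fun x => F (2 ^ m + n1) (2 ^ (m + 1) - n1) (Θ x)) :=
      (hFc _ _ hm).comp hΘc
    have hblk := continuous_blk β hβ m
    have i1 : IntegrableOn (fun x => ((D x - ε * blk m β x : ℝ) : ℂ) *
        F (2 ^ m + n1) (2 ^ (m + 1) - n1) (Θ x)) (ball (0:E2) ρ) := by
      have hcont : Continuous (fun x => ((D x - ε * blk m β x : ℝ) : ℂ) *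
        F (2 ^ m + n1) (2 ^ (m + 1) - n1) (Θ x)) :=
        (Complex.continuous_ofReal.comp (hDc.sub (continuous_const.mul hblk))).mul hFΘ
      exact (hcont.continuousOn.integrableOn_compact (isCompact_closedBall (0:E2) ρ)).mono_set
        ball_subset_closedBall
    have i2 : IntegrableOn (fun x => (ε : ℂ) * (((blk m β x : ℝ) : ℂ) *
        F (2 ^ m + n1) (2 ^ (m + 1) - n1) (Θ x))) (ball (0:E2) ρ) := by
      have hcont : Continuous (fun x => (ε : ℂ) * (((blk m β x : ℝ) : ℂ) *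
        F (2 ^ m + n1) (2 ^ (m + 1) - n1) (Θ x))) :=
        continuous_const.mul ((Complex.continuous_ofReal.comp hblk).mul hFΘ)
      exact (hcont.continuousOn.integrableOn_compact (isCompact_closedBall (0:E2) ρ)).mono_set
        ball_subset_closedBall
    rw [← integral_const_mul, ← integral_add i1 i2]
    congr 1
    ext x
    push_cast
    ring
  have LL : Tendsto (fun m : ℕ =>
      (∫ x in ball (0:E2) ρ, ((D x : ℝ) : ℂ) * F (2 ^ m + n1) (2 ^ (m + 1) - n1) (Θ x)))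
      atTop (𝓝 (0 + (ε : ℂ) * (-(Complex.I * s) * ∫ y : E2, ((β y : ℝ) : ℂ) /
        ((s + Complex.I * A01) * (y 0 : ℝ) + (Complex.I * A11) * (y 1 : ℝ)) ^ 2))) := by
    refine Tendsto.congr' (hsplit.mono fun m h => h.symm) ?_
    exact L1.add (L2.const_mul _)
  have LL2 := LL.congr' hid
  have hfin := tendsto_nhds_unique LL2 LR
  rw [sub_self, zero_add, mul_eq_zero, mul_eq_zero] at hfin
  rcases hfin with h | h | h
  · exact absurd (by exact_mod_cast h) hε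
  · rw [neg_eq_zero, mul_eq_zero] at h
    rcases h with h | h
    · exact absurd h Complex.I_ne_zero
    · exact absurd (by exact_mod_cast h) hs.ne'
  · exact h

end H575Germ
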