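import Pool.Agent.Helper575.Germ.Core
import Pool.Agent.Helper575.Germ.NDL
import Pool.Agent.Helper575.Germ.J9679

open scoped RealInnerProductSpace Topology ContDiff
open MeasureTheory Metric Filter

namespace H575Germ

/-- linear divergence lemma -/
theorem LDL (ζ : E2 → ℝ) (hζ : ContDiff ℝ 2 ζ) (c11 c12 c22 : ℝ) (hc : c11 ≠ 0) (a b : ℂ)
    (hab : c11 * a ^ 2 + 2 * c12 * a * b + c22 * b ^ 2 = 0)
    (him : 0 < ((starRingEnd ℂ) a * b).im)
    (β : E2 → ℝ) (hβ : Continuous β) (hβs : ∀ y, β y ≠ 0 → 1 < ‖y‖ ∧ ‖y‖ < 3 / 2)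
    (c ε K r : ℝ) (hr : 0 < r) (hε : ε ≠ 0)
    (hmain : ∀ (m : ℕ) (x : E2), ‖x‖ < r → Ann m x →
      |c11 * pd 0 (pd 0 ζ) x + 2 * c12 * pd 0 (pd 1 ζ) x + c22 * pd 1 (pd 1 ζ) x
        - c - ε * blk m β x| ≤ K * ‖x‖) :
    ∫ y, ((β y : ℝ) : ℂ) / (a * (y 0 : ℝ) + b * (y 1 : ℝ)) ^ 2 = 0 :=
  J9679.LDL ibp_twice ζ hζ c11 c12 c22 hc a b hab him β hβ hβs c ε K r hr hε hmain

/-- translation and inner product with a fixed vector -/
theorem pd_trans_inner (h : E2 → E3) (hh : ContDiff ℝ 1 h) (p : E2) (N : E3) (i : Fin 2) (x : E2) :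
    pd i (fun y => ⟪h (p + y), N⟫) x = ⟪pd i h (p + x), N⟫ := by
  have hd : DifferentiableAt ℝ h (p + x) := (hh.differentiable (by norm_num)) _
  have h1 : HasFDerivAt (fun y : E2 => h (p + y)) (fderiv ℝ h (p + x)) x := by
    have := hd.hasFDerivAt.comp x ((hasFDerivAt_id x).const_add p)
    rw [ContinuousLinearMap.comp_id] at this
    exact this
  have h2 := h1.inner ℝ (hasFDerivAt_const N x)
  unfold pd
  rw [h2.fderiv]
  simp

theorem pd_pd_trans_inner (h : E2 → E3) (hh : ContDiff ℝ 2 h) (p : E2) (N : E3) (i j : Fin 2)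
    (x : E2) :
    pd i (pd j (fun y => ⟪h (p + y), N⟫)) x = ⟪pd i (pd j h) (p + x), N⟫ := by
  have h1 : pd j (fun y => ⟪h (p + y), N⟫) = fun y => ⟪pd j h (p + y), N⟫ := by
    ext y
    exact pd_trans_inner h (hh.of_le (by norm_num)) p N j y
  rw [h1]
  exact pd_trans_inner (pd j h) (contDiff_pd 1 j h (by exact_mod_cast hh)) p N i x

theorem contDiff_trans_inner (h : E2 → E3) (hh : ContDiff ℝ 2 h) (p : E2) (N : E3) :
    ContDiff ℝ 2 (fun y => ⟪h (p + y), N⟫) :=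
  (hh.comp (contDiff_const.add contDiff_id)).inner ℝ contDiff_const

/-- final algebra: from the common null vector to the second fundamental forms -/
theorem conclude (l00 l01 l11 m00 m01 m11 s : ℝ) (hs : s ^ 2 = m00 * m11 - m01 ^ 2)
    (hsm : 0 < s * m11) (hdet : l00 * l11 - l01 ^ 2 = m00 * m11 - m01 ^ 2)
    (h : (l11 : ℂ) * (s + Complex.I * m01) ^ 2 + 2 * (-l01 : ℝ) * (s + Complex.I * m01) *
      (Complex.I * m11) + l00 * (Complex.I * m11) ^ 2 = 0) :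
    ∃ σ : ℝ, σ ^ 2 = 1 ∧ l00 = σ * m00 ∧ l01 = σ * m01 ∧ l11 = σ * m11 := by
  have him : 0 < ((starRingEnd ℂ) ((s : ℂ) + Complex.I * m01) * (Complex.I * m11)).im := by
    simp
    nlinarith
  have hc : (m11 : ℂ) * ((s : ℂ) + Complex.I * m01) ^ 2 + 2 * ((-m01 : ℝ) : ℂ) *
      ((s : ℂ) + Complex.I * m01) * (Complex.I * m11) + m00 * (Complex.I * m11) ^ 2 = 0 := by
    have hs' : (s : ℂ) ^ 2 = m00 * m11 - m01 ^ 2 := by exact_mod_cast hs
    have hI : Complex.I ^ 2 = -1 := Complex.I_sq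
    push_cast
    linear_combination (m11 : ℂ) * hs' + ((-m01 ^ 2 * m11 + m00 * m11 ^ 2 : ℂ)) * hI
  have hspos : 0 < s ^ 2 := by
    have : s ≠ 0 := fun h0 => by rw [h0] at hsm; simp at hsm
    positivity
  rcases proportional l11 (-l01) l00 m11 (-m01) m00 _ _ him h hc (by linarith)
    (by linarith) with ⟨h1, h2, h3⟩ | ⟨h1, h2, h3⟩
  · exact ⟨1, by norm_num, by linarith, by linarith, by linarith⟩
  · exact ⟨-1, by norm_num, by linarith, by linarith, by linarith⟩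

/-- the constant sign/complex numbers used for the null vector -/
theorem null_vec (m00 m01 m11 s : ℝ) (hs : s ^ 2 = m00 * m11 - m01 ^ 2) :
    (m11 : ℂ) * ((s : ℂ) + Complex.I * m01) ^ 2 + 2 * ((-m01 : ℝ) : ℂ) *
      ((s : ℂ) + Complex.I * m01) * (Complex.I * m11) + m00 * (Complex.I * m11) ^ 2 = 0 := by
  have hs' : (s : ℂ) ^ 2 = m00 * m11 - m01 ^ 2 := by exact_mod_cast hs
  have hI : Complex.I ^ 2 = -1 := Complex.I_sq
  push_cast
  linear_combination (m11 : ℂ) * hs' + ((-m01 ^ 2 * m11 + m00 * m11 ^ 2 : ℂ)) * hI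

/-- the property of the height function at a point of the dense set -/
def Feat (n : ℕ) (Z u : E2 → ℝ) (p : E2) : Prop :=
  ∃ ε : ℝ, ε ≠ 0 ∧ ∃ C : ℝ, ∀ (m : ℕ) (x : E2), Ann m (x - p) → ∀ i j : Fin 2,
    |T n i j u x - T n i j u p - ε * blk m (T n i j Z) (x - p)| ≤ C * ‖x - p‖

/-- the property of the profile -/
def Prof (n : ℕ) (Z : E2 → ℝ) : Prop :=
  ∀ a b : ℂ, 0 < ((starRingEnd ℂ) a * b).im → ∀ m11 m12 m22 : ℝ,
      ∫ y, ((m11 * T n 0 0 Z y + 2 * m12 * T n 0 1 Z y + m22 * T n 1 1 Z y : ℝ) : ℂ) /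
        (a * (y 0 : ℝ) + b * (y 1 : ℝ)) ^ 2 = 0 →
      m11 * a ^ 2 + 2 * m12 * a * b + m22 * b ^ 2 = 0

/-- the second fundamental forms at a point of the dense set agree up to sign, `n ≥ 1` -/
theorem core_linear (n : ℕ) (hn : 1 ≤ n) (Z : E2 → ℝ) (hZ : ContDiff ℝ ∞ Z)
    (hZs : ∀ y, Z y ≠ 0 → 1 < ‖y‖ ∧ ‖y‖ < 3 / 2) (hprof : Prof n Z)
    (u : E2 → ℝ) (hu : ContDiff ℝ (n + 2 : ℕ) u)
    (p : E2) (hfeat : Feat n Z u p)
    (hdetu : 0 < pd 0 (pd 0 u) p * pd 1 (pd 1 u) p - (pd 0 (pd 1 u) p) ^ 2)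
    (g : E2 → E3) (hg : ContDiff ℝ (n + 2 : ℕ) g) (r : ℝ) (hr : 0 < r)
    (hmet : ∀ x ∈ ball p r, ∀ i j,
      ⟪pd i (graph u) x, pd j (graph u) x⟫ = ⟪pd i g x, pd j g x⟫)
    (Nf Ng : E3) (hNf : ‖Nf‖ = 1) (hNg : ‖Ng‖ = 1)
    (hNf' : ∀ i, ⟪pd i (graph u) p, Nf⟫ = 0) (hNg' : ∀ i, ⟪pd i g p, Ng⟫ = 0) :
    ∃ σ : ℝ, σ ^ 2 = 1 ∧ ∀ i j, ⟪pd i (pd j (graph u)) p, Nf⟫ = σ * ⟪pd i (pd j g) p, Ng⟫ := by
  have h2n : ((2 : ℕ) : WithTop ℕ∞) ≤ ((n + 2 : ℕ) : WithTop ℕ∞) := by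
    exact_mod_cast (by omega : 2 ≤ n + 2)
  have hu2 : ContDiff ℝ 2 u := hu.of_le h2n
  have hg2 : ContDiff ℝ 2 g := hg.of_le h2n
  have hf : ContDiff ℝ (n + 2 : ℕ) (graph u) := contDiff_graph (n + 2) u hu
  have hf2 : ContDiff ℝ 2 (graph u) := hf.of_le h2n
  have himm := graph_imm u hu2 p
  have hN2 : Nf 2 ≠ 0 := graph_normal_ne u hu2 p Nf hNf hNf'
  -- second fundamental forms
  have hl : ∀ i j, ⟪pd i (pd j (graph u)) p, Nf⟫ = Nf 2 * pd i (pd j u) p := fun i j =>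
    graph_inner u 0 (by simpa using hu2) Nf i j p
  have hdet := det_eq_of_metric (graph u) g hf2 hg2 p r hr hmet himm Nf Ng hNf hNg hNf' hNg'
  obtain ⟨c, C, r', hr', hstar⟩ := star_linear n hn (graph u) g hf hg p r hr hmet himm Nf Ng hNf
    hNg hNf' hNg'
  obtain ⟨ε, hε, C2, hfe⟩ := hfeat
  set l00 := ⟪pd 0 (pd 0 (graph u)) p, Nf⟫ with hl00
  set l01 := ⟪pd 0 (pd 1 (graph u)) p, Nf⟫ with hl01
  set l11 := ⟪pd 1 (pd 1 (graph u)) p, Nf⟫ with hl11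
  set m00 := ⟪pd 0 (pd 0 g) p, Ng⟫ with hm00
  set m01 := ⟪pd 0 (pd 1 g) p, Ng⟫ with hm01
  set m11 := ⟪pd 1 (pd 1 g) p, Ng⟫ with hm11
  have hposl : 0 < l00 * l11 - l01 ^ 2 := by
    rw [hl00, hl11, hl01, hl, hl, hl]
    have : Nf 2 * pd 0 (pd 0 u) p * (Nf 2 * pd 1 (pd 1 u) p) - (Nf 2 * pd 0 (pd 1 u) p) ^ 2 =
      (Nf 2) ^ 2 * (pd 0 (pd 0 u) p * pd 1 (pd 1 u) p - (pd 0 (pd 1 u) p) ^ 2) := by ring
    rw [this]
    positivity
  have hposm : 0 < m00 * m11 - m01 ^ 2 := by rw [← hdet]; exact hposl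
  have hm11ne : m11 ≠ 0 := by
    intro h0
    rw [h0] at hposm
    nlinarith [sq_nonneg m01]
  obtain ⟨s, hs, hsm⟩ : ∃ s : ℝ, s ^ 2 = m00 * m11 - m01 ^ 2 ∧ 0 < s * m11 := by
    rcases lt_or_gt_of_ne hm11ne with h | h
    · refine ⟨-Real.sqrt (m00 * m11 - m01 ^ 2), ?_, ?_⟩
      · rw [neg_sq, Real.sq_sqrt hposm.le]
      · have := Real.sqrt_pos.2 hposm
        nlinarith
    · refine ⟨Real.sqrt (m00 * m11 - m01 ^ 2), ?_, ?_⟩
      · rw [Real.sq_sqrt hposm.le]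
      · have := Real.sqrt_pos.2 hposm
        positivity
  -- the function to which the linear divergence lemma is applied
  set h : E2 → E3 := (pd 0)^[n] g with hh
  have hh2 : ContDiff ℝ 2 h := contDiff_pd_iter n 2 g (by exact_mod_cast hg)
  set ζ : E2 → ℝ := fun y => ⟪h (p + y), Ng⟫ with hζ
  have hζ2 : ContDiff ℝ 2 ζ := contDiff_trans_inner h hh2 p Ng
  have hζpd : ∀ i j x, pd i (pd j ζ) x = ⟪T n i j g (p + x), Ng⟫ := fun i j x =>
    pd_pd_trans_inner h hh2 p Ng i j x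
  have him : 0 < ((starRingEnd ℂ) ((s : ℂ) + Complex.I * m01) * (Complex.I * m11)).im := by
    simp
    nlinarith
  set β : E2 → ℝ := fun y => (Nf 2 * l11) * T n 0 0 Z y + (Nf 2 * (-2 * l01)) * T n 0 1 Z y +
    (Nf 2 * l00) * T n 1 1 Z y with hβ
  have hTc : ∀ i j, Continuous (T n i j Z) := fun i j => (T_supp n Z hZ hZs i j).1.continuous
  have hβc : Continuous β := by
    have := hTc 0 0; have := hTc 0 1; have := hTc 1 1
    rw [hβ]; fun_prop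
  have hβs : ∀ y, β y ≠ 0 → 1 < ‖y‖ ∧ ‖y‖ < 3 / 2 := by
    intro y hy
    by_contra hn'
    apply hy
    have e : ∀ i j, T n i j Z y = 0 := by
      intro i j
      by_contra h0
      exact hn' ((T_supp n Z hZ hZs i j).2 y h0)
    simp [hβ, e]
  have hβblk : ∀ m x, blk m β x = (Nf 2 * l11) * blk m (T n 0 0 Z) x +
      (Nf 2 * (-2 * l01)) * blk m (T n 0 1 Z) x + (Nf 2 * l00) * blk m (T n 1 1 Z) x := fun m x =>
    blk_linear _ _ _ _ _ _ m x
  have hL := LDL ζ hζ2 m11 (-m01) m00 hm11ne _ _ (null_vec m00 m01 m11 s hs) him β hβc hβs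
    (c + (Nf 2 * l11 * T n 0 0 u p - 2 * (Nf 2 * l01) * T n 0 1 u p + Nf 2 * l00 * T n 1 1 u p))
    ε (C + (|Nf 2 * l11| + 2 * |Nf 2 * l01| + |Nf 2 * l00|) * C2) r' hr' hε (by
      intro m x hx hAnn
      have hxb : p + x ∈ ball p r' := by
        rw [mem_ball, dist_eq_norm]; simpa using hx
      have h1 := hstar (p + x) hxb
      have h2 := fun i j => hfe m (p + x) (by simpa using hAnn) i j
      simp only [add_sub_cancel_left] at h1 h2
      have gi : ∀ i j, ⟪T n i j (graph u) (p + x), Nf⟫ = Nf 2 * T n i j u (p + x) := fun i j =>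
        graph_inner u n hu Nf i j (p + x)
      rw [gi, gi, gi] at h1
      rw [hζpd, hζpd, hζpd, hβblk]
      set t00 := T n 0 0 u (p + x)
      set t01 := T n 0 1 u (p + x)
      set t11 := T n 1 1 u (p + x)
      set t00' := T n 0 0 u p
      set t01' := T n 0 1 u p
      set t11' := T n 1 1 u p
      set b00 := blk m (T n 0 0 Z) x
      set b01 := blk m (T n 0 1 Z) x
      set b11 := blk m (T n 1 1 Z) x
      set g00 := ⟪T n 0 0 g (p + x), Ng⟫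
      set g01 := ⟪T n 0 1 g (p + x), Ng⟫
      set g11 := ⟪T n 1 1 g (p + x), Ng⟫
      have e00 := h2 0 0
      have e01 := h2 0 1
      have e11 := h2 1 1
      have key : m11 * g00 + 2 * -m01 * g01 + m00 * g11 -
          (c + (Nf 2 * l11 * t00' - 2 * (Nf 2 * l01) * t01' + Nf 2 * l00 * t11')) -
          ε * (Nf 2 * l11 * b00 + Nf 2 * (-2 * l01) * b01 + Nf 2 * l00 * b11) =
          ((m11 * g00 - 2 * m01 * g01 + m00 * g11) -
            (l11 * (Nf 2 * t00) - 2 * l01 * (Nf 2 * t01) + l00 * (Nf 2 * t11)) - c) +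
          (Nf 2 * l11) * (t00 - t00' - ε * b00) - 2 * (Nf 2 * l01) * (t01 - t01' - ε * b01) +
          (Nf 2 * l00) * (t11 - t11' - ε * b11) := by ring
      rw [key]
      have A1 : |(Nf 2 * l11) * (t00 - t00' - ε * b00)| ≤ |Nf 2 * l11| * (C2 * ‖x‖) := by
        rw [abs_mul]; exact mul_le_mul_of_nonneg_left e00 (abs_nonneg _)
      have A2 : |2 * (Nf 2 * l01) * (t01 - t01' - ε * b01)| ≤ 2 * |Nf 2 * l01| * (C2 * ‖x‖) := by
        rw [abs_mul, abs_mul, abs_two]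
        exact mul_le_mul_of_nonneg_left e01 (by positivity)
      have A3 : |(Nf 2 * l00) * (t11 - t11' - ε * b11)| ≤ |Nf 2 * l00| * (C2 * ‖x‖) := by
        rw [abs_mul]; exact mul_le_mul_of_nonneg_left e11 (abs_nonneg _)
      calc _ ≤ |(m11 * g00 - 2 * m01 * g01 + m00 * g11) -
            (l11 * (Nf 2 * t00) - 2 * l01 * (Nf 2 * t01) + l00 * (Nf 2 * t11)) - c| +
            |(Nf 2 * l11) * (t00 - t00' - ε * b00)| +
            |2 * (Nf 2 * l01) * (t01 - t01' - ε * b01)| +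
            |(Nf 2 * l00) * (t11 - t11' - ε * b11)| := by
            refine (abs_add_le _ _).trans (add_le_add_left ?_ _)
            refine (abs_sub _ _).trans (add_le_add_left ?_ _)
            exact abs_add_le _ _
        _ ≤ C * ‖x‖ + |Nf 2 * l11| * (C2 * ‖x‖) + 2 * |Nf 2 * l01| * (C2 * ‖x‖) +
            |Nf 2 * l00| * (C2 * ‖x‖) := by
            gcongr
        _ = _ := by ring)
  have hP := hprof _ _ him (Nf 2 * l11) (Nf 2 * (-l01)) (Nf 2 * l00) (by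
    rw [← hL]
    congr 1
    ext y
    congr 2
    simp only [hβ]
    ring)
  have hP' : (l11 : ℂ) * (s + Complex.I * m01) ^ 2 + 2 * (-l01 : ℝ) * (s + Complex.I * m01) *
      (Complex.I * m11) + l00 * (Complex.I * m11) ^ 2 = 0 := by
    have hN2c : (Nf 2 : ℂ) ≠ 0 := by exact_mod_cast hN2
    apply mul_left_cancel₀ hN2c
    rw [mul_zero]
    rw [← hP]
    push_cast
    ring
  obtain ⟨σ, hσ, e1, e2, e3⟩ := conclude l00 l01 l11 m00 m01 m11 s hs hsm hdet hP'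
  refine ⟨σ, hσ, ?_⟩
  intro i j
  fin_cases i <;> fin_cases j
  · exact e1
  · exact e2
  · have a1 : pd 1 (pd 0 (graph u)) p = pd 0 (pd 1 (graph u)) p := pd_comm 1 0 _ hf2 p
    have a2 : pd 1 (pd 0 g) p = pd 0 (pd 1 g) p := pd_comm 1 0 _ hg2 p
    show ⟪pd 1 (pd 0 (graph u)) p, Nf⟫ = σ * ⟪pd 1 (pd 0 g) p, Ng⟫
    rw [a1, a2]
    exact e2
  · exact e3

end H575Germ
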