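import Pool.Agent.Helper575.Germ.Main

open scoped RealInnerProductSpace Topology ContDiff
open MeasureTheory Metric Filter

namespace H575Germ

theorem exists_bound_T (n : ℕ) (Z : E2 → ℝ) (hZ : ContDiff ℝ ∞ Z)
    (hZs : ∀ y, Z y ≠ 0 → 1 < ‖y‖ ∧ ‖y‖ < 3 / 2) (i j : Fin 2) :
    ∃ M : ℝ, 0 ≤ M ∧ ∀ y, |T n i j Z y| ≤ M := by
  obtain ⟨hc, hs⟩ := T_supp n Z hZ hZs i j
  obtain ⟨M, hM⟩ := (isCompact_closedBall (0:E2) 2).exists_bound_of_continuousOn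
    hc.continuous.continuousOn
  refine ⟨max M 0, le_max_right _ _, fun y => ?_⟩
  by_cases hy : T n i j Z y = 0
  · rw [hy, abs_zero]; exact le_max_right _ _
  · have := hs y hy
    refine le_trans ?_ (le_max_left M 0)
    have := hM y (by rw [mem_closedBall, dist_zero_right]; linarith)
    simpa using this

theorem kfour (X q : ℝ) (hX : 0 ≤ X) (hX1 : X < 1) : (X + q) ^ 2 ≤ 2 * (X + q ^ 2) := by
  have h1 : X ^ 2 ≤ X := by nlinarith
  nlinarith [sq_nonneg (X - q)]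

/-- the elementary estimate behind the case `n = 0` -/
theorem quad_est (N2 l00 l01 l11 m00 m01 m11 s ε C C2 τ : ℝ) (hτ2 : τ ^ 2 = 1)
    (M00 M01 M11 M : ℝ) (hM00 : 0 ≤ M00) (hM01 : 0 ≤ M01) (hM11 : 0 ≤ M11)
    (hM : M = |ε| * (M00 + M01 + M11) + |C2| + 1)
    (g00 g01 g11 t00 t01 t11 t00' t01' t11' b00 b01 b11 X q : ℝ) (hX : 0 ≤ X) (hX1 : X < 1)
    (hq : 0 < q)
    (hs2 : s ^ 2 = m00 * m11 - m01 ^ 2) (hdet : l00 * l11 - l01 ^ 2 = m00 * m11 - m01 ^ 2)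
    (e00' : l00 = N2 * t00') (e01' : l01 = N2 * t01') (e11' : l11 = N2 * t11')
    (h1 : |(g00 * g11 - g01 ^ 2) - (N2 * t00 * (N2 * t11) - (N2 * t01) ^ 2)| ≤ C * X)
    (e00 : |t00 - t00' - ε * b00| ≤ C2 * X) (e01 : |t01 - t01' - ε * b01| ≤ C2 * X)
    (e11 : |t11 - t11' - ε * b11| ≤ C2 * X)
    (B00 : |b00| ≤ q * M00) (B01 : |b01| ≤ q * M01) (B11 : |b11| ≤ q * M11) :
    |τ * g00 * (τ * g11) - (τ * g01) ^ 2 - s ^ 2 -
      ε * (N2 * l11 * b00 + N2 * (-2 * l01) * b01 + N2 * l00 * b11)| ≤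
    (|C| + (|N2 * l11| + 2 * |N2 * l01| + |N2 * l00|) * |C2| + N2 ^ 2 * (4 * M ^ 2)) *
      (X + q ^ 2) := by
  have hMpos : 0 < M := by rw [hM]; positivity
  have hC2 : C2 * X ≤ |C2| * X := mul_le_mul_of_nonneg_right (le_abs_self _) hX
  have hbd : ∀ (d b M' : ℝ), 0 ≤ M' → M' ≤ M00 + M01 + M11 → |d - ε * b| ≤ C2 * X →
      |b| ≤ q * M' → |d| ≤ M * (X + q) := by
    intro d b M' hM'0 hM' h1 h2
    have h3 : |d| ≤ |d - ε * b| + |ε * b| := by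
      have := abs_add_le (d - ε * b) (ε * b)
      rwa [sub_add_cancel] at this
    have h4 : |ε * b| ≤ |ε| * (q * (M00 + M01 + M11)) := by
      rw [abs_mul]
      exact mul_le_mul_of_nonneg_left (h2.trans (mul_le_mul_of_nonneg_left hM' hq.le))
        (abs_nonneg _)
    have h5 : |d| ≤ |C2| * X + |ε| * (q * (M00 + M01 + M11)) := by linarith
    have h6 : |C2| * X + |ε| * (q * (M00 + M01 + M11)) ≤ M * (X + q) := by
      rw [hM]
      have := abs_nonneg C2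
      have := abs_nonneg ε
      have : 0 ≤ |ε| * (M00 + M01 + M11) * X := by positivity
      have : 0 ≤ |C2| * q := by positivity
      nlinarith
    exact h5.trans h6
  have D00 := hbd (t00 - t00') b00 M00 hM00 (by linarith) e00 B00
  have D01 := hbd (t01 - t01') b01 M01 hM01 (by linarith) e01 B01
  have D11 := hbd (t11 - t11') b11 M11 hM11 (by linarith) e11 B11
  have a1 : τ * g00 * (τ * g11) - (τ * g01) ^ 2 = g00 * g11 - g01 ^ 2 := by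
    linear_combination (g00 * g11 - g01 ^ 2) * hτ2
  have key : τ * g00 * (τ * g11) - (τ * g01) ^ 2 - s ^ 2 -
      ε * (N2 * l11 * b00 + N2 * (-2 * l01) * b01 + N2 * l00 * b11) =
      ((g00 * g11 - g01 ^ 2) - (N2 * t00 * (N2 * t11) - (N2 * t01) ^ 2)) +
      (N2 * l11) * ((t00 - t00') - ε * b00) - 2 * (N2 * l01) * ((t01 - t01') - ε * b01) +
      (N2 * l00) * ((t11 - t11') - ε * b11) +
      N2 ^ 2 * ((t00 - t00') * (t11 - t11') - (t01 - t01') ^ 2) := by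
    rw [a1, hs2, ← hdet, e00', e01', e11']
    ring
  rw [key]
  generalize t00 - t00' = d00 at *
  generalize t01 - t01' = d01 at *
  generalize t11 - t11' = d11 at *
  have hquad : |d00 * d11 - d01 ^ 2| ≤ 4 * M ^ 2 * (X + q ^ 2) := by
    have k1 : |d00 * d11| ≤ (M * (X + q)) * (M * (X + q)) := by
      rw [abs_mul]; exact mul_le_mul D00 D11 (abs_nonneg _) (by positivity)
    have k2 : |d01 ^ 2| ≤ (M * (X + q)) * (M * (X + q)) := by
      rw [sq, abs_mul]; exact mul_le_mul D01 D01 (abs_nonneg _) (by positivity)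
    have k3 : |d00 * d11 - d01 ^ 2| ≤ |d00 * d11| + |d01 ^ 2| := abs_sub _ _
    have k4 : (X + q) ^ 2 ≤ 2 * (X + q ^ 2) := kfour X q hX hX1
    have k5 : (M * (X + q)) * (M * (X + q)) = M ^ 2 * (X + q) ^ 2 := by ring
    have k6 : M ^ 2 * (X + q) ^ 2 ≤ M ^ 2 * (2 * (X + q ^ 2)) :=
      mul_le_mul_of_nonneg_left k4 (by positivity)
    calc |d00 * d11 - d01 ^ 2| ≤ |d00 * d11| + |d01 ^ 2| := k3
      _ ≤ M ^ 2 * (X + q) ^ 2 + M ^ 2 * (X + q) ^ 2 := add_le_add (k1.trans_eq k5) (k2.trans_eq k5)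
      _ ≤ M ^ 2 * (2 * (X + q ^ 2)) + M ^ 2 * (2 * (X + q ^ 2)) := add_le_add k6 k6
      _ = 4 * M ^ 2 * (X + q ^ 2) := by ring
  have A0 : |(g00 * g11 - g01 ^ 2) - (N2 * t00 * (N2 * t11) - (N2 * t01) ^ 2)| ≤ |C| * X :=
    h1.trans (mul_le_mul_of_nonneg_right (le_abs_self _) hX)
  have A1 : |(N2 * l11) * (d00 - ε * b00)| ≤ |N2 * l11| * (|C2| * X) := by
    rw [abs_mul]; exact mul_le_mul_of_nonneg_left (e00.trans hC2) (abs_nonneg _)
  have A2 : |2 * (N2 * l01) * (d01 - ε * b01)| ≤ 2 * |N2 * l01| * (|C2| * X) := by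
    rw [abs_mul, abs_mul, abs_two]
    exact mul_le_mul_of_nonneg_left (e01.trans hC2) (by positivity)
  have A3 : |(N2 * l00) * (d11 - ε * b11)| ≤ |N2 * l00| * (|C2| * X) := by
    rw [abs_mul]; exact mul_le_mul_of_nonneg_left (e11.trans hC2) (abs_nonneg _)
  have A4 : |N2 ^ 2 * (d00 * d11 - d01 ^ 2)| ≤ N2 ^ 2 * (4 * M ^ 2 * (X + q ^ 2)) := by
    rw [abs_mul, abs_of_nonneg (sq_nonneg N2)]
    exact mul_le_mul_of_nonneg_left hquad (sq_nonneg _)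
  have T : ∀ a b c d e : ℝ, |a + b - c + d + e| ≤ |a| + |b| + |c| + |d| + |e| := by
    intro a b c d e
    refine (abs_add_le _ _).trans (add_le_add_left ?_ _)
    refine (abs_add_le _ _).trans (add_le_add_left ?_ _)
    refine (abs_sub _ _).trans (add_le_add_left ?_ _)
    exact abs_add_le _ _
  refine (T _ _ _ _ _).trans ?_
  have h0 : 0 ≤ (|C| + (|N2 * l11| + 2 * |N2 * l01| + |N2 * l00|) * |C2|) * q ^ 2 := by
    positivity
  have h00 : (|C| + (|N2 * l11| + 2 * |N2 * l01| + |N2 * l00|) * |C2| + N2 ^ 2 * (4 * M ^ 2)) *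
      (X + q ^ 2) = |C| * X + |N2 * l11| * (|C2| * X) + 2 * |N2 * l01| * (|C2| * X) +
        |N2 * l00| * (|C2| * X) + N2 ^ 2 * (4 * M ^ 2 * (X + q ^ 2)) +
        (|C| + (|N2 * l11| + 2 * |N2 * l01| + |N2 * l00|) * |C2|) * q ^ 2 := by ring
  rw [h00]
  exact le_add_of_le_of_nonneg
    (add_le_add (add_le_add (add_le_add (add_le_add A0 A1) A2) A3) A4) h0

/-- the second fundamental forms at a point of the dense set agree up to sign, `n = 0` -/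
theorem core_quadratic (Z : E2 → ℝ) (hZ : ContDiff ℝ ∞ Z)
    (hZs : ∀ y, Z y ≠ 0 → 1 < ‖y‖ ∧ ‖y‖ < 3 / 2) (hprof : Prof 0 Z)
    (u : E2 → ℝ) (hu : ContDiff ℝ (0 + 2 : ℕ) u)
    (p : E2) (hfeat : Feat 0 Z u p)
    (hdetu : 0 < pd 0 (pd 0 u) p * pd 1 (pd 1 u) p - (pd 0 (pd 1 u) p) ^ 2)
    (g : E2 → E3) (hg : ContDiff ℝ (0 + 2 : ℕ) g) (r : ℝ) (hr : 0 < r)
    (hmet : ∀ x ∈ ball p r, ∀ i j,
      ⟪pd i (graph u) x, pd j (graph u) x⟫ = ⟪pd i g x, pd j g x⟫)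
    (Nf Ng : E3) (hNf : ‖Nf‖ = 1) (hNg : ‖Ng‖ = 1)
    (hNf' : ∀ i, ⟪pd i (graph u) p, Nf⟫ = 0) (hNg' : ∀ i, ⟪pd i g p, Ng⟫ = 0) :
    ∃ σ : ℝ, σ ^ 2 = 1 ∧ ∀ i j, ⟪pd i (pd j (graph u)) p, Nf⟫ = σ * ⟪pd i (pd j g) p, Ng⟫ := by
  have hu2 : ContDiff ℝ 2 u := by simpa using hu
  have hg2 : ContDiff ℝ 2 g := by simpa using hg
  have hf : ContDiff ℝ (0 + 2 : ℕ) (graph u) := contDiff_graph (0 + 2) u hu
  have hf2 : ContDiff ℝ 2 (graph u) := by simpa using hf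
  have himm := graph_imm u hu2 p
  have hN2 : Nf 2 ≠ 0 := graph_normal_ne u hu2 p Nf hNf hNf'
  have hlx : ∀ i j x, ⟪pd i (pd j (graph u)) x, Nf⟫ = Nf 2 * T 0 i j u x := fun i j x =>
    graph_inner u 0 hu Nf i j x
  have hdet := det_eq_of_metric (graph u) g hf2 hg2 p r hr hmet himm Nf Ng hNf hNg hNf' hNg'
  obtain ⟨C, r', hr', hstar⟩ := star_quadratic (graph u) g hf2 hg2 p r hr hmet himm Nf Ng hNf
    hNg hNf' hNg'
  obtain ⟨ε, hε, C2, hfe⟩ := hfeat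
  set l00 := ⟪pd 0 (pd 0 (graph u)) p, Nf⟫ with hl00
  set l01 := ⟪pd 0 (pd 1 (graph u)) p, Nf⟫ with hl01
  set l11 := ⟪pd 1 (pd 1 (graph u)) p, Nf⟫ with hl11
  set m00 := ⟪pd 0 (pd 0 g) p, Ng⟫ with hm00
  set m01 := ⟪pd 0 (pd 1 g) p, Ng⟫ with hm01
  set m11 := ⟪pd 1 (pd 1 g) p, Ng⟫ with hm11
  have e00' : l00 = Nf 2 * T 0 0 0 u p := hlx 0 0 p
  have e01' : l01 = Nf 2 * T 0 0 1 u p := hlx 0 1 p
  have e11' : l11 = Nf 2 * T 0 1 1 u p := hlx 1 1 p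
  have hdetu' : 0 < T 0 0 0 u p * T 0 1 1 u p - (T 0 0 1 u p) ^ 2 := hdetu
  have hposl : 0 < l00 * l11 - l01 ^ 2 := by
    rw [e00', e01', e11']
    have : Nf 2 * T 0 0 0 u p * (Nf 2 * T 0 1 1 u p) - (Nf 2 * T 0 0 1 u p) ^ 2 =
      (Nf 2) ^ 2 * (T 0 0 0 u p * T 0 1 1 u p - (T 0 0 1 u p) ^ 2) := by ring
    rw [this]
    positivity
  have hposm : 0 < m00 * m11 - m01 ^ 2 := by rw [← hdet]; exact hposl
  have hm11ne : m11 ≠ 0 := by
    intro h0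
    rw [h0] at hposm
    nlinarith [sq_nonneg m01]
  set s : ℝ := Real.sqrt (m00 * m11 - m01 ^ 2) with hsdef
  have hspos : 0 < s := Real.sqrt_pos.2 hposm
  have hs2 : s ^ 2 = m00 * m11 - m01 ^ 2 := Real.sq_sqrt hposm.le
  -- sign
  obtain ⟨τ, hτ, hτm⟩ : ∃ τ : ℝ, τ ^ 2 = 1 ∧ 0 < τ * m11 := by
    rcases lt_or_gt_of_ne hm11ne with h | h
    · exact ⟨-1, by norm_num, by linarith⟩
    · exact ⟨1, by norm_num, by linarith⟩
  set z : E2 → ℝ := fun y => ⟪g (p + y), τ • Ng⟫ with hz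
  have hz2 : ContDiff ℝ 2 z := contDiff_trans_inner g hg2 p (τ • Ng)
  have hz1 : ∀ i x, pd i z x = τ * ⟪pd i g (p + x), Ng⟫ := fun i x => by
    rw [hz, pd_trans_inner g (hg2.of_le (by norm_num)) p (τ • Ng) i x, inner_smul_right]
  have hzz : ∀ i j x, pd i (pd j z) x = τ * ⟪pd i (pd j g) (p + x), Ng⟫ := fun i j x => by
    rw [hz, pd_pd_trans_inner g hg2 p (τ • Ng) i j x, inner_smul_right]
  have hz10 : pd 1 z 0 = 0 := by rw [hz1, add_zero, hNg' 1, mul_zero]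
  have hz01 : pd 0 (pd 1 z) 0 = τ * m01 := by rw [hzz, add_zero]
  have hz11 : pd 1 (pd 1 z) 0 = τ * m11 := by rw [hzz, add_zero]
  have him : 0 < ((starRingEnd ℂ) ((s : ℂ) + Complex.I * (τ * m01 : ℝ)) *
      (Complex.I * (τ * m11 : ℝ))).im := by
    simp
    have : 0 < s * (τ * m11) := by positivity
    nlinarith
  set β : E2 → ℝ := fun y => (Nf 2 * l11) * T 0 0 0 Z y + (Nf 2 * (-2 * l01)) * T 0 0 1 Z y +
    (Nf 2 * l00) * T 0 1 1 Z y with hβ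
  have hTc : ∀ i j, Continuous (T 0 i j Z) := fun i j => (T_supp 0 Z hZ hZs i j).1.continuous
  have hβc : Continuous β := by
    have := hTc 0 0; have := hTc 0 1; have := hTc 1 1
    rw [hβ]; fun_prop
  have hβs : ∀ y, β y ≠ 0 → 1 < ‖y‖ ∧ ‖y‖ < 3 / 2 := by
    intro y hy
    by_contra hn'
    apply hy
    have e : ∀ i j, T 0 i j Z y = 0 := by
      intro i j
      by_contra h0
      exact hn' ((T_supp 0 Z hZ hZs i j).2 y h0)
    simp [hβ, e]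
  have hβblk : ∀ m x, blk m β x = (Nf 2 * l11) * blk m (T 0 0 0 Z) x +
      (Nf 2 * (-2 * l01)) * blk m (T 0 0 1 Z) x + (Nf 2 * l00) * blk m (T 0 1 1 Z) x := fun m x =>
    blk_linear _ _ _ _ _ _ m x
  -- bounds for the blocks
  obtain ⟨M00, hM00, hM00'⟩ := exists_bound_T 0 Z hZ hZs 0 0
  obtain ⟨M01, hM01, hM01'⟩ := exists_bound_T 0 Z hZ hZs 0 1
  obtain ⟨M11, hM11, hM11'⟩ := exists_bound_T 0 Z hZ hZs 1 1
  set M : ℝ := |ε| * (M00 + M01 + M11) + |C2| + 1 with hM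
  have hMpos : 0 < M := by positivity
  -- the constant
  have hL := NDL z hz2 hz10 (τ * m01) (τ * m11) s hz01 hz11 hτm hspos β hβc hβs ε
    (|C| + (|Nf 2 * l11| + 2 * |Nf 2 * l01| + |Nf 2 * l00|) * |C2| + (Nf 2) ^ 2 * (4 * M ^ 2))
    (min r' 1) (by positivity) hε (by
      intro m x hx hAnn
      have hx1 : ‖x‖ < 1 := hx.trans_le (min_le_right _ _)
      have hxb : p + x ∈ ball p r' := by
        rw [mem_ball, dist_eq_norm]; simpa using hx.trans_le (min_le_left _ _)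
      have h1 := hstar (p + x) hxb
      have h2 := fun i j => hfe m (p + x) (by simpa using hAnn) i j
      simp only [add_sub_cancel_left] at h1 h2
      rw [hlx, hlx, hlx] at h1
      rw [hzz, hzz, hzz, hβblk]
      have B00 := blk_bound (T 0 0 0 Z) M00 hM00' (T_supp 0 Z hZ hZs 0 0).2 m x
      have B01 := blk_bound (T 0 0 1 Z) M01 hM01' (T_supp 0 Z hZ hZs 0 1).2 m x
      have B11 := blk_bound (T 0 1 1 Z) M11 hM11' (T_supp 0 Z hZ hZs 1 1).2 m x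
      have hqq : ((2:ℝ) ^ (2 * m))⁻¹ = (((2:ℝ) ^ m)⁻¹) ^ 2 := by
        rw [inv_pow, ← pow_mul, mul_comm m 2]
      rw [hqq]
      exact quad_est (Nf 2) l00 l01 l11 m00 m01 m11 s ε C C2 τ hτ M00 M01 M11 M hM00 hM01 hM11 hM
        _ _ _ _ _ _ _ _ _ _ _ _ ‖x‖ (((2:ℝ) ^ m)⁻¹) (norm_nonneg x) hx1 (by positivity)
        hs2 hdet e00' e01' e11' h1 (h2 0 0) (h2 0 1) (h2 1 1) B00 B01 B11)
  have hP := hprof _ _ him (Nf 2 * l11) (Nf 2 * (-l01)) (Nf 2 * l00) (by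
    rw [← hL]
    congr 1
    ext y
    congr 2
    simp only [hβ]
    ring)
  have hP' : (l11 : ℂ) * (s + Complex.I * (τ * m01 : ℝ)) ^ 2 + 2 * (-l01 : ℝ) *
      (s + Complex.I * (τ * m01 : ℝ)) *
      (Complex.I * (τ * m11 : ℝ)) + l00 * (Complex.I * (τ * m11 : ℝ)) ^ 2 = 0 := by
    have hN2c : (Nf 2 : ℂ) ≠ 0 := by exact_mod_cast hN2
    apply mul_left_cancel₀ hN2c
    rw [mul_zero]
    rw [← hP]
    push_cast
    ring
  have hdetτ : τ * m00 * (τ * m11) - (τ * m01) ^ 2 = m00 * m11 - m01 ^ 2 := by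
    linear_combination (m00 * m11 - m01 ^ 2) * hτ
  obtain ⟨σ, hσ, e1, e2, e3⟩ := conclude l00 l01 l11 (τ * m00) (τ * m01) (τ * m11) s
    (by rw [hdetτ]; exact hs2) (by positivity) (by rw [hdetτ]; exact hdet) hP'
  refine ⟨σ * τ, by rw [mul_pow, hσ, hτ, one_mul], ?_⟩
  intro i j
  fin_cases i <;> fin_cases j
  · rw [mul_assoc]; exact e1
  · rw [mul_assoc]; exact e2
  · have a1 : pd 1 (pd 0 (graph u)) p = pd 0 (pd 1 (graph u)) p := pd_comm 1 0 _ hf2 p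
    have a2 : pd 1 (pd 0 g) p = pd 0 (pd 1 g) p := pd_comm 1 0 _ hg2 p
    show ⟪pd 1 (pd 0 (graph u)) p, Nf⟫ = σ * τ * ⟪pd 1 (pd 0 g) p, Ng⟫
    rw [a1, a2, mul_assoc]
    exact e2
  · rw [mul_assoc]; exact e3

end H575Germ
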